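import Pool.Agent.Run7.h697.Norm

/-!
# Duality of lattices of matrices under the trace form
-/

set_option autoImplicit false
set_option linter.unusedVariables false

open Matrix

namespace Run7.h697

variable {p : ℕ} [hp : Fact p.Prime] {n : ℕ}

lemma norm_coe_int (c : ℤ_[p]) : ‖(c : ℚ_[p])‖ ≤ 1 := c.2

/-- the lattice `Bd k` -/
def Lat (p n : ℕ) [Fact p.Prime] (k : ℤ) : Submodule ℤ_[p] (Mt p n) where
  carrier := {m | Bd k m}
  add_mem' ha hb := Bd.add ha hb
  zero_mem' := bd_zero k
  smul_mem' c m hm := by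
    have : c • m = (c : ℚ_[p]) • m := by
      ext i j; simp [Matrix.smul_apply, Algebra.smul_def]
    rw [Set.mem_ofPred_eq, this]
    exact Bd.smul_int (norm_coe_int c) hm

lemma mem_Lat {k : ℤ} {m : Mt p n} : m ∈ Lat p n k ↔ Bd k m := Iff.rfl

/-- the parametrisation of the lattice -/
noncomputable def latMap (p n : ℕ) [Fact p.Prime] (k : ℤ) :
    (Fin n ⊕ Fin n → Fin n ⊕ Fin n → ℤ_[p]) →ₗ[ℤ_[p]] Mt p n where
  toFun x := Matrix.of fun i j => ((p : ℚ_[p]) ^ (-((k + dd i - dd j) / 2))) * (x i j : ℚ_[p])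
  map_add' x y := by ext i j; simp [mul_add]
  map_smul' c x := by
    ext i j
    simp [Matrix.smul_apply, Algebra.smul_def]
    ring

lemma range_latMap (k : ℤ) : LinearMap.range (latMap p n k) = Lat p n k := by
  apply le_antisymm
  · rintro _ ⟨x, rfl⟩ i j
    simp only [latMap, LinearMap.coe_mk, AddHom.coe_mk, Matrix.of_apply]
    rw [norm_mul, norm_p_zpow]
    calc sq p ^ (-(2 * -((k + dd i - dd j) / 2))) * ‖(x i j : ℚ_[p])‖
        ≤ sq p ^ (-(2 * -((k + dd i - dd j) / 2))) * 1 :=
          mul_le_mul_of_nonneg_left (norm_coe_int _) (sq_zpow_pos p _).le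
      _ ≤ _ := by rw [mul_one]; exact sq_zpow_le (by omega)
  · intro m hm
    have h : ∀ i j, ‖((p : ℚ_[p]) ^ ((k + dd i - dd j) / 2)) * m i j‖ ≤ 1 := by
      intro i j
      have h1 : ‖m i j‖ ≤ sq p ^ (2 * ((k + dd i - dd j) / 2)) := by
        rcases Int.even_or_odd' (k + dd i - dd j) with ⟨b, hb | hb⟩
        · have h2 := hm i j
          rw [hb] at h2 ⊢
          rw [show 2 * b / 2 = b by omega]
          exact h2
        · have h2 := hm i j
          rw [hb] at h2 ⊢
          rw [show (2 * b + 1) / 2 = b by omega]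
          exact norm_le_even h2
      rw [norm_mul, norm_p_zpow]
      calc sq p ^ (-(2 * ((k + dd i - dd j) / 2))) * ‖m i j‖
          ≤ sq p ^ (-(2 * ((k + dd i - dd j) / 2))) * sq p ^ (2 * ((k + dd i - dd j) / 2)) :=
            mul_le_mul_of_nonneg_left h1 (sq_zpow_pos p _).le
        _ = 1 := by rw [← zpow_add₀ (sq_ne p)]; simp
    refine ⟨fun i j => ⟨_, h i j⟩, ?_⟩
    ext i j
    simp only [latMap, LinearMap.coe_mk, AddHom.coe_mk, Matrix.of_apply]
    rw [← mul_assoc, ← zpow_add₀ p_ne]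
    simp

lemma fg_Lat (k : ℤ) : (Lat p n k).FG := by
  rw [← range_latMap]
  exact Module.Finite.iff_fg.1 inferInstance

lemma exists_p_smul (k : ℤ) (m : Mt p n) : ∃ N : ℤ, Bd k (((p : ℚ_[p]) ^ N) • m) := by
  by_cases hm : m = 0
  · exact ⟨0, by rw [hm, smul_zero]; exact bd_zero k⟩
  · obtain ⟨l, hl, -⟩ := exists_level hm
    refine ⟨|l - k|, (hl.smul_p _).mono ?_⟩
    have := le_abs_self (l - k)
    have := abs_nonneg (l - k)
    omega

/-- conjugate lattice -/
def LatC (p : ℕ) {n : ℕ} [Fact p.Prime] (g g' : Mt p n) (k : ℤ) : Submodule ℤ_[p] (Mt p n) where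
  carrier := {m | Bd k (g' * m * g)}
  add_mem' ha hb := by
    rw [Set.mem_ofPred_eq, Matrix.mul_add, Matrix.add_mul]; exact Bd.add ha hb
  zero_mem' := by simpa using bd_zero k
  smul_mem' c m hm := by
    have : c • m = (c : ℚ_[p]) • m := by
      ext i j; simp [Matrix.smul_apply, Algebra.smul_def]
    rw [Set.mem_ofPred_eq, this, Matrix.mul_smul, Matrix.smul_mul]
    exact Bd.smul_int (norm_coe_int c) hm

lemma fg_LatC {g g' : Mt p n} (h1 : g * g' = 1) (h2 : g' * g = 1) (k : ℤ) :
    (LatC p g g' k).FG := by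
  have : LatC p g g' k = (Lat p n k).map
      ((LinearMap.mulLeft ℤ_[p] g).comp (LinearMap.mulRight ℤ_[p] g')) := by
    ext m
    constructor
    · intro hm
      refine ⟨g' * m * g, hm, ?_⟩
      simp only [LinearMap.comp_apply, LinearMap.mulLeft_apply, LinearMap.mulRight_apply]
      calc g * (g' * m * g * g') = (g * g') * m * (g * g') := by simp only [Matrix.mul_assoc]
        _ = m := by rw [h1]; simp
    · rintro ⟨x, hx, rfl⟩
      change Bd k _
      simp only [LinearMap.comp_apply, LinearMap.mulLeft_apply, LinearMap.mulRight_apply]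
      have : g' * (g * (x * g')) * g = x := by
        calc g' * (g * (x * g')) * g = (g' * g) * x * (g' * g) := by simp only [Matrix.mul_assoc]
          _ = x := by rw [h2]; simp
      rw [this]; exact hx
  rw [this]
  exact (fg_Lat k).map _

lemma isLattice_Lat (k : ℤ) : Submodule.IsLattice ℚ_[p] (Lat p n k) where
  fg := fg_Lat k
  span_eq_top := by
    rw [eq_top_iff]
    intro m _
    obtain ⟨N, hN⟩ := exists_p_smul k m
    have : m = ((p : ℚ_[p]) ^ (-N)) • (((p : ℚ_[p]) ^ N) • m) := by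
      rw [smul_smul, ← zpow_add₀ p_ne]; simp
    rw [this]
    exact Submodule.smul_mem _ _ (Submodule.subset_span hN)

lemma isLattice_LatC {g g' : Mt p n} (h1 : g * g' = 1) (h2 : g' * g = 1) (k : ℤ) :
    Submodule.IsLattice ℚ_[p] (LatC p g g' k) where
  fg := fg_LatC h1 h2 k
  span_eq_top := by
    rw [eq_top_iff]
    intro m _
    obtain ⟨N, hN⟩ := exists_p_smul k (g' * m * g)
    have : m = ((p : ℚ_[p]) ^ (-N)) • (((p : ℚ_[p]) ^ N) • m) := by
      rw [smul_smul, ← zpow_add₀ p_ne]; simp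
    rw [this]
    refine Submodule.smul_mem _ _ (Submodule.subset_span ?_)
    change Bd k _
    rw [Matrix.mul_smul, Matrix.smul_mul]
    exact hN

/-- testing against a lattice -/
lemma bd_of_trace {k : ℤ} {m : Mt p n} (h : ∀ x : Mt p n, Bd k x → ‖(m * x).trace‖ < 1) :
    Bd (-1 - k) m := by
  intro i j
  set a := k + dd j - dd i with ha
  set b := a / 2 with hb
  have hx : Bd k (Matrix.single j i (((p : ℚ_[p]) ^ (-b))) : Mt p n) := by
    intro u v
    by_cases huv : j = u ∧ i = v
    · obtain ⟨rfl, rfl⟩ := huv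
      rw [Matrix.single_apply_same, norm_p_zpow]
      exact sq_zpow_le (by omega)
    · rw [Matrix.single_apply_of_ne _ _ _ _ _ huv, norm_zero]
      exact (sq_zpow_pos p _).le
  have h1 := h _ hx
  have h2 : (m * (Matrix.single j i (((p : ℚ_[p]) ^ (-b))) : Mt p n)).trace =
      m i j * ((p : ℚ_[p]) ^ (-b)) := by
    rw [Matrix.trace_mul_comm]
    simp [Matrix.trace, Matrix.mul_apply, Matrix.single_apply, Matrix.diag, mul_comm,
      Finset.sum_ite, ite_and]
  rw [h2, norm_mul, norm_p_zpow] at h1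
  have h3 : ‖m i j‖ < sq p ^ (2 * (-b)) := by
    have h4 : 0 < sq p ^ (-(2 * -b)) := sq_zpow_pos p _
    have h5 : sq p ^ (2 * (-b)) * sq p ^ (-(2 * -b)) = 1 := by
      rw [← zpow_add₀ (sq_ne p)]; simp
    nlinarith [h1, h4, h5]
  have h6 : ‖m i j‖ ≤ (p : ℝ) ^ (-b - 1) := by
    rw [Padic.norm_le_pow_iff_norm_lt_pow_add_one, ← sq_zpow_two]
    convert h3 using 2
    ring
  refine h6.trans ?_
  rw [← sq_zpow_two]
  exact sq_zpow_le (by omega)

/-- the trace form, divided by `p` -/
noncomputable def trForm (p n : ℕ) [Fact p.Prime] : LinearMap.BilinForm ℚ_[p] (Mt p n) :=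
  LinearMap.mk₂ ℚ_[p] (fun x y => (p : ℚ_[p])⁻¹ * (x * y).trace)
    (fun x y z => by rw [Matrix.add_mul, Matrix.trace_add, mul_add])
    (fun c x y => by rw [Matrix.smul_mul, Matrix.trace_smul, smul_eq_mul, smul_eq_mul]; ring)
    (fun x y z => by rw [Matrix.mul_add, Matrix.trace_add, mul_add])
    (fun c x y => by rw [Matrix.mul_smul, Matrix.trace_smul, smul_eq_mul, smul_eq_mul]; ring)

lemma trForm_apply (x y : Mt p n) : trForm p n x y = (p : ℚ_[p])⁻¹ * (x * y).trace := rfl

lemma trForm_symm : (trForm p n).IsSymm := by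
  constructor
  intro x y
  simp [trForm_apply, Matrix.trace_mul_comm x y]

lemma trForm_nondeg : (trForm p n).Nondegenerate := by
  have key : ∀ x : Mt p n, (∀ y, trForm p n x y = 0) → x = 0 := by
    intro x hx
    ext i j
    have := hx (Matrix.single j i 1)
    rw [trForm_apply] at this
    have hpp : (p : ℚ_[p])⁻¹ ≠ 0 := inv_ne_zero p_ne
    have h2 := (mul_eq_zero.1 this).resolve_left hpp
    rw [Matrix.trace_mul_comm] at h2
    simpa [Matrix.trace, Matrix.mul_apply, Matrix.single_apply, Matrix.diag,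
      Finset.sum_ite, ite_and] using h2
  constructor
  · exact key
  · intro y hy
    apply key
    intro x
    rw [← hy x]
    simp [trForm_apply, Matrix.trace_mul_comm x y]

lemma mem_one_iff (x : ℚ_[p]) : x ∈ (1 : Submodule ℤ_[p] ℚ_[p]) ↔ ‖x‖ ≤ 1 := by
  rw [Submodule.mem_one]
  constructor
  · rintro ⟨y, rfl⟩
    exact y.2
  · intro h
    exact ⟨⟨x, h⟩, rfl⟩

lemma norm_inv_p_mul (x : ℚ_[p]) : ‖(p : ℚ_[p])⁻¹ * x‖ ≤ 1 ↔ ‖x‖ < 1 := by
  have h1 : (0 : ℝ) < p := by exact_mod_cast hp.out.pos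
  have h2 : ‖x‖ < 1 ↔ ‖x‖ ≤ (p : ℝ) ^ (-1 : ℤ) := by
    rw [Padic.norm_le_pow_iff_norm_lt_pow_add_one]; simp
  rw [h2, norm_mul, norm_inv, Padic.norm_p, inv_inv, _root_.zpow_neg_one, ← one_div, le_div_iff₀ h1,
    mul_comm]

/-- **Duality** -/
lemma dual_lemma {g g' : Mt p n} (h1 : g * g' = 1) (h2 : g' * g = 1) (l : ℤ) {Δ : Mt p n}
    (H : ∀ m : Mt p n, Bd (-1) m → Bd (-1 - l) (g' * m * g) → ‖(Δ * m).trace‖ < 1) :
    ∃ r y : Mt p n, Bd 0 r ∧ Bd l y ∧ Δ = r + g * y * g' := by
  classical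
  have := isLattice_Lat (p := p) (n := n) 0
  have := isLattice_LatC h1 h2 l
  set N : Submodule ℤ_[p] (Mt p n) := Lat p n 0 ⊔ LatC p g g' l with hN
  have : Submodule.IsLattice ℚ_[p] N := inferInstance
  have : Module.Free ℤ_[p] N := inferInstance
  let b := Module.Free.chooseBasis ℤ_[p] N
  let b' := b.extendOfIsLattice ℚ_[p]
  have hspan : Submodule.span ℤ_[p] (Set.range b') = N := by
    have e1 : Set.range b' = Set.range (fun i => (b i : Mt p n)) := by
      congr 1
      ext1 i
      exact Module.Basis.extendOfIsLattice_apply ℚ_[p] b i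
    rw [e1]
    have e2 := b.span_eq
    have e3 := congrArg (Submodule.map N.subtype) e2
    rw [Submodule.map_span, Submodule.map_top, Submodule.range_subtype, ← Set.range_comp] at e3
    exact e3
  have : Finite (Module.Free.ChooseBasisIndex ℤ_[p] N) := inferInstance
  have hdd := LinearMap.BilinForm.dualSubmodule_dualSubmodule_of_basis (R := ℤ_[p])
    (trForm p n) trForm_nondeg trForm_symm b'
  rw [hspan] at hdd
  have hΔ : Δ ∈ N := by
    rw [← hdd]
    intro m hm
    rw [mem_one_iff, trForm_apply, norm_inv_p_mul]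
    apply H
    · have := bd_of_trace (k := 0) (m := m) (by
        intro x hx
        have := hm x (Submodule.mem_sup_left hx)
        rwa [mem_one_iff, trForm_apply, norm_inv_p_mul] at this)
      simpa using this
    · apply bd_of_trace
      intro x hx
      have := hm (g * x * g') (Submodule.mem_sup_right (by
        change Bd l _
        have : g' * (g * x * g') * g = x := by
          calc g' * (g * x * g') * g = (g' * g) * x * (g' * g) := by simp only [Matrix.mul_assoc]
            _ = x := by rw [h2]; simp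
        rw [this]; exact hx))
      rw [mem_one_iff, trForm_apply, norm_inv_p_mul] at this
      have e : (g' * m * g * x).trace = (m * (g * x * g')).trace := by
        rw [Matrix.trace_mul_comm (g' * m * g) x]
        rw [← Matrix.mul_assoc x, Matrix.trace_mul_comm (x * (g' * m)) g]
        rw [Matrix.trace_mul_comm m]
        simp only [Matrix.mul_assoc]
      rwa [e]
  obtain ⟨r, hr, z, hz, hrz⟩ := Submodule.mem_sup.1 hΔ
  refine ⟨r, g' * z * g, hr, hz, ?_⟩
  rw [← hrz]
  congr 1
  calc z = (g * g') * z * (g * g') := by rw [h1]; simp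
    _ = g * (g' * z * g) * g' := by simp only [Matrix.mul_assoc]

end Run7.h697
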