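import Pool.Agent.Run7.h697.Inter
import Pool.Agent.Run7.h697.Dual

/-!
# The adjoint involution, the Cayley transform, and the consequences of equality of characters
-/

set_option autoImplicit false
set_option linter.unusedVariables false

open Matrix

namespace Run7.h697

variable {p : ℕ} [hp : Fact p.Prime] {n : ℕ}

/-- the adjoint with respect to the symplectic form -/
noncomputable def st (m : Mt p n) : Mt p n := -(J (Fin n) ℚ_[p] * mᵀ * J (Fin n) ℚ_[p])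

lemma JJ : J (Fin n) ℚ_[p] * J (Fin n) ℚ_[p] = -1 := J_squared _ _

lemma st_add (a b : Mt p n) : st (a + b) = st a + st b := by
  simp only [st, Matrix.transpose_add, Matrix.mul_add, Matrix.add_mul, neg_add]

lemma st_neg (a : Mt p n) : st (-a) = -st a := by
  simp only [st, Matrix.transpose_neg, Matrix.mul_neg, Matrix.neg_mul]

lemma st_sub (a b : Mt p n) : st (a - b) = st a - st b := by
  rw [sub_eq_add_neg, st_add, st_neg, sub_eq_add_neg]

lemma st_smul (c : ℚ_[p]) (a : Mt p n) : st (c • a) = c • st a := by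
  simp only [st, Matrix.transpose_smul, Matrix.mul_smul, Matrix.smul_mul, smul_neg]

lemma st_one : st (1 : Mt p n) = 1 := by
  simp only [st, Matrix.transpose_one, Matrix.mul_one, JJ, neg_neg]

lemma st_mul (a b : Mt p n) : st (a * b) = st b * st a := by
  simp only [st, Matrix.transpose_mul, Matrix.neg_mul, Matrix.mul_neg, neg_neg]
  calc -(J (Fin n) ℚ_[p] * (bᵀ * aᵀ) * J (Fin n) ℚ_[p])
      = J (Fin n) ℚ_[p] * bᵀ * (-1) * aᵀ * J (Fin n) ℚ_[p] := by
        simp only [Matrix.mul_neg, Matrix.neg_mul, Matrix.mul_one, Matrix.mul_assoc]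
    _ = J (Fin n) ℚ_[p] * bᵀ * (J (Fin n) ℚ_[p] * J (Fin n) ℚ_[p]) * aᵀ * J (Fin n) ℚ_[p] := by
        rw [JJ]
    _ = _ := by simp only [Matrix.mul_assoc]

lemma st_st (a : Mt p n) : st (st a) = a := by
  simp only [st, Matrix.transpose_neg, Matrix.transpose_mul, J_transpose, Matrix.transpose_transpose,
    Matrix.mul_neg, Matrix.neg_mul, neg_neg]
  calc J (Fin n) ℚ_[p] * (J (Fin n) ℚ_[p] * (a * J (Fin n) ℚ_[p])) * J (Fin n) ℚ_[p]
      = (J (Fin n) ℚ_[p] * J (Fin n) ℚ_[p]) * a * (J (Fin n) ℚ_[p] * J (Fin n) ℚ_[p]) := by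
        simp only [Matrix.mul_assoc]
    _ = a := by rw [JJ]; simp

lemma trace_st (a : Mt p n) : (st a).trace = a.trace := by
  rw [st, Matrix.trace_neg, Matrix.trace_mul_comm, ← Matrix.mul_assoc, JJ]
  simp

lemma st_fromBlocks (a b c d : Matrix (Fin n) (Fin n) ℚ_[p]) :
    st (Matrix.fromBlocks a b c d) = Matrix.fromBlocks dᵀ (-bᵀ) (-cᵀ) aᵀ := by
  rw [st, J, Matrix.fromBlocks_transpose, Matrix.fromBlocks_multiply, Matrix.fromBlocks_multiply]
  simp [Matrix.fromBlocks_neg]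

lemma Bd.st {k : ℤ} {m : Mt p n} (h : Bd k m) : Bd k (st m) := by
  have e : Run7.h697.st m = Matrix.fromBlocks (m.toBlocks₂₂)ᵀ (-(m.toBlocks₁₂)ᵀ)
      (-(m.toBlocks₂₁)ᵀ) (m.toBlocks₁₁)ᵀ := by
    conv_lhs => rw [← Matrix.fromBlocks_toBlocks m]
    rw [st_fromBlocks]
  rw [e]
  intro i j
  rcases i with i | i <;> rcases j with j | j
  · have := h (Sum.inr j) (Sum.inr i)
    simpa [tb22] using this
  · have := h (Sum.inl j) (Sum.inr i)
    simpa [tb12] using this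
  · have := h (Sum.inr j) (Sum.inl i)
    simpa [tb21] using this
  · have := h (Sum.inl j) (Sum.inl i)
    simpa [tb11] using this

/-- elements of the symplectic group -/
lemma mem_sp_iff_st {g : Mt p n} : g ∈ symplecticGroup (Fin n) ℚ_[p] ↔ g * st g = 1 := by
  rw [SymplecticGroup.mem_iff, st]
  constructor
  · intro h
    have : g * -(J (Fin n) ℚ_[p] * gᵀ * J (Fin n) ℚ_[p]) =
        -((g * J (Fin n) ℚ_[p] * gᵀ) * J (Fin n) ℚ_[p]) := by
      simp only [Matrix.mul_neg, Matrix.mul_assoc]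
    rw [this, h, JJ, neg_neg]
  · intro h
    have h2 : (g * J (Fin n) ℚ_[p] * gᵀ) * J (Fin n) ℚ_[p] = -1 := by
      rw [← h]
      simp only [Matrix.mul_neg, Matrix.mul_assoc, neg_neg]
    calc g * J (Fin n) ℚ_[p] * gᵀ
        = -((g * J (Fin n) ℚ_[p] * gᵀ) * J (Fin n) ℚ_[p] * J (Fin n) ℚ_[p]) := by
          rw [Matrix.mul_assoc _ (J (Fin n) ℚ_[p]) (J (Fin n) ℚ_[p]), JJ]; simp
      _ = J (Fin n) ℚ_[p] := by rw [h2]; simp

lemma coe_inv_eq_st (g : symplecticGroup (Fin n) ℚ_[p]) : ((g⁻¹ : symplecticGroup (Fin n) ℚ_[p]) : Mt p n) =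
    st (g : Mt p n) := by
  rw [SymplecticGroup.coe_inv, st]
  simp only [Matrix.neg_mul]

lemma mul_st (g : symplecticGroup (Fin n) ℚ_[p]) : (g : Mt p n) * st (g : Mt p n) = 1 :=
  mem_sp_iff_st.1 g.2

lemma st_mul_self (g : symplecticGroup (Fin n) ℚ_[p]) : st (g : Mt p n) * (g : Mt p n) = 1 := by
  have := mul_st g⁻¹
  rw [coe_inv_eq_st, st_st] at this
  exact this

/-- half norm -/
lemma norm_two_inv (hp2 : p ≠ 2) : ‖((2 : ℚ_[p])⁻¹)‖ ≤ 1 := by
  have h : ‖((2 : ℕ) : ℚ_[p])‖ = 1 := by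
    rw [Padic.norm_natCast_eq_one_iff]
    exact (Nat.coprime_primes hp.out Nat.prime_two).2 hp2
  rw [norm_inv]
  have h2 : ‖(2 : ℚ_[p])‖ = 1 := by exact_mod_cast h
  rw [h2, inv_one]

lemma norm_two_le : ‖(2 : ℚ_[p])‖ ≤ 1 := by
  have := Padic.norm_int_le_one (p := p) 2
  exact_mod_cast this

/-- **Cayley transform** -/
lemma exists_cayley (hp2 : p ≠ 2) {Z : Mt p n} (hZ : st Z = -Z) (hb : Bd (-1) Z) :
    ∃ (c : symplecticGroup (Fin n) ℚ_[p]) (W : Mt p n), Bd 0 W ∧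
      W * (1 - (2 : ℚ_[p])⁻¹ • Z) = 1 ∧ (1 - (2 : ℚ_[p])⁻¹ • Z) * W = 1 ∧
      (c : Mt p n) = (2 : ℚ_[p]) • W - 1 := by
  set Y : Mt p n := (2 : ℚ_[p])⁻¹ • Z with hY
  have hYb : Bd (-1) Y := hb.smul_int (norm_two_inv hp2)
  have hYs : st Y = -Y := by rw [hY, st_smul, hZ, smul_neg]
  obtain ⟨-, W, hW, h1, h2⟩ := one_add_inv (y := -Y) hYb.neg
  rw [← sub_eq_add_neg] at h1 h2
  have e1 : (2 : ℚ_[p]) • W - 1 = (1 + Y) * W := by
    have : W - Y * W = 1 := by rw [← h1, Matrix.sub_mul, Matrix.one_mul]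
    rw [Matrix.add_mul, Matrix.one_mul, two_smul, ← this]
    abel
  have hcomm : (1 + Y) * W = W * (1 + Y) := by
    have h3 : (1 - Y) * (1 + Y) = (1 + Y) * (1 - Y) := by
      simp only [Matrix.sub_mul, Matrix.mul_sub, Matrix.add_mul, Matrix.mul_add, Matrix.one_mul,
        Matrix.mul_one]; abel
    calc (1 + Y) * W = W * (1 - Y) * (1 + Y) * W := by rw [h2, Matrix.one_mul]
      _ = W * ((1 - Y) * (1 + Y)) * W := by simp only [Matrix.mul_assoc]
      _ = W * ((1 + Y) * (1 - Y)) * W := by rw [h3]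
      _ = W * (1 + Y) * ((1 - Y) * W) := by simp only [Matrix.mul_assoc]
      _ = W * (1 + Y) := by rw [h1, Matrix.mul_one]
  have hstc : st ((1 + Y) * W) = st W * (1 - Y) := by
    rw [st_mul, st_add, st_one, hYs, ← sub_eq_add_neg]
  have h4 : (1 + Y) * st W = 1 := by
    have := congrArg st h2
    rw [st_mul, st_sub, st_one, hYs, sub_neg_eq_add] at this
    exact this
  have hmem : (2 : ℚ_[p]) • W - 1 ∈ symplecticGroup (Fin n) ℚ_[p] := by
    rw [mem_sp_iff_st, e1, hstc, hcomm]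
    calc W * (1 + Y) * (st W * (1 - Y)) = W * ((1 + Y) * st W) * (1 - Y) := by
          simp only [Matrix.mul_assoc]
      _ = 1 := by rw [h4, Matrix.mul_one, h2]
  exact ⟨⟨_, hmem⟩, W, hW, h2, h1, rfl⟩

/-- description of the Cayley transform -/
lemma cayley_sub {Z W : Mt p n} (h : (1 - (2 : ℚ_[p])⁻¹ • Z) * W = 1) :
    (2 : ℚ_[p]) • W - 1 - 1 = Z * W ∧
    (2 : ℚ_[p]) • W - 1 - 1 = Z + (2 : ℚ_[p])⁻¹ • (Z * Z * W) := by
  have h2 : (2 : ℚ_[p]) ≠ 0 := two_ne_zero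
  have e0 : W = 1 + (2 : ℚ_[p])⁻¹ • (Z * W) := by
    rw [← h, Matrix.sub_mul, Matrix.one_mul, Matrix.smul_mul]; abel
  have e1 : (2 : ℚ_[p]) • W - 1 - 1 = Z * W := by
    have : (2 : ℚ_[p]) • W = (2 : ℚ_[p]) • (1 : Mt p n) + Z * W := by
      conv_lhs => rw [e0]
      rw [smul_add, smul_smul, mul_inv_cancel₀ h2, one_smul]
    rw [this, two_smul]; abel
  refine ⟨e1, ?_⟩
  rw [e1]
  conv_lhs => rw [e0]
  rw [Matrix.mul_add, Matrix.mul_one, Matrix.mul_smul, Matrix.mul_assoc]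

lemma trace_skew {Δ m : Mt p n} (hΔ : st Δ = -Δ) : (Δ * ((2 : ℚ_[p])⁻¹ • (m - st m))).trace =
    (Δ * m).trace := by
  have h : (Δ * st m).trace = -(Δ * m).trace := by
    rw [← trace_st, st_mul, st_st, hΔ, Matrix.mul_neg, Matrix.trace_neg, Matrix.trace_mul_comm]
  rw [Matrix.mul_smul, Matrix.trace_smul, Matrix.mul_sub, Matrix.trace_sub, h, sub_neg_eq_add,
    smul_eq_mul]
  have h2 : (2 : ℚ_[p]) ≠ 0 := two_ne_zero
  field_simp
  ring

lemma st_skew (m : Mt p n) : st ((2 : ℚ_[p])⁻¹ • (m - st m)) = -((2 : ℚ_[p])⁻¹ • (m - st m)) := by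
  rw [st_smul, st_sub, st_st, ← smul_neg, neg_sub]

/-- the conductor condition for an additive character -/
structure Cond (ψ : AddChar ℚ_[p] Circle) : Prop where
  triv : ∀ x, ‖x‖ < 1 → ψ x = 1
  nontriv : ∃ x, ‖x‖ ≤ 1 ∧ ψ x ≠ 1

lemma Cond.norm_lt {ψ : AddChar ℚ_[p] Circle} (h : Cond ψ) {t : ℚ_[p]}
    (ht : ∀ c : ℚ_[p], ‖c‖ ≤ 1 → ψ (c * t) = 1) : ‖t‖ < 1 := by
  by_contra hlt
  rw [not_lt] at hlt
  obtain ⟨x, hx, hx1⟩ := h.nontriv
  have ht0 : t ≠ 0 := by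
    rintro rfl
    rw [norm_zero] at hlt
    linarith
  apply hx1
  have := ht (x / t) (by
    rw [norm_div]
    exact div_le_one_of_le₀ (hx.trans hlt) (norm_nonneg _))
  rwa [div_mul_cancel₀ _ ht0] at this

namespace Datum

variable (D : Datum p n) (ψ : AddChar ℚ_[p] Circle)

lemma st_G : st D.G = -D.G := by
  rw [G, st_fromBlocks, Matrix.fromBlocks_neg]
  simp only [Matrix.transpose_zero, neg_zero, D.symB, Matrix.transpose_smul, D.symA]

/-- the character of the pro-unipotent group -/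
noncomputable def chi (g : symplecticGroup (Fin n) ℚ_[p]) : Circle :=
  ψ ((D.G * ((g : Mt p n) - 1)).trace)

variable {ψ}

lemma psi_add_triv (hψ : Cond ψ) (x y : ℚ_[p]) (hy : ‖y‖ < 1) : ψ (x + y) = ψ x := by
  rw [AddChar.map_add_eq_mul, hψ.triv y hy, mul_one]

lemma chi_of_sub (hψ : Cond ψ) {g : symplecticGroup (Fin n) ℚ_[p]} {Z E : Mt p n}
    (h : (g : Mt p n) - 1 = Z + E) (hE : Bd (-2) E) : D.chi ψ g = ψ ((D.G * Z).trace) := by
  rw [chi, h, Matrix.mul_add, Matrix.trace_add]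
  exact psi_add_triv hψ _ _ ((D.bd_G.mul hE).trace_lt (by norm_num))

/-- the consequence of `χ(k) = χ(g⁻¹ k g)` -/
lemma skew_eq (hp2 : p ≠ 2) (hψ : Cond ψ) {g : symplecticGroup (Fin n) ℚ_[p]}
    (h : ∀ k : symplecticGroup (Fin n) ℚ_[p], Bd (-1) ((k : Mt p n) - 1) →
      Bd (-1) (((g⁻¹ * k * g : symplecticGroup (Fin n) ℚ_[p]) : Mt p n) - 1) →
      D.chi ψ k = D.chi ψ (g⁻¹ * k * g)) :
    ∃ r r' : Mt p n, Bd 0 r ∧ Bd 0 r' ∧ (D.G + r) * (g : Mt p n) = (g : Mt p n) * (D.G + r') := by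
  set gm : Mt p n := (g : Mt p n) with hgm
  have g1 : gm * st gm = 1 := mul_st g
  have g2 : st gm * gm = 1 := st_mul_self g
  set Δ : Mt p n := D.G - gm * D.G * st gm with hΔ
  have hΔs : st Δ = -Δ := by
    rw [hΔ, st_sub, st_mul, st_mul, st_st, D.st_G]
    simp only [Matrix.mul_neg, Matrix.neg_mul, Matrix.mul_assoc]
    abel
  have key : ∀ Z : Mt p n, st Z = -Z → Bd (-1) Z → Bd (-1) (st gm * Z * gm) →
      ψ ((Δ * Z).trace) = 1 := by
    intro Z hZ hb hb'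
    obtain ⟨c, W, hW, w1, w2, hc⟩ := exists_cayley hp2 hZ hb
    obtain ⟨c1, c2⟩ := cayley_sub w2
    have hcm : ((g⁻¹ * c * g : symplecticGroup (Fin n) ℚ_[p]) : Mt p n) = st gm * (c : Mt p n) * gm := by
      change ((g⁻¹ : symplecticGroup (Fin n) ℚ_[p]) : Mt p n) * (c : Mt p n) * gm = _
      rw [coe_inv_eq_st]
    set Z' : Mt p n := st gm * Z * gm with hZ'
    have hZ's : st Z' = -Z' := by
      rw [hZ', st_mul, st_mul, st_st, hZ]
      simp only [Matrix.mul_neg, Matrix.neg_mul, Matrix.mul_assoc]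
    -- inverse of the conjugate
    set W' : Mt p n := st gm * W * gm with hW'
    have w1' : (1 - (2 : ℚ_[p])⁻¹ • Z') * W' = 1 := by
      have e : 1 - (2 : ℚ_[p])⁻¹ • Z' = st gm * (1 - (2 : ℚ_[p])⁻¹ • Z) * gm := by
        rw [Matrix.mul_sub, Matrix.sub_mul, Matrix.mul_one, g2, Matrix.mul_smul, Matrix.smul_mul]
      rw [e, hW']
      calc st gm * (1 - (2 : ℚ_[p])⁻¹ • Z) * gm * (st gm * W * gm)
          = st gm * (1 - (2 : ℚ_[p])⁻¹ • Z) * (gm * st gm) * W * gm := by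
            simp only [Matrix.mul_assoc]
        _ = st gm * ((1 - (2 : ℚ_[p])⁻¹ • Z) * W) * gm := by
            rw [g1]; simp only [Matrix.mul_one, Matrix.mul_assoc]
        _ = 1 := by rw [w2, Matrix.mul_one, g2]
    obtain ⟨c1', c2'⟩ := cayley_sub w1'
    have hW'b : Bd 0 W' := by
      obtain ⟨c'', W'', hW'', v1, v2, -⟩ := exists_cayley hp2 hZ's hb'
      have : W' = W'' := by
        calc W' = W'' * (1 - (2 : ℚ_[p])⁻¹ • Z') * W' := by rw [v1, Matrix.one_mul]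
          _ = W'' := by rw [Matrix.mul_assoc, w1', Matrix.mul_one]
      rw [this]; exact hW''
    have hk1 : Bd (-1) ((c : Mt p n) - 1) := by
      rw [hc, c1]; exact hb.mul' hW (by norm_num)
    have hconj : st gm * (c : Mt p n) * gm = (2 : ℚ_[p]) • W' - 1 := by
      rw [hc, Matrix.mul_sub, Matrix.sub_mul, Matrix.mul_one, g2, Matrix.mul_smul,
        Matrix.smul_mul]
    have hk2 : Bd (-1) (((g⁻¹ * c * g : symplecticGroup (Fin n) ℚ_[p]) : Mt p n) - 1) := by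
      rw [hcm, hconj, c1']; exact hb'.mul' hW'b (by norm_num)
    have h1 := h c hk1 hk2
    have h2 : D.chi ψ c = ψ ((D.G * Z).trace) := by
      apply D.chi_of_sub hψ (E := (2 : ℚ_[p])⁻¹ • (Z * Z * W))
      · rw [hc, c2]
      · exact ((hb.mul' hb (by norm_num : (-1 : ℤ) + -1 ≤ -2)).mul' hW (by norm_num)).smul_int
          (norm_two_inv hp2)
    have h3 : D.chi ψ (g⁻¹ * c * g) = ψ ((D.G * Z').trace) := by
      apply D.chi_of_sub hψ (E := (2 : ℚ_[p])⁻¹ • (Z' * Z' * W'))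
      · rw [hcm, hconj, c2']
      · exact ((hb'.mul' hb' (by norm_num : (-1 : ℤ) + -1 ≤ -2)).mul' hW'b (by norm_num)).smul_int
          (norm_two_inv hp2)
    rw [h2, h3] at h1
    have h4 : (Δ * Z).trace = (D.G * Z).trace - (D.G * Z').trace := by
      rw [hΔ, Matrix.sub_mul, Matrix.trace_sub]
      congr 1
      rw [hZ']
      rw [Matrix.trace_mul_comm D.G, Matrix.trace_mul_comm (gm * D.G * st gm)]
      calc (Z * (gm * D.G * st gm)).trace = ((Z * gm * D.G) * st gm).trace := by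
            simp only [Matrix.mul_assoc]
        _ = (st gm * (Z * gm * D.G)).trace := Matrix.trace_mul_comm _ _
        _ = _ := by simp only [Matrix.mul_assoc]
    rw [h4, AddChar.map_sub_eq_div, h1, div_self']
  have H : ∀ m : Mt p n, Bd (-1) m → Bd (-1 - 0) (st gm * m * gm) → ‖(Δ * m).trace‖ < 1 := by
    intro m hm hm'
    apply hψ.norm_lt
    intro c hc
    rw [← trace_skew hΔs]
    set Z : Mt p n := (2 : ℚ_[p])⁻¹ • (m - st m) with hZ
    have e : c * (Δ * Z).trace = (Δ * (c • Z)).trace := by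
      rw [Matrix.mul_smul Δ c Z, Matrix.trace_smul c, smul_eq_mul]
    rw [e]
    apply key
    · rw [st_smul, hZ, st_skew, smul_neg]
    · exact ((hm.sub hm.st).smul_int (norm_two_inv hp2)).smul_int hc
    · have e2 : st gm * (c • Z) * gm = c • ((2 : ℚ_[p])⁻¹ • (st gm * m * gm - st (st gm * m * gm))) := by
        rw [hZ, st_mul, st_mul, st_st]
        simp only [Matrix.mul_smul, Matrix.smul_mul, Matrix.mul_sub, Matrix.sub_mul,
          Matrix.mul_assoc]
      rw [e2]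
      rw [sub_zero] at hm'
      exact ((hm'.sub hm'.st).smul_int (norm_two_inv hp2)).smul_int hc
  obtain ⟨r, y, hr, hy, hry⟩ := dual_lemma g1 g2 0 H
  refine ⟨-r, y, hr.neg, hy, ?_⟩
  have h5 : D.G - r = gm * D.G * st gm + gm * y * st gm := by
    have : D.G = r + gm * y * st gm + gm * D.G * st gm := by
      rw [← hry, hΔ]; abel
    calc D.G - r = (r + gm * y * st gm + gm * D.G * st gm) - r := by rw [← this]
      _ = _ := by abel
  rw [← sub_eq_add_neg, h5, Matrix.mul_add]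
  calc (gm * D.G * st gm + gm * y * st gm) * gm = gm * D.G * (st gm * gm) + gm * y * (st gm * gm) := by
        rw [Matrix.add_mul]; simp only [Matrix.mul_assoc]
    _ = gm * D.G + gm * y := by rw [g2, Matrix.mul_one, Matrix.mul_one]

/-- intertwiners of the character -/
lemma inter_K (hp2 : p ≠ 2) (hψ : Cond ψ) {g : symplecticGroup (Fin n) ℚ_[p]}
    (h : ∀ k : symplecticGroup (Fin n) ℚ_[p], Bd (-1) ((k : Mt p n) - 1) →
      Bd (-1) (((g⁻¹ * k * g : symplecticGroup (Fin n) ℚ_[p]) : Mt p n) - 1) →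
      D.chi ψ k = D.chi ψ (g⁻¹ * k * g)) :
    Bd (-1) ((g : Mt p n) - 1) ∨ Bd (-1) (-(g : Mt p n) - 1) := by
  obtain ⟨r, r', hr, hr', hrr⟩ := D.skew_eq hp2 hψ h
  exact D.intertwine hr hr' g.2 hrr

end Datum

end Run7.h697
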