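import Pool.Agent.Run7.h697.Sl2

/-!
# The chain basis of an `sl₂`-triple of operators, and ranks of powers
-/

set_option autoImplicit false
set_option linter.unusedVariables false
set_option linter.unusedSectionVars false

namespace Run7.h697

variable {F V : Type*} [Field F] [CharZero F] [AddCommGroup V] [Module F V]

namespace Tr

variable {e h f : Module.End F V}

lemma he_ker (t : Tr e h f) {v : V} (hv : e v = 0) (q : Polynomial F) :
    e (Polynomial.aeval h q v) = 0 := by
  induction q using Polynomial.induction_on generalizing v with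
  | C c =>
    rw [Polynomial.aeval_C, Module.algebraMap_end_apply, map_smul, hv, smul_zero]
  | add q1 q2 h1 h2 => rw [map_add, LinearMap.add_apply, map_add, h1 hv, h2 hv, add_zero]
  | monomial k c ih =>
    rw [pow_succ, ← mul_assoc, map_mul (Polynomial.aeval h), Module.End.mul_apply]
    apply ih
    rw [Polynomial.aeval_X]
    have h1 := t.he v
    rw [hv, map_zero, smul_zero, add_zero] at h1
    exact h1.symm

lemma h_range (t : Tr e h f) {v : V} (hv : ∃ w, v = f w) (q : Polynomial F) :
    ∃ w, Polynomial.aeval h q v = f w := by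
  induction q using Polynomial.induction_on generalizing v with
  | C c =>
    obtain ⟨w, rfl⟩ := hv
    exact ⟨c • w, by rw [Polynomial.aeval_C, Module.algebraMap_end_apply, map_smul]⟩
  | add q1 q2 h1 h2 =>
    obtain ⟨w1, e1⟩ := h1 hv
    obtain ⟨w2, e2⟩ := h2 hv
    exact ⟨w1 + w2, by rw [map_add, LinearMap.add_apply, e1, e2, map_add]⟩
  | monomial k c ih =>
    rw [pow_succ, ← mul_assoc, map_mul (Polynomial.aeval h), Module.End.mul_apply]
    apply ih
    rw [Polynomial.aeval_X]
    obtain ⟨w, rfl⟩ := hv
    exact ⟨h w - (2 : F) • w, by rw [t.hf, map_sub, map_smul]⟩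

lemma aeval_sub (T : Module.End F V) (c : F) (v : V) :
    Polynomial.aeval T (Polynomial.X - Polynomial.C c) v = T v - c • v := by
  rw [map_sub, LinearMap.sub_apply, Polynomial.aeval_X, Polynomial.aeval_C,
    Module.algebraMap_end_apply]

variable [FiniteDimensional F V]

lemma disj_aux (t : Tr e h f) (s : Finset ℕ) : ∀ v : V, e v = 0 → (∃ w, v = f w) →
    Polynomial.aeval h (∏ j ∈ s, (Polynomial.X - Polynomial.C (j : F))) v = 0 → v = 0 := by
  classical
  induction s using Finset.induction_on with
  | empty => intro v _ _ h0; simpa using h0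
  | insert a s ha ih =>
    intro v hv hw h0
    rw [Finset.prod_insert ha, map_mul (Polynomial.aeval h), Module.End.mul_apply, aeval_sub] at h0
    set u := Polynomial.aeval h (∏ j ∈ s, (Polynomial.X - Polynomial.C (j : F))) v with hu
    apply ih v hv hw
    obtain ⟨w, hw'⟩ := t.h_range hw (∏ j ∈ s, (Polynomial.X - Polynomial.C (j : F)))
    exact t.eq_zero_of_mem (t.he_ker hv _) (sub_eq_zero.1 h0) hw'

/-- the kernel of `e` meets the range of `f` trivially -/
lemma disj (t : Tr e h f) {v : V} (hv : e v = 0) (hw : ∃ w, v = f w) : v = 0 := by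
  obtain ⟨K, hK⟩ := t.f_nilp
  apply t.disj_aux (Finset.range K) v hv hw
  have := t.ker_e_le hK (show v ∈ LinearMap.ker e from hv)
  rw [← ker_aeval_prod h (Finset.range K) (fun j => (j : F)) Nat.cast_injective] at this
  exact this

lemma finrank_ker_le (t : Tr e h f) :
    Module.finrank F (LinearMap.ker e) ≤ Module.finrank F (LinearMap.ker f) := by
  have hd : Disjoint (LinearMap.ker e) (LinearMap.range f) := by
    rw [Submodule.disjoint_def]
    rintro v hv ⟨w, rfl⟩
    exact t.disj hv ⟨w, rfl⟩
  have h1 := Submodule.finrank_add_finrank_le_of_disjoint hd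
  have h2 := LinearMap.finrank_range_add_finrank_ker f
  omega

lemma sup_eq_top (t : Tr e h f) : LinearMap.ker e ⊔ LinearMap.range f = ⊤ := by
  have hd : Disjoint (LinearMap.ker e) (LinearMap.range f) := by
    rw [Submodule.disjoint_def]
    rintro v hv ⟨w, rfl⟩
    exact t.disj hv ⟨w, rfl⟩
  apply Submodule.eq_top_of_disjoint _ _ _ hd
  have h1 := t.symm.finrank_ker_le
  have h2 := LinearMap.finrank_range_add_finrank_ker f
  omega

/-- highest weight vectors -/
def HW (e h : Module.End F V) : Set V := {v | e v = 0 ∧ ∃ m : ℕ, h v = (m : F) • v}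

lemma span_aux (t : Tr e h f) (s : Finset ℕ) : ∀ v : V, e v = 0 →
    Polynomial.aeval h (∏ j ∈ s, (Polynomial.X - Polynomial.C (j : F))) v = 0 →
    v ∈ Submodule.span F (HW e h) := by
  classical
  induction s using Finset.induction_on with
  | empty =>
    intro v _ h0
    have : v = 0 := by simpa using h0
    rw [this]; exact Submodule.zero_mem _
  | insert a s ha ih =>
    intro v hv h0
    have hcop : IsCoprime (Polynomial.X - Polynomial.C (a : F))
        (∏ j ∈ s, (Polynomial.X - Polynomial.C (j : F))) := by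
      apply IsCoprime.prod_right
      intro j hj
      apply Polynomial.isCoprime_X_sub_C_of_isUnit_sub
      have : (a : F) ≠ (j : F) := fun hh => ha (by rw [Nat.cast_injective hh]; exact hj)
      exact (sub_ne_zero.2 this).isUnit
    obtain ⟨A, B, hAB⟩ := hcop
    have e1 : v = Polynomial.aeval h (A * (Polynomial.X - Polynomial.C (a : F))) v +
        Polynomial.aeval h (B * (∏ j ∈ s, (Polynomial.X - Polynomial.C (j : F)))) v := by
      rw [← LinearMap.add_apply, ← map_add, hAB, map_one, Module.End.one_apply]
    rw [e1]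
    refine Submodule.add_mem _ (ih _ (t.he_ker hv _) ?_) (Submodule.subset_span ⟨t.he_ker hv _, a, ?_⟩)
    · rw [← Module.End.mul_apply, ← map_mul]
      have : (∏ j ∈ s, (Polynomial.X - Polynomial.C (j : F))) * (A * (Polynomial.X - Polynomial.C (a : F)))
          = A * ∏ j ∈ insert a s, (Polynomial.X - Polynomial.C (j : F)) := by
        rw [Finset.prod_insert ha]; ring
      rw [this, map_mul, Module.End.mul_apply, h0, map_zero]
    · rw [← sub_eq_zero, ← aeval_sub, ← Module.End.mul_apply, ← map_mul]
      have : (Polynomial.X - Polynomial.C (a : F)) * (B * ∏ j ∈ s, (Polynomial.X - Polynomial.C (j : F)))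
          = B * ∏ j ∈ insert a s, (Polynomial.X - Polynomial.C (j : F)) := by
        rw [Finset.prod_insert ha]; ring
      rw [this, map_mul, Module.End.mul_apply, h0, map_zero]

lemma span_HW (t : Tr e h f) : Submodule.span F (HW e h) = LinearMap.ker e := by
  apply le_antisymm
  · rw [Submodule.span_le]
    rintro v ⟨hv, -⟩
    exact hv
  · intro v hv
    obtain ⟨K, hK⟩ := t.f_nilp
    apply t.span_aux (Finset.range K) v hv
    have := t.ker_e_le hK hv
    rw [← ker_aeval_prod h (Finset.range K) (fun j => (j : F)) Nat.cast_injective] at this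
    exact this

lemma fpow_top (t : Tr e h f) {v : V} {m : ℕ} (hv : e v = 0) (hm : h v = (m : F) • v) :
    (f ^ (m + 1)) v = 0 := by
  apply t.disj
  · rw [t.e_fpow, hv, map_zero, hm, map_smul, sub_self, smul_zero, zero_add]
  · exact ⟨(f ^ m) v, by rw [pow_succ', Module.End.mul_apply]⟩

/-- **the chain basis** -/
theorem exists_chain (t : Tr e h f) : ∃ (κ : Type) (_ : Fintype κ) (m : κ → ℕ)
    (B : Module.Basis (Σ k : κ, Fin (m k + 1)) F V),
    (∀ x, h (B x) = ((m x.1 : F) - 2 * ((x.2 : ℕ) : F)) • B x) ∧
    (∀ k (i : ℕ) (hi : i + 1 < m k + 1), f (B ⟨k, ⟨i, by omega⟩⟩) = B ⟨k, ⟨i + 1, hi⟩⟩) ∧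
    (∀ k, f (B ⟨k, ⟨m k, by omega⟩⟩) = 0) := by
  classical
  obtain ⟨b, hb1, hb2, hb3⟩ := exists_linearIndependent F (HW e h)
  rw [t.span_HW] at hb2
  have hfin : b.Finite := hb3.setFinite
  have := hfin.fintype
  set N := Fintype.card b with hN
  set b' : Fin N → V := fun i => ((Fintype.equivFin b).symm i : V) with hb'
  have hli : LinearIndependent F b' := hb3.comp _ (Fintype.equivFin b).symm.injective
  have hr : Set.range b' = b := by
    ext v
    constructor
    · rintro ⟨i, rfl⟩; exact Subtype.coe_prop _
    · intro hv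
      exact ⟨Fintype.equivFin b ⟨v, hv⟩, by simp [hb']⟩
  have hE : ∀ k, e (b' k) = 0 ∧ ∃ m : ℕ, h (b' k) = (m : F) • b' k := fun k =>
    hb1 (hr ▸ Set.mem_range_self k)
  choose hE0 m hm using hE
  -- the family
  let B0 : (Σ k : Fin N, Fin (m k + 1)) → V := fun x => (f ^ (x.2 : ℕ)) (b' x.1)
  have hkey : ∀ (k : Fin N) (i j : ℕ), i < j → (e ^ j) ((f ^ i) (b' k)) = 0 := by
    intro k i j hij
    obtain ⟨d, rfl⟩ : ∃ d, j = d + 1 + i := ⟨j - i - 1, by omega⟩
    rw [pow_add, Module.End.mul_apply, t.epow_fpow i _ (hE0 k), map_smul, pow_succ,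
      Module.End.mul_apply, t.he_ker (hE0 k), map_zero, smul_zero]
  have hconst : ∀ (k : Fin N) (i : ℕ), i ≤ m k → ∃ c : F, c ≠ 0 ∧ (e ^ i) ((f ^ i) (b' k)) = c • b' k := by
    intro k i hi
    refine ⟨(i.factorial : F) * (∏ j ∈ Finset.range i, ((m k : F) - (j : F))), ?_, ?_⟩
    · refine mul_ne_zero (by exact_mod_cast i.factorial_ne_zero) (Finset.prod_ne_zero_iff.2 ?_)
      intro j hj
      rw [sub_ne_zero]
      have : j ≠ m k := by have := Finset.mem_range.1 hj; omega
      exact_mod_cast this.symm
    · rw [t.epow_fpow i _ (hE0 k), mul_smul]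
      congr 1
      have hne : b' k ≠ 0 := hli.ne_zero k
      have := Module.End.aeval_apply_of_hasEigenvector (f := h)
        (p := ∏ j ∈ Finset.range i, (Polynomial.X - Polynomial.C (j : F))) (μ := (m k : F)) (x := b' k)
        ⟨Module.End.mem_eigenspace_iff.2 (hm k), hne⟩
      rw [this, Polynomial.eval_prod]
      simp
  have hli2 : LinearIndependent F B0 := by
    rw [Fintype.linearIndependent_iff]
    intro g hg
    set c : Fin N → ℕ → F := fun k i => if hi : i < m k + 1 then g ⟨k, ⟨i, hi⟩⟩ else 0 with hc
    obtain ⟨M, hM⟩ : ∃ M : ℕ, ∀ k, m k < M := ⟨(∑ k, m k) + 1, fun k =>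
      Nat.lt_succ_of_le (Finset.single_le_sum (f := m) (fun _ _ => Nat.zero_le _) (Finset.mem_univ k))⟩
    have hsum : ∑ k, ∑ i ∈ Finset.range M, c k i • (f ^ i) (b' k) = 0 := by
      rw [← hg, Fintype.sum_sigma]
      refine Finset.sum_congr rfl fun k _ => ?_
      have e1 : ∑ i ∈ Finset.range M, c k i • (f ^ i) (b' k) =
          ∑ i ∈ Finset.range (m k + 1), c k i • (f ^ i) (b' k) := by
        symm
        apply Finset.sum_subset
        · intro i hi
          have := hM k
          rw [Finset.mem_range] at hi ⊢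
          omega
        · intro i _ hi
          rw [Finset.mem_range] at hi
          rw [hc]
          simp only [dif_neg hi, zero_smul]
      rw [e1, Finset.sum_range]
      refine Finset.sum_congr rfl fun i _ => ?_
      rw [hc]
      simp only [dif_pos i.2]
      rfl
    have claim : ∀ M : ℕ, (∑ k, ∑ i ∈ Finset.range M, c k i • (f ^ i) (b' k) = 0) →
        ∀ i, i < M → ∀ k, c k i = 0 := by
      intro M
      induction M with
      | zero => intro _ i hi; omega
      | succ M ih =>
        intro hs
        have h1 := congrArg (fun v => (e ^ M) v) hs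
        simp only [map_zero, map_sum, map_smul] at h1
        have h2 : ∀ k, ∑ i ∈ Finset.range (M + 1), c k i • (e ^ M) ((f ^ i) (b' k)) =
            c k M • (e ^ M) ((f ^ M) (b' k)) := by
          intro k
          rw [Finset.sum_range_succ, Finset.sum_eq_zero, zero_add]
          intro i hi
          rw [hkey k i M (Finset.mem_range.1 hi), smul_zero]
        rw [Finset.sum_congr rfl fun k _ => h2 k] at h1
        have h3 : ∀ k, ∃ d : F, (c k M = 0 ∨ d ≠ 0) ∧ c k M • (e ^ M) ((f ^ M) (b' k)) = (c k M * d) • b' k := by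
          intro k
          by_cases hk : M ≤ m k
          · obtain ⟨d, hd, hd2⟩ := hconst k M hk
            exact ⟨d, Or.inr hd, by rw [hd2, smul_smul]⟩
          · have : c k M = 0 := by
              rw [hc]
              simp only [dif_neg (show ¬ M < m k + 1 by omega)]
            exact ⟨0, Or.inl this, by rw [this, zero_smul, zero_mul, zero_smul]⟩
        choose d hd hd2 using h3
        rw [Finset.sum_congr rfl fun k _ => hd2 k] at h1
        have h4 : ∀ k, c k M = 0 := by
          intro k
          have := Fintype.linearIndependent_iff.1 hli _ h1 k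
          rcases hd k with h5 | h5
          · exact h5
          · exact (mul_eq_zero.1 this).resolve_right h5
        have h5 : ∑ k, ∑ i ∈ Finset.range M, c k i • (f ^ i) (b' k) = 0 := by
          rw [← hs]
          refine Finset.sum_congr rfl fun k _ => ?_
          rw [Finset.sum_range_succ, h4 k, zero_smul, add_zero]
        intro i hi k
        rcases Nat.lt_succ_iff_lt_or_eq.1 hi with h6 | rfl
        · exact ih h5 i h6 k
        · exact h4 k
    rintro ⟨k, i⟩
    have h1 := claim M hsum (i : ℕ) (by have := hM k; have := i.2; omega) k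
    rw [hc] at h1
    simp only [dif_pos i.2] at h1
    exact h1
  have hf0 : ∀ k, (f ^ (m k + 1)) (b' k) = 0 := fun k => t.fpow_top (hE0 k) (hm k)
  have hspan : ⊤ ≤ Submodule.span F (Set.range B0) := by
    set S := Submodule.span F (Set.range B0) with hS
    have hker : LinearMap.ker e ≤ S := by
      rw [← hb2, ← hr, Submodule.span_le]
      rintro _ ⟨k, rfl⟩
      exact Submodule.subset_span ⟨⟨k, ⟨0, by omega⟩⟩, by simp [B0]⟩
    have hfS : S ≤ S.comap f := by
      rw [hS, Submodule.span_le]
      rintro _ ⟨⟨k, i⟩, rfl⟩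
      rw [SetLike.mem_coe, Submodule.mem_comap]
      by_cases hi : (i : ℕ) + 1 < m k + 1
      · refine Submodule.subset_span ⟨⟨k, ⟨i + 1, hi⟩⟩, ?_⟩
        simp only [B0]
        rw [pow_succ', Module.End.mul_apply]
      · have h6 : (i : ℕ) = m k := by have := i.2; omega
        simp only [B0, h6]
        rw [← Module.End.mul_apply, ← pow_succ', hf0]
        exact Submodule.zero_mem _
    have hstep : ∀ j : ℕ, ∀ v : V, ∃ s ∈ S, ∃ w, v = s + (f ^ j) w := by
      intro j
      induction j with
      | zero => intro v; exact ⟨0, S.zero_mem, v, by simp⟩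
      | succ j ih =>
        intro v
        obtain ⟨s, hs, w, hw⟩ := ih v
        have hw2 : w ∈ LinearMap.ker e ⊔ LinearMap.range f := by rw [t.sup_eq_top]; trivial
        obtain ⟨u, hu, y, ⟨w', rfl⟩, huy⟩ := Submodule.mem_sup.1 hw2
        have hfj : ∀ (j : ℕ) (x : V), x ∈ S → (f ^ j) x ∈ S := by
          intro j
          induction j with
          | zero => intro x hx; simpa using hx
          | succ j ih2 =>
            intro x hx
            rw [pow_succ, Module.End.mul_apply]
            exact ih2 _ (hfS hx)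
        refine ⟨s + (f ^ j) u, S.add_mem hs (hfj j u (hker hu)), w', ?_⟩
        rw [hw, ← huy, map_add, pow_succ, Module.End.mul_apply]
        abel
    intro v _
    obtain ⟨K, hK⟩ := t.f_nilp
    obtain ⟨s, hs, w, hw⟩ := hstep K v
    rw [hw, hK, LinearMap.zero_apply, add_zero]
    exact hs
  refine ⟨Fin N, inferInstance, m, Module.Basis.mk hli2 hspan, ?_, ?_, ?_⟩
  · rintro ⟨k, i⟩
    rw [Module.Basis.mk_apply]
    simp only [B0]
    rw [t.h_fpow, hm k, map_smul, sub_smul]
  · intro k i hi
    rw [Module.Basis.mk_apply, Module.Basis.mk_apply]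
    simp only [B0]
    rw [pow_succ', Module.End.mul_apply]
  · intro k
    rw [Module.Basis.mk_apply]
    simp only [B0]
    rw [← Module.End.mul_apply, ← pow_succ', hf0]

end Tr

end Run7.h697
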