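import Mathlib

/-!
# Finite checks
-/

set_option autoImplicit false
set_option linter.unusedVariables false
set_option maxRecDepth 100000

namespace Run7.h697

/-- test over three digits -/
def all3 (P : ℕ → Bool) : Bool := P 0 && (P 1 && P 2)

lemma all3_spec {P : ℕ → Bool} (h : all3 P = true) (a : ℕ) (ha : a < 3) : P a = true := by
  unfold all3 at h
  rw [Bool.and_eq_true, Bool.and_eq_true] at h
  interval_cases a
  · exact h.1
  · exact h.2.1
  · exact h.2.2

/-- test over all vectors -/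
def allV (P : ℕ → ℕ → ℕ → ℕ → ℕ → ℕ → ℕ → ℕ → Bool) : Bool :=
  all3 fun a => all3 fun b => all3 fun c => all3 fun d => all3 fun e => all3 fun f => all3 fun g =>
    all3 fun h => P a b c d e f g h

lemma allV_spec {P : ℕ → ℕ → ℕ → ℕ → ℕ → ℕ → ℕ → ℕ → Bool} (h : allV P = true)
    {a b c d e f g i : ℕ} (ha : a < 3) (hb : b < 3) (hc : c < 3) (hd : d < 3) (he : e < 3)
    (hf : f < 3) (hg : g < 3) (hi : i < 3) : P a b c d e f g i = true := by
  unfold allV at h
  exact all3_spec (all3_spec (all3_spec (all3_spec (all3_spec (all3_spec (all3_spec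
    (all3_spec h a ha) b hb) c hc) d hd) e he) f hf) g hg) i hi

/-- nonzero modulo three -/
def nz (x : ℕ) : Bool := !(Nat.beq (x % 3) 0)

/-- a quadratic form -/
def q0 (a b c d e f g h : ℕ) : ℕ :=
  2 * (a * h) + 2 * (b * g) + 2 * (c * f) + d * d + e * e

/-- a quadratic form -/
def q1 (a b c d e f g h : ℕ) : ℕ :=
  2 * (a * g) + 4 * (a * h) + 2 * (b * f) + 2 * (b * h) + c * c + 2 * (d * d) + 2 * (d * e) + 2 * (d * f) + 4 * (d * g) + e * e + 2 * (e * g)

/-- a quadratic form -/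
def q2 (a b c d e f g h : ℕ) : ℕ :=
  2 * (a * f) + 4 * (a * g) + 4 * (a * h) + 2 * (b * c) + 2 * (b * g) + 4 * (b * h) + 2 * (c * d) + 2 * (d * d) + 2 * (d * f) + 4 * (d * g) + 4 * (d * h) + 2 * (e * e) + 4 * (e * f) + 2 * (e * h) + f * f + 4 * (f * g) + 2 * (g * g)

/-- a quadratic form -/
def q3 (a b c d e f g h : ℕ) : ℕ :=
  2 * (a * c) + 4 * (a * f) + 4 * (a * g) + b * b + 2 * (b * d) + 2 * (b * f) + 4 * (b * g) + 4 * (b * h) + 2 * (c * d) + 4 * (c * e) + 2 * (c * f) + 4 * (c * g) + 2 * (d * d) + 4 * (d * e) + 2 * (d * f) + 2 * (e * e) + 4 * (e * h) + 2 * (f * g) + 4 * (f * h) + g * g + 4 * (g * h)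

/-- a quadratic form -/
def q4 (a b c d e f g h : ℕ) : ℕ :=
  2 * (a * b) + 4 * (a * c) + 2 * (a * d) + 4 * (a * f) + 4 * (a * h) + 2 * (b * c) + 2 * (b * d) + 4 * (b * e) + 2 * (b * g) + c * c + 2 * (c * d) + 2 * (c * g) + 4 * (c * h) + 4 * (d * e) + 4 * (d * f) + e * e + 4 * (e * f) + 4 * (e * g) + 2 * (e * h) + 2 * (f * f) + 2 * (f * g) + 4 * (f * h) + 2 * (g * g) + 4 * (g * h) + 2 * (h * h)

/-- a quadratic form -/
def q5 (a b c d e f g h : ℕ) : ℕ :=
  a * a + 4 * (a * b) + 4 * (a * c) + 4 * (a * e) + 2 * (a * f) + 2 * (a * g) + 2 * (a * h) + 2 * (b * b) + 4 * (b * d) + 4 * (b * f) + 2 * (b * g) + 2 * (b * h) + 4 * (c * d) + 4 * (c * e) + 4 * (c * f) + 2 * (c * g) + 4 * (c * h) + 2 * (d * d) + 4 * (d * g) + 2 * (e * e) + 2 * (e * f) + 2 * (e * h) + 4 * (f * g) + 4 * (f * h) + g * g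

/-- a quadratic form -/
def q6 (a b c d e f g h : ℕ) : ℕ :=
  a * a + 2 * (a * c) + 4 * (a * d) + 2 * (a * e) + 2 * (a * f) + 2 * (b * b) + 4 * (b * c) + 4 * (b * d) + 2 * (b * e) + 4 * (b * g) + 2 * (c * c) + 2 * (c * e) + 4 * (c * g) + 4 * (c * h) + d * d + 2 * (d * e) + 2 * (d * f) + 2 * (d * g) + 4 * (d * h) + 2 * (e * e) + 4 * (e * h) + 2 * (f * f) + g * g + 2 * (g * h)

/-- a quadratic form -/
def q7 (a b c d e f g h : ℕ) : ℕ :=
  2 * (a * a) + 4 * (a * b) + 2 * (a * c) + 4 * (a * f) + 4 * (a * g) + 2 * (b * b) + 4 * (b * d) + 4 * (b * e) + 2 * (b * f) + 4 * (b * g) + 4 * (b * h) + 2 * (c * d) + 4 * (c * f) + d * d + 2 * (d * e) + 4 * (d * f) + 4 * (d * g) + 4 * (d * h) + e * e + 2 * (e * f) + 2 * (e * h) + f * f + 4 * (f * g) + h * h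

/-- first test -/
def test1 (a b c d e f g h : ℕ) : Bool :=
  nz (q0 a b c d e f g h) || nz (q1 a b c d e f g h) || nz (q2 a b c d e f g h) || nz (q3 a b c d e f g h) || nz (q4 a b c d e f g h) ||
  Nat.beq (a + b + c + d + e + f + g + h) 0 ||
  (Nat.beq (q5 a b c d e f g h % 3) 1 && Nat.beq (q6 a b c d e f g h % 3) 1 && Nat.beq (q7 a b c d e f g h % 3) 2) ||
  (Nat.beq (q5 a b c d e f g h % 3) 2 && Nat.beq (q6 a b c d e f g h % 3) 2 && Nat.beq (q7 a b c d e f g h % 3) 1)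

/-- second test -/
def test2 (a b c d e f g h : ℕ) : Bool :=
  nz (q1 a b c d e f g h) || nz (q2 a b c d e f g h) || nz (q3 a b c d e f g h) || nz (q4 a b c d e f g h) || nz (q5 a b c d e f g h) ||
  Nat.beq (a + b + c + d + e + f + g + h) 0 ||
  (Nat.beq (q0 a b c d e f g h % 3) 1 && Nat.beq (q6 a b c d e f g h % 3) 2 && Nat.beq (q7 a b c d e f g h % 3) 2) ||
  (Nat.beq (q0 a b c d e f g h % 3) 2 && Nat.beq (q6 a b c d e f g h % 3) 1 && Nat.beq (q7 a b c d e f g h % 3) 1)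

/-- a linear form -/
def testal0 (a b c d e f g h : ℕ) : ℕ := f + g + 2 * h

/-- a linear form -/
def testal1 (a b c d e f g h : ℕ) : ℕ := e + f + 2 * g

/-- a linear form -/
def testal2 (a b c d e f g h : ℕ) : ℕ := d + e + 2 * f

/-- a quadratic form -/
def testaq (a b c d e f g h : ℕ) : ℕ :=
  2 * (a * f) + 2 * (a * g) + 4 * (a * h) + 2 * (b * e) + 2 * (b * f) + 4 * (b * g) + 2 * (c * d) + 2 * (c * e) + 4 * (c * f) + d * d + 4 * (d * e) + 4 * (d * h) + 4 * (e * g) + 2 * (f * f) + 2 * (f * h) + g * g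

/-- a test -/
def testa (a b c d e f g h : ℕ) : Bool :=
  nz (testal0 a b c d e f g h) || nz (testal1 a b c d e f g h) || nz (testal2 a b c d e f g h) ||
  nz (testaq a b c d e f g h) ||
  Nat.beq (d + e + f + g + h) 0

/-- a linear form -/
def testbl0 (a b c d e f g h : ℕ) : ℕ := f + g + 2 * h

/-- a linear form -/
def testbl1 (a b c d e f g h : ℕ) : ℕ := e + f + 2 * g

/-- a linear form -/
def testbl2 (a b c d e f g h : ℕ) : ℕ := d + e + 2 * f

/-- a linear form -/
def testbl3 (a b c d e f g h : ℕ) : ℕ := c + d + 2 * e + 2 * h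

/-- a quadratic form -/
def testbq (a b c d e f g h : ℕ) : ℕ :=
  2 * (a * e) + 2 * (a * f) + 4 * (a * g) + 2 * (b * d) + 2 * (b * e) + 4 * (b * f) + c * c + 2 * (c * d) + 4 * (c * e) + 4 * (c * h) + 2 * (d * d) + 4 * (d * g) + 4 * (e * f) + 2 * (e * h) + 2 * (f * g) + h * h

/-- a test -/
def testb (a b c d e f g h : ℕ) : Bool :=
  nz (testbl0 a b c d e f g h) || nz (testbl1 a b c d e f g h) || nz (testbl2 a b c d e f g h) || nz (testbl3 a b c d e f g h) ||
  nz (testbq a b c d e f g h) ||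
  Nat.beq (c + d + e + f + g + h) 0

/-- a linear form -/
def testcl0 (a b c d e f g h : ℕ) : ℕ := a + 2 * g + 2 * h

/-- a linear form -/
def testcl1 (a b c d e f g h : ℕ) : ℕ := 2 * f + 2 * g + h

/-- a linear form -/
def testcl2 (a b c d e f g h : ℕ) : ℕ := 2 * e + 2 * f + g

/-- a linear form -/
def testcl3 (a b c d e f g h : ℕ) : ℕ := 2 * d + 2 * e + f

/-- a quadratic form -/
def testcq (a b c d e f g h : ℕ) : ℕ :=
  a * a + 4 * (a * g) + 4 * (a * h) + 4 * (b * f) + 4 * (b * g) + 2 * (b * h) + 4 * (c * e) + 4 * (c * f) + 2 * (c * g) + 2 * (d * d) + 4 * (d * e) + 2 * (d * f) + e * e + 2 * (e * h) + 2 * (f * g) + 4 * (g * h)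

/-- a test -/
def testc (a b c d e f g h : ℕ) : Bool :=
  nz (testcl0 a b c d e f g h) || nz (testcl1 a b c d e f g h) || nz (testcl2 a b c d e f g h) || nz (testcl3 a b c d e f g h) ||
  nz (testcq a b c d e f g h) ||
  Nat.beq (a + d + e + f + g + h) 0

/-- a linear form -/
def testdl1 (a b c d e f g h : ℕ) : ℕ := 2 * f + 2 * g + h

/-- a linear form -/
def testdl2 (a b c d e f g h : ℕ) : ℕ := 2 * e + 2 * f + g

/-- a linear form -/
def testdl3 (a b c d e f g h : ℕ) : ℕ := 2 * d + 2 * e + f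

/-- a quadratic form -/
def testdq (a b c d e f g h : ℕ) : ℕ :=
  4 * (a * f) + 4 * (a * g) + 2 * (a * h) + 4 * (b * e) + 4 * (b * f) + 2 * (b * g) + 4 * (c * d) + 4 * (c * e) + 2 * (c * f) + 2 * (d * d) + 2 * (d * e) + 2 * (d * h) + 2 * (e * g) + f * f + 4 * (f * h) + 2 * (g * g)

/-- a test -/
def testd (a b c d e f g h : ℕ) : Bool :=
  nz (testdl1 a b c d e f g h) || nz (testdl2 a b c d e f g h) || nz (testdl3 a b c d e f g h) ||
  nz (testdq a b c d e f g h) ||
  Nat.beq (d + e + f + g + h) 0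

theorem test1_all : allV test1 = true := by decide +kernel

theorem test2_all : allV test2 = true := by decide +kernel

theorem testa_all : allV testa = true := by decide +kernel

theorem testb_all : allV testb = true := by decide +kernel

theorem testc_all : allV testc = true := by decide +kernel

theorem testd_all : allV testd = true := by decide +kernel

end Run7.h697
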