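import Pool.Agent.Run7.h697.Trip

/-!
# Partitions of 16 above the two given ones
-/

set_option autoImplicit false
set_option linter.unusedVariables false

namespace Run7.h697

lemma sort_P1 : P1.parts.sort (· ≥ ·) = [12, 2, 2] := by
  have e : P1.parts = 12 ::ₘ 2 ::ₘ {2} := rfl
  rw [e, Multiset.sort_cons, Multiset.sort_cons, Multiset.sort_singleton]
  · decide
  · decide

lemma sort_P2 : P2.parts.sort (· ≥ ·) = [10, 6] := by
  have e : P2.parts = 10 ::ₘ {6} := rfl
  rw [e, Multiset.sort_cons, Multiset.sort_singleton]
  decide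

/-- a list of positive numbers with sum zero is empty -/
lemma nil_of_sum {l : List ℕ} (h : ∀ a ∈ l, 0 < a) (hs : l.sum = 0) : l = [] := by
  cases l with
  | nil => rfl
  | cons a t =>
    have := h a (List.mem_cons_self)
    rw [List.sum_cons] at hs
    omega

lemma exists_list (r : Nat.Partition (2 * 8)) : ∃ l : List ℕ, r.parts.sort (· ≥ ·) = l ∧
    r.parts = (l : Multiset ℕ) ∧ l.sum = 16 ∧ (∀ a ∈ l, 0 < a) := by
  refine ⟨_, rfl, (Multiset.sort_eq _ _).symm, ?_, ?_⟩
  · have h := r.parts_sum
    rw [← Multiset.sum_coe, Multiset.sort_eq, h]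
  · intro a ha
    rw [Multiset.mem_sort] at ha
    exact r.parts_pos ha

theorem above1 {r : Nat.Partition (2 * 8)} (hS : SpType r) (hD : Dom P1 r) (hne : r ≠ P1) :
    (∃ a ∈ r.parts, 13 ≤ a) ∨ r.parts = {12, 4} := by
  obtain ⟨l, hl, hr, hs, hp⟩ := exists_list r
  have h1 := hD 1
  have h2 := hD 2
  have h3 := hD 3
  rw [sort_P1, hl] at h1 h2 h3
  simp only [List.take_succ_cons, List.take_zero, List.sum_cons, List.sum_nil] at h1 h2 h3
  cases l with
  | nil => simp at h1
  | cons a t =>
    simp only [List.take_succ_cons, List.take_zero, List.sum_cons, List.sum_nil] at h1 h2 h3 hs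
    by_cases ha : 13 ≤ a
    · left
      exact ⟨a, by rw [hr]; simp, ha⟩
    right
    have ha12 : a = 12 := by omega
    subst ha12
    cases t with
    | nil => simp at h2
    | cons b t =>
      simp only [List.take_succ_cons, List.take_zero, List.sum_cons, List.sum_nil] at h2 h3 hs
      have hpt : ∀ c ∈ t, 0 < c := fun c hc => hp c (List.mem_cons_of_mem _ (List.mem_cons_of_mem _ hc))
      have hb : b = 2 ∨ b = 3 ∨ b = 4 := by omega
      rcases hb with rfl | rfl | rfl
      · exfalso
        cases t with
        | nil => simp at hs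
        | cons c t =>
          simp only [List.take_succ_cons, List.take_zero, List.sum_cons, List.sum_nil] at h3 hs
          have ht : t = [] := nil_of_sum (fun d hd => hpt d (List.mem_cons_of_mem _ hd)) (by omega)
          have hc : c = 2 := by omega
          apply hne
          apply Nat.Partition.ext
          rw [hr, ht, hc]
          rfl
      · exfalso
        cases t with
        | nil => simp at hs
        | cons c t =>
          simp only [List.take_succ_cons, List.take_zero, List.sum_cons, List.sum_nil] at h3 hs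
          have hc0 := hpt c List.mem_cons_self
          have ht : t = [] := nil_of_sum (fun d hd => hpt d (List.mem_cons_of_mem _ hd)) (by omega)
          have hc : c = 1 := by omega
          have := hS 3 (by decide)
          rw [hr, ht, hc] at this
          revert this
          decide
      · have ht : t = [] := nil_of_sum hpt (by omega)
        rw [hr, ht]
        rfl

theorem above2 {r : Nat.Partition (2 * 8)} (hS : SpType r) (hD : Dom P2 r) (hne : r ≠ P2) :
    (∃ a ∈ r.parts, 13 ≤ a) ∨ r.parts = {12, 4} := by
  obtain ⟨l, hl, hr, hs, hp⟩ := exists_list r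
  have h1 := hD 1
  have h2 := hD 2
  rw [sort_P2, hl] at h1 h2
  simp only [List.take_succ_cons, List.take_zero, List.sum_cons, List.sum_nil] at h1 h2
  cases l with
  | nil => simp at h1
  | cons a t =>
    simp only [List.take_succ_cons, List.take_zero, List.sum_cons, List.sum_nil] at h1 h2 hs
    by_cases ha : 13 ≤ a
    · left
      exact ⟨a, by rw [hr]; simp, ha⟩
    right
    cases t with
    | nil => simp at h2; omega
    | cons b t =>
      simp only [List.take_succ_cons, List.take_zero, List.sum_cons, List.sum_nil] at h2 hs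
      have hpt : ∀ c ∈ t, 0 < c := fun c hc => hp c (List.mem_cons_of_mem _ (List.mem_cons_of_mem _ hc))
      have ht : t = [] := nil_of_sum hpt (by omega)
      have hab : (a = 12 ∧ b = 4) ∨ (a = 11 ∧ b = 5) ∨ (a = 10 ∧ b = 6) := by omega
      rcases hab with ⟨rfl, rfl⟩ | ⟨rfl, rfl⟩ | ⟨rfl, rfl⟩
      · rw [hr, ht]
        rfl
      · exfalso
        have := hS 11 (by decide)
        rw [hr, ht] at this
        revert this
        decide
      · exfalso
        apply hne
        apply Nat.Partition.ext
        rw [hr, ht]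
        rfl

lemma P1_ne_P2 : P1 ≠ P2 := by
  intro h
  have := congrArg Nat.Partition.parts h
  revert this
  decide

lemma spType_P1 : SpType P1 := by
  intro a ha
  have h : P1.parts = {12, 2, 2} := rfl
  by_cases h1 : a = 12
  · subst h1; revert ha; decide
  · by_cases h2 : a = 2
    · subst h2; revert ha; decide
    · rw [h, Multiset.count_eq_zero_of_notMem]
      · decide
      · simp [h1, h2]

lemma spType_P2 : SpType P2 := by
  intro a ha
  have h : P2.parts = {10, 6} := rfl
  by_cases h1 : a = 10
  · subst h1; revert ha; decide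
  · by_cases h2 : a = 6
    · subst h2; revert ha; decide
    · rw [h, Multiset.count_eq_zero_of_notMem]
      · decide
      · simp [h1, h2]

/-- partitions above do not occur -/
theorem not_above {ψ : AddChar ℚ_[3] Circle} (hψ : Cond ψ) {r : Nat.Partition (2 * 8)}
    (h : (∃ a ∈ r.parts, 13 ≤ a) ∨ r.parts = {12, 4}) : ¬ HasCoeff ψ (D8.rep ψ) r := by
  rintro ⟨X, hh, e, t, hJ, ℓ, h0, heq⟩
  obtain ⟨d, hd1, hd2, hd3, hd4⟩ := vanish hψ t h0 heq
  have hr : ∀ j, d j + d (j + 1) = (r.parts.map fun a => a - j).sum := fun j => by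
    rw [← hd1, hJ j]
  rcases h with ⟨a, ha, h13⟩ | h
  · have h1 := hr 12
    have h2 := hd2 12
    have h3 : a - 12 ≤ (r.parts.map fun a => a - 12).sum :=
      Multiset.single_le_sum (fun _ _ => Nat.zero_le _) _ (Multiset.mem_map_of_mem _ ha)
    omega
  · rw [h] at hr
    have g3 := hr 3
    have g4 := hr 4
    have g5 := hr 5
    have g6 := hr 6
    have g7 := hr 7
    have g8 := hr 8
    have g9 := hr 9
    have g10 := hr 10
    have g11 := hr 11
    simp only [Multiset.insert_eq_cons, Multiset.map_cons, Multiset.map_singleton,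
      Multiset.sum_cons, Multiset.sum_singleton] at g3 g4 g5 g6 g7 g8 g9 g10 g11
    norm_num at g3 g4 g5 g6 g7 g8 g9 g10 g11
    have := hd4 (by omega)
    omega

/-- **the two maximal partitions** -/
theorem mem_max {ψ : AddChar ℚ_[3] Circle} (hψ : Cond ψ) :
    P1 ∈ maxPart ψ (D8.rep ψ) ∧ P2 ∈ maxPart ψ (D8.rep ψ) :=
  ⟨⟨spType_P1, coeff1 hψ, fun r h1 h2 h3 => not_above hψ (above1 h1 h2 h3)⟩,
    ⟨spType_P2, coeff2 hψ, fun r h1 h2 h3 => not_above hψ (above2 h1 h2 h3)⟩⟩

end Run7.h697
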