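import Pool.Agent.Run7.h697.Kry
import Pool.Agent.Run7.h697.Chk

/-!
# Consequences of the finite checks
-/

set_option autoImplicit false
set_option linter.unusedVariables false
set_option maxRecDepth 100000

open Matrix

namespace Run7.h697

/-- the values of the forms -/
def sv (v : Fin 8 → ZMod 3) (j : ℕ) : ZMod 3 := v ⬝ᵥ (A3 *ᵥ ((T3_1 ^ j) *ᵥ v))

lemma A3_symm : A3ᵀ = A3 := by decide

lemma B3_symm : B3ᵀ = B3 := by decide

lemma A3_T : A3 * T3_1 = T3_1ᵀ * A3 := by decide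

lemma A3_Tpow (j : ℕ) : A3 * T3_1 ^ j = (T3_1 ^ j)ᵀ * A3 := by
  induction j with
  | zero => simp
  | succ j ih =>
    rw [pow_succ, ← Matrix.mul_assoc, ih, Matrix.mul_assoc, A3_T, ← Matrix.mul_assoc,
      ← Matrix.transpose_mul, ← pow_succ', ← pow_succ]

lemma form_pow (u v : Fin 8 → ZMod 3) (i j : ℕ) :
    ((T3_1 ^ i) *ᵥ u) ⬝ᵥ (A3 *ᵥ ((T3_1 ^ j) *ᵥ v)) = u ⬝ᵥ (A3 *ᵥ ((T3_1 ^ (i + j)) *ᵥ v)) := by
  rw [← Matrix.vecMul_transpose, ← Matrix.dotProduct_mulVec, Matrix.mulVec_mulVec,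
    ← A3_Tpow, ← Matrix.mulVec_mulVec, Matrix.mulVec_mulVec _ (T3_1 ^ i), ← pow_add]

/-- combination of Krylov vectors -/
def kc (c : Fin 8 → ZMod 3) (v : Fin 8 → ZMod 3) : Fin 8 → ZMod 3 :=
  ∑ i : Fin 8, c i • ((T3_1 ^ (i : ℕ)) *ᵥ v)

lemma expand1 (c v : Fin 8 → ZMod 3) (j : ℕ) :
    kc c v ⬝ᵥ (A3 *ᵥ ((T3_1 ^ j) *ᵥ v)) = ∑ i : Fin 8, c i * sv v (i + j) := by
  unfold kc
  rw [sum_dotProduct]
  refine Finset.sum_congr rfl fun i _ => ?_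
  rw [smul_dotProduct, form_pow, smul_eq_mul]
  rfl

lemma expand2 (c v : Fin 8 → ZMod 3) (k : ℕ) :
    kc c v ⬝ᵥ (A3 *ᵥ ((T3_1 ^ k) *ᵥ kc c v)) =
      ∑ i : Fin 8, ∑ j : Fin 8, c i * c j * sv v (i + j + k) := by
  conv_lhs => unfold kc
  rw [sum_dotProduct]
  refine Finset.sum_congr rfl fun i _ => ?_
  rw [smul_dotProduct, form_pow, Matrix.mulVec_sum, Matrix.mulVec_sum, dotProduct_sum,
    Finset.smul_sum]
  refine Finset.sum_congr rfl fun j _ => ?_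
  rw [Matrix.mulVec_smul, Matrix.mulVec_smul, dotProduct_smul, smul_eq_mul, smul_eq_mul,
    Matrix.mulVec_mulVec v (T3_1 ^ ((i : ℕ) + k)) (T3_1 ^ (j : ℕ)), ← pow_add, sv]
  rw [show (i : ℕ) + k + j = i + j + k by ring]
  ring

lemma exists_kc {v : Fin 8 → ZMod 3} (hv : v ≠ 0) (u : Fin 8 → ZMod 3) : ∃ c, u = kc c v := by
  have h := krylov3.span hv
  rw [T3_one] at h
  have hu : u ∈ Submodule.span (ZMod 3) (Set.range fun i : Fin 8 => (T3_1 ^ (i : ℕ)) *ᵥ v) := by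
    rw [h]; trivial
  obtain ⟨c, hc⟩ := (Submodule.mem_span_range_iff_exists_fun (ZMod 3)).1 hu
  exact ⟨c, hc.symm⟩

lemma T3_8_eq : T3_1 ^ 8 = -(1 + T3_1 ^ 2 + 2 • T3_1 ^ 3 + T3_1 ^ 4 + 2 • T3_1 ^ 5 + 2 • T3_1 ^ 7) := by
  obtain ⟨h1, h2, h3, h4, h5, h6, h7, h8⟩ := T3_pow
  rw [h2, h3, h4, h5, h7, h8]
  have := T3_rel
  rw [eq_neg_iff_add_eq_zero, ← this]
  abel

lemma sv_rec (v : Fin 8 → ZMod 3) (j : ℕ) : sv v (j + 8) =
    -(sv v j + sv v (j + 2) + 2 * sv v (j + 3) + sv v (j + 4) + 2 * sv v (j + 5) +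
      2 * sv v (j + 7)) := by
  have h : T3_1 ^ (j + 8) = -(T3_1 ^ j + T3_1 ^ (j + 2) + 2 • T3_1 ^ (j + 3) + T3_1 ^ (j + 4) +
      2 • T3_1 ^ (j + 5) + 2 • T3_1 ^ (j + 7)) := by
    rw [pow_add, T3_8_eq]
    simp only [Matrix.mul_neg, Matrix.mul_add, Matrix.mul_one, mul_smul_comm, ← pow_add]
  unfold sv
  rw [h]
  simp only [Matrix.neg_mulVec, Matrix.add_mulVec, Matrix.mulVec_neg, Matrix.mulVec_add,
    dotProduct_neg, dotProduct_add, two_smul]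
  ring

/-- first sequence -/
def sg1 (m : ℕ) : ℕ := [0, 0, 0, 0, 0, 1, 1, 2, 0, 0, 2, 0, 1, 0, 0, 1].getD m 0

/-- second sequence -/
def sg2 (m : ℕ) : ℕ := [1, 0, 0, 0, 0, 0, 2, 2, 1, 0, 0, 1, 0, 2, 0, 0].getD m 0

lemma sg_of {v : Fin 8 → ZMod 3} {ε : ZMod 3} {g : ℕ → ℕ} (h : ∀ m < 8, sv v m = ε * (g m : ZMod 3))
    (hg : ∀ m < 8, (g (m + 8) : ZMod 3) = -((g m : ZMod 3) + g (m + 2) + 2 * g (m + 3) + g (m + 4) +
      2 * g (m + 5) + 2 * g (m + 7))) : ∀ m < 16, sv v m = ε * (g m : ZMod 3) := by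
  intro m
  induction m using Nat.strong_induction_on with
  | _ m ih =>
    intro hm
    by_cases h8 : m < 8
    · exact h m h8
    · obtain ⟨k, rfl⟩ : ∃ k, m = k + 8 := ⟨m - 8, by omega⟩
      rw [sv_rec, ih k (by omega) (by omega), ih (k + 2) (by omega) (by omega),
        ih (k + 3) (by omega) (by omega), ih (k + 4) (by omega) (by omega),
        ih (k + 5) (by omega) (by omega), ih (k + 7) (by omega) (by omega), hg k (by omega)]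
      ring

lemma nz_false {x : ℕ} (h : (x : ZMod 3) = 0) : nz x = false := by
  have h1 : x % 3 = 0 := by
    rw [ZMod.natCast_eq_zero_iff] at h
    exact Nat.mod_eq_zero_of_dvd h
  unfold nz
  rw [h1]
  rfl

lemma cast_of_beq {x k : ℕ} (h : Nat.beq (x % 3) k = true) : (x : ZMod 3) = (k : ZMod 3) := by
  have h1 : x % 3 = k := Nat.eq_of_beq_eq_true h
  rw [← h1, ZMod.natCast_mod]

end Run7.h697
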