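import Pool.Agent.Run7.h697.Conc

/-!
# Consequences of the finite checks, continued
-/

set_option autoImplicit false
set_option linter.unusedVariables false
set_option maxRecDepth 100000

open Matrix

namespace Run7.h697

/-- the form as a matrix -/
def M3_0 : Matrix (Fin 8) (Fin 8) (ZMod 3) :=
  !![0, 0, 0, 0, 0, 0, 0, 1;
    0, 0, 0, 0, 0, 0, 1, 0;
    0, 0, 0, 0, 0, 1, 0, 0;
    0, 0, 0, 1, 0, 0, 0, 0;
    0, 0, 0, 0, 1, 0, 0, 0;
    0, 0, 1, 0, 0, 0, 0, 0;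
    0, 1, 0, 0, 0, 0, 0, 0;
    1, 0, 0, 0, 0, 0, 0, 0]

lemma M3_0_eq : A3 * 1 = M3_0 := by decide

lemma q0_eq (v : Fin 8 → ZMod 3) : ((q0 (v 0).val (v 1).val (v 2).val (v 3).val (v 4).val (v 5).val
    (v 6).val (v 7).val : ℕ) : ZMod 3) = sv v 0 := by
  obtain ⟨h1, h2, h3, h4, h5, h6, h7, h8⟩ := T3_pow
  have e : sv v 0 = v ⬝ᵥ (M3_0 *ᵥ v) := by
    rw [← M3_0_eq, ← Matrix.mulVec_mulVec]
    unfold sv
    rw [pow_zero]
  rw [e]
  unfold q0
  push_cast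
  simp only [ZMod.natCast_zmod_val]
  simp [M3_0, Matrix.mulVec, dotProduct, Fin.sum_univ_eight]
  ring

/-- the form as a matrix -/
def M3_1 : Matrix (Fin 8) (Fin 8) (ZMod 3) :=
  !![0, 0, 0, 0, 0, 0, 1, 2;
    0, 0, 0, 0, 0, 1, 0, 1;
    0, 0, 1, 0, 0, 0, 0, 0;
    0, 0, 0, 2, 1, 1, 2, 0;
    0, 0, 0, 1, 1, 0, 1, 0;
    0, 1, 0, 1, 0, 0, 0, 0;
    1, 0, 0, 2, 1, 0, 0, 0;
    2, 1, 0, 0, 0, 0, 0, 0]

lemma M3_1_eq : A3 * T3_1 = M3_1 := by decide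

lemma q1_eq (v : Fin 8 → ZMod 3) : ((q1 (v 0).val (v 1).val (v 2).val (v 3).val (v 4).val (v 5).val
    (v 6).val (v 7).val : ℕ) : ZMod 3) = sv v 1 := by
  obtain ⟨h1, h2, h3, h4, h5, h6, h7, h8⟩ := T3_pow
  have e : sv v 1 = v ⬝ᵥ (M3_1 *ᵥ v) := by
    rw [← M3_1_eq, ← Matrix.mulVec_mulVec]
    unfold sv
    rw [h1]
  rw [e]
  unfold q1
  push_cast
  simp only [ZMod.natCast_zmod_val]
  simp [M3_1, Matrix.mulVec, dotProduct, Fin.sum_univ_eight]
  ring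

/-- the form as a matrix -/
def M3_2 : Matrix (Fin 8) (Fin 8) (ZMod 3) :=
  !![0, 0, 0, 0, 0, 1, 2, 2;
    0, 0, 1, 0, 0, 0, 1, 2;
    0, 1, 0, 1, 0, 0, 0, 0;
    0, 0, 1, 2, 0, 1, 2, 2;
    0, 0, 0, 0, 2, 2, 0, 1;
    1, 0, 0, 1, 2, 1, 2, 0;
    2, 1, 0, 2, 0, 2, 2, 0;
    2, 2, 0, 2, 1, 0, 0, 0]

lemma M3_2_eq : A3 * T3_2 = M3_2 := by decide

lemma q2_eq (v : Fin 8 → ZMod 3) : ((q2 (v 0).val (v 1).val (v 2).val (v 3).val (v 4).val (v 5).val
    (v 6).val (v 7).val : ℕ) : ZMod 3) = sv v 2 := by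
  obtain ⟨h1, h2, h3, h4, h5, h6, h7, h8⟩ := T3_pow
  have e : sv v 2 = v ⬝ᵥ (M3_2 *ᵥ v) := by
    rw [← M3_2_eq, ← Matrix.mulVec_mulVec]
    unfold sv
    rw [h2]
  rw [e]
  unfold q2
  push_cast
  simp only [ZMod.natCast_zmod_val]
  simp [M3_2, Matrix.mulVec, dotProduct, Fin.sum_univ_eight]
  ring

/-- the form as a matrix -/
def M3_3 : Matrix (Fin 8) (Fin 8) (ZMod 3) :=
  !![0, 0, 1, 0, 0, 2, 2, 0;
    0, 1, 0, 1, 0, 1, 2, 2;
    1, 0, 0, 1, 2, 1, 2, 0;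
    0, 1, 1, 2, 2, 1, 0, 0;
    0, 0, 2, 2, 2, 0, 0, 2;
    2, 1, 1, 1, 0, 0, 1, 2;
    2, 2, 2, 0, 0, 1, 1, 2;
    0, 2, 0, 0, 2, 2, 2, 0]

lemma M3_3_eq : A3 * T3_3 = M3_3 := by decide

lemma q3_eq (v : Fin 8 → ZMod 3) : ((q3 (v 0).val (v 1).val (v 2).val (v 3).val (v 4).val (v 5).val
    (v 6).val (v 7).val : ℕ) : ZMod 3) = sv v 3 := by
  obtain ⟨h1, h2, h3, h4, h5, h6, h7, h8⟩ := T3_pow
  have e : sv v 3 = v ⬝ᵥ (M3_3 *ᵥ v) := by
    rw [← M3_3_eq, ← Matrix.mulVec_mulVec]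
    unfold sv
    rw [h3]
  rw [e]
  unfold q3
  push_cast
  simp only [ZMod.natCast_zmod_val]
  simp [M3_3, Matrix.mulVec, dotProduct, Fin.sum_univ_eight]
  ring

/-- the form as a matrix -/
def M3_4 : Matrix (Fin 8) (Fin 8) (ZMod 3) :=
  !![0, 1, 2, 1, 0, 2, 0, 2;
    1, 0, 1, 1, 2, 0, 1, 0;
    2, 1, 1, 1, 0, 0, 1, 2;
    1, 1, 1, 0, 2, 2, 0, 0;
    0, 2, 0, 2, 1, 2, 2, 1;
    2, 0, 0, 2, 2, 2, 1, 2;
    0, 1, 1, 0, 2, 1, 2, 2;
    2, 0, 2, 0, 1, 2, 2, 2]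

lemma M3_4_eq : A3 * T3_4 = M3_4 := by decide

lemma q4_eq (v : Fin 8 → ZMod 3) : ((q4 (v 0).val (v 1).val (v 2).val (v 3).val (v 4).val (v 5).val
    (v 6).val (v 7).val : ℕ) : ZMod 3) = sv v 4 := by
  obtain ⟨h1, h2, h3, h4, h5, h6, h7, h8⟩ := T3_pow
  have e : sv v 4 = v ⬝ᵥ (M3_4 *ᵥ v) := by
    rw [← M3_4_eq, ← Matrix.mulVec_mulVec]
    unfold sv
    rw [h4]
  rw [e]
  unfold q4
  push_cast
  simp only [ZMod.natCast_zmod_val]
  simp [M3_4, Matrix.mulVec, dotProduct, Fin.sum_univ_eight]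
  ring

/-- the form as a matrix -/
def M3_5 : Matrix (Fin 8) (Fin 8) (ZMod 3) :=
  !![1, 2, 2, 0, 2, 1, 1, 1;
    2, 2, 0, 2, 0, 2, 1, 1;
    2, 0, 0, 2, 2, 2, 1, 2;
    0, 2, 2, 2, 0, 0, 2, 0;
    2, 0, 2, 0, 2, 1, 0, 1;
    1, 2, 2, 0, 1, 0, 2, 2;
    1, 1, 1, 2, 0, 2, 1, 0;
    1, 1, 2, 0, 1, 2, 0, 0]

lemma M3_5_eq : A3 * T3_5 = M3_5 := by decide

lemma q5_eq (v : Fin 8 → ZMod 3) : ((q5 (v 0).val (v 1).val (v 2).val (v 3).val (v 4).val (v 5).val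
    (v 6).val (v 7).val : ℕ) : ZMod 3) = sv v 5 := by
  obtain ⟨h1, h2, h3, h4, h5, h6, h7, h8⟩ := T3_pow
  have e : sv v 5 = v ⬝ᵥ (M3_5 *ᵥ v) := by
    rw [← M3_5_eq, ← Matrix.mulVec_mulVec]
    unfold sv
    rw [h5]
  rw [e]
  unfold q5
  push_cast
  simp only [ZMod.natCast_zmod_val]
  simp [M3_5, Matrix.mulVec, dotProduct, Fin.sum_univ_eight]
  ring

/-- the form as a matrix -/
def M3_6 : Matrix (Fin 8) (Fin 8) (ZMod 3) :=
  !![1, 0, 1, 2, 1, 1, 0, 0;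
    0, 2, 2, 2, 1, 0, 2, 0;
    1, 2, 2, 0, 1, 0, 2, 2;
    2, 2, 0, 1, 1, 1, 1, 2;
    1, 1, 1, 1, 2, 0, 0, 2;
    1, 0, 0, 1, 0, 2, 0, 0;
    0, 2, 2, 1, 0, 0, 1, 1;
    0, 0, 2, 2, 2, 0, 1, 0]

lemma M3_6_eq : A3 * T3_6 = M3_6 := by decide

lemma q6_eq (v : Fin 8 → ZMod 3) : ((q6 (v 0).val (v 1).val (v 2).val (v 3).val (v 4).val (v 5).val
    (v 6).val (v 7).val : ℕ) : ZMod 3) = sv v 6 := by
  obtain ⟨h1, h2, h3, h4, h5, h6, h7, h8⟩ := T3_pow
  have e : sv v 6 = v ⬝ᵥ (M3_6 *ᵥ v) := by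
    rw [← M3_6_eq, ← Matrix.mulVec_mulVec]
    unfold sv
    rw [h6]
  rw [e]
  unfold q6
  push_cast
  simp only [ZMod.natCast_zmod_val]
  simp [M3_6, Matrix.mulVec, dotProduct, Fin.sum_univ_eight]
  ring

/-- the form as a matrix -/
def M3_7 : Matrix (Fin 8) (Fin 8) (ZMod 3) :=
  !![2, 2, 1, 0, 0, 2, 2, 0;
    2, 2, 0, 2, 2, 1, 2, 2;
    1, 0, 0, 1, 0, 2, 0, 0;
    0, 2, 1, 1, 1, 2, 2, 2;
    0, 2, 0, 1, 1, 1, 0, 1;
    2, 1, 2, 2, 1, 1, 2, 0;
    2, 2, 0, 2, 0, 2, 0, 0;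
    0, 2, 0, 2, 1, 0, 0, 1]

lemma M3_7_eq : A3 * T3_7 = M3_7 := by decide

lemma q7_eq (v : Fin 8 → ZMod 3) : ((q7 (v 0).val (v 1).val (v 2).val (v 3).val (v 4).val (v 5).val
    (v 6).val (v 7).val : ℕ) : ZMod 3) = sv v 7 := by
  obtain ⟨h1, h2, h3, h4, h5, h6, h7, h8⟩ := T3_pow
  have e : sv v 7 = v ⬝ᵥ (M3_7 *ᵥ v) := by
    rw [← M3_7_eq, ← Matrix.mulVec_mulVec]
    unfold sv
    rw [h7]
  rw [e]
  unfold q7
  push_cast
  simp only [ZMod.natCast_zmod_val]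
  simp [M3_7, Matrix.mulVec, dotProduct, Fin.sum_univ_eight]
  ring

lemma val_lt3 (x : ZMod 3) : x.val < 3 := ZMod.val_lt x

lemma eq_zero_of_sum {v : Fin 8 → ZMod 3} (h : (v 0).val + (v 1).val + (v 2).val + (v 3).val +
    (v 4).val + (v 5).val + (v 6).val + (v 7).val = 0) : v = 0 := by
  have h' : ∀ i, v i = 0 := by
    intro i
    have : (v i).val = 0 := by fin_cases i <;> simp only [Fin.zero_eta, Fin.mk_one, Fin.reduceFinMk] <;> omega
    exact (ZMod.val_eq_zero _).1 this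
  ext i
  rw [h' i]; rfl

theorem R1 (v : Fin 8 → ZMod 3) (h : ∀ j < 5, sv v j = 0) :
    v = 0 ∨ ∃ ε : ZMod 3, ε ≠ 0 ∧ ∀ m < 16, sv v m = ε * (sg1 m : ZMod 3) := by
  have ht := allV_spec test1_all (val_lt3 (v 0)) (val_lt3 (v 1)) (val_lt3 (v 2)) (val_lt3 (v 3))
    (val_lt3 (v 4)) (val_lt3 (v 5)) (val_lt3 (v 6)) (val_lt3 (v 7))
  unfold test1 at ht
  rw [nz_false (by rw [q0_eq]; exact h 0 (by norm_num)), nz_false (by rw [q1_eq]; exact h 1 (by norm_num)),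
    nz_false (by rw [q2_eq]; exact h 2 (by norm_num)), nz_false (by rw [q3_eq]; exact h 3 (by norm_num)),
    nz_false (by rw [q4_eq]; exact h 4 (by norm_num))] at ht
  simp only [Bool.false_or, Bool.or_eq_true, Bool.and_eq_true] at ht
  have h0 := h 0 (by norm_num)
  have h1 := h 1 (by norm_num)
  have h2 := h 2 (by norm_num)
  have h3 := h 3 (by norm_num)
  have h4 := h 4 (by norm_num)
  rcases ht with (ht | ⟨⟨ha, hb⟩, hc⟩) | ⟨⟨ha, hb⟩, hc⟩
  · exact Or.inl (eq_zero_of_sum (Nat.eq_of_beq_eq_true ht))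
  · right
    have e5 := cast_of_beq ha
    have e6 := cast_of_beq hb
    have e7 := cast_of_beq hc
    rw [q5_eq] at e5
    rw [q6_eq] at e6
    rw [q7_eq] at e7
    refine ⟨1, by decide, sg_of ?_ (by decide)⟩
    intro m hm
    interval_cases m
    · rw [h0]; decide
    · rw [h1]; decide
    · rw [h2]; decide
    · rw [h3]; decide
    · rw [h4]; decide
    · rw [e5]; decide
    · rw [e6]; decide
    · rw [e7]; decide
  · right
    have e5 := cast_of_beq ha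
    have e6 := cast_of_beq hb
    have e7 := cast_of_beq hc
    rw [q5_eq] at e5
    rw [q6_eq] at e6
    rw [q7_eq] at e7
    refine ⟨2, by decide, sg_of ?_ (by decide)⟩
    intro m hm
    interval_cases m
    · rw [h0]; decide
    · rw [h1]; decide
    · rw [h2]; decide
    · rw [h3]; decide
    · rw [h4]; decide
    · rw [e5]; decide
    · rw [e6]; decide
    · rw [e7]; decide

theorem R2 (v : Fin 8 → ZMod 3) (h : ∀ j < 6, 1 ≤ j → sv v j = 0) :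
    v = 0 ∨ ∃ ε : ZMod 3, ε ≠ 0 ∧ ∀ m < 16, sv v m = ε * (sg2 m : ZMod 3) := by
  have ht := allV_spec test2_all (val_lt3 (v 0)) (val_lt3 (v 1)) (val_lt3 (v 2)) (val_lt3 (v 3))
    (val_lt3 (v 4)) (val_lt3 (v 5)) (val_lt3 (v 6)) (val_lt3 (v 7))
  unfold test2 at ht
  rw [nz_false (by rw [q1_eq]; exact h 1 (by norm_num) (by norm_num)),
    nz_false (by rw [q2_eq]; exact h 2 (by norm_num) (by norm_num)),
    nz_false (by rw [q3_eq]; exact h 3 (by norm_num) (by norm_num)),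
    nz_false (by rw [q4_eq]; exact h 4 (by norm_num) (by norm_num)),
    nz_false (by rw [q5_eq]; exact h 5 (by norm_num) (by norm_num))] at ht
  simp only [Bool.false_or, Bool.or_eq_true, Bool.and_eq_true] at ht
  have h1 := h 1 (by norm_num) (by norm_num)
  have h2 := h 2 (by norm_num) (by norm_num)
  have h3 := h 3 (by norm_num) (by norm_num)
  have h4 := h 4 (by norm_num) (by norm_num)
  have h5 := h 5 (by norm_num) (by norm_num)
  rcases ht with (ht | ⟨⟨ha, hb⟩, hc⟩) | ⟨⟨ha, hb⟩, hc⟩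
  · exact Or.inl (eq_zero_of_sum (Nat.eq_of_beq_eq_true ht))
  · right
    have e0 := cast_of_beq ha
    have e6 := cast_of_beq hb
    have e7 := cast_of_beq hc
    rw [q0_eq] at e0
    rw [q6_eq] at e6
    rw [q7_eq] at e7
    refine ⟨1, by decide, sg_of ?_ (by decide)⟩
    intro m hm
    interval_cases m
    · rw [e0]; decide
    · rw [h1]; decide
    · rw [h2]; decide
    · rw [h3]; decide
    · rw [h4]; decide
    · rw [h5]; decide
    · rw [e6]; decide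
    · rw [e7]; decide
  · right
    have e0 := cast_of_beq ha
    have e6 := cast_of_beq hb
    have e7 := cast_of_beq hc
    rw [q0_eq] at e0
    rw [q6_eq] at e6
    rw [q7_eq] at e7
    refine ⟨2, by decide, sg_of ?_ (by decide)⟩
    intro m hm
    interval_cases m
    · rw [e0]; decide
    · rw [h1]; decide
    · rw [h2]; decide
    · rw [h3]; decide
    · rw [h4]; decide
    · rw [h5]; decide
    · rw [e6]; decide
    · rw [e7]; decide

theorem Ca {v c : Fin 8 → ZMod 3} {ε : ZMod 3} (hε : ε ≠ 0)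
    (hs : ∀ m < 16, sv v m = ε * (sg1 m : ZMod 3))
    (hl0 : kc c v ⬝ᵥ (A3 *ᵥ ((T3_1 ^ 0) *ᵥ v)) = 0)
    (hl1 : kc c v ⬝ᵥ (A3 *ᵥ ((T3_1 ^ 1) *ᵥ v)) = 0)
    (hl2 : kc c v ⬝ᵥ (A3 *ᵥ ((T3_1 ^ 2) *ᵥ v)) = 0)
    (hq : kc c v ⬝ᵥ (A3 *ᵥ ((T3_1 ^ 0) *ᵥ kc c v)) = 0) :
    c 3 = 0 ∧ c 4 = 0 ∧ c 5 = 0 ∧ c 6 = 0 ∧ c 7 = 0 := by
  have l0 : ((testal0 (c 0).val (c 1).val (c 2).val (c 3).val (c 4).val (c 5).val
      (c 6).val (c 7).val : ℕ) : ZMod 3) = 0 := by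
    rw [expand1, Finset.sum_congr rfl fun i _ => by rw [hs _ (by omega)]] at hl0
    have e : ε * ∑ i : Fin 8, c i * (sg1 ((i : ℕ) + 0) : ZMod 3) = 0 := by
      rw [← hl0, Finset.mul_sum]
      exact Finset.sum_congr rfl fun i _ => by ring
    have e2 := (mul_eq_zero.1 e).resolve_left hε
    rw [← e2]
    unfold testal0
    push_cast
    simp only [ZMod.natCast_zmod_val]
    simp [Fin.sum_univ_eight, sg1]
    try ring
  have l1 : ((testal1 (c 0).val (c 1).val (c 2).val (c 3).val (c 4).val (c 5).val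
      (c 6).val (c 7).val : ℕ) : ZMod 3) = 0 := by
    rw [expand1, Finset.sum_congr rfl fun i _ => by rw [hs _ (by omega)]] at hl1
    have e : ε * ∑ i : Fin 8, c i * (sg1 ((i : ℕ) + 1) : ZMod 3) = 0 := by
      rw [← hl1, Finset.mul_sum]
      exact Finset.sum_congr rfl fun i _ => by ring
    have e2 := (mul_eq_zero.1 e).resolve_left hε
    rw [← e2]
    unfold testal1
    push_cast
    simp only [ZMod.natCast_zmod_val]
    simp [Fin.sum_univ_eight, sg1]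
    try ring
  have l2 : ((testal2 (c 0).val (c 1).val (c 2).val (c 3).val (c 4).val (c 5).val
      (c 6).val (c 7).val : ℕ) : ZMod 3) = 0 := by
    rw [expand1, Finset.sum_congr rfl fun i _ => by rw [hs _ (by omega)]] at hl2
    have e : ε * ∑ i : Fin 8, c i * (sg1 ((i : ℕ) + 2) : ZMod 3) = 0 := by
      rw [← hl2, Finset.mul_sum]
      exact Finset.sum_congr rfl fun i _ => by ring
    have e2 := (mul_eq_zero.1 e).resolve_left hε
    rw [← e2]
    unfold testal2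
    push_cast
    simp only [ZMod.natCast_zmod_val]
    simp [Fin.sum_univ_eight, sg1]
    try ring
  have lq : ((testaq (c 0).val (c 1).val (c 2).val (c 3).val (c 4).val (c 5).val
      (c 6).val (c 7).val : ℕ) : ZMod 3) = 0 := by
    rw [expand2, Finset.sum_congr rfl fun i _ => Finset.sum_congr rfl fun j _ => by
      rw [hs _ (by omega)]] at hq
    have e : ε * ∑ i : Fin 8, ∑ j : Fin 8, c i * c j * (sg1 ((i : ℕ) + (j : ℕ) + 0) : ZMod 3) = 0 := by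
      rw [← hq, Finset.mul_sum]
      refine Finset.sum_congr rfl fun i _ => ?_
      rw [Finset.mul_sum]
      exact Finset.sum_congr rfl fun j _ => by ring
    have e2 := (mul_eq_zero.1 e).resolve_left hε
    rw [← e2]
    unfold testaq
    push_cast
    simp only [ZMod.natCast_zmod_val]
    simp [Fin.sum_univ_eight, sg1]
    try ring
  have ht := allV_spec testa_all (val_lt3 (c 0)) (val_lt3 (c 1)) (val_lt3 (c 2)) (val_lt3 (c 3))
    (val_lt3 (c 4)) (val_lt3 (c 5)) (val_lt3 (c 6)) (val_lt3 (c 7))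
  unfold testa at ht
  rw [nz_false l0, nz_false l1, nz_false l2, nz_false lq] at ht
  simp only [Bool.false_or] at ht
  have h0 := Nat.eq_of_beq_eq_true ht
  refine ⟨?_, ?_, ?_, ?_, ?_⟩ <;> rw [← ZMod.val_eq_zero] <;> omega

theorem Cb {v c : Fin 8 → ZMod 3} {ε : ZMod 3} (hε : ε ≠ 0)
    (hs : ∀ m < 16, sv v m = ε * (sg1 m : ZMod 3))
    (hl0 : kc c v ⬝ᵥ (A3 *ᵥ ((T3_1 ^ 0) *ᵥ v)) = 0)
    (hl1 : kc c v ⬝ᵥ (A3 *ᵥ ((T3_1 ^ 1) *ᵥ v)) = 0)
    (hl2 : kc c v ⬝ᵥ (A3 *ᵥ ((T3_1 ^ 2) *ᵥ v)) = 0)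
    (hl3 : kc c v ⬝ᵥ (A3 *ᵥ ((T3_1 ^ 3) *ᵥ v)) = 0)
    (hq : kc c v ⬝ᵥ (A3 *ᵥ ((T3_1 ^ 1) *ᵥ kc c v)) = 0) :
    c 2 = 0 ∧ c 3 = 0 ∧ c 4 = 0 ∧ c 5 = 0 ∧ c 6 = 0 ∧ c 7 = 0 := by
  have l0 : ((testbl0 (c 0).val (c 1).val (c 2).val (c 3).val (c 4).val (c 5).val
      (c 6).val (c 7).val : ℕ) : ZMod 3) = 0 := by
    rw [expand1, Finset.sum_congr rfl fun i _ => by rw [hs _ (by omega)]] at hl0
    have e : ε * ∑ i : Fin 8, c i * (sg1 ((i : ℕ) + 0) : ZMod 3) = 0 := by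
      rw [← hl0, Finset.mul_sum]
      exact Finset.sum_congr rfl fun i _ => by ring
    have e2 := (mul_eq_zero.1 e).resolve_left hε
    rw [← e2]
    unfold testbl0
    push_cast
    simp only [ZMod.natCast_zmod_val]
    simp [Fin.sum_univ_eight, sg1]
    try ring
  have l1 : ((testbl1 (c 0).val (c 1).val (c 2).val (c 3).val (c 4).val (c 5).val
      (c 6).val (c 7).val : ℕ) : ZMod 3) = 0 := by
    rw [expand1, Finset.sum_congr rfl fun i _ => by rw [hs _ (by omega)]] at hl1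
    have e : ε * ∑ i : Fin 8, c i * (sg1 ((i : ℕ) + 1) : ZMod 3) = 0 := by
      rw [← hl1, Finset.mul_sum]
      exact Finset.sum_congr rfl fun i _ => by ring
    have e2 := (mul_eq_zero.1 e).resolve_left hε
    rw [← e2]
    unfold testbl1
    push_cast
    simp only [ZMod.natCast_zmod_val]
    simp [Fin.sum_univ_eight, sg1]
    try ring
  have l2 : ((testbl2 (c 0).val (c 1).val (c 2).val (c 3).val (c 4).val (c 5).val
      (c 6).val (c 7).val : ℕ) : ZMod 3) = 0 := by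
    rw [expand1, Finset.sum_congr rfl fun i _ => by rw [hs _ (by omega)]] at hl2
    have e : ε * ∑ i : Fin 8, c i * (sg1 ((i : ℕ) + 2) : ZMod 3) = 0 := by
      rw [← hl2, Finset.mul_sum]
      exact Finset.sum_congr rfl fun i _ => by ring
    have e2 := (mul_eq_zero.1 e).resolve_left hε
    rw [← e2]
    unfold testbl2
    push_cast
    simp only [ZMod.natCast_zmod_val]
    simp [Fin.sum_univ_eight, sg1]
    try ring
  have l3 : ((testbl3 (c 0).val (c 1).val (c 2).val (c 3).val (c 4).val (c 5).val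
      (c 6).val (c 7).val : ℕ) : ZMod 3) = 0 := by
    rw [expand1, Finset.sum_congr rfl fun i _ => by rw [hs _ (by omega)]] at hl3
    have e : ε * ∑ i : Fin 8, c i * (sg1 ((i : ℕ) + 3) : ZMod 3) = 0 := by
      rw [← hl3, Finset.mul_sum]
      exact Finset.sum_congr rfl fun i _ => by ring
    have e2 := (mul_eq_zero.1 e).resolve_left hε
    rw [← e2]
    unfold testbl3
    push_cast
    simp only [ZMod.natCast_zmod_val]
    simp [Fin.sum_univ_eight, sg1]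
    try ring
  have lq : ((testbq (c 0).val (c 1).val (c 2).val (c 3).val (c 4).val (c 5).val
      (c 6).val (c 7).val : ℕ) : ZMod 3) = 0 := by
    rw [expand2, Finset.sum_congr rfl fun i _ => Finset.sum_congr rfl fun j _ => by
      rw [hs _ (by omega)]] at hq
    have e : ε * ∑ i : Fin 8, ∑ j : Fin 8, c i * c j * (sg1 ((i : ℕ) + (j : ℕ) + 1) : ZMod 3) = 0 := by
      rw [← hq, Finset.mul_sum]
      refine Finset.sum_congr rfl fun i _ => ?_
      rw [Finset.mul_sum]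
      exact Finset.sum_congr rfl fun j _ => by ring
    have e2 := (mul_eq_zero.1 e).resolve_left hε
    rw [← e2]
    unfold testbq
    push_cast
    simp only [ZMod.natCast_zmod_val]
    simp [Fin.sum_univ_eight, sg1]
    try ring
  have ht := allV_spec testb_all (val_lt3 (c 0)) (val_lt3 (c 1)) (val_lt3 (c 2)) (val_lt3 (c 3))
    (val_lt3 (c 4)) (val_lt3 (c 5)) (val_lt3 (c 6)) (val_lt3 (c 7))
  unfold testb at ht
  rw [nz_false l0, nz_false l1, nz_false l2, nz_false l3, nz_false lq] at ht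
  simp only [Bool.false_or] at ht
  have h0 := Nat.eq_of_beq_eq_true ht
  refine ⟨?_, ?_, ?_, ?_, ?_, ?_⟩ <;> rw [← ZMod.val_eq_zero] <;> omega

theorem Cc {v c : Fin 8 → ZMod 3} {ε : ZMod 3} (hε : ε ≠ 0)
    (hs : ∀ m < 16, sv v m = ε * (sg2 m : ZMod 3))
    (hl0 : kc c v ⬝ᵥ (A3 *ᵥ ((T3_1 ^ 0) *ᵥ v)) = 0)
    (hl1 : kc c v ⬝ᵥ (A3 *ᵥ ((T3_1 ^ 1) *ᵥ v)) = 0)
    (hl2 : kc c v ⬝ᵥ (A3 *ᵥ ((T3_1 ^ 2) *ᵥ v)) = 0)
    (hl3 : kc c v ⬝ᵥ (A3 *ᵥ ((T3_1 ^ 3) *ᵥ v)) = 0)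
    (hq : kc c v ⬝ᵥ (A3 *ᵥ ((T3_1 ^ 0) *ᵥ kc c v)) = 0) :
    c 0 = 0 ∧ c 3 = 0 ∧ c 4 = 0 ∧ c 5 = 0 ∧ c 6 = 0 ∧ c 7 = 0 := by
  have l0 : ((testcl0 (c 0).val (c 1).val (c 2).val (c 3).val (c 4).val (c 5).val
      (c 6).val (c 7).val : ℕ) : ZMod 3) = 0 := by
    rw [expand1, Finset.sum_congr rfl fun i _ => by rw [hs _ (by omega)]] at hl0
    have e : ε * ∑ i : Fin 8, c i * (sg2 ((i : ℕ) + 0) : ZMod 3) = 0 := by
      rw [← hl0, Finset.mul_sum]
      exact Finset.sum_congr rfl fun i _ => by ring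
    have e2 := (mul_eq_zero.1 e).resolve_left hε
    rw [← e2]
    unfold testcl0
    push_cast
    simp only [ZMod.natCast_zmod_val]
    simp [Fin.sum_univ_eight, sg2]
    try ring
  have l1 : ((testcl1 (c 0).val (c 1).val (c 2).val (c 3).val (c 4).val (c 5).val
      (c 6).val (c 7).val : ℕ) : ZMod 3) = 0 := by
    rw [expand1, Finset.sum_congr rfl fun i _ => by rw [hs _ (by omega)]] at hl1
    have e : ε * ∑ i : Fin 8, c i * (sg2 ((i : ℕ) + 1) : ZMod 3) = 0 := by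
      rw [← hl1, Finset.mul_sum]
      exact Finset.sum_congr rfl fun i _ => by ring
    have e2 := (mul_eq_zero.1 e).resolve_left hε
    rw [← e2]
    unfold testcl1
    push_cast
    simp only [ZMod.natCast_zmod_val]
    simp [Fin.sum_univ_eight, sg2]
    try ring
  have l2 : ((testcl2 (c 0).val (c 1).val (c 2).val (c 3).val (c 4).val (c 5).val
      (c 6).val (c 7).val : ℕ) : ZMod 3) = 0 := by
    rw [expand1, Finset.sum_congr rfl fun i _ => by rw [hs _ (by omega)]] at hl2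
    have e : ε * ∑ i : Fin 8, c i * (sg2 ((i : ℕ) + 2) : ZMod 3) = 0 := by
      rw [← hl2, Finset.mul_sum]
      exact Finset.sum_congr rfl fun i _ => by ring
    have e2 := (mul_eq_zero.1 e).resolve_left hε
    rw [← e2]
    unfold testcl2
    push_cast
    simp only [ZMod.natCast_zmod_val]
    simp [Fin.sum_univ_eight, sg2]
    try ring
  have l3 : ((testcl3 (c 0).val (c 1).val (c 2).val (c 3).val (c 4).val (c 5).val
      (c 6).val (c 7).val : ℕ) : ZMod 3) = 0 := by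
    rw [expand1, Finset.sum_congr rfl fun i _ => by rw [hs _ (by omega)]] at hl3
    have e : ε * ∑ i : Fin 8, c i * (sg2 ((i : ℕ) + 3) : ZMod 3) = 0 := by
      rw [← hl3, Finset.mul_sum]
      exact Finset.sum_congr rfl fun i _ => by ring
    have e2 := (mul_eq_zero.1 e).resolve_left hε
    rw [← e2]
    unfold testcl3
    push_cast
    simp only [ZMod.natCast_zmod_val]
    simp [Fin.sum_univ_eight, sg2]
    try ring
  have lq : ((testcq (c 0).val (c 1).val (c 2).val (c 3).val (c 4).val (c 5).val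
      (c 6).val (c 7).val : ℕ) : ZMod 3) = 0 := by
    rw [expand2, Finset.sum_congr rfl fun i _ => Finset.sum_congr rfl fun j _ => by
      rw [hs _ (by omega)]] at hq
    have e : ε * ∑ i : Fin 8, ∑ j : Fin 8, c i * c j * (sg2 ((i : ℕ) + (j : ℕ) + 0) : ZMod 3) = 0 := by
      rw [← hq, Finset.mul_sum]
      refine Finset.sum_congr rfl fun i _ => ?_
      rw [Finset.mul_sum]
      exact Finset.sum_congr rfl fun j _ => by ring
    have e2 := (mul_eq_zero.1 e).resolve_left hε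
    rw [← e2]
    unfold testcq
    push_cast
    simp only [ZMod.natCast_zmod_val]
    simp [Fin.sum_univ_eight, sg2]
    try ring
  have ht := allV_spec testc_all (val_lt3 (c 0)) (val_lt3 (c 1)) (val_lt3 (c 2)) (val_lt3 (c 3))
    (val_lt3 (c 4)) (val_lt3 (c 5)) (val_lt3 (c 6)) (val_lt3 (c 7))
  unfold testc at ht
  rw [nz_false l0, nz_false l1, nz_false l2, nz_false l3, nz_false lq] at ht
  simp only [Bool.false_or] at ht
  have h0 := Nat.eq_of_beq_eq_true ht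
  refine ⟨?_, ?_, ?_, ?_, ?_, ?_⟩ <;> rw [← ZMod.val_eq_zero] <;> omega

theorem Cd {v c : Fin 8 → ZMod 3} {ε : ZMod 3} (hε : ε ≠ 0)
    (hs : ∀ m < 16, sv v m = ε * (sg2 m : ZMod 3))
    (hl1 : kc c v ⬝ᵥ (A3 *ᵥ ((T3_1 ^ 1) *ᵥ v)) = 0)
    (hl2 : kc c v ⬝ᵥ (A3 *ᵥ ((T3_1 ^ 2) *ᵥ v)) = 0)
    (hl3 : kc c v ⬝ᵥ (A3 *ᵥ ((T3_1 ^ 3) *ᵥ v)) = 0)
    (hq : kc c v ⬝ᵥ (A3 *ᵥ ((T3_1 ^ 1) *ᵥ kc c v)) = 0) :
    c 3 = 0 ∧ c 4 = 0 ∧ c 5 = 0 ∧ c 6 = 0 ∧ c 7 = 0 := by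
  have l1 : ((testdl1 (c 0).val (c 1).val (c 2).val (c 3).val (c 4).val (c 5).val
      (c 6).val (c 7).val : ℕ) : ZMod 3) = 0 := by
    rw [expand1, Finset.sum_congr rfl fun i _ => by rw [hs _ (by omega)]] at hl1
    have e : ε * ∑ i : Fin 8, c i * (sg2 ((i : ℕ) + 1) : ZMod 3) = 0 := by
      rw [← hl1, Finset.mul_sum]
      exact Finset.sum_congr rfl fun i _ => by ring
    have e2 := (mul_eq_zero.1 e).resolve_left hε
    rw [← e2]
    unfold testdl1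
    push_cast
    simp only [ZMod.natCast_zmod_val]
    simp [Fin.sum_univ_eight, sg2]
    try ring
  have l2 : ((testdl2 (c 0).val (c 1).val (c 2).val (c 3).val (c 4).val (c 5).val
      (c 6).val (c 7).val : ℕ) : ZMod 3) = 0 := by
    rw [expand1, Finset.sum_congr rfl fun i _ => by rw [hs _ (by omega)]] at hl2
    have e : ε * ∑ i : Fin 8, c i * (sg2 ((i : ℕ) + 2) : ZMod 3) = 0 := by
      rw [← hl2, Finset.mul_sum]
      exact Finset.sum_congr rfl fun i _ => by ring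
    have e2 := (mul_eq_zero.1 e).resolve_left hε
    rw [← e2]
    unfold testdl2
    push_cast
    simp only [ZMod.natCast_zmod_val]
    simp [Fin.sum_univ_eight, sg2]
    try ring
  have l3 : ((testdl3 (c 0).val (c 1).val (c 2).val (c 3).val (c 4).val (c 5).val
      (c 6).val (c 7).val : ℕ) : ZMod 3) = 0 := by
    rw [expand1, Finset.sum_congr rfl fun i _ => by rw [hs _ (by omega)]] at hl3
    have e : ε * ∑ i : Fin 8, c i * (sg2 ((i : ℕ) + 3) : ZMod 3) = 0 := by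
      rw [← hl3, Finset.mul_sum]
      exact Finset.sum_congr rfl fun i _ => by ring
    have e2 := (mul_eq_zero.1 e).resolve_left hε
    rw [← e2]
    unfold testdl3
    push_cast
    simp only [ZMod.natCast_zmod_val]
    simp [Fin.sum_univ_eight, sg2]
    try ring
  have lq : ((testdq (c 0).val (c 1).val (c 2).val (c 3).val (c 4).val (c 5).val
      (c 6).val (c 7).val : ℕ) : ZMod 3) = 0 := by
    rw [expand2, Finset.sum_congr rfl fun i _ => Finset.sum_congr rfl fun j _ => by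
      rw [hs _ (by omega)]] at hq
    have e : ε * ∑ i : Fin 8, ∑ j : Fin 8, c i * c j * (sg2 ((i : ℕ) + (j : ℕ) + 1) : ZMod 3) = 0 := by
      rw [← hq, Finset.mul_sum]
      refine Finset.sum_congr rfl fun i _ => ?_
      rw [Finset.mul_sum]
      exact Finset.sum_congr rfl fun j _ => by ring
    have e2 := (mul_eq_zero.1 e).resolve_left hε
    rw [← e2]
    unfold testdq
    push_cast
    simp only [ZMod.natCast_zmod_val]
    simp [Fin.sum_univ_eight, sg2]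
    try ring
  have ht := allV_spec testd_all (val_lt3 (c 0)) (val_lt3 (c 1)) (val_lt3 (c 2)) (val_lt3 (c 3))
    (val_lt3 (c 4)) (val_lt3 (c 5)) (val_lt3 (c 6)) (val_lt3 (c 7))
  unfold testd at ht
  rw [nz_false l1, nz_false l2, nz_false l3, nz_false lq] at ht
  simp only [Bool.false_or] at ht
  have h0 := Nat.eq_of_beq_eq_true ht
  refine ⟨?_, ?_, ?_, ?_, ?_⟩ <;> rw [← ZMod.val_eq_zero] <;> omega

end Run7.h697
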