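import Mathlib

/-!
# Linear algebra over a field: matrices all of whose Krylov systems are independent
-/

set_option autoImplicit false
set_option linter.unusedVariables false

open Matrix

namespace Run7.h697

variable {k : Type*} [Field k] {n : ℕ}

/-- every nonzero vector is cyclic -/
def Krylov (T : Matrix (Fin n) (Fin n) k) : Prop :=
  ∀ v : Fin n → k, v ≠ 0 → LinearIndependent k (fun i : Fin n => (T ^ (i : ℕ)) *ᵥ v)

variable {T : Matrix (Fin n) (Fin n) k}

lemma comm_pow_mulVec {C : Matrix (Fin n) (Fin n) k} (hC : C * T = T * C) (i : ℕ)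
    (v : Fin n → k) : C *ᵥ ((T ^ i) *ᵥ v) = (T ^ i) *ᵥ (C *ᵥ v) := by
  have h : C * T ^ i = T ^ i * C := (Commute.pow_right (show Commute C T from hC) i)
  rw [Matrix.mulVec_mulVec, h, ← Matrix.mulVec_mulVec]

lemma Krylov.span (hT : Krylov T) {v : Fin n → k} (hv : v ≠ 0) :
    Submodule.span k (Set.range fun i : Fin n => (T ^ (i : ℕ)) *ᵥ v) = ⊤ := by
  have h := hT v hv
  exact h.span_eq_top_of_card_eq_finrank' (by simp)

lemma Krylov.eq_zero_of_mulVec (hT : Krylov T) {C : Matrix (Fin n) (Fin n) k}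
    (hC : C * T = T * C) {v : Fin n → k} (hv : v ≠ 0) (h : C *ᵥ v = 0) : C = 0 := by
  have h1 : ∀ w : Fin n → k, C *ᵥ w = 0 := by
    intro w
    have hw : w ∈ Submodule.span k (Set.range fun i : Fin n => (T ^ (i : ℕ)) *ᵥ v) := by
      rw [hT.span hv]; trivial
    have h2 : Submodule.span k (Set.range fun i : Fin n => (T ^ (i : ℕ)) *ᵥ v) ≤
        LinearMap.ker (Matrix.mulVecLin C) := by
      rw [Submodule.span_le]
      rintro _ ⟨i, rfl⟩
      simp only [SetLike.mem_coe, LinearMap.mem_ker, Matrix.mulVecLin_apply]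
      rw [comm_pow_mulVec hC, h, Matrix.mulVec_zero]
    exact h2 hw
  ext i j
  have := congrFun (h1 (Pi.single j 1)) i
  simpa using this

lemma Krylov.isUnit_det (hT : Krylov T) {C : Matrix (Fin n) (Fin n) k}
    (hC : C * T = T * C) (h : C ≠ 0) : C.det ≠ 0 := by
  intro h0
  obtain ⟨v, hv, h1⟩ := Matrix.exists_mulVec_eq_zero_iff.2 h0
  exact h (hT.eq_zero_of_mulVec hC hv h1)

lemma Krylov.eq_sum (hT : Krylov T) (hn : 0 < n) {C : Matrix (Fin n) (Fin n) k}
    (hC : C * T = T * C) : ∃ c : Fin n → k, C = ∑ i, c i • T ^ (i : ℕ) := by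
  set v : Fin n → k := Pi.single ⟨0, hn⟩ 1 with hv
  have hv0 : v ≠ 0 := by
    intro h
    have := congrFun h ⟨0, hn⟩
    simp [hv] at this
  have hw : C *ᵥ v ∈ Submodule.span k (Set.range fun i : Fin n => (T ^ (i : ℕ)) *ᵥ v) := by
    rw [hT.span hv0]; trivial
  obtain ⟨c, hc⟩ := (Submodule.mem_span_range_iff_exists_fun k).1 hw
  refine ⟨c, ?_⟩
  have h1 : (C - ∑ i, c i • T ^ (i : ℕ)) * T = T * (C - ∑ i, c i • T ^ (i : ℕ)) := by
    rw [Matrix.sub_mul, Matrix.mul_sub, hC]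
    congr 1
    rw [Finset.sum_mul, Finset.mul_sum]
    refine Finset.sum_congr rfl fun i _ => ?_
    rw [Matrix.smul_mul, Matrix.mul_smul, ← pow_succ, ← pow_succ']
  have h2 : (C - ∑ i, c i • T ^ (i : ℕ)) *ᵥ v = 0 := by
    rw [Matrix.sub_mulVec, ← hc, sub_eq_zero, Matrix.sum_mulVec]
    refine Finset.sum_congr rfl fun i _ => ?_
    rw [Matrix.smul_mulVec]
  have := hT.eq_zero_of_mulVec h1 hv0 h2
  exact sub_eq_zero.1 this

/-- self-adjointness of the commutant -/
lemma Krylov.selfAdj (hT : Krylov T) (hn : 0 < n) {A : Matrix (Fin n) (Fin n) k}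
    (hA : A * T = Tᵀ * A) {C : Matrix (Fin n) (Fin n) k}
    (hC : C * T = T * C) : A * C = Cᵀ * A := by
  obtain ⟨c, rfl⟩ := hT.eq_sum hn hC
  have h : ∀ i : ℕ, A * T ^ i = (Tᵀ) ^ i * A := by
    intro i
    induction i with
    | zero => simp
    | succ i ih => rw [pow_succ, ← Matrix.mul_assoc, ih, Matrix.mul_assoc, hA, ← Matrix.mul_assoc,
        ← pow_succ]
  rw [Matrix.transpose_sum, Finset.mul_sum, Finset.sum_mul]
  refine Finset.sum_congr rfl fun i _ => ?_
  rw [Matrix.mul_smul, h, Matrix.transpose_smul, Matrix.transpose_pow, Matrix.smul_mul]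

lemma Krylov.eq_one_or (hT : Krylov T) {C : Matrix (Fin n) (Fin n) k}
    (hC : C * T = T * C) (h : C * C = 1) : C = 1 ∨ C = -1 := by
  by_cases h1 : C - 1 = 0
  · left; exact sub_eq_zero.1 h1
  · right
    have h2 : (C - 1) * T = T * (C - 1) := by rw [Matrix.sub_mul, Matrix.mul_sub, hC]; simp
    have h3 := hT.isUnit_det h2 h1
    have h4 : (C - 1) * (C + 1) = 0 := by
      rw [Matrix.sub_mul, Matrix.mul_add, Matrix.mul_add, h]; simp; abel
    have h5 : IsUnit (C - 1) := (Matrix.isUnit_iff_isUnit_det _).2 (isUnit_iff_ne_zero.2 h3)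
    have h6 : C + 1 = 0 := by
      have := h5.mul_left_cancel (show (C - 1) * (C + 1) = (C - 1) * 0 by rw [h4, Matrix.mul_zero])
      exact this
    exact eq_neg_of_add_eq_zero_left h6

lemma Krylov.det_ne (hT : Krylov T) (hn : 2 ≤ n) : T.det ≠ 0 := by
  intro h0
  obtain ⟨v, hv, h1⟩ := Matrix.exists_mulVec_eq_zero_iff.2 h0
  have := (hT v hv).ne_zero ⟨1, by omega⟩
  apply this
  simpa using h1

end Run7.h697
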