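import Pool.Agent.Run7.h697.Red
import Pool.Agent.Run7.h697.Res

/-!
# The element `Γ`
-/

set_option autoImplicit false
set_option linter.unusedVariables false

open Matrix

namespace Run7.h697

variable {p : ℕ} [hp : Fact p.Prime] {n : ℕ}

/-- the data defining the representation -/
structure Datum (p n : ℕ) [Fact p.Prime] where
  /-- first symmetric matrix -/
  A : Matrix (Fin n) (Fin n) ℚ_[p]
  /-- second symmetric matrix -/
  B : Matrix (Fin n) (Fin n) ℚ_[p]
  hA : MInt A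
  hB : MInt B
  symA : Aᵀ = A
  symB : Bᵀ = B
  hn : 2 ≤ n
  krylov : Krylov (mred B * mred A)

/-- integral inverse -/
lemma exists_int_inv {a : Matrix (Fin n) (Fin n) ℚ_[p]} (ha : MInt a) (h : (mred a).det ≠ 0) :
    ∃ a', MInt a' ∧ a * a' = 1 ∧ a' * a = 1 := by
  classical
  set b : Matrix (Fin n) (Fin n) ℤ_[p] := fun i j => toInt (a i j) (ha i j) with hb
  have h1 : a = b.map (PadicInt.Coe.ringHom (p := p)) := by
    ext i j; rfl
  have h2 : a.det = ((b.det : ℤ_[p]) : ℚ_[p]) := by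
    rw [h1, ← RingHom.mapMatrix_apply, ← RingHom.map_det]; rfl
  have h3 : ‖a.det‖ = 1 := by
    apply norm_eq_one_of_red_ne
    rw [(red_det ha).2]; exact h
  have h4 : IsUnit b.det := by
    rw [PadicInt.isUnit_iff]
    rw [h2] at h3
    exact h3
  have h5 := Matrix.mul_nonsing_inv b h4
  have h6 := Matrix.nonsing_inv_mul b h4
  refine ⟨(b⁻¹).map (PadicInt.Coe.ringHom (p := p)), fun i j => ?_, ?_, ?_⟩
  · exact norm_coe_le_one _
  · have := congrArg (fun m => m.map (PadicInt.Coe.ringHom (p := p))) h5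
    simp only [Matrix.map_mul] at this
    rw [h1]
    rw [this]
    exact Matrix.map_one _ (map_zero _) (map_one _)
  · have := congrArg (fun m => m.map (PadicInt.Coe.ringHom (p := p))) h6
    simp only [Matrix.map_mul] at this
    rw [h1]
    rw [this]
    exact Matrix.map_one _ (map_zero _) (map_one _)

/-- invertibility in the order `Bd 0` -/
lemma Bd.exists_inv {m : Mt p n} (h : Bd 0 m) (h1 : (mred m.toBlocks₁₁).det ≠ 0)
    (h2 : (mred m.toBlocks₂₂).det ≠ 0) : ‖m.det‖ = 1 ∧ ∃ m', Bd 0 m' ∧ m * m' = 1 ∧ m' * m = 1 := by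
  have h0 : ‖m.det‖ = 1 := by
    apply norm_eq_one_of_red_ne
    rw [h.red_det]
    exact mul_ne_zero h1 h2
  refine ⟨h0, ?_⟩
  classical
  set b : Matrix (Fin n ⊕ Fin n) (Fin n ⊕ Fin n) ℤ_[p] := fun i j => toInt (m i j) (h.int i j)
    with hb
  have e1 : m = b.map (PadicInt.Coe.ringHom (p := p)) := by
    ext i j; rfl
  have e2 : m.det = ((b.det : ℤ_[p]) : ℚ_[p]) := by
    rw [e1, ← RingHom.mapMatrix_apply, ← RingHom.map_det]; rfl
  have e4 : IsUnit b.det := by
    rw [PadicInt.isUnit_iff]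
    rw [e2] at h0
    exact h0
  have e5 := Matrix.mul_nonsing_inv b e4
  have e6 := Matrix.nonsing_inv_mul b e4
  set m' : Mt p n := (b⁻¹).map (PadicInt.Coe.ringHom (p := p)) with hm'
  have i1 : MInt m' := fun i j => norm_coe_le_one _
  have i2 : m * m' = 1 := by
    have := congrArg (fun m => m.map (PadicInt.Coe.ringHom (p := p))) e5
    simp only [Matrix.map_mul] at this
    rw [e1, hm']
    rw [this]
    exact Matrix.map_one _ (map_zero _) (map_one _)
  have i3 : m' * m = 1 := by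
    have := congrArg (fun m => m.map (PadicInt.Coe.ringHom (p := p))) e6
    simp only [Matrix.map_mul] at this
    rw [e1, hm']
    rw [this]
    exact Matrix.map_one _ (map_zero _) (map_one _)
  refine ⟨m', ?_, i2, i3⟩
  refine bd_of_blocks (fun i j => i1 _ _) (fun i j => i1 _ _) (fun i j => i1 _ _) ?_
  -- block 12
  have j1 : MInt m'.toBlocks₁₂ := fun i j => i1 _ _
  have j2 : MInt m'.toBlocks₂₂ := fun i j => i1 _ _
  rw [← mred_eq_zero_iff j1]
  have j3 : m.toBlocks₁₁ * m'.toBlocks₁₂ + m.toBlocks₁₂ * m'.toBlocks₂₂ = 0 := by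
    have := congrArg Matrix.toBlocks₁₂ i2
    rw [← Matrix.fromBlocks_toBlocks m, ← Matrix.fromBlocks_toBlocks m',
      Matrix.fromBlocks_multiply, Matrix.toBlocks_fromBlocks₁₂] at this
    rw [this]
    ext i j
    simp [Matrix.toBlocks₁₂]
  have j4 : mred m.toBlocks₁₁ * mred m'.toBlocks₁₂ = 0 := by
    have k1 : m.toBlocks₁₁ * m'.toBlocks₁₂ = -(m.toBlocks₁₂ * m'.toBlocks₂₂) :=
      eq_neg_of_add_eq_zero_left j3
    rw [← mred_mul h.int11 j1, k1, mred_neg ((h.top12).int.mul j2), mred_mul h.top12.int j2,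
      (mred_eq_zero_iff h.top12.int).2 h.top12]
    simp
  have j5 : IsUnit (mred m.toBlocks₁₁) :=
    (Matrix.isUnit_iff_isUnit_det _).2 (isUnit_iff_ne_zero.2 h1)
  exact j5.mul_left_cancel (by rw [j4, Matrix.mul_zero])

lemma one_add_blocks {y : Mt p n} (hy : Bd (-1) y) :
    mred (1 + y).toBlocks₁₁ = 1 ∧ mred (1 + y).toBlocks₂₂ = 1 := by
  have hy0 : Bd 0 y := hy.mono (by norm_num)
  obtain ⟨h1, h2⟩ := (bd_neg_one_iff hy0).1 hy
  constructor
  · have : (1 + y).toBlocks₁₁ = 1 + y.toBlocks₁₁ := by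
      ext i j
      simp [Matrix.toBlocks₁₁, Matrix.one_apply]
    rw [this, mred_add mint_one hy0.int11, h1, mred_one, add_zero]
  · have : (1 + y).toBlocks₂₂ = 1 + y.toBlocks₂₂ := by
      ext i j
      simp [Matrix.toBlocks₂₂, Matrix.one_apply]
    rw [this, mred_add mint_one hy0.int22, h2, mred_one, add_zero]

/-- `1 + y` for `y` in the radical -/
lemma one_add_inv {y : Mt p n} (hy : Bd (-1) y) :
    ‖(1 + y).det‖ = 1 ∧ ∃ m', Bd 0 m' ∧ (1 + y) * m' = 1 ∧ m' * (1 + y) = 1 := by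
  have h := one_add_blocks hy
  refine Bd.exists_inv (bd_one.add (hy.mono (by norm_num))) ?_ ?_
  · rw [h.1]; simp
  · rw [h.2]; simp

namespace Datum

variable (D : Datum p n)

/-- the element `Γ` of depth `-1/2` -/
noncomputable def G : Mt p n := Matrix.fromBlocks 0 D.B (((p : ℚ_[p])⁻¹) • D.A) 0

/-- `T = BA` modulo `p` -/
noncomputable def T : Matrix (Fin n) (Fin n) (ZMod p) := mred D.B * mred D.A

lemma detT : D.T.det ≠ 0 := D.krylov.det_ne D.hn

lemma detA : (mred D.A).det ≠ 0 := by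
  have := D.detT
  rw [T, Matrix.det_mul] at this
  exact right_ne_zero_of_mul this

lemma detB : (mred D.B).det ≠ 0 := by
  have := D.detT
  rw [T, Matrix.det_mul] at this
  exact left_ne_zero_of_mul this

lemma norm_p_inv : ‖((p : ℚ_[p])⁻¹)‖ = sq p ^ (2 : ℤ) := by
  have := norm_p_zpow (p := p) (-1)
  simpa using this

lemma bd_G : Bd 1 D.G := by
  intro i j
  rcases i with i | i <;> rcases j with j | j
  · simp only [G, Matrix.fromBlocks_apply₁₁, Matrix.zero_apply, norm_zero]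
    exact (sq_zpow_pos p _).le
  · have := D.hB i j
    simpa [G] using this
  · have := D.hA i j
    simp only [G, Matrix.fromBlocks_apply₂₁, Matrix.smul_apply, smul_eq_mul, norm_mul]
    rw [norm_p_inv]
    calc sq p ^ (2 : ℤ) * ‖D.A i j‖ ≤ sq p ^ (2 : ℤ) * 1 :=
          mul_le_mul_of_nonneg_left this (sq_zpow_pos p _).le
      _ ≤ _ := by rw [mul_one]; exact sq_zpow_le (by simp)
  · simp only [G, Matrix.fromBlocks_apply₂₂, Matrix.zero_apply, norm_zero]
    exact (sq_zpow_pos p _).le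

/-- `Γ` has an inverse of level `-1`. -/
lemma exists_Ginv : ∃ y : Mt p n, Bd (-1) y ∧ D.G * y = 1 ∧ y * D.G = 1 := by
  obtain ⟨a', ha', h1, h2⟩ := exists_int_inv D.hA D.detA
  obtain ⟨b', hb', h3, h4⟩ := exists_int_inv D.hB D.detB
  have hpp : (p : ℚ_[p]) ≠ 0 := p_ne
  refine ⟨Matrix.fromBlocks 0 ((p : ℚ_[p]) • a') b' 0, ?_, ?_, ?_⟩
  · intro i j
    rcases i with i | i <;> rcases j with j | j
    · simp only [Matrix.fromBlocks_apply₁₁, Matrix.zero_apply, norm_zero]
      exact (sq_zpow_pos p _).le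
    · have := ha' i j
      simp only [Matrix.fromBlocks_apply₁₂, Matrix.smul_apply, smul_eq_mul, norm_mul]
      have h5 : ‖(p : ℚ_[p])‖ = sq p ^ (-2 : ℤ) := by simpa using norm_p_zpow (p := p) 1
      rw [h5]
      calc sq p ^ (-2 : ℤ) * ‖a' i j‖ ≤ sq p ^ (-2 : ℤ) * 1 :=
            mul_le_mul_of_nonneg_left this (sq_zpow_pos p _).le
        _ ≤ _ := by rw [mul_one]; exact sq_zpow_le (by simp)
    · have := hb' i j
      simpa using this
    · simp only [Matrix.fromBlocks_apply₂₂, Matrix.zero_apply, norm_zero]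
      exact (sq_zpow_pos p _).le
  · rw [G, Matrix.fromBlocks_multiply]
    simp only [Matrix.zero_mul, Matrix.mul_zero, zero_add, add_zero, Matrix.smul_mul,
      Matrix.mul_smul, h3, h1, smul_smul]
    rw [mul_inv_cancel₀ hpp, one_smul, smul_zero, Matrix.fromBlocks_one]
  · rw [G, Matrix.fromBlocks_multiply]
    simp only [Matrix.zero_mul, Matrix.mul_zero, zero_add, add_zero, Matrix.smul_mul,
      Matrix.mul_smul, h4, h2, smul_smul]
    rw [inv_mul_cancel₀ hpp, one_smul, smul_zero, Matrix.fromBlocks_one]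

lemma norm_det_A : ‖D.A.det‖ = 1 := by
  apply norm_eq_one_of_red_ne
  rw [(red_det D.hA).2]; exact D.detA

lemma norm_det_B : ‖D.B.det‖ = 1 := by
  apply norm_eq_one_of_red_ne
  rw [(red_det D.hB).2]; exact D.detB

lemma norm_det_G : ‖D.G.det‖ = sq p ^ (2 * (n : ℤ)) := by
  have h1 : D.G * D.G = Matrix.fromBlocks (D.B * ((p : ℚ_[p])⁻¹ • D.A)) 0 0
      (((p : ℚ_[p])⁻¹ • D.A) * D.B) := by
    rw [G, Matrix.fromBlocks_multiply]; simp
  have h2 : D.G.det * D.G.det = (((p : ℚ_[p])⁻¹) ^ n * D.A.det * D.B.det) ^ 2 := by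
    rw [← Matrix.det_mul, h1, Matrix.det_fromBlocks_zero₂₁]
    simp only [Matrix.det_mul, Matrix.det_smul, Fintype.card_fin]
    ring
  have h3 : ‖D.G.det‖ * ‖D.G.det‖ = (sq p ^ (2 * (n : ℤ))) * (sq p ^ (2 * (n : ℤ))) := by
    rw [← norm_mul, h2, norm_pow, norm_mul, norm_mul, norm_det_A, norm_det_B, norm_pow,
      norm_p_inv, mul_one, mul_one, pow_two]
    congr 1 <;> rw [← zpow_natCast, ← _root_.zpow_mul]
  exact (mul_self_inj (norm_nonneg _) (sq_zpow_pos p _).le).1 h3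

/-- perturbation of `Γ` -/
lemma exists_pert {r : Mt p n} (hr : Bd 0 r) : ∃ y : Mt p n, Bd (-1) y ∧ (D.G + r) * y = 1 ∧
    y * (D.G + r) = 1 ∧ ‖(D.G + r).det‖ = sq p ^ (2 * (n : ℤ)) := by
  obtain ⟨g', hg', h1, h2⟩ := D.exists_Ginv
  have hy : Bd (-1) (g' * r) := hg'.mul' hr (by norm_num)
  obtain ⟨hd, m', hm', h3, h4⟩ := one_add_inv hy
  have e1 : D.G + r = D.G * (1 + g' * r) := by
    rw [Matrix.mul_add, Matrix.mul_one, ← Matrix.mul_assoc, h1, Matrix.one_mul]
  refine ⟨m' * g', hm'.mul' hg' (by norm_num), ?_, ?_, ?_⟩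
  · rw [e1]
    calc D.G * (1 + g' * r) * (m' * g') = D.G * ((1 + g' * r) * m') * g' := by
          simp only [Matrix.mul_assoc]
      _ = 1 := by rw [h3, Matrix.mul_one, h1]
  · rw [e1]
    calc m' * g' * (D.G * (1 + g' * r)) = m' * (g' * D.G) * (1 + g' * r) := by
          simp only [Matrix.mul_assoc]
      _ = 1 := by rw [h2, Matrix.mul_one, h4]
  · rw [e1, Matrix.det_mul, norm_mul, hd, mul_one, D.norm_det_G]

end Datum

end Run7.h697
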