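import Pool.Agent.Run7.h697.Irr
import Pool.Agent.Run7.h697.Dat

/-!
# The explicit datum
-/

set_option autoImplicit false
set_option linter.unusedVariables false
set_option maxRecDepth 100000

open Matrix

namespace Run7.h697

/-- first integral matrix -/
def A0 : Matrix (Fin 8) (Fin 8) ℤ :=
  !![0, 0, 0, 0, 0, 0, 0, 1;
    0, 0, 0, 0, 0, 0, 1, 0;
    0, 0, 0, 0, 0, 1, 0, 0;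
    0, 0, 0, 1, 0, 0, 0, 0;
    0, 0, 0, 0, 1, 0, 0, 0;
    0, 0, 1, 0, 0, 0, 0, 0;
    0, 1, 0, 0, 0, 0, 0, 0;
    1, 0, 0, 0, 0, 0, 0, 0]

/-- second integral matrix -/
def B0 : Matrix (Fin 8) (Fin 8) ℤ :=
  !![0, 0, 0, 0, 0, 0, 1, -1;
    0, 0, 0, -1, 1, 0, 0, 1;
    0, 0, 0, 1, 0, 0, 1, 0;
    0, -1, 1, -1, 1, 0, 0, 0;
    0, 1, 0, 1, 1, 0, 0, 0;
    0, 0, 0, 0, 0, 1, 0, 0;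
    1, 0, 1, 0, 0, 0, 0, 0;
    -1, 1, 0, 0, 0, 0, 0, 0]

/-- reduction of the first matrix -/
def A3 : Matrix (Fin 8) (Fin 8) (ZMod 3) :=
  !![0, 0, 0, 0, 0, 0, 0, 1;
    0, 0, 0, 0, 0, 0, 1, 0;
    0, 0, 0, 0, 0, 1, 0, 0;
    0, 0, 0, 1, 0, 0, 0, 0;
    0, 0, 0, 0, 1, 0, 0, 0;
    0, 0, 1, 0, 0, 0, 0, 0;
    0, 1, 0, 0, 0, 0, 0, 0;
    1, 0, 0, 0, 0, 0, 0, 0]

/-- reduction of the second matrix -/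
def B3 : Matrix (Fin 8) (Fin 8) (ZMod 3) :=
  !![0, 0, 0, 0, 0, 0, 1, 2;
    0, 0, 0, 2, 1, 0, 0, 1;
    0, 0, 0, 1, 0, 0, 1, 0;
    0, 2, 1, 2, 1, 0, 0, 0;
    0, 1, 0, 1, 1, 0, 0, 0;
    0, 0, 0, 0, 0, 1, 0, 0;
    1, 0, 1, 0, 0, 0, 0, 0;
    2, 1, 0, 0, 0, 0, 0, 0]

/-- a power -/
def T3_1 : Matrix (Fin 8) (Fin 8) (ZMod 3) :=
  !![2, 1, 0, 0, 0, 0, 0, 0;
    1, 0, 0, 2, 1, 0, 0, 0;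
    0, 1, 0, 1, 0, 0, 0, 0;
    0, 0, 0, 2, 1, 1, 2, 0;
    0, 0, 0, 1, 1, 0, 1, 0;
    0, 0, 1, 0, 0, 0, 0, 0;
    0, 0, 0, 0, 0, 1, 0, 1;
    0, 0, 0, 0, 0, 0, 1, 2]

/-- a power -/
def T3_2 : Matrix (Fin 8) (Fin 8) (ZMod 3) :=
  !![2, 2, 0, 2, 1, 0, 0, 0;
    2, 1, 0, 2, 0, 2, 2, 0;
    1, 0, 0, 1, 2, 1, 2, 0;
    0, 0, 1, 2, 0, 1, 2, 2;
    0, 0, 0, 0, 2, 2, 0, 1;
    0, 1, 0, 1, 0, 0, 0, 0;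
    0, 0, 1, 0, 0, 0, 1, 2;
    0, 0, 0, 0, 0, 1, 2, 2]

/-- a power -/
def T3_3 : Matrix (Fin 8) (Fin 8) (ZMod 3) :=
  !![0, 2, 0, 0, 2, 2, 2, 0;
    2, 2, 2, 0, 0, 1, 1, 2;
    2, 1, 1, 1, 0, 0, 1, 2;
    0, 1, 1, 2, 2, 1, 0, 0;
    0, 0, 2, 2, 2, 0, 0, 2;
    1, 0, 0, 1, 2, 1, 2, 0;
    0, 1, 0, 1, 0, 1, 2, 2;
    0, 0, 1, 0, 0, 2, 2, 0]

/-- a power -/
def T3_4 : Matrix (Fin 8) (Fin 8) (ZMod 3) :=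
  !![2, 0, 2, 0, 1, 2, 2, 2;
    0, 1, 1, 0, 2, 1, 2, 2;
    2, 0, 0, 2, 2, 2, 1, 2;
    1, 1, 1, 0, 2, 2, 0, 0;
    0, 2, 0, 2, 1, 2, 2, 1;
    2, 1, 1, 1, 0, 0, 1, 2;
    1, 0, 1, 1, 2, 0, 1, 0;
    0, 1, 2, 1, 0, 2, 0, 2]

/-- a power -/
def T3_5 : Matrix (Fin 8) (Fin 8) (ZMod 3) :=
  !![1, 1, 2, 0, 1, 2, 0, 0;
    1, 1, 1, 2, 0, 2, 1, 0;
    1, 2, 2, 0, 1, 0, 2, 2;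
    0, 2, 2, 2, 0, 0, 2, 0;
    2, 0, 2, 0, 2, 1, 0, 1;
    2, 0, 0, 2, 2, 2, 1, 2;
    2, 2, 0, 2, 0, 2, 1, 1;
    1, 2, 2, 0, 2, 1, 1, 1]

/-- a power -/
def T3_6 : Matrix (Fin 8) (Fin 8) (ZMod 3) :=
  !![0, 0, 2, 2, 2, 0, 1, 0;
    0, 2, 2, 1, 0, 0, 1, 1;
    1, 0, 0, 1, 0, 2, 0, 0;
    2, 2, 0, 1, 1, 1, 1, 2;
    1, 1, 1, 1, 2, 0, 0, 2;
    1, 2, 2, 0, 1, 0, 2, 2;
    0, 2, 2, 2, 1, 0, 2, 0;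
    1, 0, 1, 2, 1, 1, 0, 0]

/-- a power -/
def T3_7 : Matrix (Fin 8) (Fin 8) (ZMod 3) :=
  !![0, 2, 0, 2, 1, 0, 0, 1;
    2, 2, 0, 2, 0, 2, 0, 0;
    2, 1, 2, 2, 1, 1, 2, 0;
    0, 2, 1, 1, 1, 2, 2, 2;
    0, 2, 0, 1, 1, 1, 0, 1;
    1, 0, 0, 1, 0, 2, 0, 0;
    2, 2, 0, 2, 2, 1, 2, 2;
    2, 2, 1, 0, 0, 2, 2, 0]

/-- a power -/
def T3_8 : Matrix (Fin 8) (Fin 8) (ZMod 3) :=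
  !![2, 0, 0, 0, 2, 2, 0, 2;
    0, 2, 2, 2, 1, 2, 1, 0;
    2, 1, 1, 0, 1, 1, 2, 2;
    2, 1, 2, 2, 1, 0, 2, 0;
    2, 0, 1, 1, 1, 1, 1, 2;
    2, 1, 2, 2, 1, 1, 2, 0;
    0, 2, 1, 1, 0, 1, 2, 0;
    0, 0, 2, 2, 2, 2, 0, 2]

lemma T3_one : B3 * A3 = T3_1 := by decide

lemma T3_mul_1 : T3_1 * T3_1 = T3_2 := by decide

lemma T3_mul_2 : T3_2 * T3_1 = T3_3 := by decide

lemma T3_mul_3 : T3_3 * T3_1 = T3_4 := by decide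

lemma T3_mul_4 : T3_4 * T3_1 = T3_5 := by decide

lemma T3_mul_5 : T3_5 * T3_1 = T3_6 := by decide

lemma T3_mul_6 : T3_6 * T3_1 = T3_7 := by decide

lemma T3_mul_7 : T3_7 * T3_1 = T3_8 := by decide

lemma T3_rel : T3_8 + 2 • T3_7 + 2 • T3_5 + T3_4 + 2 • T3_3 + T3_2 + 1 = 0 := by decide

end Run7.h697
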