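import Mathlib

/-!
# Fourier coefficients of representations of `Sp_{2n}(ℚ_p)` attached to partitions
-/

set_option autoImplicit false
set_option linter.unusedVariables false

open Matrix

namespace Run7.h697

/-- `2n × 2n` matrices over `ℚ_p` -/
abbrev Mat (p n : ℕ) [Fact p.Prime] := Matrix (Fin n ⊕ Fin n) (Fin n ⊕ Fin n) ℚ_[p]

/-- the Lie algebra `sp_{2n}(ℚ_p)`: all `Z` with `Zᵀ J + J Z = 0` -/
def spLie (p n : ℕ) [Fact p.Prime] : Submodule ℚ_[p] (Mat p n) where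
  carrier := {Z | Zᵀ * J (Fin n) ℚ_[p] + J (Fin n) ℚ_[p] * Z = 0}
  add_mem' {a b} ha hb := by
    change (a + b)ᵀ * J (Fin n) ℚ_[p] + J (Fin n) ℚ_[p] * (a + b) = 0
    rw [Matrix.transpose_add, Matrix.add_mul, Matrix.mul_add]
    calc _ = (aᵀ * J (Fin n) ℚ_[p] + J (Fin n) ℚ_[p] * a) +
        (bᵀ * J (Fin n) ℚ_[p] + J (Fin n) ℚ_[p] * b) := by abel
      _ = 0 := by rw [show _ = _ from ha, show _ = _ from hb, add_zero]
  zero_mem' := by
    change (0 : Mat p n)ᵀ * J (Fin n) ℚ_[p] + J (Fin n) ℚ_[p] * 0 = 0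
    simp
  smul_mem' c a ha := by
    change (c • a)ᵀ * J (Fin n) ℚ_[p] + J (Fin n) ℚ_[p] * (c • a) = 0
    rw [Matrix.transpose_smul, Matrix.smul_mul, Matrix.mul_smul, ← smul_add,
      show _ = _ from ha, smul_zero]

/-- `(e, h, X)` is an `sl₂`-triple in the Lie algebra `sp_{2n}(ℚ_p)`, with `[h, X] = -2X`. -/
structure IsTriple {p n : ℕ} [Fact p.Prime] (X h e : Mat p n) : Prop where
  memX : X ∈ spLie p n
  memh : h ∈ spLie p n
  meme : e ∈ spLie p n
  eX : e * X - X * e = h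
  he : h * e - e * h = (2 : ℚ_[p]) • e
  hX : h * X - X * h = -((2 : ℚ_[p]) • X)

/-- the `i`-eigenspace `𝔤_i` of `ad h` on `sp_{2n}(ℚ_p)` -/
def gr {p n : ℕ} [Fact p.Prime] (h : Mat p n) (i : ℤ) : Submodule ℚ_[p] (Mat p n) where
  carrier := {Z | Z ∈ spLie p n ∧ h * Z - Z * h = (i : ℚ_[p]) • Z}
  add_mem' {a b} ha hb := ⟨add_mem ha.1 hb.1, by
    rw [smul_add, ← ha.2, ← hb.2, Matrix.mul_add, Matrix.add_mul]; abel⟩
  zero_mem' := ⟨zero_mem _, by rw [Matrix.mul_zero, Matrix.zero_mul, sub_zero, smul_zero]⟩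
  smul_mem' c a ha := ⟨(spLie p n).smul_mem c ha.1, by
    rw [Matrix.mul_smul, Matrix.smul_mul, ← smul_sub, ha.2, smul_comm]⟩

/-- the Lie algebra `⨁_{i ≥ 2} 𝔤_i` of the unipotent group `V_X` -/
noncomputable def nil2 {p n : ℕ} [Fact p.Prime] (h : Mat p n) : Submodule ℚ_[p] (Mat p n) :=
  ⨆ i : ℤ, ⨆ (_ : 2 ≤ i), gr h i

/-- the nilpotent matrix `X` has Jordan blocks of sizes the parts of `q`: for all `j` the rank of
`X ^ j` is the sum of the numbers `max (a - j) 0`, where `a` runs over the parts of `q`. -/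
def HasJordanType {p n : ℕ} [Fact p.Prime] (X : Mat p n) (q : Nat.Partition (2 * n)) : Prop :=
  ∀ j : ℕ, (X ^ j).rank = (q.parts.map fun a => a - j).sum

/-- the representation `π` has a nonzero coefficient attached to the partition `q`:
`Hom_{V_X}(π, ψ_X) ≠ 0` for some nilpotent `X` of Jordan type `q`. -/
def HasCoeff {p n : ℕ} [Fact p.Prime] (ψ : AddChar ℚ_[p] Circle) {V : Type*} [AddCommGroup V]
    [Module ℂ V] (π : Representation ℂ (symplecticGroup (Fin n) ℚ_[p]) V)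
    (q : Nat.Partition (2 * n)) : Prop :=
  ∃ X h e : Mat p n, IsTriple X h e ∧ HasJordanType X q ∧
    ∃ ℓ : V →ₗ[ℂ] ℂ, ℓ ≠ 0 ∧ ∀ Z ∈ nil2 h, ∀ g : symplecticGroup (Fin n) ℚ_[p],
      (g : Mat p n) = IsNilpotent.exp Z → ∀ v : V, ℓ (π g v) = (ψ ((X * Z).trace) : ℂ) * ℓ v

/-- partitions of symplectic type: odd parts have even multiplicity -/
def SpType {N : ℕ} (q : Nat.Partition N) : Prop := ∀ a : ℕ, Odd a → Even (q.parts.count a)

/-- the dominance order, `q ≤ r` -/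
def Dom {N : ℕ} (q r : Nat.Partition N) : Prop :=
  ∀ k : ℕ, ((q.parts.sort (· ≥ ·)).take k).sum ≤ ((r.parts.sort (· ≥ ·)).take k).sum

/-- the set `𝔭^m(π)` -/
def maxPart {p n : ℕ} [Fact p.Prime] (ψ : AddChar ℚ_[p] Circle) {V : Type*} [AddCommGroup V]
    [Module ℂ V] (π : Representation ℂ (symplecticGroup (Fin n) ℚ_[p]) V) :
    Set (Nat.Partition (2 * n)) :=
  {q | SpType q ∧ HasCoeff ψ π q ∧
    ∀ r : Nat.Partition (2 * n), SpType r → Dom q r → r ≠ q → ¬ HasCoeff ψ π r}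

/-- irreducible admissible representations: irreducible, with open stabilisers, and with
finite-dimensional spaces of invariants of all open subgroups -/
structure IrredAdm {p n : ℕ} [Fact p.Prime] {V : Type*} [AddCommGroup V]
    [Module ℂ V] (π : Representation ℂ (symplecticGroup (Fin n) ℚ_[p]) V) : Prop where
  irred : π.IsIrreducible
  smooth : ∀ v : V, IsOpen {g : symplecticGroup (Fin n) ℚ_[p] | π g v = v}
  adm : ∀ K : Subgroup (symplecticGroup (Fin n) ℚ_[p]),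
    IsOpen (K : Set (symplecticGroup (Fin n) ℚ_[p])) →
    Module.Finite ℂ (Representation.invariants (π.comp K.subtype))

end Run7.h697
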