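import Pool.Agent.Run7.h697.Cay

/-!
# Boundedness of the elements supporting invariant vectors
-/

set_option autoImplicit false
set_option linter.unusedVariables false
set_option linter.unusedTactic false

open Matrix

namespace Run7.h697

variable {p : ℕ} [hp : Fact p.Prime] {n : ℕ}

/-- integral vectors -/
def VI (v : Fin n ⊕ Fin n → ℚ_[p]) : Prop := ∀ i, ‖v i‖ ≤ 1

/-- reduction of the first half of a vector -/
noncomputable def vred (v : Fin n ⊕ Fin n → ℚ_[p]) : Fin n → ZMod p := fun i => red (v (Sum.inl i))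

lemma VI.mulVec {m : Mt p n} (hm : Bd 0 m) {v : Fin n ⊕ Fin n → ℚ_[p]} (hv : VI v) :
    VI (m *ᵥ v) := by
  intro i
  rw [Matrix.mulVec, dotProduct]
  refine norm_sum_le_of _ _ zero_le_one fun x _ => ?_
  rw [norm_mul]
  exact mul_le_one₀ (hm.int i x) (norm_nonneg _) (hv x)

lemma vred_mulVec {m : Mt p n} (hm : Bd 0 m) {v : Fin n ⊕ Fin n → ℚ_[p]} (hv : VI v) :
    vred (m *ᵥ v) = mred m.toBlocks₁₁ *ᵥ vred v := by
  ext i
  rw [vred, Matrix.mulVec, dotProduct, red_sum]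
  · rw [Fintype.sum_sum_type, Matrix.mulVec, dotProduct]
    have h1 : ∀ x : Fin n, red (m (Sum.inl i) (Sum.inr x) * v (Sum.inr x)) = 0 := by
      intro x
      have h12 : ‖m (Sum.inl i) (Sum.inr x)‖ < 1 := hm.top12 i x
      rw [red_mul h12.le (hv _), red_eq_zero_of_lt h12, zero_mul]
    rw [Finset.sum_congr rfl fun x _ => h1 x, Finset.sum_const_zero, add_zero]
    refine Finset.sum_congr rfl fun x _ => ?_
    rw [red_mul (hm.int _ _) (hv _)]; rfl
  · intro x _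
    rw [norm_mul]
    exact mul_le_one₀ (hm.int _ _) (norm_nonneg _) (hv x)

/-- weighted bound of vectors -/
def VB (k : ℤ) (v : Fin n ⊕ Fin n → ℚ_[p]) : Prop := ∀ i, ‖v i‖ ≤ sq p ^ (k + dd i)

lemma VB.mono {k l : ℤ} {v : Fin n ⊕ Fin n → ℚ_[p]} (h : VB k v) (hkl : k ≤ l) : VB l v :=
  fun i => (h i).trans (sq_zpow_le (by omega))

lemma VB.mulVec {k l : ℤ} {m : Mt p n} (hm : Bd l m) {v : Fin n ⊕ Fin n → ℚ_[p]} (hv : VB k v) :
    VB (l + k) (m *ᵥ v) := by
  intro i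
  rw [Matrix.mulVec, dotProduct]
  refine norm_sum_le_of _ _ (sq_zpow_pos p _).le fun x _ => ?_
  rw [norm_mul]
  refine (mul_le_mul (hm i x) (hv x) (norm_nonneg _) (sq_zpow_pos p _).le).trans ?_
  rw [← zpow_add₀ (sq_ne p)]
  exact sq_zpow_le (by omega)

/-- bound for a determinant -/
lemma norm_det_le {Y : Mt p n} {e : ℤ} (h : ∀ i j, ‖Y i j‖ ≤ sq p ^ (2 * e)) :
    ‖Y.det‖ ≤ sq p ^ (2 * (n : ℤ) * (2 * e)) := by
  set Y' : Mt p n := ((p : ℚ_[p]) ^ e) • Y with hY'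
  have h1 : MInt Y' := by
    intro i j
    rw [hY', Matrix.smul_apply, smul_eq_mul, norm_mul, norm_p_zpow]
    calc sq p ^ (-(2 * e)) * ‖Y i j‖ ≤ sq p ^ (-(2 * e)) * sq p ^ (2 * e) :=
          mul_le_mul_of_nonneg_left (h i j) (sq_zpow_pos p _).le
      _ = 1 := by rw [← zpow_add₀ (sq_ne p)]; simp
  have h2 := (red_det h1).1
  rw [hY', Matrix.det_smul, norm_mul, norm_pow, norm_p_zpow, Fintype.card_sum, Fintype.card_fin,
      ← zpow_natCast, ← _root_.zpow_mul] at h2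
  have h3 : sq p ^ (2 * (n : ℤ) * (2 * e)) * sq p ^ (-(2 * e) * ((n + n : ℕ) : ℤ)) = 1 := by
    rw [← zpow_add₀ (sq_ne p)]
    convert zpow_zero (sq p) using 2
    push_cast; ring
  have h4 : 0 < sq p ^ (2 * (n : ℤ) * (2 * e)) := sq_zpow_pos p _
  calc ‖Y.det‖ = sq p ^ (2 * (n : ℤ) * (2 * e)) *
        (sq p ^ (-(2 * e) * ((n + n : ℕ) : ℤ)) * ‖Y.det‖) := by rw [← mul_assoc, h3, one_mul]
    _ ≤ sq p ^ (2 * (n : ℤ) * (2 * e)) * 1 := mul_le_mul_of_nonneg_left h2 h4.le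
    _ = _ := mul_one _

lemma det_ne_of_linInd {k : Type*} [Field k] {n : ℕ} {w : Fin n → Fin n → k}
    (h : LinearIndependent k w) : (Matrix.of fun a b => w b a).det ≠ 0 := by
  have h1 : LinearIndependent k (Matrix.of fun a b => w b a).col := h
  rw [Matrix.linearIndependent_cols_iff_isUnit, Matrix.isUnit_iff_isUnit_det] at h1
  exact h1.ne_zero

namespace Datum

variable (D : Datum p n)

lemma smul_sq_bd {r : Mt p n} (hr : Bd 0 r) :
    Bd 0 ((p : ℚ_[p]) • ((D.G + r) * (D.G + r))) ∧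
    mred ((p : ℚ_[p]) • ((D.G + r) * (D.G + r))).toBlocks₁₁ = D.T := by
  have hG1 : Bd 1 (D.G + r) := D.bd_G.add (hr.mono (by norm_num))
  have hp2 : ∀ {k : ℤ} {m : Mt p n}, Bd k m → Bd (k - 2) ((p : ℚ_[p]) • m) := by
    intro k m hm
    have := hm.smul_p 1
    simpa using this
  have hb : Bd 0 ((p : ℚ_[p]) • ((D.G + r) * (D.G + r))) := by
    have := hp2 (hG1.mul hG1)
    exact this.mono (by norm_num)
  refine ⟨hb, ?_⟩
  have hpp : (p : ℚ_[p]) ≠ 0 := p_ne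
  have e1 : (p : ℚ_[p]) • ((D.G + r) * (D.G + r)) = (p : ℚ_[p]) • (D.G * D.G) +
      (p : ℚ_[p]) • (D.G * r + r * D.G + r * r) := by
    rw [← smul_add]; congr 1
    simp only [Matrix.add_mul, Matrix.mul_add]; abel
  have h2 : Bd (-1) ((p : ℚ_[p]) • (D.G * r + r * D.G + r * r)) := by
    have : Bd 1 (D.G * r + r * D.G + r * r) :=
      ((D.bd_G.mul' hr (by norm_num)).add (hr.mul' D.bd_G (by norm_num))).add
        ((hr.mul' hr (by norm_num)))
    have := hp2 this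
    exact this.mono (by norm_num)
  have e2 : (p : ℚ_[p]) • (D.G * D.G) = Matrix.fromBlocks (D.B * D.A) 0 0 (D.A * D.B) := by
    rw [G, Matrix.fromBlocks_multiply, Matrix.fromBlocks_smul]
    simp only [Matrix.zero_mul, Matrix.mul_zero, zero_add, add_zero, Matrix.smul_mul,
      Matrix.mul_smul, smul_smul, smul_zero]
    rw [mul_inv_cancel₀ hpp, one_smul, one_smul]
  have h3 : Bd 0 ((p : ℚ_[p]) • (D.G * D.G)) := by
    have := hp2 (D.bd_G.mul D.bd_G)
    exact this.mono (by norm_num)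
  have e3 : ((p : ℚ_[p]) • ((D.G + r) * (D.G + r))).toBlocks₁₁ =
      ((p : ℚ_[p]) • (D.G * D.G)).toBlocks₁₁ +
      ((p : ℚ_[p]) • (D.G * r + r * D.G + r * r)).toBlocks₁₁ := by
    rw [e1]; rfl
  have h4 := h2.mono (show (-1 : ℤ) ≤ 0 by norm_num)
  rw [e3, mred_add h3.int11 h4.int11, ((bd_neg_one_iff h4).1 h2).1, add_zero, e2,
    Matrix.toBlocks_fromBlocks₁₁, mred_mul D.hB D.hA]
  rfl

lemma fromBlocks_mulVec_inl (a b c d : Matrix (Fin n) (Fin n) ℚ_[p])
    (v : Fin n ⊕ Fin n → ℚ_[p]) (i : Fin n) : (Matrix.fromBlocks a b c d *ᵥ v) (Sum.inl i) =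
      (a *ᵥ (v ∘ Sum.inl)) i + (b *ᵥ (v ∘ Sum.inr)) i := by
  rw [Matrix.fromBlocks_mulVec]; rfl

lemma fromBlocks_mulVec_inr (a b c d : Matrix (Fin n) (Fin n) ℚ_[p])
    (v : Fin n ⊕ Fin n → ℚ_[p]) (i : Fin n) : (Matrix.fromBlocks a b c d *ᵥ v) (Sum.inr i) =
      (c *ᵥ (v ∘ Sum.inl)) i + (d *ᵥ (v ∘ Sum.inr)) i := by
  rw [Matrix.fromBlocks_mulVec]; rfl

lemma int_mulVec {a : Matrix (Fin n) (Fin n) ℚ_[p]} (ha : MInt a) {v : Fin n → ℚ_[p]}
    (hv : ∀ i, ‖v i‖ ≤ 1) (i : Fin n) : ‖(a *ᵥ v) i‖ ≤ 1 ∧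
      red ((a *ᵥ v) i) = (mred a *ᵥ fun j => red (v j)) i := by
  have h : ∀ x ∈ Finset.univ, ‖a i x * v x‖ ≤ 1 := by
    intro x _
    rw [norm_mul]
    exact mul_le_one₀ (ha i x) (norm_nonneg _) (hv x)
  constructor
  · rw [Matrix.mulVec, dotProduct]
    exact norm_sum_le_of _ _ zero_le_one h
  · rw [Matrix.mulVec, dotProduct, red_sum _ _ h, Matrix.mulVec, dotProduct]
    refine Finset.sum_congr rfl fun x _ => ?_
    rw [red_mul (ha i x) (hv x)]; rfl

lemma norm_p_lt : ‖(p : ℚ_[p])‖ < 1 := Padic.norm_p_lt_one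

/-- action of `pΓ₁` on integral vectors -/
lemma pG_mulVec {r : Mt p n} (hr : Bd 0 r) {v : Fin n ⊕ Fin n → ℚ_[p]} (hv : VI v) :
    (∀ i, ‖(((p : ℚ_[p]) • (D.G + r)) *ᵥ v) (Sum.inl i)‖ < 1) ∧
    (∀ i, ‖(((p : ℚ_[p]) • (D.G + r)) *ᵥ v) (Sum.inr i)‖ ≤ 1 ∧
      red ((((p : ℚ_[p]) • (D.G + r)) *ᵥ v) (Sum.inr i)) = (mred D.A *ᵥ vred v) i) := by
  have hpp : (p : ℚ_[p]) ≠ 0 := p_ne
  have e : (((p : ℚ_[p]) • (D.G + r)) *ᵥ v) = ((p : ℚ_[p]) • D.G) *ᵥ v + (p : ℚ_[p]) • (r *ᵥ v) := by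
    rw [smul_add, Matrix.add_mulVec, Matrix.smul_mulVec (p : ℚ_[p]) r]
  have hrv := VI.mulVec hr hv
  have e2 : (p : ℚ_[p]) • D.G = Matrix.fromBlocks 0 ((p : ℚ_[p]) • D.B) D.A 0 := by
    rw [G, Matrix.fromBlocks_smul, smul_smul, mul_inv_cancel₀ hpp, one_smul, smul_zero]
  have small : ∀ x : ℚ_[p], ‖x‖ ≤ 1 → ‖(p : ℚ_[p]) * x‖ < 1 := by
    intro x hx
    rw [norm_mul]
    calc ‖(p : ℚ_[p])‖ * ‖x‖ ≤ ‖(p : ℚ_[p])‖ * 1 := mul_le_mul_of_nonneg_left hx (norm_nonneg _)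
      _ < 1 := by rw [mul_one]; exact norm_p_lt
  have hv1 : ∀ i, ‖(v ∘ Sum.inr) i‖ ≤ 1 := fun i => hv _
  have hv2 : ∀ i, ‖(v ∘ Sum.inl) i‖ ≤ 1 := fun i => hv _
  constructor
  · intro i
    have e3 : (((p : ℚ_[p]) • (D.G + r)) *ᵥ v) (Sum.inl i) =
        (p : ℚ_[p]) * (D.B *ᵥ (v ∘ Sum.inr)) i + (p : ℚ_[p]) * (r *ᵥ v) (Sum.inl i) := by
      rw [e, Pi.add_apply, e2, fromBlocks_mulVec_inl, Matrix.zero_mulVec, Pi.zero_apply, zero_add,
        Matrix.smul_mulVec]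
      rfl
    rw [e3]
    refine lt_of_le_of_lt (Padic.nonarchimedean _ _) (max_lt (small _ ?_) (small _ (hrv _)))
    exact (int_mulVec D.hB hv1 i).1
  · intro i
    have e3 : (((p : ℚ_[p]) • (D.G + r)) *ᵥ v) (Sum.inr i) =
        (D.A *ᵥ (v ∘ Sum.inl)) i + (p : ℚ_[p]) * (r *ᵥ v) (Sum.inr i) := by
      rw [e, Pi.add_apply, e2, fromBlocks_mulVec_inr, Matrix.zero_mulVec, Pi.zero_apply, add_zero]
      rfl
    have h1 := int_mulVec D.hA hv2 i
    have h2 := small _ (hrv (Sum.inr i))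
    rw [e3]
    refine ⟨(Padic.nonarchimedean _ _).trans (max_le h1.1 h2.le), ?_⟩
    rw [red_add h1.1 h2.le, red_eq_zero_of_lt h2, add_zero, h1.2]
    rfl

/-- the Krylov matrix of an integral vector is invertible over the integers -/
lemma krylov_det {r : Mt p n} (hr : Bd 0 r) {v : Fin n ⊕ Fin n → ℚ_[p]} (hv : VI v)
    (hv0 : vred v ≠ 0) :
    ‖(Matrix.of fun a b => Sum.elim
      (fun i : Fin n => ((((p : ℚ_[p]) • ((D.G + r) * (D.G + r))) ^ (i : ℕ)) *ᵥ v) a)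
      (fun i : Fin n => (((p : ℚ_[p]) • (D.G + r)) *ᵥ
        ((((p : ℚ_[p]) • ((D.G + r) * (D.G + r))) ^ (i : ℕ)) *ᵥ v)) a) b : Mt p n).det‖ = 1 := by
  set T1 : Mt p n := (p : ℚ_[p]) • ((D.G + r) * (D.G + r)) with hT1
  obtain ⟨hTb, hTr⟩ := D.smul_sq_bd hr
  have hw : ∀ i : ℕ, VI ((T1 ^ i) *ᵥ v) ∧ vred ((T1 ^ i) *ᵥ v) = (D.T ^ i) *ᵥ vred v := by
    intro i
    induction i with
    | zero => simpa using hv
    | succ i ih =>
      have e : (T1 ^ (i + 1)) *ᵥ v = T1 *ᵥ ((T1 ^ i) *ᵥ v) := by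
        rw [Matrix.mulVec_mulVec, ← pow_succ']
      rw [e]
      refine ⟨VI.mulVec hTb ih.1, ?_⟩
      rw [vred_mulVec hTb ih.1, hTr, ih.2, Matrix.mulVec_mulVec, ← pow_succ']
  set Q : Mt p n := (Matrix.of fun a b => Sum.elim
      (fun i : Fin n => ((T1 ^ (i : ℕ)) *ᵥ v) a)
      (fun i : Fin n => (((p : ℚ_[p]) • (D.G + r)) *ᵥ ((T1 ^ (i : ℕ)) *ᵥ v)) a) b : Mt p n) with hQ
  have q11 : ∀ a i, Q.toBlocks₁₁ a i = ((T1 ^ (i : ℕ)) *ᵥ v) (Sum.inl a) := fun a i => rfl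
  have q21 : ∀ a i, Q.toBlocks₂₁ a i = ((T1 ^ (i : ℕ)) *ᵥ v) (Sum.inr a) := fun a i => rfl
  have q12 : ∀ a i, Q.toBlocks₁₂ a i =
    (((p : ℚ_[p]) • (D.G + r)) *ᵥ ((T1 ^ (i : ℕ)) *ᵥ v)) (Sum.inl a) := fun a i => rfl
  have q22 : ∀ a i, Q.toBlocks₂₂ a i =
    (((p : ℚ_[p]) • (D.G + r)) *ᵥ ((T1 ^ (i : ℕ)) *ᵥ v)) (Sum.inr a) := fun a i => rfl
  have hQb : Bd 0 Q := by
    apply bd_of_blocks
    · intro a i; rw [q11]; exact (hw i).1 _
    · intro a i; rw [q22]; exact ((D.pG_mulVec hr (hw i).1).2 a).1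
    · intro a i; rw [q21]; exact (hw i).1 _
    · intro a i; rw [q12]; exact (D.pG_mulVec hr (hw i).1).1 a
  have hind := D.krylov (vred v) hv0
  have m11 : mred Q.toBlocks₁₁ = Matrix.of fun a (b : Fin n) => ((D.T ^ (b : ℕ)) *ᵥ vred v) a := by
    ext a i
    rw [mred_apply, q11, Matrix.of_apply, ← (hw i).2]; rfl
  have m22 : mred Q.toBlocks₂₂ = mred D.A * mred Q.toBlocks₁₁ := by
    ext a i
    rw [mred_apply, q22, ((D.pG_mulVec hr (hw i).1).2 a).2, (hw i).2, m11]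
    rfl
  have d11 : (mred Q.toBlocks₁₁).det ≠ 0 := by
    rw [m11]; exact det_ne_of_linInd hind
  have d22 : (mred Q.toBlocks₂₂).det ≠ 0 := by
    rw [m22, Matrix.det_mul]
    exact mul_ne_zero D.detA d11
  exact (hQb.exists_inv d11 d22).1

/-- the support of invariant vectors is bounded: matrix form -/
lemma level_bound {r y g : Mt p n} (hr : Bd 0 r) {M : ℤ} (hM : 1 ≤ M) (hy : Bd (M - 1) y)
    (hg : ‖g.det‖ = 1) (h : (D.G + r) * g = g * y) : Bd (2 * (2 * M * (n + 1) + 1)) g := by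
  have hn : 0 < n := lt_of_lt_of_le two_pos D.hn
  obtain ⟨k, g', hk1, hk2, hb1, hb2, hd', hk0, hyy⟩ := D.normalise hr hg hn
  have hg' := hyy y h
  have hpp : (p : ℚ_[p]) ≠ 0 := p_ne
  -- a good vector
  have hvec : ∃ y1 : Fin n ⊕ Fin n → ℚ_[p], VB M y1 ∧ VI (g' *ᵥ y1) ∧ vred (g' *ᵥ y1) ≠ 0 := by
    by_cases ha : mred g'.toBlocks₁₁ = 0
    · have hd : mred g'.toBlocks₂₂ ≠ 0 := by
        intro hd
        exact hb2 ((bd_neg_one_iff hb1).2 ⟨ha, hd⟩)
      have hex : ∃ j, (mred g'.toBlocks₂₂ *ᵥ Pi.single j 1) ≠ 0 := by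
        by_contra hcon
        apply hd
        ext i j
        have := congrFun (not_exists_not.1 hcon j) i
        simpa using this
      obtain ⟨j, hj⟩ := hex
      set ej : Fin n ⊕ Fin n → ℚ_[p] := Pi.single (Sum.inr j) 1 with hej
      have hejI : VI ej := by
        intro i
        rw [hej]
        by_cases hi : i = Sum.inr j
        · rw [hi, Pi.single_eq_same, norm_one]
        · rw [Pi.single_eq_of_ne hi, norm_zero]; exact zero_le_one
      refine ⟨y *ᵥ ej, ?_, ?_⟩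
      · have h1 : VB 0 ej := by
          intro i
          rw [hej]
          by_cases hi : i = Sum.inr j
          · rw [hi, Pi.single_eq_same, norm_one]
            have := sq_zpow_le (p := p) (show (0 : ℤ) ≤ 0 + dd (Sum.inr j : Fin n ⊕ Fin n) by simp)
            simpa using this
          · rw [Pi.single_eq_of_ne hi, norm_zero]; exact (sq_zpow_pos p _).le
        exact (VB.mulVec hy h1).mono (by omega)
      · have e1 : g' *ᵥ (y *ᵥ ej) = (D.G + r) *ᵥ (g' *ᵥ ej) := by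
          rw [Matrix.mulVec_mulVec, ← hg', Matrix.mulVec_mulVec]
        set w := g' *ᵥ ej with hw
        have hwI : VI w := VI.mulVec hb1 hejI
        have hw1 : ∀ i, ‖w (Sum.inl i)‖ < 1 := by
          intro i
          have : w (Sum.inl i) = g' (Sum.inl i) (Sum.inr j) := by
            rw [hw, hej, Matrix.mulVec_single_one]; rfl
          rw [this]
          exact hb1.top12 i j
        have hw2 : ∀ i, w (Sum.inr i) = g' (Sum.inr i) (Sum.inr j) := by
          intro i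
          rw [hw, hej, Matrix.mulVec_single_one]; rfl
        have hrw := VI.mulVec hr hwI
        have hwl : ∀ i, ‖(w ∘ Sum.inl) i‖ ≤ 1 := fun i => hwI _
        have hwr : ∀ i, ‖(w ∘ Sum.inr) i‖ ≤ 1 := fun i => hwI _
        have hrw1 : ∀ i, ‖(r *ᵥ w) (Sum.inl i)‖ < 1 := by
          intro i
          have h1 := congrFun (vred_mulVec hr hwI) i
          have h2 : vred w = 0 := by
            ext i; exact red_eq_zero_of_lt (hw1 i)
          rw [h2, Matrix.mulVec_zero] at h1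
          exact (red_eq_zero_iff (hrw _)).1 h1
        have eL : ∀ i, ((D.G + r) *ᵥ w) (Sum.inl i) =
            (D.B *ᵥ (w ∘ Sum.inr)) i + (r *ᵥ w) (Sum.inl i) := by
          intro i
          rw [Matrix.add_mulVec, Pi.add_apply, G, fromBlocks_mulVec_inl, Matrix.zero_mulVec,
            Pi.zero_apply, zero_add]
        have eR : ∀ i, ((D.G + r) *ᵥ w) (Sum.inr i) =
            (p : ℚ_[p])⁻¹ * (D.A *ᵥ (w ∘ Sum.inl)) i + (r *ᵥ w) (Sum.inr i) := by
          intro i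
          rw [Matrix.add_mulVec, Pi.add_apply, G, fromBlocks_mulVec_inr, Matrix.zero_mulVec,
            Pi.zero_apply, add_zero, Matrix.smul_mulVec]
          rfl
        have hBw : ∀ i, ‖(D.B *ᵥ (w ∘ Sum.inr)) i‖ ≤ 1 ∧ red ((D.B *ᵥ (w ∘ Sum.inr)) i) =
            (mred D.B *ᵥ fun j => red ((w ∘ Sum.inr) j)) i := fun i => int_mulVec D.hB hwr i
        have hI : VI ((D.G + r) *ᵥ w) := by
          intro i
          rcases i with i | i
          · rw [eL]
            exact (Padic.nonarchimedean _ _).trans (max_le (hBw i).1 (hrw _))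
          · rw [eR]
            refine (Padic.nonarchimedean _ _).trans (max_le ?_ (hrw _))
            rw [norm_inv_p_mul]
            have h1 := int_mulVec D.hA hwl i
            rw [← red_eq_zero_iff h1.1, h1.2]
            have : (fun j => red ((w ∘ Sum.inl) j)) = 0 := by
              ext j; exact red_eq_zero_of_lt (hw1 j)
            rw [this, Matrix.mulVec_zero]; rfl
        rw [e1]
        refine ⟨hI, ?_⟩
        have e2 : vred ((D.G + r) *ᵥ w) = mred D.B *ᵥ (mred g'.toBlocks₂₂ *ᵥ Pi.single j 1) := by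
          ext i
          rw [vred, eL, red_add (hBw i).1 (hrw _), red_eq_zero_of_lt (hrw1 i), add_zero, (hBw i).2]
          congr 1
          congr 1
          ext a
          rw [Matrix.mulVec_single_one]
          change red (w (Sum.inr a)) = red (g' (Sum.inr a) (Sum.inr j))
          rw [hw2]
        rw [e2]
        intro h0
        have h1 := Matrix.exists_mulVec_eq_zero_iff (M := mred D.B) |>.1 ⟨_, hj, h0⟩
        exact D.detB h1
    · have hex : ∃ j, (mred g'.toBlocks₁₁ *ᵥ Pi.single j 1) ≠ 0 := by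
        by_contra hcon
        apply ha
        ext i j
        have := congrFun (not_exists_not.1 hcon j) i
        simpa using this
      obtain ⟨j, hj⟩ := hex
      set ej : Fin n ⊕ Fin n → ℚ_[p] := Pi.single (Sum.inl j) 1 with hej
      have hejI : VI ej := by
        intro i
        rw [hej]
        by_cases hi : i = Sum.inl j
        · rw [hi, Pi.single_eq_same, norm_one]
        · rw [Pi.single_eq_of_ne hi, norm_zero]; exact zero_le_one
      refine ⟨ej, ?_, VI.mulVec hb1 hejI, ?_⟩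
      · intro i
        refine (hejI i).trans ?_
        have := sq_zpow_le (p := p) (show (0 : ℤ) ≤ M + dd i by
          rcases i with i | i <;> simp [dd] <;> omega)
        simpa using this
      · rw [vred_mulVec hb1 hejI]
        have : vred ej = Pi.single j 1 := by
          ext i
          rw [vred, hej]
          by_cases hi : i = j
          · rw [hi, Pi.single_eq_same, Pi.single_eq_same, red_one]
          · rw [Pi.single_eq_of_ne hi, Pi.single_eq_of_ne (by simpa using hi), red_zero]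
        rw [this]
        exact hj
  obtain ⟨y1, hy1, hI, hne⟩ := hvec
  set e : ℤ := 2 * M * (n + 1) + 1 with he
  have hdet := D.krylov_det hr hI hne
  set T1 : Mt p n := (p : ℚ_[p]) • ((D.G + r) * (D.G + r)) with hT1
  set y2 : Mt p n := (p : ℚ_[p]) • (y * y) with hy2
  have hpow : ∀ i : ℕ, T1 ^ i * g' = g' * y2 ^ i := by
    have h1 : T1 * g' = g' * y2 := by
      rw [hT1, hy2, Matrix.smul_mul, Matrix.mul_smul, Matrix.mul_assoc, hg', ← Matrix.mul_assoc,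
        hg', Matrix.mul_assoc]
    intro i
    induction i with
    | zero => simp
    | succ i ih => rw [pow_succ, Matrix.mul_assoc, h1, ← Matrix.mul_assoc, ih, Matrix.mul_assoc,
        ← pow_succ]
  set Y' : Mt p n := Matrix.of fun a b => Sum.elim (fun i : Fin n => ((y2 ^ (i : ℕ)) *ᵥ y1) a)
    (fun i : Fin n => (((p : ℚ_[p]) • y) *ᵥ ((y2 ^ (i : ℕ)) *ᵥ y1)) a) b with hY'
  have hfac : (Matrix.of fun a b => Sum.elim
      (fun i : Fin n => ((T1 ^ (i : ℕ)) *ᵥ (g' *ᵥ y1)) a)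
      (fun i : Fin n => (((p : ℚ_[p]) • (D.G + r)) *ᵥ ((T1 ^ (i : ℕ)) *ᵥ (g' *ᵥ y1))) a) b : Mt p n)
      = g' * Y' := by
    ext a b
    rcases b with i | i
    · have h1 : (T1 ^ (i : ℕ)) *ᵥ (g' *ᵥ y1) = g' *ᵥ ((y2 ^ (i : ℕ)) *ᵥ y1) := by
        rw [Matrix.mulVec_mulVec, hpow, Matrix.mulVec_mulVec]
      simp only [Matrix.of_apply, Sum.elim_inl]
      rw [h1]
      rfl
    · have h1 : (T1 ^ (i : ℕ)) *ᵥ (g' *ᵥ y1) = g' *ᵥ ((y2 ^ (i : ℕ)) *ᵥ y1) := by
        rw [Matrix.mulVec_mulVec, hpow, Matrix.mulVec_mulVec]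
      have h2 : ((p : ℚ_[p]) • (D.G + r)) *ᵥ (g' *ᵥ ((y2 ^ (i : ℕ)) *ᵥ y1)) =
          g' *ᵥ (((p : ℚ_[p]) • y) *ᵥ ((y2 ^ (i : ℕ)) *ᵥ y1)) := by
        rw [Matrix.mulVec_mulVec _ ((p : ℚ_[p]) • (D.G + r)), Matrix.smul_mul, hg',
          Matrix.mulVec_mulVec _ g', Matrix.mul_smul]
      simp only [Matrix.of_apply, Sum.elim_inr]
      rw [h1, h2]
      rfl
  rw [hfac, Matrix.det_mul, norm_mul] at hdet
  -- bound for `Y'`
  have hpb : ∀ {k : ℤ} {m : Mt p n}, Bd k m → Bd (k - 2) ((p : ℚ_[p]) • m) := by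
    intro k m hm
    have := hm.smul_p 1
    simpa using this
  have hy2b : Bd (2 * M) y2 := by
    have := hpb (hy.mul hy)
    exact this.mono (by omega)
  have hyb : Bd M ((p : ℚ_[p]) • y) := (hpb hy).mono (by omega)
  have hcol : ∀ i : Fin n, VB (2 * M * (n + 1)) (((y2 ^ (i : ℕ)) *ᵥ y1)) := by
    intro i
    have h1 := VB.mulVec (hy2b.pow i) hy1
    refine h1.mono ?_
    have h2 : ((i : ℕ) : ℤ) ≤ n - 1 := by
      have := i.2
      omega
    have h3 : ((i : ℕ) : ℤ) * (2 * M) ≤ (n - 1) * (2 * M) :=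
      mul_le_mul_of_nonneg_right h2 (by omega)
    nlinarith
  have hcol2 : ∀ i : Fin n, VB (2 * M * (n + 1)) (((p : ℚ_[p]) • y) *ᵥ ((y2 ^ (i : ℕ)) *ᵥ y1)) := by
    intro i
    have h0 := VB.mulVec (hy2b.pow i) hy1
    have h1 := VB.mulVec hyb h0
    refine h1.mono ?_
    have h2 : ((i : ℕ) : ℤ) ≤ n - 1 := by
      have := i.2
      omega
    have h3 : ((i : ℕ) : ℤ) * (2 * M) ≤ (n - 1) * (2 * M) :=
      mul_le_mul_of_nonneg_right h2 (by omega)
    nlinarith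
  have hdd : ∀ a : Fin n ⊕ Fin n, dd a ≤ 1 := by
    intro a; rcases a with a | a <;> simp
  have hY : ‖Y'.det‖ ≤ sq p ^ (2 * (n : ℤ) * (2 * e)) := by
    apply norm_det_le
    intro a b
    rcases b with i | i
    · refine (hcol i a).trans (sq_zpow_le ?_)
      have := hdd a
      have h5 : 0 ≤ 2 * M * ((n : ℤ) + 1) := by positivity
      omega
    · refine (hcol2 i a).trans (sq_zpow_le ?_)
      have := hdd a
      have h5 : 0 ≤ 2 * M * ((n : ℤ) + 1) := by positivity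
      omega
  rw [hd'] at hdet
  -- conclusion
  have hfin : (1 : ℝ) ≤ sq p ^ (-(2 * (n : ℤ) * k)) * sq p ^ (2 * (n : ℤ) * (2 * e)) := by
    rw [← hdet]
    exact mul_le_mul_of_nonneg_left hY (sq_zpow_pos p _).le
  rw [← zpow_add₀ (sq_ne p)] at hfin
  have hk : k ≤ 2 * e := by
    by_contra hlt
    rw [not_le] at hlt
    have : -(2 * (n : ℤ) * k) + 2 * (n : ℤ) * (2 * e) < 0 := by
      have hn' : (0 : ℤ) < n := by exact_mod_cast hn
      nlinarith
    have := sq_zpow_lt (p := p) this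
    rw [zpow_zero] at this
    linarith
  exact hk1.mono hk

end Datum

end Run7.h697
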