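import Pool.Agent.Run7.h697.Fin

/-!
# Boundedness of the elements supporting invariant vectors: group form
-/

set_option autoImplicit false
set_option linter.unusedVariables false

open Matrix

namespace Run7.h697

variable {p : ℕ} [hp : Fact p.Prime] {n : ℕ}

namespace Datum

variable (D : Datum p n) {ψ : AddChar ℚ_[p] Circle}

/-- the support condition implies a factorisation -/
lemma skew_eq_one (hp2 : p ≠ 2) (hψ : Cond ψ) {g : symplecticGroup (Fin n) ℚ_[p]} {M : ℤ}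
    (hM : 1 ≤ M)
    (h : ∀ k : symplecticGroup (Fin n) ℚ_[p], Bd (-1) ((k : Mt p n) - 1) →
      Bd (-M) (((g⁻¹ * k * g : symplecticGroup (Fin n) ℚ_[p]) : Mt p n) - 1) →
      D.chi ψ k = 1) :
    ∃ r y : Mt p n, Bd 0 r ∧ Bd (M - 1) y ∧ (D.G + r) * (g : Mt p n) = (g : Mt p n) * y := by
  set gm : Mt p n := (g : Mt p n) with hgm
  have g1 : gm * st gm = 1 := mul_st g
  have g2 : st gm * gm = 1 := st_mul_self g
  have hΔs : st D.G = -D.G := D.st_G
  have key : ∀ Z : Mt p n, st Z = -Z → Bd (-1) Z → Bd (-M) (st gm * Z * gm) →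
      ψ ((D.G * Z).trace) = 1 := by
    intro Z hZ hb hb'
    obtain ⟨c, W, hW, w1, w2, hc⟩ := exists_cayley hp2 hZ hb
    obtain ⟨c1, c2⟩ := cayley_sub w2
    have hcm : ((g⁻¹ * c * g : symplecticGroup (Fin n) ℚ_[p]) : Mt p n) = st gm * (c : Mt p n) * gm := by
      change ((g⁻¹ : symplecticGroup (Fin n) ℚ_[p]) : Mt p n) * (c : Mt p n) * gm = _
      rw [coe_inv_eq_st]
    set Z' : Mt p n := st gm * Z * gm with hZ'
    have hZ's : st Z' = -Z' := by
      rw [hZ', st_mul, st_mul, st_st, hZ]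
      simp only [Matrix.mul_neg, Matrix.neg_mul, Matrix.mul_assoc]
    -- inverse of the conjugate
    set W' : Mt p n := st gm * W * gm with hW'
    have w1' : (1 - (2 : ℚ_[p])⁻¹ • Z') * W' = 1 := by
      have e : 1 - (2 : ℚ_[p])⁻¹ • Z' = st gm * (1 - (2 : ℚ_[p])⁻¹ • Z) * gm := by
        rw [Matrix.mul_sub, Matrix.sub_mul, Matrix.mul_one, g2, Matrix.mul_smul, Matrix.smul_mul]
      rw [e, hW']
      calc st gm * (1 - (2 : ℚ_[p])⁻¹ • Z) * gm * (st gm * W * gm)
          = st gm * (1 - (2 : ℚ_[p])⁻¹ • Z) * (gm * st gm) * W * gm := by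
            simp only [Matrix.mul_assoc]
        _ = st gm * ((1 - (2 : ℚ_[p])⁻¹ • Z) * W) * gm := by
            rw [g1]; simp only [Matrix.mul_one, Matrix.mul_assoc]
        _ = 1 := by rw [w2, Matrix.mul_one, g2]
    obtain ⟨c1', c2'⟩ := cayley_sub w1'
    have hW'b : Bd 0 W' := by
      obtain ⟨c'', W'', hW'', v1, v2, -⟩ := exists_cayley hp2 hZ's (hb'.mono (by omega))
      have : W' = W'' := by
        calc W' = W'' * (1 - (2 : ℚ_[p])⁻¹ • Z') * W' := by rw [v1, Matrix.one_mul]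
          _ = W'' := by rw [Matrix.mul_assoc, w1', Matrix.mul_one]
      rw [this]; exact hW''
    have hk1 : Bd (-1) ((c : Mt p n) - 1) := by
      rw [hc, c1]; exact hb.mul' hW (by norm_num)
    have hconj : st gm * (c : Mt p n) * gm = (2 : ℚ_[p]) • W' - 1 := by
      rw [hc, Matrix.mul_sub, Matrix.sub_mul, Matrix.mul_one, g2, Matrix.mul_smul,
        Matrix.smul_mul]
    have hk2 : Bd (-M) (((g⁻¹ * c * g : symplecticGroup (Fin n) ℚ_[p]) : Mt p n) - 1) := by
      rw [hcm, hconj, c1']; exact hb'.mul' hW'b (by norm_num)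
    have h1 := h c hk1 hk2
    have h2 : D.chi ψ c = ψ ((D.G * Z).trace) := by
      apply D.chi_of_sub hψ (E := (2 : ℚ_[p])⁻¹ • (Z * Z * W))
      · rw [hc, c2]
      · exact ((hb.mul' hb (by norm_num : (-1 : ℤ) + -1 ≤ -2)).mul' hW (by norm_num)).smul_int
          (norm_two_inv hp2)
    rw [← h2, h1]
  have H : ∀ m : Mt p n, Bd (-1) m → Bd (-1 - (M - 1)) (st gm * m * gm) →
      ‖(D.G * m).trace‖ < 1 := by
    intro m hm hm'
    apply hψ.norm_lt
    intro c hc
    rw [← trace_skew hΔs]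
    set Z : Mt p n := (2 : ℚ_[p])⁻¹ • (m - st m) with hZ
    have e : c * (D.G * Z).trace = (D.G * (c • Z)).trace := by
      rw [Matrix.mul_smul D.G c Z, Matrix.trace_smul c, smul_eq_mul]
    rw [e]
    apply key
    · rw [st_smul, hZ, st_skew, smul_neg]
    · exact ((hm.sub hm.st).smul_int (norm_two_inv hp2)).smul_int hc
    · have e2 : st gm * (c • Z) * gm = c • ((2 : ℚ_[p])⁻¹ • (st gm * m * gm - st (st gm * m * gm))) := by
        rw [hZ, st_mul, st_mul, st_st]
        simp only [Matrix.mul_smul, Matrix.smul_mul, Matrix.mul_sub, Matrix.sub_mul,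
          Matrix.mul_assoc]
      rw [e2]
      rw [show -1 - (M - 1) = -M by ring] at hm'
      exact ((hm'.sub hm'.st).smul_int (norm_two_inv hp2)).smul_int hc
  obtain ⟨r, y, hr, hy, hry⟩ := dual_lemma g1 g2 (M - 1) H
  refine ⟨-r, y, hr.neg, hy, ?_⟩
  have h5 : D.G + -r = gm * y * st gm := by
    conv_lhs => rw [hry]
    abel
  rw [h5, Matrix.mul_assoc, g2, Matrix.mul_one]

/-- boundedness of the support -/
lemma fin_K (hp2 : p ≠ 2) (hψ : Cond ψ) {g : symplecticGroup (Fin n) ℚ_[p]} {M : ℤ}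
    (hM : 1 ≤ M)
    (h : ∀ k : symplecticGroup (Fin n) ℚ_[p], Bd (-1) ((k : Mt p n) - 1) →
      Bd (-M) (((g⁻¹ * k * g : symplecticGroup (Fin n) ℚ_[p]) : Mt p n) - 1) →
      D.chi ψ k = 1) :
    Bd (2 * (2 * M * (n + 1) + 1)) (g : Mt p n) := by
  obtain ⟨r, y, hr, hy, hrr⟩ := D.skew_eq_one hp2 hψ hM h
  exact D.level_bound hr hM hy (by rw [SymplecticGroup.det_eq_one g.2, norm_one]) hrr

end Datum

end Run7.h697
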