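import Pool.Agent.Run7.h697.Fin2

/-!
# Congruence subgroups, finiteness, topology
-/

set_option autoImplicit false
set_option linter.unusedVariables false

open Matrix

namespace Run7.h697

variable {p : ℕ} [hp : Fact p.Prime] {n : ℕ}

/-- the symplectic group over `ℚ_p` -/
noncomputable abbrev GG (p n : ℕ) [Fact p.Prime] := symplecticGroup (Fin n) ℚ_[p]

lemma coe_mul (g h : GG p n) : ((g * h : GG p n) : Mt p n) = (g : Mt p n) * (h : Mt p n) := rfl
lemma coe_one : ((1 : GG p n) : Mt p n) = 1 := rfl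

/-- congruence subgroups -/
noncomputable def KS (p n : ℕ) [Fact p.Prime] (M : ℕ) : Subgroup (GG p n) where
  carrier := {g | Bd (-M) ((g : Mt p n) - 1)}
  mul_mem' {a b} ha hb := by
    have e : ((a * b : GG p n) : Mt p n) - 1 = ((a : Mt p n) - 1) * ((b : Mt p n) - 1) +
        ((a : Mt p n) - 1) + ((b : Mt p n) - 1) := by
      rw [coe_mul]
      simp only [Matrix.sub_mul, Matrix.mul_sub, Matrix.one_mul, Matrix.mul_one]
      abel
    change Bd _ _
    rw [e]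
    exact ((Bd.mul' ha hb (by omega)).add ha).add hb
  one_mem' := by
    change Bd _ _
    rw [coe_one, sub_self]; exact bd_zero _
  inv_mem' {a} ha := by
    change Bd _ _
    rw [coe_inv_eq_st, ← st_one, ← st_sub]
    exact Bd.st ha

lemma mem_KS {M : ℕ} {g : GG p n} : g ∈ KS p n M ↔ Bd (-M) ((g : Mt p n) - 1) := Iff.rfl

lemma KS_mono {M N : ℕ} (h : M ≤ N) : KS p n N ≤ KS p n M := fun g hg =>
  Bd.mono hg (by omega)

lemma KS_bd {M : ℕ} {g : GG p n} (hg : g ∈ KS p n M) : Bd 0 (g : Mt p n) := by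
  have : (g : Mt p n) = ((g : Mt p n) - 1) + 1 := by abel
  rw [this]
  exact (Bd.mono hg (by omega)).add bd_one

/-- the negative of an element -/
noncomputable def ng (g : GG p n) : GG p n := ⟨-(g : Mt p n), SymplecticGroup.neg_mem g.2⟩

lemma coe_ng (g : GG p n) : ((ng g : GG p n) : Mt p n) = -(g : Mt p n) := rfl

lemma ng_ng (g : GG p n) : ng (ng g) = g := Subtype.ext (by rw [coe_ng, coe_ng, neg_neg])

lemma mul_ng (g h : GG p n) : g * ng h = ng (g * h) :=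
  Subtype.ext (by rw [coe_ng, coe_mul, coe_mul, coe_ng, Matrix.mul_neg])

lemma ng_mul (g h : GG p n) : ng g * h = ng (g * h) :=
  Subtype.ext (by rw [coe_ng, coe_mul, coe_mul, coe_ng, Matrix.neg_mul])

/-- finite covering of bounded sets -/
lemma exists_cover (c : ℤ) (M : ℕ) : ∃ S : Finset (GG p n), ∀ g : GG p n, Bd c (g : Mt p n) →
    ∃ s ∈ S, g⁻¹ * s ∈ KS p n M := by
  classical
  -- scaling exponent
  obtain ⟨e, he⟩ : ∃ e : ℕ, c + 1 ≤ 2 * e := ⟨(c + 1).toNat, by omega⟩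
  obtain ⟨N, hN⟩ : ∃ N : ℕ, c + (2 * e - 2 * N + 1) ≤ -M := ⟨(c + 2 * e + 1 + M).toNat, by omega⟩
  have hint : ∀ g : GG p n, Bd c (g : Mt p n) → ∀ i j, ‖((p : ℚ_[p]) ^ (e : ℤ)) * (g : Mt p n) i j‖ ≤ 1 := by
    intro g hg i j
    rw [norm_mul, norm_p_zpow]
    have h1 : ‖(g : Mt p n) i j‖ ≤ sq p ^ (2 * (e : ℤ)) := (hg i j).trans (sq_zpow_le (by
      rcases i with i | i <;> rcases j with j | j <;> simp [dd] <;> omega))
    calc sq p ^ (-(2 * (e : ℤ))) * ‖(g : Mt p n) i j‖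
        ≤ sq p ^ (-(2 * (e : ℤ))) * sq p ^ (2 * (e : ℤ)) :=
          mul_le_mul_of_nonneg_left h1 (sq_zpow_pos p _).le
      _ = 1 := by rw [← zpow_add₀ (sq_ne p)]; simp
  let κ : GG p n → Matrix (Fin n ⊕ Fin n) (Fin n ⊕ Fin n) (ZMod (p ^ N)) := fun g i j =>
    if h : ‖((p : ℚ_[p]) ^ (e : ℤ)) * (g : Mt p n) i j‖ ≤ 1 then
      PadicInt.toZModPow N (toInt _ h) else 0
  have hκ : ∀ g h : GG p n, Bd c (g : Mt p n) → Bd c (h : Mt p n) → κ g = κ h →
      g⁻¹ * h ∈ KS p n M := by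
    intro g h hg hh heq
    have h1 : ∀ i j, ‖(h : Mt p n) i j - (g : Mt p n) i j‖ ≤ sq p ^ (2 * (e : ℤ) - 2 * N) := by
      intro i j
      have e1 := congrFun (congrFun heq i) j
      simp only [κ, dif_pos (hint g hg i j), dif_pos (hint h hh i j)] at e1
      have e2 : PadicInt.toZModPow N (toInt _ (hint h hh i j) - toInt _ (hint g hg i j)) = 0 := by
        rw [map_sub, e1, sub_self]
      rw [← RingHom.mem_ker, PadicInt.ker_toZModPow, ← PadicInt.norm_le_pow_iff_mem_span_pow] at e2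
      have e3 : ‖((p : ℚ_[p]) ^ (e : ℤ)) * (h : Mt p n) i j - ((p : ℚ_[p]) ^ (e : ℤ)) * (g : Mt p n) i j‖
          ≤ (p : ℝ) ^ (-N : ℤ) := e2
      rw [← mul_sub, norm_mul, norm_p_zpow] at e3
      have e4 : sq p ^ (2 * (e : ℤ)) * sq p ^ (-(2 * (e : ℤ))) = 1 := by
        rw [← zpow_add₀ (sq_ne p)]; simp
      calc ‖(h : Mt p n) i j - (g : Mt p n) i j‖
          = sq p ^ (2 * (e : ℤ)) * (sq p ^ (-(2 * (e : ℤ))) * ‖(h : Mt p n) i j - (g : Mt p n) i j‖) := by
            rw [← mul_assoc, e4, one_mul]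
        _ ≤ sq p ^ (2 * (e : ℤ)) * (p : ℝ) ^ (-N : ℤ) :=
            mul_le_mul_of_nonneg_left e3 (sq_zpow_pos p _).le
        _ = _ := by
            rw [← sq_zpow_two, ← zpow_add₀ (sq_ne p)]; congr 1; ring
    have h2 : Bd (2 * e - 2 * N + 1) ((h : Mt p n) - (g : Mt p n)) := by
      intro i j
      refine (h1 i j).trans (sq_zpow_le ?_)
      rcases i with i | i <;> rcases j with j | j <;> simp [dd] <;> omega
    rw [mem_KS, coe_mul, coe_inv_eq_st]
    have h3 : st (g : Mt p n) * (h : Mt p n) - 1 = st (g : Mt p n) * ((h : Mt p n) - (g : Mt p n)) := by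
      rw [Matrix.mul_sub, st_mul_self]
    rw [h3]
    exact hg.st.mul' h2 hN
  have hfin : ∀ t : Matrix (Fin n ⊕ Fin n) (Fin n ⊕ Fin n) (ZMod (p ^ N)), ∃ s : GG p n,
      ∀ g : GG p n, Bd c (g : Mt p n) → κ g = t → g⁻¹ * s ∈ KS p n M := by
    intro t
    by_cases h : ∃ s : GG p n, Bd c (s : Mt p n) ∧ κ s = t
    · obtain ⟨s, hs, hst⟩ := h
      exact ⟨s, fun g hg hgt => hκ g s hg hs (by rw [hgt, hst])⟩
    · exact ⟨1, fun g hg hgt => absurd ⟨g, hg, hgt⟩ h⟩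
  choose rp hrp using hfin
  have : NeZero (p ^ N) := ⟨pow_ne_zero _ hp.out.ne_zero⟩
  have : Finite (Matrix (Fin n ⊕ Fin n) (Fin n ⊕ Fin n) (ZMod (p ^ N))) := by
    unfold Matrix; infer_instance
  have hfr : (Set.range rp).Finite := Set.finite_range rp
  refine ⟨hfr.toFinset, fun g hg => ⟨rp (κ g), ?_, hrp _ g hg rfl⟩⟩
  rw [Set.Finite.mem_toFinset]
  exact ⟨_, rfl⟩

/-- finite index -/
lemma finite_quot (M : ℕ) : Finite ((KS p n 1) ⧸ ((KS p n M).subgroupOf (KS p n 1))) := by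
  classical
  obtain ⟨S, hS⟩ := exists_cover (p := p) (n := n) 0 M
  have h : ∀ q : (KS p n 1) ⧸ ((KS p n M).subgroupOf (KS p n 1)), ∃ s : S,
      ((Quotient.out q : ↥(KS p n 1)) : GG p n)⁻¹ * (s : GG p n) ∈ KS p n M := by
    intro q
    obtain ⟨s, hs, hs2⟩ := hS ((Quotient.out q : ↥(KS p n 1)) : GG p n)
      (KS_bd (Quotient.out q : ↥(KS p n 1)).2)
    exact ⟨⟨s, hs⟩, hs2⟩
  choose f hf using h
  apply Finite.of_injective f
  intro q q' hqq
  rw [← QuotientGroup.out_eq' q, ← QuotientGroup.out_eq' q', QuotientGroup.eq]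
  rw [Subgroup.mem_subgroupOf]
  have h1 := hf q
  have h2 := hf q'
  rw [← hqq] at h2
  have h3 := (KS p n M).mul_mem h1 ((KS p n M).inv_mem h2)
  convert h3 using 1
  push_cast
  group

/-! ### topology -/

lemma continuous_coe : Continuous (fun g : GG p n => (g : Mt p n)) := continuous_subtype_val

lemma isOpen_KS (M : ℕ) : IsOpen ((KS p n M : Subgroup (GG p n)) : Set (GG p n)) := by
  have e : ((KS p n M : Subgroup (GG p n)) : Set (GG p n)) =
      ⋂ i : Fin n ⊕ Fin n, ⋂ j : Fin n ⊕ Fin n,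
        (fun g : GG p n => (g : Mt p n) i j) ⁻¹'
          (Metric.closedBall ((1 : Mt p n) i j) (sq p ^ (-(M : ℤ) + dd i - dd j))) := by
    ext g
    simp only [Set.mem_iInter, Set.mem_preimage, Metric.mem_closedBall, dist_eq_norm]
    rfl
  rw [e]
  refine isOpen_iInter_of_finite fun i => isOpen_iInter_of_finite fun j => ?_
  refine IsOpen.preimage ?_ (IsUltrametricDist.isOpen_closedBall _ (sq_zpow_pos p _).ne')
  exact (continuous_apply_apply i j).comp continuous_coe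

lemma exists_KS_subset {U : Set (GG p n)} (hU : IsOpen U) (h1 : (1 : GG p n) ∈ U) :
    ∃ M : ℕ, ∀ g ∈ KS p n M, g ∈ U := by
  obtain ⟨V, hV, rfl⟩ := isOpen_induced_iff.1 hU
  have hV1 : (1 : Mt p n) ∈ V := h1
  have hV' : @IsOpen (Fin n ⊕ Fin n → Fin n ⊕ Fin n → ℚ_[p]) _ V := hV
  obtain ⟨ε, hε, hball⟩ := Metric.isOpen_iff.1 hV' (1 : Mt p n) hV1
  obtain ⟨M, hM⟩ := exists_pow_lt_of_lt_one hε (inv_lt_one_of_one_lt₀ (one_lt_sq p))
  refine ⟨M + 1, fun g hg => hball ?_⟩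
  change dist (α := Fin n ⊕ Fin n → Fin n ⊕ Fin n → ℚ_[p]) (g : Mt p n) (1 : Mt p n) < ε
  have h2 : ∀ i j, dist ((g : Mt p n) i j) ((1 : Mt p n) i j) < ε := by
    intro i j
    rw [dist_eq_norm]
    refine lt_of_le_of_lt (hg i j) (lt_of_le_of_lt ?_ hM)
    rw [inv_pow, ← zpow_natCast, ← _root_.zpow_neg]
    refine sq_zpow_le ?_
    rcases i with i | i <;> rcases j with j | j <;> simp [dd]
  exact (dist_pi_lt_iff hε).2 fun i => (dist_pi_lt_iff hε).2 fun j => h2 i j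

end Run7.h697
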