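import Pool.Agent.Run7.h697.Grp

/-!
# The compactly induced representation
-/

set_option autoImplicit false
set_option linter.unusedVariables false

open Matrix

namespace Run7.h697

variable {p : ℕ} [hp : Fact p.Prime] {n : ℕ}

namespace Datum

variable (D : Datum p n) {ψ : AddChar ℚ_[p] Circle}

lemma chi_mul (hψ : Cond ψ) {g h : GG p n} (hg : g ∈ KS p n 1) (hh : h ∈ KS p n 1) :
    D.chi ψ (g * h) = D.chi ψ g * D.chi ψ h := by
  have e : ((g * h : GG p n) : Mt p n) - 1 = (((g : Mt p n) - 1) + ((h : Mt p n) - 1)) +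
      ((g : Mt p n) - 1) * ((h : Mt p n) - 1) := by
    rw [coe_mul]
    simp only [Matrix.sub_mul, Matrix.mul_sub, Matrix.one_mul, Matrix.mul_one]
    abel
  rw [D.chi_of_sub hψ e (Bd.mul' hg hh (by norm_num)), Matrix.mul_add, Matrix.trace_add,
    AddChar.map_add_eq_mul]
  rfl

lemma chi_one : D.chi ψ 1 = 1 := by
  rw [chi, coe_one, sub_self, Matrix.mul_zero, Matrix.trace_zero, AddChar.map_zero_eq_one]

lemma chi_inv (hψ : Cond ψ) {g : GG p n} (hg : g ∈ KS p n 1) :
    D.chi ψ g⁻¹ = (D.chi ψ g)⁻¹ := by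
  have := D.chi_mul hψ hg ((KS p n 1).inv_mem hg)
  rw [mul_inv_cancel, D.chi_one] at this
  exact (inv_eq_of_mul_eq_one_right this.symm).symm

lemma chi_triv (hψ : Cond ψ) {M : ℕ} (hM : 2 ≤ M) {g : GG p n} (hg : g ∈ KS p n M) :
    D.chi ψ g = 1 := by
  rw [chi]
  exact hψ.triv _ ((D.bd_G.mul (show Bd (-2) _ from Bd.mono hg (by omega))).trace_lt (by norm_num))

/-- the space of the representation -/
noncomputable def Sp (ψ : AddChar ℚ_[p] Circle) : Submodule ℂ (GG p n → ℂ) where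
  carrier := {f | (∀ k ∈ KS p n 1, ∀ g, f (k * g) = (D.chi ψ k : ℂ) * f g) ∧
    (∀ g, f (ng g) = f g) ∧
    ∃ S : Finset (GG p n), ∀ g, f g ≠ 0 → ∃ s ∈ S, ∃ k ∈ KS p n 1, g = k * s ∨ g = ng (k * s)}
  add_mem' := by
    classical
    rintro a b ⟨ha1, ha2, S, hS⟩ ⟨hb1, hb2, S', hS'⟩
    refine ⟨fun k hk g => ?_, fun g => ?_, S ∪ S', fun g hg => ?_⟩
    · rw [Pi.add_apply, ha1 k hk, hb1 k hk, Pi.add_apply, mul_add]
    · rw [Pi.add_apply, ha2, hb2, Pi.add_apply]
    · by_cases h : a g = 0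
      · have : b g ≠ 0 := by
          intro h'; apply hg; rw [Pi.add_apply, h, h', add_zero]
        obtain ⟨s, hs, hk⟩ := hS' g this
        exact ⟨s, Finset.mem_union_right _ hs, hk⟩
      · obtain ⟨s, hs, hk⟩ := hS g h
        exact ⟨s, Finset.mem_union_left _ hs, hk⟩
  zero_mem' := ⟨fun k _ g => by simp, fun g => rfl, ∅, fun g hg => absurd rfl hg⟩
  smul_mem' := by
    rintro c a ⟨ha1, ha2, S, hS⟩
    refine ⟨fun k hk g => ?_, fun g => ?_, S, fun g hg => ?_⟩
    · rw [Pi.smul_apply, ha1 k hk, Pi.smul_apply, smul_eq_mul, smul_eq_mul]; ring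
    · rw [Pi.smul_apply, ha2, Pi.smul_apply]
    · apply hS
      intro h; apply hg; rw [Pi.smul_apply, h, smul_zero]

lemma mem_Sp {f : GG p n → ℂ} : f ∈ D.Sp ψ ↔ (∀ k ∈ KS p n 1, ∀ g, f (k * g) = (D.chi ψ k : ℂ) * f g) ∧
    (∀ g, f (ng g) = f g) ∧
    ∃ S : Finset (GG p n), ∀ g, f g ≠ 0 → ∃ s ∈ S, ∃ k ∈ KS p n 1, g = k * s ∨ g = ng (k * s) :=
  Iff.rfl

lemma rep_mem {f : GG p n → ℂ} (hf : f ∈ D.Sp ψ) (x : GG p n) :
    (fun g => f (g * x)) ∈ D.Sp ψ := by
  classical
  obtain ⟨h1, h2, S, hS⟩ := hf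
  refine ⟨fun k hk g => ?_, fun g => ?_, S.image (fun s => s * x⁻¹), fun g hg => ?_⟩
  · simp only [mul_assoc]
    exact h1 k hk _
  · simp only [ng_mul]
    exact h2 _
  · obtain ⟨s, hs, k, hk, h⟩ := hS _ hg
    refine ⟨s * x⁻¹, Finset.mem_image_of_mem _ hs, k, hk, ?_⟩
    rcases h with h | h
    · left
      rw [← mul_assoc, ← h, mul_inv_cancel_right]
    · right
      rw [← mul_assoc, ← ng_mul, ← h, mul_inv_cancel_right]

/-- the representation by right translation -/
noncomputable def rep (ψ : AddChar ℚ_[p] Circle) : Representation ℂ (GG p n) (D.Sp ψ) where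
  toFun x :=
    { toFun := fun f => ⟨fun g => (f : GG p n → ℂ) (g * x), D.rep_mem f.2 x⟩
      map_add' := fun f f' => rfl
      map_smul' := fun c f => rfl }
  map_one' := by
    ext f g
    simp
  map_mul' x y := by
    ext f g
    simp [mul_assoc]

lemma rep_apply (x : GG p n) (f : D.Sp ψ) (g : GG p n) :
    ((D.rep ψ x f : D.Sp ψ) : GG p n → ℂ) g = (f : GG p n → ℂ) (g * x) := rfl

include D in
/-- the two cosets are disjoint -/
lemma not_both (hp2 : p ≠ 2) {g : GG p n} (h1 : g ∈ KS p n 1) (h2 : ng g ∈ KS p n 1) : False := by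
  have hn : 0 < n := lt_of_lt_of_le two_pos D.hn
  have h3 : Bd (-1) ((-2 : ℚ_[p]) • (1 : Mt p n)) := by
    have := Bd.add h1 h2
    have e : ((g : Mt p n) - 1) + ((ng g : GG p n) - 1 : Mt p n) = (-2 : ℚ_[p]) • (1 : Mt p n) := by
      rw [coe_ng, neg_smul, two_smul]; abel
    rw [e] at this
    exact_mod_cast this
  have h4 := h3 (Sum.inl ⟨0, hn⟩) (Sum.inl ⟨0, hn⟩)
  rw [Matrix.smul_apply, Matrix.one_apply_eq, smul_eq_mul, mul_one, norm_neg] at h4
  have h5 : ‖(2 : ℚ_[p])‖ = 1 := by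
    have h : ‖((2 : ℕ) : ℚ_[p])‖ = 1 := by
      rw [Padic.norm_natCast_eq_one_iff]
      exact (Nat.coprime_primes hp.out Nat.prime_two).2 hp2
    exact_mod_cast h
  rw [h5] at h4
  have h6 := sq_zpow_lt (p := p) (show (-1 : ℤ) < 0 by norm_num)
  simp only [zpow_zero] at h6
  simp only [dd_inl, Int.reduceNeg, add_zero, sub_zero] at h4
  exact absurd h6 (not_lt.2 (by simpa using h4))

open Classical in
/-- the basic function -/
noncomputable def f0fun (ψ : AddChar ℚ_[p] Circle) (g : GG p n) : ℂ :=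
  if g ∈ KS p n 1 then (D.chi ψ g : ℂ) else if ng g ∈ KS p n 1 then (D.chi ψ (ng g) : ℂ) else 0

lemma f0_K {g : GG p n} (h : g ∈ KS p n 1) : D.f0fun ψ g = (D.chi ψ g : ℂ) := by
  rw [f0fun, if_pos h]

lemma f0_ng (hp2 : p ≠ 2) (g : GG p n) : D.f0fun ψ (ng g) = D.f0fun ψ g := by
  rw [f0fun, f0fun, ng_ng]
  by_cases h1 : g ∈ KS p n 1
  · have h2 : ng g ∉ KS p n 1 := fun h => D.not_both hp2 h1 h
    rw [if_neg h2, if_pos h1, if_pos h1]
  · by_cases h2 : ng g ∈ KS p n 1
    · rw [if_pos h2, if_neg h1, if_pos h2]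
    · rw [if_neg h2, if_neg h1, if_neg h1, if_neg h2]

lemma f0_mul (hψ : Cond ψ) {k : GG p n} (hk : k ∈ KS p n 1) (g : GG p n) :
    D.f0fun ψ (k * g) = (D.chi ψ k : ℂ) * D.f0fun ψ g := by
  rw [f0fun, f0fun, (KS p n 1).mul_mem_cancel_left hk, ← mul_ng, (KS p n 1).mul_mem_cancel_left hk]
  split_ifs with h1 h2
  · rw [D.chi_mul hψ hk h1, Circle.coe_mul]
  · rw [D.chi_mul hψ hk h2, Circle.coe_mul]
  · rw [mul_zero]

/-- the basic vector -/
noncomputable def f0 (hp2 : p ≠ 2) (hψ : Cond ψ) : D.Sp ψ :=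
  ⟨D.f0fun ψ, fun k hk g => D.f0_mul hψ hk g, D.f0_ng hp2, {1}, fun g hg => by
    refine ⟨1, Finset.mem_singleton_self _, ?_⟩
    rw [f0fun] at hg
    split_ifs at hg with h1 h2
    · exact ⟨g, h1, Or.inl (mul_one g).symm⟩
    · exact ⟨ng g, h2, Or.inr (by rw [mul_one, ng_ng])⟩
    · exact absurd rfl hg⟩

lemma f0_apply (hp2 : p ≠ 2) (hψ : Cond ψ) (g : GG p n) :
    ((D.f0 hp2 hψ : D.Sp ψ) : GG p n → ℂ) g = D.f0fun ψ g := rfl

lemma f0_one (hp2 : p ≠ 2) (hψ : Cond ψ) : ((D.f0 hp2 hψ : D.Sp ψ) : GG p n → ℂ) 1 = 1 := by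
  rw [f0_apply, f0_K _ (KS p n 1).one_mem, D.chi_one, Circle.coe_one]

lemma f0_ne_zero {g : GG p n} (h : D.f0fun ψ g ≠ 0) : g ∈ KS p n 1 ∨ ng g ∈ KS p n 1 := by
  rw [f0fun] at h
  split_ifs at h with h1 h2
  · exact Or.inl h1
  · exact Or.inr h2
  · exact absurd rfl h

/-- translates of the basic vector span the representation -/
lemma span_f0 (hp2 : p ≠ 2) (hψ : Cond ψ) (f : D.Sp ψ) :
    f ∈ Submodule.span ℂ (Set.range fun x => D.rep ψ x (D.f0 hp2 hψ)) := by
  classical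
  obtain ⟨S, hS⟩ := f.2.2.2
  induction S using Finset.induction_on generalizing f with
  | empty =>
    have : f = 0 := by
      apply Subtype.ext
      funext g
      by_contra h
      obtain ⟨s, hs, -⟩ := hS g h
      simp at hs
    rw [this]
    exact Submodule.zero_mem _
  | insert s S hs ih =>
    set f' : D.Sp ψ := f - ((f : GG p n → ℂ) s) • D.rep ψ s⁻¹ (D.f0 hp2 hψ) with hf'
    have hval : ∀ g, (f' : GG p n → ℂ) g = (f : GG p n → ℂ) g -
        (f : GG p n → ℂ) s * D.f0fun ψ (g * s⁻¹) := fun g => rfl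
    have h1 := ih f' (fun g hg => by
      by_cases h : D.f0fun ψ (g * s⁻¹) = 0
      · rw [hval, h, mul_zero, sub_zero] at hg
        obtain ⟨t, ht, k, hk, hkt⟩ := hS g hg
        rcases Finset.mem_insert.1 ht with rfl | ht
        · exfalso
          rcases hkt with rfl | rfl
          · rw [mul_inv_cancel_right, f0_K _ hk] at h
            exact Circle.coe_ne_zero _ h
          · rw [ng_mul, mul_inv_cancel_right, D.f0_ng hp2, f0_K _ hk] at h
            exact Circle.coe_ne_zero _ h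
        · exact ⟨t, ht, k, hk, hkt⟩
      · exfalso
        apply hg
        rw [hval]
        rcases D.f0_ne_zero h with h2 | h2
        · rw [f0_K _ h2]
          have := f.2.1 _ h2 s
          rw [inv_mul_cancel_right] at this
          rw [this]; ring
        · rw [← D.f0_ng hp2, f0_K _ h2]
          have := f.2.1 _ h2 s
          have e : ng (g * s⁻¹) * s = ng g := by rw [ng_mul, inv_mul_cancel_right]
          rw [e, f.2.2.1] at this
          rw [this]; ring)
    have h2 : f = f' + ((f : GG p n → ℂ) s) • D.rep ψ s⁻¹ (D.f0 hp2 hψ) := by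
      rw [hf']; abel
    rw [h2]
    exact Submodule.add_mem _ h1 (Submodule.smul_mem _ _ (Submodule.subset_span ⟨_, rfl⟩))

/-- smoothness: every vector is fixed by a congruence subgroup -/
lemma exists_fix (hψ : Cond ψ) (f : D.Sp ψ) : ∃ M : ℕ, 2 ≤ M ∧ ∀ x ∈ KS p n M, D.rep ψ x f = f := by
  classical
  obtain ⟨S, hS⟩ := f.2.2.2
  -- levels of the elements of `S`
  have hlev : ∀ s : GG p n, ∃ c : ℕ, Bd c (s : Mt p n) := by
    intro s
    obtain ⟨k, hk, -⟩ := exists_level (m := (s : Mt p n)) (by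
      intro h0
      have h1 := mul_st s
      rw [h0, Matrix.zero_mul] at h1
      have hn : 0 < n := lt_of_lt_of_le two_pos D.hn
      have := congrFun (congrFun h1 (Sum.inl ⟨0, hn⟩)) (Sum.inl ⟨0, hn⟩)
      simp at this)
    exact ⟨k.toNat, hk.mono (by omega)⟩
  choose lv hlv using hlev
  set c := ∑ s ∈ S, lv s with hc
  have hkey : ∀ s ∈ S, ∀ x ∈ KS p n (2 + 2 * c), s * x * s⁻¹ ∈ KS p n 2 := by
    intro s hs x hx
    rw [mem_KS, coe_mul, coe_mul, coe_inv_eq_st]
    have e : (s : Mt p n) * (x : Mt p n) * st (s : Mt p n) - 1 =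
        (s : Mt p n) * ((x : Mt p n) - 1) * st (s : Mt p n) := by
      rw [Matrix.mul_sub, Matrix.sub_mul, Matrix.mul_one, mul_st]
    rw [e]
    have h1 : lv s ≤ c := Finset.single_le_sum (f := lv) (fun _ _ => Nat.zero_le _) hs
    exact ((hlv s).mul hx).mul' (hlv s).st (by push_cast; omega)
  have h1 : ∀ x ∈ KS p n (2 + 2 * c), ∀ g, (f : GG p n → ℂ) g ≠ 0 →
      (f : GG p n → ℂ) (g * x) = (f : GG p n → ℂ) g := by
    intro x hx g hg
    obtain ⟨s, hs, k, hk, h⟩ := hS g hg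
    have h2 := hkey s hs x hx
    have h3 : s * x * s⁻¹ ∈ KS p n 1 := KS_mono (by norm_num) h2
    have h4 : (f : GG p n → ℂ) (k * s * x) = (f : GG p n → ℂ) (k * s) := by
      have e : k * s * x = k * ((s * x * s⁻¹) * s) := by group
      rw [e, f.2.1 k hk, f.2.1 _ h3, D.chi_triv hψ le_rfl h2, f.2.1 k hk, Circle.coe_one, one_mul]
    rcases h with rfl | rfl
    · exact h4
    · rw [ng_mul, f.2.2.1, f.2.2.1]; exact h4
  refine ⟨2 + 2 * c, by omega, fun x hx => ?_⟩
  apply Subtype.ext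
  funext g
  rw [rep_apply]
  by_cases hg : (f : GG p n → ℂ) g = 0
  · by_contra hne
    have h2 : (f : GG p n → ℂ) (g * x) ≠ 0 := by rw [hg] at hne; exact hne
    have h3 := h1 x⁻¹ ((KS p n _).inv_mem hx) _ h2
    rw [mul_inv_cancel_right] at h3
    exact hne h3.symm
  · exact h1 x hx g hg

/-- averaging a vector -/
lemma exists_avg (hψ : Cond ψ) (W : Subrepresentation (D.rep ψ)) (f : D.Sp ψ) (hf : f ∈ W)
    (h1 : (f : GG p n → ℂ) 1 ≠ 0) : ∃ f' : D.Sp ψ, f' ∈ W ∧ (f' : GG p n → ℂ) 1 ≠ 0 ∧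
      ∀ k ∈ KS p n 1, D.rep ψ k f' = (D.chi ψ k : ℂ) • f' := by
  classical
  obtain ⟨M, hM, hfix⟩ := D.exists_fix hψ f
  set N : Subgroup (KS p n 1) := (KS p n M).subgroupOf (KS p n 1) with hN
  have : Finite ((KS p n 1) ⧸ N) := finite_quot M
  letI : Fintype ((KS p n 1) ⧸ N) := Fintype.ofFinite _
  let F : KS p n 1 → D.Sp ψ := fun x => ((D.chi ψ (x : GG p n) : ℂ)⁻¹) • D.rep ψ (x : GG p n) f
  have hF : ∀ x : KS p n 1, ∀ m ∈ N, F (x * m) = F x := by
    intro x m hm
    have hm' : (m : GG p n) ∈ KS p n M := hm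
    simp only [F, Subgroup.coe_mul]
    rw [D.chi_mul hψ x.2 m.2, D.chi_triv hψ hM hm', mul_one, map_mul, Module.End.mul_apply,
      hfix _ hm']
  let Ft : ((KS p n 1) ⧸ N) → D.Sp ψ := Quotient.lift F (by
    intro a b hab
    have h2 : a⁻¹ * b ∈ N := QuotientGroup.leftRel_apply.1 hab
    have := hF a _ h2
    rw [mul_inv_cancel_left] at this
    exact this.symm)
  have hFt : ∀ x : KS p n 1, Ft (x : (KS p n 1) ⧸ N) = F x := fun x => rfl
  refine ⟨∑ q, Ft q, ?_, ?_, ?_⟩
  · refine Submodule.sum_mem W.toSubmodule fun q _ => ?_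
    induction q using QuotientGroup.induction_on with
    | H x =>
      rw [hFt]
      exact Submodule.smul_mem _ _ (W.apply_mem_toSubmodule _ hf)
  · have h2 : ((∑ q, Ft q : D.Sp ψ) : GG p n → ℂ) 1 = ∑ q : (KS p n 1) ⧸ N, (f : GG p n → ℂ) 1 := by
      rw [AddSubmonoidClass.coe_finsetSum, Finset.sum_apply]
      refine Finset.sum_congr rfl fun q _ => ?_
      induction q using QuotientGroup.induction_on with
      | H x =>
        rw [hFt]
        change (D.chi ψ (x : GG p n) : ℂ)⁻¹ * (f : GG p n → ℂ) (1 * (x : GG p n)) = _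
        have := f.2.1 _ x.2 1
        rw [mul_one] at this
        rw [one_mul, this, ← mul_assoc, inv_mul_cancel₀ (Circle.coe_ne_zero _), one_mul]
    rw [h2, Finset.sum_const, nsmul_eq_mul]
    refine mul_ne_zero ?_ h1
    rw [Nat.cast_ne_zero, Finset.card_univ]
    exact Fintype.card_ne_zero
  · intro k hk
    rw [map_sum, Finset.smul_sum]
    have h3 : ∀ q : (KS p n 1) ⧸ N, D.rep ψ k (Ft q) =
        (D.chi ψ k : ℂ) • Ft ((⟨k, hk⟩ : KS p n 1) • q) := by
      intro q
      induction q using QuotientGroup.induction_on with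
      | H x =>
        rw [hFt, MulAction.Quotient.smul_coe, hFt]
        simp only [F, smul_eq_mul, Subgroup.coe_mul]
        rw [map_smul, D.chi_mul hψ hk x.2, map_mul (D.rep ψ), Module.End.mul_apply, smul_smul,
          Circle.coe_mul, mul_inv, ← mul_assoc, mul_inv_cancel₀ (Circle.coe_ne_zero _), one_mul]
    rw [Finset.sum_congr rfl fun q _ => h3 q]
    exact Equiv.sum_comp (MulAction.toPerm (⟨k, hk⟩ : KS p n 1))
      (fun q : (KS p n 1) ⧸ N => (D.chi ψ k : ℂ) • Ft q)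

/-- **irreducibility** -/
theorem irreducible (hp2 : p ≠ 2) (hψ : Cond ψ) : Representation.IsIrreducible (D.rep ψ) := by
  classical
  have hne : (D.f0 hp2 hψ) ≠ 0 := by
    intro h
    have h1 := D.f0_one hp2 hψ
    rw [h] at h1
    exact zero_ne_one h1
  have key : ∀ W : Subrepresentation (D.rep ψ), ∀ f : D.Sp ψ, f ∈ W → f ≠ 0 → W = ⊤ := by
    intro W f hf hf0
    have hex : ∃ g0, (f : GG p n → ℂ) g0 ≠ 0 := by
      by_contra h
      apply hf0
      apply Subtype.ext
      funext g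
      exact not_exists_not.1 h g
    obtain ⟨g0, hg0⟩ := hex
    have h1 : ((D.rep ψ g0 f : D.Sp ψ) : GG p n → ℂ) 1 ≠ 0 := by
      rw [rep_apply, one_mul]; exact hg0
    obtain ⟨f', hf', hf1, hfK⟩ := D.exists_avg hψ W _ (W.apply_mem_toSubmodule g0 hf) h1
    have hfK' : ∀ k ∈ KS p n 1, ∀ g, (f' : GG p n → ℂ) (g * k) = (D.chi ψ k : ℂ) * (f' : GG p n → ℂ) g := by
      intro k hk g
      have := congrArg (fun F : D.Sp ψ => (F : GG p n → ℂ) g) (hfK k hk)
      exact this
    -- support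
    have hsup : ∀ g, (f' : GG p n → ℂ) g ≠ 0 → g ∈ KS p n 1 ∨ ng g ∈ KS p n 1 := by
      intro g hg
      apply D.inter_K hp2 hψ
      intro k hk hk'
      have e1 := f'.2.1 k hk g
      have e2 := hfK' (g⁻¹ * k * g) hk' g
      have e3 : g * (g⁻¹ * k * g) = k * g := by group
      rw [e3, e1] at e2
      exact Circle.ext (mul_right_cancel₀ hg e2)
    have hf'eq : f' = ((f' : GG p n → ℂ) 1) • D.f0 hp2 hψ := by
      apply Subtype.ext
      funext g
      change _ = (f' : GG p n → ℂ) 1 * D.f0fun ψ g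
      by_cases h1 : g ∈ KS p n 1
      · rw [f0_K _ h1]
        have := f'.2.1 g h1 1
        rw [mul_one] at this
        rw [this]; ring
      · by_cases h2 : ng g ∈ KS p n 1
        · rw [← D.f0_ng hp2, f0_K _ h2, ← f'.2.2.1 g]
          have := f'.2.1 _ h2 1
          rw [mul_one] at this
          rw [this]; ring
        · have h3 : (f' : GG p n → ℂ) g = 0 := by
            by_contra h
            rcases hsup g h with h | h
            · exact h1 h
            · exact h2 h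
          have h4 : D.f0fun ψ g = 0 := by
            by_contra h
            rcases D.f0_ne_zero h with h | h
            · exact h1 h
            · exact h2 h
          rw [h3, h4, mul_zero]
    have hf0W : D.f0 hp2 hψ ∈ W.toSubmodule := by
      have : ((f' : GG p n → ℂ) 1)⁻¹ • f' ∈ W.toSubmodule := Submodule.smul_mem _ _ hf'
      rw [hf'eq, smul_smul] at this
      have e : ((((f' : GG p n → ℂ) 1) • D.f0 hp2 hψ : D.Sp ψ) : GG p n → ℂ) 1 =
          (f' : GG p n → ℂ) 1 := by rw [← hf'eq]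
      rw [e, inv_mul_cancel₀ hf1, one_smul] at this
      exact this
    apply Subrepresentation.toSubmodule_injective
    change W.toSubmodule = ⊤
    rw [eq_top_iff]
    intro v _
    have hv := D.span_f0 hp2 hψ v
    refine Submodule.span_le.2 ?_ hv
    rintro _ ⟨x, rfl⟩
    exact W.apply_mem_toSubmodule x hf0W
  have : Nontrivial (Subrepresentation (D.rep ψ)) := by
    refine ⟨⊥, ⊤, fun h => ?_⟩
    have h1 : (D.f0 hp2 hψ) ∈ (⊤ : Subrepresentation (D.rep ψ)) := trivial
    rw [← h] at h1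
    exact hne h1
  refine { eq_bot_or_eq_top := fun W => ?_ }
  by_cases hW : ∃ f : D.Sp ψ, f ∈ W ∧ f ≠ 0
  · obtain ⟨f, hf, hf0⟩ := hW
    exact Or.inr (key W f hf hf0)
  · left
    apply Subrepresentation.toSubmodule_injective
    change W.toSubmodule = ⊥
    rw [eq_bot_iff]
    intro v hv
    by_contra h
    exact hW ⟨v, hv, h⟩

/-- the stabiliser of a vector is open -/
theorem smooth (hψ : Cond ψ) (f : D.Sp ψ) : IsOpen {g : GG p n | D.rep ψ g f = f} := by
  obtain ⟨M, hM, hfix⟩ := D.exists_fix hψ f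
  rw [isOpen_iff_mem_nhds]
  intro g hg
  have h1 : IsOpen ((fun x : GG p n => g⁻¹ * x) ⁻¹' ((KS p n M : Subgroup (GG p n)) : Set (GG p n))) := by
    refine (isOpen_KS M).preimage ?_
    exact continuous_const.mul continuous_id
  refine Filter.mem_of_superset (h1.mem_nhds ?_) ?_
  · change g⁻¹ * g ∈ KS p n M
    rw [inv_mul_cancel]; exact (KS p n M).one_mem
  · intro x hx
    have hx' : g⁻¹ * x ∈ KS p n M := hx
    have e : x = g * (g⁻¹ * x) := by group
    change D.rep ψ x f = f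
    rw [e, map_mul, Module.End.mul_apply, hfix _ hx']
    exact hg

/-- finite-dimensionality of the invariants of an open subgroup -/
theorem admissible (hp2 : p ≠ 2) (hψ : Cond ψ) (K : Subgroup (GG p n))
    (hK : IsOpen (K : Set (GG p n))) :
    Module.Finite ℂ (Representation.invariants ((D.rep ψ).comp K.subtype)) := by
  classical
  obtain ⟨M, hM⟩ := exists_KS_subset hK K.one_mem
  set M' := M + 1 with hM'
  obtain ⟨S, hS⟩ := exists_cover (p := p) (n := n) (2 * (2 * (M' : ℤ) * (n + 1) + 1)) M'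
  let ev : Representation.invariants ((D.rep ψ).comp K.subtype) →ₗ[ℂ] (S → ℂ) :=
    { toFun := fun f s => ((f : D.Sp ψ) : GG p n → ℂ) (s : GG p n)
      map_add' := fun f g => rfl
      map_smul' := fun c f => rfl }
  refine Module.Finite.of_injective ev ?_
  rw [injective_iff_map_eq_zero]
  intro f hf
  apply Subtype.ext
  apply Subtype.ext
  funext g
  change ((f : D.Sp ψ) : GG p n → ℂ) g = 0
  have hinv : ∀ x ∈ KS p n M', ∀ y, ((f : D.Sp ψ) : GG p n → ℂ) (y * x) = ((f : D.Sp ψ) : GG p n → ℂ) y := by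
    intro x hx y
    have h1 : x ∈ K := hM x (KS_mono (by omega) hx)
    have h2 := f.2 ⟨x, h1⟩
    have := congrArg (fun F : D.Sp ψ => (F : GG p n → ℂ) y) h2
    exact this
  by_contra hg
  have hb : Bd (2 * (2 * (M' : ℤ) * (n + 1) + 1)) (g : Mt p n) := by
    apply D.fin_K hp2 hψ (by omega)
    intro k hk hk'
    have hk1 : k ∈ KS p n 1 := hk
    have hk2 : g⁻¹ * k * g ∈ KS p n M' := hk'
    have e1 := (f : D.Sp ψ).2.1 k hk1 g
    have e2 := hinv _ hk2 g
    have e3 : g * (g⁻¹ * k * g) = k * g := by group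
    rw [e3, e1] at e2
    have e4 : (D.chi ψ k : ℂ) = 1 := mul_right_cancel₀ hg (by rw [e2, one_mul])
    exact Circle.ext (by rw [e4, Circle.coe_one])
  obtain ⟨s, hs, hgs⟩ := hS g hb
  apply hg
  have e1 := hinv _ hgs g
  rw [mul_inv_cancel_left] at e1
  rw [← e1]
  exact congrFun hf ⟨s, hs⟩

end Datum

end Run7.h697
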