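import Pool.Agent.Run7.h697.Dat

/-!
# Matrices intertwining perturbations of `Γ`
-/

set_option autoImplicit false
set_option linter.unusedVariables false

open Matrix

namespace Run7.h697

variable {p : ℕ} [hp : Fact p.Prime] {n : ℕ}

namespace Datum

variable (D : Datum p n)

lemma level_mul_left {r : Mt p n} (hr : Bd 0 r) {g : Mt p n} {k : ℤ} :
    Bd (k + 1) ((D.G + r) * g) ↔ Bd k g := by
  obtain ⟨y, hy, h1, h2, -⟩ := D.exists_pert hr
  constructor
  · intro h
    have : g = y * ((D.G + r) * g) := by rw [← Matrix.mul_assoc, h2, Matrix.one_mul]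
    rw [this]
    exact hy.mul' h (by omega)
  · intro h
    exact (D.bd_G.add (hr.mono (by norm_num))).mul' h (by omega)

/-- normalisation of an invertible matrix -/
lemma normalise {r : Mt p n} (hr : Bd 0 r) {g : Mt p n} (hg : ‖g.det‖ = 1) (hn : 0 < n) :
    ∃ (k : ℤ) (g' : Mt p n), Bd k g ∧ ¬ Bd (k - 1) g ∧ Bd 0 g' ∧ ¬ Bd (-1) g' ∧
      ‖g'.det‖ = sq p ^ (-(2 * (n : ℤ) * k)) ∧ (k = 0 → g' = g) ∧
      ∀ y : Mt p n, (D.G + r) * g = g * y → (D.G + r) * g' = g' * y := by
  have hg0 : g ≠ 0 := by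
    rintro rfl
    have : Nonempty (Fin n ⊕ Fin n) := ⟨Sum.inl ⟨0, hn⟩⟩
    rw [Matrix.det_zero, norm_zero] at hg
    exact zero_ne_one hg
  obtain ⟨k, hk1, hk2⟩ := exists_level hg0
  obtain ⟨-, -, -, -, hdet⟩ := D.exists_pert hr
  have hpow : ∀ (a : ℤ) (m : Mt p n), ‖(((p : ℚ_[p]) ^ a) • m).det‖ =
      sq p ^ (-(4 * (n : ℤ) * a)) * ‖m.det‖ := by
    intro a m
    rw [Matrix.det_smul, norm_mul, norm_pow, norm_p_zpow, Fintype.card_sum, Fintype.card_fin,
      ← zpow_natCast, ← _root_.zpow_mul]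
    congr 2
    push_cast; ring
  rcases Int.even_or_odd' k with ⟨a, ha | ha⟩
  · refine ⟨k, ((p : ℚ_[p]) ^ a) • g, hk1, hk2, ?_, ?_, ?_, ?_, ?_⟩
    · have := (bd_smul_p_iff (k := k) (a := g) a).2 hk1
      rwa [ha, sub_self] at this
    · intro h
      apply hk2
      rw [← bd_smul_p_iff (k := k - 1) (a := g) a]
      convert h using 1
      omega
    · rw [hpow, hg, mul_one]
      congr 1
      rw [ha]; ring
    · intro h
      have : a = 0 := by omega
      rw [this]; simp
    · intro y hy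
      rw [Matrix.mul_smul, hy, Matrix.smul_mul]
  · refine ⟨k, ((p : ℚ_[p]) ^ (a + 1)) • ((D.G + r) * g), hk1, hk2, ?_, ?_, ?_, ?_, ?_⟩
    · have h1 := (D.level_mul_left hr (g := g) (k := k)).2 hk1
      have := (bd_smul_p_iff (k := k + 1) (a := (D.G + r) * g) (a + 1)).2 h1
      convert this using 1
      omega
    · intro h
      apply hk2
      rw [← D.level_mul_left hr, ← bd_smul_p_iff (a + 1)]
      convert h using 1
      omega
    · rw [hpow, Matrix.det_mul, norm_mul, hdet, hg, mul_one, ← zpow_add₀ (sq_ne p)]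
      congr 1
      rw [ha]; ring
    · intro h
      omega
    · intro y hy
      rw [Matrix.mul_smul, Matrix.smul_mul, Matrix.mul_assoc, ← hy]

/-- leading terms of an intertwining relation -/
lemma lead {r r' g : Mt p n} (hr : Bd 0 r) (hr' : Bd 0 r') (hg : Bd 0 g)
    (h : (D.G + r) * g = g * (D.G + r')) :
    mred D.B * mred g.toBlocks₂₂ = mred g.toBlocks₁₁ * mred D.B ∧
      mred D.A * mred g.toBlocks₁₁ = mred g.toBlocks₂₂ * mred D.A := by
  have h1 : D.G * g - g * D.G = g * r' - r * g := by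
    have : D.G * g + r * g = g * D.G + g * r' := by
      rw [← Matrix.add_mul, h, Matrix.mul_add]
    rw [sub_eq_sub_iff_add_eq_add, this, add_comm]
  have h2 : Bd 0 (D.G * g - g * D.G) := by
    rw [h1]
    exact (hg.mul' hr' (by norm_num)).sub (hr.mul' hg (by norm_num))
  have hpp : (p : ℚ_[p]) ≠ 0 := p_ne
  set a := g.toBlocks₁₁ with ha
  set b := g.toBlocks₁₂ with hb
  set c := g.toBlocks₂₁ with hc
  set d := g.toBlocks₂₂ with hd
  have hgb : g = Matrix.fromBlocks a b c d := (Matrix.fromBlocks_toBlocks g).symm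
  have e1 : D.G * g - g * D.G = Matrix.fromBlocks (D.B * c - b * ((p : ℚ_[p])⁻¹ • D.A))
      (D.B * d - a * D.B) (((p : ℚ_[p])⁻¹ • D.A) * a - d * ((p : ℚ_[p])⁻¹ • D.A))
      (((p : ℚ_[p])⁻¹ • D.A) * b - c * D.B) := by
    rw [hgb, G, Matrix.fromBlocks_multiply, Matrix.fromBlocks_multiply, sub_eq_add_neg,
      Matrix.fromBlocks_neg, Matrix.fromBlocks_add]
    simp only [Matrix.zero_mul, Matrix.mul_zero, zero_add, add_zero, ← sub_eq_add_neg]
  rw [e1] at h2
  constructor
  · have t := h2.top12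
    rw [Matrix.toBlocks_fromBlocks₁₂] at t
    have := (mred_eq_zero_iff t.int).2 t
    rw [mred_sub (D.hB.mul hg.int22) (hg.int11.mul D.hB), mred_mul D.hB hg.int22,
      mred_mul hg.int11 D.hB, sub_eq_zero] at this
    exact this
  · have t := h2.int21
    rw [Matrix.toBlocks_fromBlocks₂₁] at t
    -- entries of `A a - d A` are divisible by `p`
    have t2 : MTop (D.A * a - d * D.A) := by
      intro i j
      have h3 := t i j
      have h4 : (((p : ℚ_[p])⁻¹ • D.A) * a - d * ((p : ℚ_[p])⁻¹ • D.A)) i j =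
          (p : ℚ_[p])⁻¹ * (D.A * a - d * D.A) i j := by
        rw [Matrix.smul_mul, Matrix.mul_smul, ← smul_sub, Matrix.smul_apply, smul_eq_mul]
      rw [h4, norm_mul] at h3
      have h5 : ‖((p : ℚ_[p])⁻¹)‖ = (p : ℝ) := by
        rw [norm_inv, Padic.norm_p, inv_inv]
      rw [h5] at h3
      have h6 : (1 : ℝ) < p := by exact_mod_cast hp.out.one_lt
      by_contra h7
      rw [not_lt] at h7
      have : (p : ℝ) * 1 ≤ p * ‖(D.A * a - d * D.A) i j‖ :=
        mul_le_mul_of_nonneg_left h7 (by linarith)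
      linarith
    have := (mred_eq_zero_iff t2.int).2 t2
    rw [mred_sub (D.hA.mul hg.int11) (hg.int22.mul D.hA), mred_mul D.hA hg.int11,
      mred_mul hg.int22 D.hA, sub_eq_zero] at this
    exact this

/-- consequence: the blocks are invertible -/
lemma lead_unit {g : Mt p n} (hg : Bd 0 g) (hg1 : ¬ Bd (-1) g)
    (h1 : mred D.B * mred g.toBlocks₂₂ = mred g.toBlocks₁₁ * mred D.B)
    (h2 : mred D.A * mred g.toBlocks₁₁ = mred g.toBlocks₂₂ * mred D.A) :
    mred g.toBlocks₁₁ * D.T = D.T * mred g.toBlocks₁₁ ∧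
    (mred g.toBlocks₁₁).det ≠ 0 ∧ (mred g.toBlocks₂₂).det ≠ 0 := by
  have hc : mred g.toBlocks₁₁ * D.T = D.T * mred g.toBlocks₁₁ := by
    rw [T, ← Matrix.mul_assoc, ← h1, Matrix.mul_assoc, ← h2, Matrix.mul_assoc]
  have hA : IsUnit (mred D.A) := (Matrix.isUnit_iff_isUnit_det _).2 (isUnit_iff_ne_zero.2 D.detA)
  have hne : mred g.toBlocks₁₁ ≠ 0 := by
    intro h0
    apply hg1
    rw [bd_neg_one_iff hg]
    refine ⟨h0, ?_⟩
    rw [h0, Matrix.mul_zero] at h2
    exact hA.mul_right_cancel (by rw [← h2, Matrix.zero_mul])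
  have hd := D.krylov.isUnit_det hc hne
  refine ⟨hc, hd, ?_⟩
  have h3 : (mred g.toBlocks₂₂).det * (mred D.A).det = (mred D.A).det * (mred g.toBlocks₁₁).det := by
    rw [← Matrix.det_mul, ← h2, Matrix.det_mul]
  intro h0
  rw [h0, zero_mul] at h3
  exact mul_ne_zero D.detA hd h3.symm

/-- **Intertwining**: a symplectic matrix intertwining two perturbations of `Γ` lies in
`± (1 + radical)`. -/
lemma intertwine {r r' g : Mt p n} (hr : Bd 0 r) (hr' : Bd 0 r')
    (hg : g ∈ symplecticGroup (Fin n) ℚ_[p])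
    (h : (D.G + r) * g = g * (D.G + r')) :
    Bd (-1) (g - 1) ∨ Bd (-1) (-g - 1) := by
  have hn : 0 < n := lt_of_lt_of_le two_pos D.hn
  have hdet : ‖g.det‖ = 1 := by rw [SymplecticGroup.det_eq_one hg, norm_one]
  obtain ⟨k, g', hk1, hk2, hb1, hb2, hd', hk0, hy⟩ := D.normalise hr hdet hn
  obtain ⟨l1, l2⟩ := D.lead hr hr' hb1 (hy _ h)
  obtain ⟨-, u1, u2⟩ := D.lead_unit hb1 hb2 l1 l2
  have hd1 : ‖g'.det‖ = 1 := (hb1.exists_inv u1 u2).1
  have hk : k = 0 := by
    rw [hd'] at hd1
    have : -(2 * (n : ℤ) * k) = 0 := by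
      rcases lt_trichotomy (-(2 * (n : ℤ) * k)) 0 with h0 | h0 | h0
      · have := sq_zpow_lt (p := p) h0
        rw [hd1, zpow_zero] at this
        exact absurd this (lt_irrefl _)
      · exact h0
      · have := sq_zpow_lt (p := p) h0
        rw [hd1, zpow_zero] at this
        exact absurd this (lt_irrefl _)
    have hn' : (0 : ℤ) < n := by exact_mod_cast hn
    nlinarith [this, mul_pos (two_pos (α := ℤ)) hn', mul_self_nonneg k]
  have hgg := hk0 hk
  subst hgg
  obtain ⟨hc, -, -⟩ := D.lead_unit hb1 hb2 l1 l2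
  -- symplectic relation
  set a := g'.toBlocks₁₁ with ha
  set b := g'.toBlocks₁₂ with hb
  set c := g'.toBlocks₂₁ with hcc
  set d := g'.toBlocks₂₂ with hdd
  have hgb : g' = Matrix.fromBlocks a b c d := (Matrix.fromBlocks_toBlocks g').symm
  have hs : a * dᵀ - b * cᵀ = 1 := by
    have h1 := SymplecticGroup.mem_iff.1 hg
    rw [hgb, J, Matrix.fromBlocks_transpose, Matrix.fromBlocks_multiply,
      Matrix.fromBlocks_multiply] at h1
    have h2 := congrArg Matrix.toBlocks₁₂ h1
    rw [Matrix.toBlocks_fromBlocks₁₂, Matrix.toBlocks_fromBlocks₁₂] at h2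
    simp only [Matrix.mul_zero, zero_add, add_zero, Matrix.mul_one, Matrix.mul_neg,
      Matrix.neg_mul] at h2
    rw [← neg_neg (a * dᵀ - b * cᵀ), neg_sub]
    rw [show b * cᵀ - a * dᵀ = b * cᵀ + -(a * dᵀ) from sub_eq_add_neg _ _, h2, neg_neg]
  have hs2 : mred a * (mred d)ᵀ = 1 := by
    have := congrArg mred hs
    rw [mred_sub (hb1.int11.mul hb1.int22.transpose)
      (hb1.top12.int.mul hb1.int21.transpose), mred_mul hb1.int11 hb1.int22.transpose,
      mred_mul hb1.top12.int hb1.int21.transpose, (mred_eq_zero_iff hb1.top12.int).2 hb1.top12,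
      Matrix.zero_mul, sub_zero, mred_one, mred_transpose] at this
    exact this
  have hsymA : (mred D.A)ᵀ = mred D.A := by rw [← mred_transpose, D.symA]
  have hsymB : (mred D.B)ᵀ = mred D.B := by rw [← mred_transpose, D.symB]
  have hAT : mred D.A * D.T = D.Tᵀ * mred D.A := by
    rw [T, Matrix.transpose_mul, hsymA, hsymB, Matrix.mul_assoc]
  have hsa : mred D.A * mred a = (mred a)ᵀ * mred D.A := D.krylov.selfAdj hn hAT hc
  have hA : IsUnit (mred D.A) := (Matrix.isUnit_iff_isUnit_det _).2 (isUnit_iff_ne_zero.2 D.detA)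
  have hda : mred d = (mred a)ᵀ := by
    apply hA.mul_right_cancel
    rw [← l2, hsa]
  have haa : mred a * mred a = 1 := by
    rw [hda, Matrix.transpose_transpose] at hs2
    exact hs2
  rcases D.krylov.eq_one_or hc haa with h1 | h1
  · left
    rw [bd_neg_one_iff (hb1.sub bd_one)]
    constructor
    · have : (g' - 1).toBlocks₁₁ = a - 1 := by
        ext i j; simp [ha, Matrix.toBlocks₁₁, Matrix.one_apply]
      rw [this, mred_sub hb1.int11 mint_one, h1, mred_one, sub_self]
    · have : (g' - 1).toBlocks₂₂ = d - 1 := by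
        ext i j; simp [hdd, Matrix.toBlocks₂₂, Matrix.one_apply]
      rw [this, mred_sub hb1.int22 mint_one, hda, h1, mred_one, Matrix.transpose_one, sub_self]
  · right
    rw [bd_neg_one_iff (hb1.neg.sub bd_one)]
    constructor
    · have : (-g' - 1).toBlocks₁₁ = -a - 1 := by
        ext i j; simp [ha, Matrix.toBlocks₁₁, Matrix.one_apply]
      rw [this, mred_sub hb1.int11.neg mint_one, mred_neg hb1.int11, h1, mred_one, neg_neg,
        sub_self]
    · have : (-g' - 1).toBlocks₂₂ = -d - 1 := by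
        ext i j; simp [hdd, Matrix.toBlocks₂₂, Matrix.one_apply]
      rw [this, mred_sub hb1.int22.neg mint_one, mred_neg hb1.int22, hda, h1, mred_one,
        Matrix.transpose_neg, Matrix.transpose_one, neg_neg, sub_self]

end Datum

end Run7.h697
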