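import Pool.Agent.Run7.h697.Res

/-!
# An irreducible polynomial of degree 8 over the field with three elements
-/

set_option autoImplicit false
set_option linter.unusedVariables false
set_option linter.unusedSimpArgs false

open Polynomial

namespace Run7.h697

/-- the polynomial -/
noncomputable def fp : (ZMod 3)[X] := X ^ 8 + 2 * X ^ 7 + 2 * X ^ 5 + X ^ 4 + 2 * X ^ 3 + X ^ 2 + 1


lemma nd1 (a : ZMod 3) : ¬ (X + C a : (ZMod 3)[X]) ∣ fp := by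
  intro h
  have e : fp = (X + C a : (ZMod 3)[X]) *
      (X ^ 7 +
        C (2 - a) * X ^ 6 +
        C (-2*a + a^2) * X ^ 5 +
        C (2 + 2*a^2 - a^3) * X ^ 4 +
        C (1 - 2*a - 2*a^3 + a^4) * X ^ 3 +
        C (2 - a + 2*a^2 + 2*a^4 - a^5) * X ^ 2 +
        C (1 - 2*a + a^2 - 2*a^3 - 2*a^5 + a^6) * X +
        C (-a + 2*a^2 - a^3 + 2*a^4 + 2*a^6 - a^7)) +
      (C (1 + a^2 - 2*a^3 + a^4 - 2*a^5 - 2*a^7 + a^8)) := by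
    unfold fp
    simp only [map_add, map_mul, map_sub, map_pow, map_neg, map_ofNat, map_one]
    ring
  rw [e] at h
  have h2 := (dvd_add_right (Dvd.intro _ rfl)).1 h
  have h3 := eq_zero_of_dvd_of_degree_lt h2 (by
    have e1 : ((X + C a : (ZMod 3)[X])).degree = 1 := by compute_degree!
    rw [e1]
    refine lt_of_le_of_lt (b := (0 : WithBot ℕ)) (by compute_degree) (by norm_num))
  have c0 := congrArg (fun P : (ZMod 3)[X] => P.coeff 0) h3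
  have c0' : 1 + a^2 - 2*a^3 + a^4 - 2*a^5 - 2*a^7 + a^8 = 0 := by
    simpa [coeff_X, coeff_C, coeff_X_pow, coeff_C_mul, -map_add, -map_mul, -map_sub, -map_pow, -map_neg] using c0
  clear h3 h2 h e c0
  revert a
  decide

lemma nd2 (a b : ZMod 3) : ¬ (X ^ 2 + C a * X + C b : (ZMod 3)[X]) ∣ fp := by
  intro h
  have e : fp = (X ^ 2 + C a * X + C b : (ZMod 3)[X]) *
      (X ^ 6 +
        C (2 - a) * X ^ 5 +
        C (-b - 2*a + a^2) * X ^ 4 +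
        C (2 - 2*b + 2*a*b + 2*a^2 - a^3) * X ^ 3 +
        C (1 + b^2 - 2*a + 4*a*b - 3*a^2*b - 2*a^3 + a^4) * X ^ 2 +
        C (2 - 2*b + 2*b^2 - a - 3*a*b^2 + 2*a^2 - 6*a^2*b + 4*a^3*b + 2*a^4 - a^5) * X +
        C (1 - b - b^3 - 2*a + 4*a*b - 6*a*b^2 + a^2 + 6*a^2*b^2 - 2*a^3 + 8*a^3*b - 5*a^4*b - 2*a^5 + a^6)) +
      (C (-2*b + 2*b^2 - 2*b^3 - a + 2*a*b + 4*a*b^3 + 2*a^2 - 6*a^2*b + 12*a^2*b^2 - a^3 - 10*a^3*b^2 + 2*a^4 - 10*a^4*b + 6*a^5*b + 2*a^6 - a^7) * X +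
        C (1 - b + b^2 + b^4 + 2*a*b - 4*a*b^2 + 6*a*b^3 - a^2*b - 6*a^2*b^3 + 2*a^3*b - 8*a^3*b^2 + 5*a^4*b^2 + 2*a^5*b - a^6*b)) := by
    unfold fp
    simp only [map_add, map_mul, map_sub, map_pow, map_neg, map_ofNat, map_one]
    ring
  rw [e] at h
  have h2 := (dvd_add_right (Dvd.intro _ rfl)).1 h
  have h3 := eq_zero_of_dvd_of_degree_lt h2 (by
    have e1 : ((X ^ 2 + C a * X + C b : (ZMod 3)[X])).degree = 2 := by compute_degree!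
    rw [e1]
    refine lt_of_le_of_lt (b := (1 : WithBot ℕ)) (by compute_degree) (by norm_num))
  have c0 := congrArg (fun P : (ZMod 3)[X] => P.coeff 0) h3
  have c1 := congrArg (fun P : (ZMod 3)[X] => P.coeff 1) h3
  have c0' : 1 - b + b^2 + b^4 + 2*a*b - 4*a*b^2 + 6*a*b^3 - a^2*b - 6*a^2*b^3 + 2*a^3*b - 8*a^3*b^2 + 5*a^4*b^2 + 2*a^5*b - a^6*b = 0 := by
    simpa [coeff_X, coeff_C, coeff_X_pow, coeff_C_mul, -map_add, -map_mul, -map_sub, -map_pow, -map_neg] using c0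
  have c1' : -2*b + 2*b^2 - 2*b^3 - a + 2*a*b + 4*a*b^3 + 2*a^2 - 6*a^2*b + 12*a^2*b^2 - a^3 - 10*a^3*b^2 + 2*a^4 - 10*a^4*b + 6*a^5*b + 2*a^6 - a^7 = 0 := by
    simpa [coeff_X, coeff_C, coeff_X_pow, coeff_C_mul, -map_add, -map_mul, -map_sub, -map_pow, -map_neg] using c1
  clear h3 h2 h e c0 c1
  revert a b
  decide

lemma nd3 (a b c : ZMod 3) : ¬ (X ^ 3 + C a * X ^ 2 + C b * X + C c : (ZMod 3)[X]) ∣ fp := by
  intro h
  have e : fp = (X ^ 3 + C a * X ^ 2 + C b * X + C c : (ZMod 3)[X]) *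
      (X ^ 5 +
        C (2 - a) * X ^ 4 +
        C (-b - 2*a + a^2) * X ^ 3 +
        C (2 - c - 2*b + 2*a*b + 2*a^2 - a^3) * X ^ 2 +
        C (1 - 2*c + b^2 - 2*a + 2*a*c + 4*a*b - 3*a^2*b - 2*a^3 + a^4) * X +
        C (2 - 2*b + 2*b*c + 2*b^2 - a + 4*a*c - 3*a*b^2 + 2*a^2 - 3*a^2*c - 6*a^2*b + 4*a^3*b + 2*a^4 - a^5)) +
      (C (1 - 2*c + c^2 - b + 4*b*c - b^3 - 2*a + 4*a*b - 6*a*b*c - 6*a*b^2 + a^2 - 6*a^2*c + 6*a^2*b^2 - 2*a^3 + 4*a^3*c + 8*a^3*b - 5*a^4*b - 2*a^5 + a^6) * X ^ 2 +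
        C (-c + 2*c^2 - 2*b + 2*b^2 - 3*b^2*c - 2*b^3 + 2*a*c - 2*a*c^2 + a*b - 8*a*b*c + 3*a*b^3 - 2*a^2*b + 6*a^2*b*c + 6*a^2*b^2 + 2*a^3*c - 4*a^3*b^2 - a^4*c - 2*a^4*b + a^5*b) * X +
        C (1 - 2*c + 2*b*c - 2*b*c^2 - 2*b^2*c + a*c - 4*a*c^2 + 3*a*b^2*c - 2*a^2*c + 3*a^2*c^2 + 6*a^2*b*c - 4*a^3*b*c - 2*a^4*c + a^5*c)) := by
    unfold fp
    simp only [map_add, map_mul, map_sub, map_pow, map_neg, map_ofNat, map_one]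
    ring
  rw [e] at h
  have h2 := (dvd_add_right (Dvd.intro _ rfl)).1 h
  have h3 := eq_zero_of_dvd_of_degree_lt h2 (by
    have e1 : ((X ^ 3 + C a * X ^ 2 + C b * X + C c : (ZMod 3)[X])).degree = 3 := by compute_degree!
    rw [e1]
    refine lt_of_le_of_lt (b := (2 : WithBot ℕ)) (by compute_degree) (by norm_num))
  have c0 := congrArg (fun P : (ZMod 3)[X] => P.coeff 0) h3
  have c1 := congrArg (fun P : (ZMod 3)[X] => P.coeff 1) h3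
  have c2 := congrArg (fun P : (ZMod 3)[X] => P.coeff 2) h3
  have c0' : 1 - 2*c + 2*b*c - 2*b*c^2 - 2*b^2*c + a*c - 4*a*c^2 + 3*a*b^2*c - 2*a^2*c + 3*a^2*c^2 + 6*a^2*b*c - 4*a^3*b*c - 2*a^4*c + a^5*c = 0 := by
    simpa [coeff_X, coeff_C, coeff_X_pow, coeff_C_mul, -map_add, -map_mul, -map_sub, -map_pow, -map_neg] using c0
  have c1' : -c + 2*c^2 - 2*b + 2*b^2 - 3*b^2*c - 2*b^3 + 2*a*c - 2*a*c^2 + a*b - 8*a*b*c + 3*a*b^3 - 2*a^2*b + 6*a^2*b*c + 6*a^2*b^2 + 2*a^3*c - 4*a^3*b^2 - a^4*c - 2*a^4*b + a^5*b = 0 := by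
    simpa [coeff_X, coeff_C, coeff_X_pow, coeff_C_mul, -map_add, -map_mul, -map_sub, -map_pow, -map_neg] using c1
  have c2' : 1 - 2*c + c^2 - b + 4*b*c - b^3 - 2*a + 4*a*b - 6*a*b*c - 6*a*b^2 + a^2 - 6*a^2*c + 6*a^2*b^2 - 2*a^3 + 4*a^3*c + 8*a^3*b - 5*a^4*b - 2*a^5 + a^6 = 0 := by
    simpa [coeff_X, coeff_C, coeff_X_pow, coeff_C_mul, -map_add, -map_mul, -map_sub, -map_pow, -map_neg] using c2
  clear h3 h2 h e c0 c1 c2
  revert a b c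
  decide

lemma nd4 (a b c d : ZMod 3) : ¬ (X ^ 4 + C a * X ^ 3 + C b * X ^ 2 + C c * X + C d : (ZMod 3)[X]) ∣ fp := by
  intro h
  have e : fp = (X ^ 4 + C a * X ^ 3 + C b * X ^ 2 + C c * X + C d : (ZMod 3)[X]) *
      (X ^ 4 +
        C (2 - a) * X ^ 3 +
        C (-b - 2*a + a^2) * X ^ 2 +
        C (2 - c - 2*b + 2*a*b + 2*a^2 - a^3) * X +
        C (1 - d - 2*c + b^2 - 2*a + 2*a*c + 4*a*b - 3*a^2*b - 2*a^3 + a^4)) +
      (C (2 - 2*d - 2*b + 2*b*c + 2*b^2 - a + 2*a*d + 4*a*c - 3*a*b^2 + 2*a^2 - 3*a^2*c - 6*a^2*b + 4*a^3*b + 2*a^4 - a^5) * X ^ 3 +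
        C (1 - 2*c + c^2 - b + 2*b*d + 4*b*c - b^3 + 2*a*d + 2*a*b - 4*a*b*c - 4*a*b^2 - a^2*d - 2*a^2*c + 3*a^2*b^2 + a^3*c + 2*a^3*b - a^4*b) * X ^ 2 +
        C (-2*d - c + 2*c*d + 2*c^2 + 2*b*d - b^2*c + 2*a*c - 2*a*c^2 - 2*a*b*d - 4*a*b*c - 2*a^2*d + 3*a^2*b*c + a^3*d + 2*a^3*c - a^4*c) * X +
        C (1 - d + d^2 + 2*c*d - b^2*d + 2*a*d - 2*a*c*d - 4*a*b*d + 3*a^2*b*d + 2*a^3*d - a^4*d)) := by
    unfold fp
    simp only [map_add, map_mul, map_sub, map_pow, map_neg, map_ofNat, map_one]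
    ring
  rw [e] at h
  have h2 := (dvd_add_right (Dvd.intro _ rfl)).1 h
  have h3 := eq_zero_of_dvd_of_degree_lt h2 (by
    have e1 : ((X ^ 4 + C a * X ^ 3 + C b * X ^ 2 + C c * X + C d : (ZMod 3)[X])).degree = 4 := by compute_degree!
    rw [e1]
    refine lt_of_le_of_lt (b := (3 : WithBot ℕ)) (by compute_degree) (by norm_num))
  have c0 := congrArg (fun P : (ZMod 3)[X] => P.coeff 0) h3
  have c1 := congrArg (fun P : (ZMod 3)[X] => P.coeff 1) h3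
  have c2 := congrArg (fun P : (ZMod 3)[X] => P.coeff 2) h3
  have c3 := congrArg (fun P : (ZMod 3)[X] => P.coeff 3) h3
  have c0' : 1 - d + d^2 + 2*c*d - b^2*d + 2*a*d - 2*a*c*d - 4*a*b*d + 3*a^2*b*d + 2*a^3*d - a^4*d = 0 := by
    simpa [coeff_X, coeff_C, coeff_X_pow, coeff_C_mul, -map_add, -map_mul, -map_sub, -map_pow, -map_neg] using c0
  have c1' : -2*d - c + 2*c*d + 2*c^2 + 2*b*d - b^2*c + 2*a*c - 2*a*c^2 - 2*a*b*d - 4*a*b*c - 2*a^2*d + 3*a^2*b*c + a^3*d + 2*a^3*c - a^4*c = 0 := by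
    simpa [coeff_X, coeff_C, coeff_X_pow, coeff_C_mul, -map_add, -map_mul, -map_sub, -map_pow, -map_neg] using c1
  have c2' : 1 - 2*c + c^2 - b + 2*b*d + 4*b*c - b^3 + 2*a*d + 2*a*b - 4*a*b*c - 4*a*b^2 - a^2*d - 2*a^2*c + 3*a^2*b^2 + a^3*c + 2*a^3*b - a^4*b = 0 := by
    simpa [coeff_X, coeff_C, coeff_X_pow, coeff_C_mul, -map_add, -map_mul, -map_sub, -map_pow, -map_neg] using c2
  have c3' : 2 - 2*d - 2*b + 2*b*c + 2*b^2 - a + 2*a*d + 4*a*c - 3*a*b^2 + 2*a^2 - 3*a^2*c - 6*a^2*b + 4*a^3*b + 2*a^4 - a^5 = 0 := by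
    simpa [coeff_X, coeff_C, coeff_X_pow, coeff_C_mul, -map_add, -map_mul, -map_sub, -map_pow, -map_neg] using c3
  clear h3 h2 h e c0 c1 c2 c3
  revert a b c d
  decide

end Run7.h697
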