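import Pool.Agent.Run7.h697.Dat8

/-!
# The Krylov property of the explicit matrix
-/

set_option autoImplicit false
set_option linter.unusedVariables false

open Polynomial

namespace Run7.h697

lemma fp_monic : fp.Monic := by
  unfold fp
  monicity!

lemma fp_natDegree : fp.natDegree = 8 := by
  unfold fp
  compute_degree!

theorem fp_irreducible : Irreducible fp := by
  have h1 : fp ≠ 1 := by
    intro h
    have := fp_natDegree
    rw [h, natDegree_one] at this
    omega
  rw [fp_monic.irreducible_iff_lt_natDegree_lt h1]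
  intro q hq hd hdvd
  rw [fp_natDegree, Finset.mem_Ioc] at hd
  have hs := hq.as_sum
  obtain ⟨d1, d2⟩ := hd
  have hcases : q.natDegree = 1 ∨ q.natDegree = 2 ∨ q.natDegree = 3 ∨ q.natDegree = 4 := by omega
  rcases hcases with h | h | h | h
  · rw [h] at hs
    apply nd1 (q.coeff 0)
    rw [hs] at hdvd
    convert hdvd using 1
    simp [Finset.sum_range_succ]
  · rw [h] at hs
    apply nd2 (q.coeff 1) (q.coeff 0)
    rw [hs] at hdvd
    convert hdvd using 1
    simp only [Finset.sum_range_succ, Finset.sum_range_zero, pow_zero, pow_one, mul_one, zero_add]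
    ring
  · rw [h] at hs
    apply nd3 (q.coeff 2) (q.coeff 1) (q.coeff 0)
    rw [hs] at hdvd
    convert hdvd using 1
    simp only [Finset.sum_range_succ, Finset.sum_range_zero, pow_zero, pow_one, mul_one, zero_add]
    ring
  · rw [h] at hs
    apply nd4 (q.coeff 3) (q.coeff 2) (q.coeff 1) (q.coeff 0)
    rw [hs] at hdvd
    convert hdvd using 1
    simp only [Finset.sum_range_succ, Finset.sum_range_zero, pow_zero, pow_one, mul_one, zero_add]
    ring

open Matrix in
lemma T3_pow : (T3_1 ^ 1 = T3_1) ∧ (T3_1 ^ 2 = T3_2) ∧ (T3_1 ^ 3 = T3_3) ∧ (T3_1 ^ 4 = T3_4) ∧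
    (T3_1 ^ 5 = T3_5) ∧ (T3_1 ^ 6 = T3_6) ∧ (T3_1 ^ 7 = T3_7) ∧ (T3_1 ^ 8 = T3_8) := by

  have h1 : T3_1 ^ 1 = T3_1 := pow_one _
  have h2 : T3_1 ^ 2 = T3_2 := by rw [pow_succ, h1, T3_mul_1]
  have h3 : T3_1 ^ 3 = T3_3 := by rw [pow_succ, h2, T3_mul_2]
  have h4 : T3_1 ^ 4 = T3_4 := by rw [pow_succ, h3, T3_mul_3]
  have h5 : T3_1 ^ 5 = T3_5 := by rw [pow_succ, h4, T3_mul_4]
  have h6 : T3_1 ^ 6 = T3_6 := by rw [pow_succ, h5, T3_mul_5]
  have h7 : T3_1 ^ 7 = T3_7 := by rw [pow_succ, h6, T3_mul_6]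
  have h8 : T3_1 ^ 8 = T3_8 := by rw [pow_succ, h7, T3_mul_7]
  exact ⟨h1, h2, h3, h4, h5, h6, h7, h8⟩

lemma aeval_T3 : aeval T3_1 fp = 0 := by
  obtain ⟨h1, h2, h3, h4, h5, h6, h7, h8⟩ := T3_pow
  unfold fp
  simp only [map_add, map_mul, map_pow, aeval_X, map_ofNat, map_one]
  rw [h2, h3, h4, h5, h7, h8]
  have := T3_rel
  simp only [two_smul] at this
  rw [← this]
  simp only [show (2 : Matrix (Fin 8) (Fin 8) (ZMod 3)) = 1 + 1 from (one_add_one_eq_two).symm,
    Matrix.add_mul, Matrix.one_mul]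

open Matrix in
theorem krylov3 : Krylov (B3 * A3) := by
  rw [T3_one]
  intro v hv
  rw [Fintype.linearIndependent_iff]
  intro g hg
  set P : (ZMod 3)[X] := ∑ i : Fin 8, C (g i) * X ^ (i : ℕ) with hP
  have h1 : aeval T3_1 P *ᵥ v = 0 := by
    rw [← hg, hP, map_sum, Matrix.sum_mulVec]
    refine Finset.sum_congr rfl fun i _ => ?_
    rw [map_mul, map_pow, aeval_X, aeval_C, Algebra.algebraMap_eq_smul_one, smul_mul_assoc,
      one_mul, Matrix.smul_mulVec]
  have hcoef : ∀ i : Fin 8, P.coeff i = g i := by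
    intro i
    rw [hP, finsetSum_coeff, Finset.sum_eq_single i]
    · simp
    · intro j _ hj
      rw [coeff_C_mul, coeff_X_pow, if_neg (fun h => hj (Fin.ext h.symm)), mul_zero]
    · intro h; exact absurd (Finset.mem_univ i) h
  by_cases hP0 : P = 0
  · intro i
    rw [← hcoef, hP0, coeff_zero]
  · exfalso
    have hdeg : P.natDegree < 8 := by
      have : P.natDegree ≤ 7 := by
        rw [hP]
        refine natDegree_sum_le_of_forall_le _ _ fun i _ => ?_
        refine (natDegree_C_mul_X_pow_le _ _).trans ?_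
        omega
      omega
    have hnd : ¬ fp ∣ P := by
      intro hdvd
      have := natDegree_le_of_dvd hdvd hP0
      rw [fp_natDegree] at this
      omega
    obtain ⟨a, b, hab⟩ := (fp_irreducible.coprime_iff_not_dvd).2 hnd
    have h2 := congrArg (fun q => aeval T3_1 q *ᵥ v) hab
    simp only [map_add, map_mul, map_one, aeval_T3, mul_zero, zero_add, Matrix.one_mulVec] at h2
    rw [← Matrix.mulVec_mulVec, h1, Matrix.mulVec_zero] at h2
    exact hv h2.symm

end Run7.h697
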