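import Pool.Agent.Run7.h697.VanA

/-!
# Nonvanishing of coefficients
-/

set_option autoImplicit false
set_option linter.unusedVariables false

open Matrix

namespace Run7.h697

variable {p : ℕ} [hp : Fact p.Prime] {n : ℕ}

/-- symplectic weights -/
def wt (w : Fin n → ℤ) : Fin n ⊕ Fin n → ℤ := Sum.elim w (fun i => -w i)

/-- matrices supported on weights at least `k` -/
def Su (w : Fin n → ℤ) (k : ℤ) (m : Mt p n) : Prop := ∀ i j, m i j ≠ 0 → k ≤ wt w i - wt w j

variable {w : Fin n → ℤ}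

lemma Su.mono {k l : ℤ} {m : Mt p n} (h : Su w k m) (hkl : l ≤ k) : Su w l m := fun i j hij =>
  hkl.trans (h i j hij)

lemma Su.add {k : ℤ} {a b : Mt p n} (ha : Su w k a) (hb : Su w k b) : Su w k (a + b) := by
  intro i j hij
  by_cases h : a i j = 0
  · apply hb
    intro h'
    apply hij
    rw [Matrix.add_apply, h, h', add_zero]
  · exact ha i j h

lemma su_zero (k : ℤ) : Su w k (0 : Mt p n) := fun i j h => absurd rfl h

lemma Su.neg {k : ℤ} {a : Mt p n} (ha : Su w k a) : Su w k (-a) := by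
  intro i j hij
  apply ha
  intro h
  apply hij
  rw [Matrix.neg_apply, h, neg_zero]

lemma Su.sum {ι : Type*} (s : Finset ι) (f : ι → Mt p n) {k : ℤ} (h : ∀ i ∈ s, Su w k (f i)) :
    Su w k (∑ i ∈ s, f i) := by
  classical
  induction s using Finset.induction_on with
  | empty => simpa using su_zero k
  | insert a s ha ih =>
    rw [Finset.sum_insert ha]
    exact (h a (Finset.mem_insert_self a s)).add (ih fun i hi => h i (Finset.mem_insert_of_mem hi))

lemma Su.mul {k l : ℤ} {a b : Mt p n} (ha : Su w k a) (hb : Su w l b) : Su w (k + l) (a * b) := by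
  intro i j hij
  rw [Matrix.mul_apply] at hij
  obtain ⟨x, -, hx⟩ := Finset.exists_ne_zero_of_sum_ne_zero hij
  have h1 := ha i x (left_ne_zero_of_mul hx)
  have h2 := hb x j (right_ne_zero_of_mul hx)
  omega

lemma Su.qsmul {k : ℤ} {a : Mt p n} (ha : Su w k a) (q : ℚ) : Su w k (q • a) := by
  intro i j hij
  apply ha
  intro h
  apply hij
  rw [Matrix.smul_apply, h, smul_zero]

lemma su_one : Su w 0 (1 : Mt p n) := by
  intro i j hij
  have : i = j := by
    by_contra h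
    exact hij (Matrix.one_apply_ne h)
  rw [this]; simp

lemma Su.pow {k : ℤ} {a : Mt p n} (ha : Su w k a) (m : ℕ) : Su w (m * k) (a ^ m) := by
  induction m with
  | zero => simpa using su_one
  | succ m ih =>
    rw [pow_succ]
    have := ih.mul ha
    rwa [show (m : ℤ) * k + k = ((m + 1 : ℕ) : ℤ) * k by push_cast; ring] at this

lemma Su.st {k : ℤ} {m : Mt p n} (h : Su w k m) : Su w k (st m) := by
  have e : Run7.h697.st m = Matrix.fromBlocks (m.toBlocks₂₂)ᵀ (-(m.toBlocks₁₂)ᵀ)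
      (-(m.toBlocks₂₁)ᵀ) (m.toBlocks₁₁)ᵀ := by
    conv_lhs => rw [← Matrix.fromBlocks_toBlocks m]
    rw [st_fromBlocks]
  rw [e]
  intro i j hij
  rcases i with i | i <;> rcases j with j | j
  · have := h (Sum.inr j) (Sum.inr i) (by simpa [tb22] using hij)
    simp only [wt, Sum.elim_inl, Sum.elim_inr] at this ⊢
    omega
  · have := h (Sum.inl j) (Sum.inr i) (by simpa [tb12] using hij)
    simp only [wt, Sum.elim_inl, Sum.elim_inr] at this ⊢
    omega
  · have := h (Sum.inr j) (Sum.inl i) (by simpa [tb21] using hij)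
    simp only [wt, Sum.elim_inl, Sum.elim_inr] at this ⊢
    omega
  · have := h (Sum.inl j) (Sum.inl i) (by simpa [tb11] using hij)
    simp only [wt, Sum.elim_inl, Sum.elim_inr] at this ⊢
    omega

/-- traces of matrices of positive weight vanish -/
lemma trace_su {k : ℤ} (hk : 1 ≤ k) {m : Mt p n} (h : Su w k m) : m.trace = 0 := by
  rw [Matrix.trace]
  refine Finset.sum_eq_zero fun i _ => ?_
  by_contra hne
  have := h i i hne
  simp only [sub_self] at this
  omega

lemma su_large {m : Mt p n} : ∃ K : ℤ, ∀ k : ℤ, K ≤ k → ∀ m : Mt p n, Su w k m → m = 0 := by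
  classical
  refine ⟨(∑ i, ∑ j, |wt w i - wt w j|) + 1, fun k hk m hm => ?_⟩
  ext i j
  by_contra hne
  have h1 := hm i j hne
  have h2 : wt w i - wt w j ≤ ∑ i, ∑ j, |wt w i - wt w j| := by
    calc wt w i - wt w j ≤ |wt w i - wt w j| := le_abs_self _
      _ ≤ ∑ j, |wt w i - wt w j| :=
        Finset.single_le_sum (f := fun j => |wt w i - wt w j|) (fun _ _ => abs_nonneg _)
          (Finset.mem_univ j)
      _ ≤ _ := Finset.single_le_sum (f := fun i => ∑ j, |wt w i - wt w j|)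
          (fun _ _ => Finset.sum_nonneg fun _ _ => abs_nonneg _) (Finset.mem_univ i)
  omega

/-- the unipotent group `V_X` -/
noncomputable def VX (p : ℕ) [Fact p.Prime] (w : Fin n → ℤ) : Subgroup (GG p n) where
  carrier := {g | Su w 2 ((g : Mt p n) - 1)}
  mul_mem' {a b} ha hb := by
    have e : ((a * b : GG p n) : Mt p n) - 1 = ((a : Mt p n) - 1) * ((b : Mt p n) - 1) +
        ((a : Mt p n) - 1) + ((b : Mt p n) - 1) := by
      rw [coe_mul]
      simp only [Matrix.sub_mul, Matrix.mul_sub, Matrix.one_mul, Matrix.mul_one]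
      abel
    change Su w 2 _
    rw [e]
    exact (((Su.mul ha hb).mono (by norm_num)).add ha).add hb
  one_mem' := by
    change Su w 2 _
    rw [coe_one, sub_self]; exact su_zero _
  inv_mem' {a} ha := by
    change Su w 2 _
    rw [coe_inv_eq_st, ← st_one, ← st_sub]
    exact Su.st ha

lemma mem_VX {g : GG p n} : g ∈ VX p w ↔ Su w 2 ((g : Mt p n) - 1) := Iff.rfl

/-- the character `ψ_X` -/
noncomputable def psX (ψ : AddChar ℚ_[p] Circle) (X : Mt p n) (g : GG p n) : Circle :=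
  ψ ((X * ((g : Mt p n) - 1)).trace)

lemma psX_mul {ψ : AddChar ℚ_[p] Circle} {X : Mt p n} (hX : Su w (-2) X) {g h : GG p n}
    (hg : g ∈ VX p w) (hh : h ∈ VX p w) : psX ψ X (g * h) = psX ψ X g * psX ψ X h := by
  have e : ((g * h : GG p n) : Mt p n) - 1 = (((g : Mt p n) - 1) + ((h : Mt p n) - 1)) +
      ((g : Mt p n) - 1) * ((h : Mt p n) - 1) := by
    rw [coe_mul]
    simp only [Matrix.sub_mul, Matrix.mul_sub, Matrix.one_mul, Matrix.mul_one]
    abel
  have h0 : (X * (((g : Mt p n) - 1) * ((h : Mt p n) - 1))).trace = 0 :=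
    trace_su (by norm_num) (hX.mul (Su.mul hg hh))
  unfold psX
  rw [e, Matrix.mul_add, Matrix.trace_add, h0, add_zero, Matrix.mul_add, Matrix.trace_add,
    AddChar.map_add_eq_mul]

lemma psX_one (ψ : AddChar ℚ_[p] Circle) (X : Mt p n) : psX ψ X 1 = 1 := by
  rw [psX, coe_one, sub_self, Matrix.mul_zero, Matrix.trace_zero, AddChar.map_zero_eq_one]

lemma psX_inv {ψ : AddChar ℚ_[p] Circle} {X : Mt p n} (hX : Su w (-2) X) {g : GG p n}
    (hg : g ∈ VX p w) : psX ψ X g⁻¹ = (psX ψ X g)⁻¹ := by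
  have := psX_mul (ψ := ψ) hX hg ((VX p w).inv_mem hg)
  rw [mul_inv_cancel, psX_one] at this
  exact (inv_eq_of_mul_eq_one_right this.symm).symm

lemma inv_ng (g : GG p n) : (ng g)⁻¹ = ng g⁻¹ := by
  apply inv_eq_of_mul_eq_one_right
  rw [ng_mul, mul_ng, ng_ng, mul_inv_cancel]

/-- elements of `nil2` have weights at least `2` -/
lemma su_nil2 {Z : Mt p n} (hZ : Z ∈ nil2 (Matrix.diagonal fun i => (wt w i : ℚ_[p]))) :
    Su w 2 Z := by
  let S : Submodule ℚ_[p] (Mt p n) :=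
    { carrier := {m | Su w 2 m}
      add_mem' := fun ha hb => Su.add ha hb
      zero_mem' := su_zero 2
      smul_mem' := fun c a ha => by
        intro i j hij
        apply ha
        intro h
        apply hij
        rw [Matrix.smul_apply, h, smul_zero] }
  have : nil2 (Matrix.diagonal fun i => (wt w i : ℚ_[p])) ≤ S := by
    refine iSup₂_le fun k hk => ?_
    rintro m ⟨-, hm⟩ i j hij
    have h1 := congrFun (congrFun hm i) j
    rw [Matrix.sub_apply, Matrix.diagonal_mul, Matrix.mul_diagonal, Matrix.smul_apply,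
      smul_eq_mul] at h1
    have h2 : ((wt w i : ℚ_[p]) - (wt w j : ℚ_[p])) * m i j = (k : ℚ_[p]) * m i j := by
      rw [← h1]; ring
    have h3 := mul_right_cancel₀ hij h2
    have h4 : wt w i - wt w j = k := by exact_mod_cast h3
    omega
  exact this hZ

lemma exp_su {X Z : Mt p n} (hX : Su w (-2) X) (hZ : Su w 2 Z) :
    Su w 2 (IsNilpotent.exp Z - 1) ∧ (X * (IsNilpotent.exp Z - 1)).trace = (X * Z).trace := by
  obtain ⟨K, hK⟩ := su_large (p := p) (w := w) (m := Z)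
  obtain ⟨N, hN⟩ : ∃ N : ℕ, K ≤ ((N + 2 : ℕ) : ℤ) * 2 := ⟨K.toNat, by push_cast; omega⟩
  have h0 : Z ^ (N + 2) = 0 := hK _ hN _ (hZ.pow _)
  rw [IsNilpotent.exp_eq_sum h0]
  have e : ∑ i ∈ Finset.range (N + 2), ((i.factorial : ℚ))⁻¹ • Z ^ i - 1 =
      Z + ∑ i ∈ Finset.range N, (((i + 2).factorial : ℚ))⁻¹ • Z ^ (i + 2) := by
    rw [Finset.sum_range_succ', Finset.sum_range_succ']
    simp only [zero_add, Nat.factorial_zero, Nat.factorial_one, Nat.cast_one, inv_one, one_smul,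
      pow_zero, pow_one]
    abel
  rw [e]
  have h1 : Su w 3 (∑ i ∈ Finset.range N, (((i + 2).factorial : ℚ))⁻¹ • Z ^ (i + 2)) := by
    refine Su.sum _ _ fun i _ => ?_
    exact ((hZ.pow (i + 2)).mono (by push_cast; omega)).qsmul _
  refine ⟨hZ.add (h1.mono (by norm_num)), ?_⟩
  rw [Matrix.mul_add, Matrix.trace_add, trace_su (w := w) (by norm_num) (hX.mul h1), add_zero]

namespace Datum

variable (D : Datum p n) {ψ : AddChar ℚ_[p] Circle}

section

variable {X : Mt p n}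

/-- the summand of the functional -/
noncomputable def Ff (ψ : AddChar ℚ_[p] Circle) (X : Mt p n) (f : D.Sp ψ) (x : VX p w) : ℂ :=
  (psX ψ X (x : GG p n) : ℂ) * (f : GG p n → ℂ) (x : GG p n)⁻¹

lemma chi_eq_psX (hGX : Su w (-1) (D.G - X)) {g : GG p n} (hg : g ∈ VX p w) :
    D.chi ψ g = psX ψ X g := by
  unfold chi psX
  have h1 : (D.G * ((g : Mt p n) - 1)).trace = (X * ((g : Mt p n) - 1)).trace +
      ((D.G - X) * ((g : Mt p n) - 1)).trace := by
    rw [← Matrix.trace_add, ← Matrix.add_mul, add_sub_cancel]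
  rw [h1, trace_su (w := w) (by norm_num) (hGX.mul hg), add_zero]

lemma Ff_mul (hψ : Cond ψ) (hX : Su w (-2) X) (hGX : Su w (-1) (D.G - X)) (f : D.Sp ψ)
    (x k : VX p w) (hk : (k : GG p n) ∈ KS p n 1) : D.Ff ψ X f (x * k) = D.Ff ψ X f x := by
  unfold Ff
  rw [Subgroup.coe_mul, psX_mul hX x.2 k.2, _root_.mul_inv_rev, f.2.1 _ ((KS p n 1).inv_mem hk),
    D.chi_inv hψ hk, D.chi_eq_psX hGX k.2, Circle.coe_mul, Circle.coe_inv]
  have h1 : (psX ψ X (k : GG p n) : ℂ) ≠ 0 := Circle.coe_ne_zero _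
  field_simp

/-- the summand on cosets -/
noncomputable def Fq (hψ : Cond ψ) (hX : Su w (-2) X) (hGX : Su w (-1) (D.G - X)) (f : D.Sp ψ) :
    (VX p w) ⧸ ((KS p n 1).subgroupOf (VX p w)) → ℂ :=
  Quotient.lift (D.Ff ψ X f) (by
    intro a b hab
    have h2 : a⁻¹ * b ∈ (KS p n 1).subgroupOf (VX p w) := QuotientGroup.leftRel_apply.1 hab
    have := D.Ff_mul hψ hX hGX f a _ (Subgroup.mem_subgroupOf.1 h2)
    rw [mul_inv_cancel_left] at this
    exact this.symm)

lemma Fq_mk (hψ : Cond ψ) (hX : Su w (-2) X) (hGX : Su w (-1) (D.G - X)) (f : D.Sp ψ) (x : VX p w) :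
    D.Fq hψ hX hGX f (x : (VX p w) ⧸ ((KS p n 1).subgroupOf (VX p w))) = D.Ff ψ X f x := rfl

lemma Fq_finite (hψ : Cond ψ) (hX : Su w (-2) X) (hGX : Su w (-1) (D.G - X)) (f : D.Sp ψ) :
    (Function.support (D.Fq hψ hX hGX f)).Finite := by
  classical
  obtain ⟨S, hS⟩ := f.2.2.2
  have h1 : ∀ q : (VX p w) ⧸ ((KS p n 1).subgroupOf (VX p w)), ∃ a : GG p n × Bool,
      D.Fq hψ hX hGX f q ≠ 0 → a.1 ∈ S ∧ ∃ x : VX p w, (x : (VX p w) ⧸ ((KS p n 1).subgroupOf (VX p w))) = q ∧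
        ∃ k ∈ KS p n 1, (x : GG p n)⁻¹ = if a.2 then k * a.1 else ng (k * a.1) := by
    intro q
    by_cases hq : D.Fq hψ hX hGX f q = 0
    · exact ⟨(1, true), fun h => absurd hq h⟩
    · induction q using QuotientGroup.induction_on with
      | H x =>
        rw [Fq_mk] at hq
        obtain ⟨s, hs, k, hk, h⟩ := hS _ (right_ne_zero_of_mul hq)
        rcases h with h | h
        · exact ⟨(s, true), fun _ => ⟨hs, x, rfl, k, hk, by simpa using h⟩⟩
        · exact ⟨(s, false), fun _ => ⟨hs, x, rfl, k, hk, by simpa using h⟩⟩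
  choose φ hφ using h1
  refine Set.Finite.of_finite_image (f := φ) ?_ ?_
  · refine (Set.Finite.prod S.finite_toSet (Set.finite_univ (α := Bool))).subset ?_
    rintro _ ⟨q, hq, rfl⟩
    exact ⟨(hφ q hq).1, trivial⟩
  · intro q hq q' hq' hqq
    obtain ⟨-, x, rfl, k, hk, hx⟩ := hφ q hq
    obtain ⟨-, y, rfl, k', hk', hy⟩ := hφ q' hq'
    rw [hqq] at hx
    rw [QuotientGroup.eq, Subgroup.mem_subgroupOf, Subgroup.coe_mul, Subgroup.coe_inv]
    have e : (y : GG p n) = ((y : GG p n)⁻¹)⁻¹ := (inv_inv _).symm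
    rw [e, hx, hy]
    have hkk : k * k'⁻¹ ∈ KS p n 1 := (KS p n 1).mul_mem hk ((KS p n 1).inv_mem hk')
    split_ifs
    · convert hkk using 1
      group
    · rw [inv_ng, ng_mul, mul_ng, ng_ng]
      convert hkk using 1
      group

/-- the functional -/
noncomputable def lX (hψ : Cond ψ) (hX : Su w (-2) X) (hGX : Su w (-1) (D.G - X)) :
    D.Sp ψ →ₗ[ℂ] ℂ where
  toFun f := ∑ᶠ q, D.Fq hψ hX hGX f q
  map_add' f g := by
    rw [← finsum_add_distrib (D.Fq_finite hψ hX hGX f) (D.Fq_finite hψ hX hGX g)]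
    apply finsum_congr
    intro q
    induction q using QuotientGroup.induction_on with
    | H x =>
      rw [Fq_mk, Fq_mk, Fq_mk]
      exact mul_add _ _ _
  map_smul' c f := by
    rw [RingHom.id_apply, smul_eq_mul, mul_finsum (D.Fq hψ hX hGX f) c]
    apply finsum_congr
    intro q
    induction q using QuotientGroup.induction_on with
    | H x =>
      rw [Fq_mk, Fq_mk]
      exact mul_left_comm _ _ _

lemma lX_apply (hψ : Cond ψ) (hX : Su w (-2) X) (hGX : Su w (-1) (D.G - X)) (f : D.Sp ψ) :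
    D.lX hψ hX hGX f = ∑ᶠ q, D.Fq hψ hX hGX f q := rfl

lemma lX_equi (hψ : Cond ψ) (hX : Su w (-2) X) (hGX : Su w (-1) (D.G - X)) (f : D.Sp ψ)
    {u : GG p n} (hu : u ∈ VX p w) :
    D.lX hψ hX hGX (D.rep ψ u f) = (psX ψ X u : ℂ) * D.lX hψ hX hGX f := by
  rw [lX_apply, lX_apply, mul_finsum (D.Fq hψ hX hGX f) _,
    ← finsum_comp_equiv (MulAction.toPerm (⟨u, hu⟩ : VX p w))]
  apply finsum_congr
  intro q
  induction q using QuotientGroup.induction_on with
  | H x =>
    rw [MulAction.toPerm_apply, MulAction.Quotient.smul_coe, Fq_mk, Fq_mk]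
    unfold Ff
    rw [rep_apply]
    have e1 : ((((⟨u, hu⟩ : VX p w) • x : VX p w) : GG p n)) = u * (x : GG p n) := rfl
    rw [e1, psX_mul hX hu x.2, _root_.mul_inv_rev, inv_mul_cancel_right, Circle.coe_mul, mul_assoc]

include D in
lemma ng_notMem (hp2 : p ≠ 2) {x : GG p n} (hx : x ∈ VX p w) : ng x ∉ KS p n 1 := by
  intro h
  have hn : 0 < n := lt_of_lt_of_le two_pos D.hn
  have h4 := h (Sum.inl ⟨0, hn⟩) (Sum.inl ⟨0, hn⟩)
  have h3 : ((x : Mt p n) - 1) (Sum.inl ⟨0, hn⟩) (Sum.inl ⟨0, hn⟩) = 0 := by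
    by_contra hne
    have := hx _ _ hne
    simp only [sub_self] at this
    omega
  have h5 : ((ng x : GG p n) : Mt p n) - 1 = -(((x : Mt p n) - 1)) - (2 : ℚ_[p]) • (1 : Mt p n) := by
    rw [coe_ng, two_smul]; abel
  rw [h5, Matrix.sub_apply, Matrix.neg_apply, h3, Matrix.smul_apply, Matrix.one_apply_eq, smul_eq_mul,
    mul_one, neg_zero, zero_sub, norm_neg] at h4
  have h6 : ‖(2 : ℚ_[p])‖ = 1 := by
    have h : ‖((2 : ℕ) : ℚ_[p])‖ = 1 := by
      rw [Padic.norm_natCast_eq_one_iff]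
      exact (Nat.coprime_primes hp.out Nat.prime_two).2 hp2
    exact_mod_cast h
  rw [h6] at h4
  have h7 := sq_zpow_lt (p := p) (show (-1 : ℤ) < 0 by norm_num)
  simp only [zpow_zero] at h7
  exact absurd h7 (not_lt.2 (by simpa using h4))

lemma lX_f0 (hp2 : p ≠ 2) (hψ : Cond ψ) (hX : Su w (-2) X) (hGX : Su w (-1) (D.G - X)) :
    D.lX hψ hX hGX (D.f0 hp2 hψ) = 1 := by
  rw [lX_apply, finsum_eq_single _ ((1 : VX p w) : (VX p w) ⧸ ((KS p n 1).subgroupOf (VX p w)))]
  · rw [Fq_mk]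
    unfold Ff
    rw [Subgroup.coe_one, inv_one, D.f0_one hp2 hψ, psX_one, Circle.coe_one, one_mul]
  · intro q hq
    induction q using QuotientGroup.induction_on with
    | H x =>
      rw [Fq_mk]
      unfold Ff
      rw [f0_apply]
      by_contra hne
      rcases D.f0_ne_zero (right_ne_zero_of_mul hne) with h | h
      · apply hq
        rw [eq_comm, QuotientGroup.eq, Subgroup.mem_subgroupOf]
        rw [inv_one, one_mul]
        have := (KS p n 1).inv_mem h
        rwa [inv_inv] at this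
      · exact D.ng_notMem hp2 ((VX p w).inv_mem x.2) h

/-- **nonvanishing** -/
theorem nonvan (hp2 : p ≠ 2) (hψ : Cond ψ) (hX : Su w (-2) X) (hGX : Su w (-1) (D.G - X)) :
    ∃ ℓ : D.Sp ψ →ₗ[ℂ] ℂ, ℓ ≠ 0 ∧
      ∀ Z ∈ nil2 (Matrix.diagonal fun i => (wt w i : ℚ_[p])), ∀ g : GG p n,
        (g : Mt p n) = IsNilpotent.exp Z → ∀ v, ℓ (D.rep ψ g v) = (ψ ((X * Z).trace) : ℂ) * ℓ v := by
  refine ⟨D.lX hψ hX hGX, ?_, ?_⟩
  · intro h
    have h1 := D.lX_f0 hp2 hψ hX hGX
    rw [h] at h1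
    exact zero_ne_one h1
  · intro Z hZ g hg v
    obtain ⟨h1, h2⟩ := exp_su hX (su_nil2 hZ)
    have h3 : g ∈ VX p w := by rw [mem_VX, hg]; exact h1
    rw [D.lX_equi hψ hX hGX v h3]
    unfold psX
    rw [hg, h2]

end

end Datum

end Run7.h697
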