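import Mathlib

/-!
# Weighted bounds for `2n × 2n` matrices over `ℚ_p`

`Bd k m` says that the `(i,j)` entry of `m` has norm at most `√p ^ (k + d i - d j)`, where
`d = 0` on the first block of indices and `d = 1` on the second one.  `Bd 0` is a hereditary order,
`Bd (-1)` its radical.
-/

set_option autoImplicit false
set_option linter.unusedVariables false
set_option linter.unnecessarySeqFocus false

open Matrix

namespace Run7.h697

variable {p : ℕ} [hp : Fact p.Prime] {n : ℕ}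

/-- index set -/
abbrev Ix (n : ℕ) := Fin n ⊕ Fin n

/-- matrices -/
abbrev Mt (p n : ℕ) [Fact p.Prime] := Matrix (Fin n ⊕ Fin n) (Fin n ⊕ Fin n) ℚ_[p]

/-- the level of an index -/
def dd : Fin n ⊕ Fin n → ℤ := Sum.elim (fun _ => 0) (fun _ => 1)

@[simp] lemma dd_inl (i : Fin n) : dd (Sum.inl i : Fin n ⊕ Fin n) = 0 := rfl
@[simp] lemma dd_inr (i : Fin n) : dd (Sum.inr i : Fin n ⊕ Fin n) = 1 := rfl

/-- the square root of `p` -/
noncomputable def sq (p : ℕ) : ℝ := Real.sqrt p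

lemma sq_sq (p : ℕ) : sq p * sq p = p := Real.mul_self_sqrt (Nat.cast_nonneg p)

lemma one_lt_sq (p : ℕ) [hp : Fact p.Prime] : 1 < sq p := by
  have h : (1 : ℝ) < p := by exact_mod_cast hp.out.one_lt
  rw [sq, Real.lt_sqrt zero_le_one]
  simpa using h

lemma sq_pos (p : ℕ) [hp : Fact p.Prime] : 0 < sq p := lt_trans zero_lt_one (one_lt_sq p)

lemma sq_ne (p : ℕ) [hp : Fact p.Prime] : sq p ≠ 0 := (sq_pos p).ne'

lemma sq_zpow_pos (p : ℕ) [hp : Fact p.Prime] (k : ℤ) : 0 < sq p ^ k := zpow_pos (sq_pos p) k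

lemma sq_zpow_two (p : ℕ) [hp : Fact p.Prime] (k : ℤ) : sq p ^ (2 * k) = (p : ℝ) ^ k := by
  rw [_root_.zpow_mul, _root_.zpow_two, sq_sq]

lemma sq_zpow_le {k l : ℤ} (h : k ≤ l) : sq p ^ k ≤ sq p ^ l :=
  zpow_le_zpow_right₀ (one_lt_sq p).le h

lemma sq_zpow_lt {k l : ℤ} (h : k < l) : sq p ^ k < sq p ^ l :=
  zpow_lt_zpow_right₀ (one_lt_sq p) h

lemma norm_le_even {x : ℚ_[p]} {k : ℤ} (h : ‖x‖ ≤ sq p ^ (2 * k + 1)) : ‖x‖ ≤ sq p ^ (2 * k) := by
  rw [sq_zpow_two, Padic.norm_le_pow_iff_norm_lt_pow_add_one]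
  refine lt_of_le_of_lt h ?_
  rw [← sq_zpow_two]
  exact sq_zpow_lt (by omega)

/-- the bound -/
def Bd (k : ℤ) (m : Mt p n) : Prop := ∀ i j, ‖m i j‖ ≤ sq p ^ (k + dd i - dd j)

lemma Bd.mono {k l : ℤ} {m : Mt p n} (h : Bd k m) (hkl : k ≤ l) : Bd l m := fun i j =>
  (h i j).trans (sq_zpow_le (by omega))

lemma Bd.add {k : ℤ} {a b : Mt p n} (ha : Bd k a) (hb : Bd k b) : Bd k (a + b) := fun i j => by
  rw [Matrix.add_apply]
  exact (Padic.nonarchimedean _ _).trans (max_le (ha i j) (hb i j))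

lemma Bd.neg {k : ℤ} {a : Mt p n} (ha : Bd k a) : Bd k (-a) := fun i j => by
  rw [Matrix.neg_apply, norm_neg]; exact ha i j

lemma Bd.sub {k : ℤ} {a b : Mt p n} (ha : Bd k a) (hb : Bd k b) : Bd k (a - b) := by
  rw [sub_eq_add_neg]; exact ha.add hb.neg

lemma bd_zero (k : ℤ) : Bd k (0 : Mt p n) := fun i j => by
  rw [Matrix.zero_apply, norm_zero]; exact (sq_zpow_pos p _).le

lemma bd_one : Bd 0 (1 : Mt p n) := fun i j => by
  rw [Matrix.one_apply]
  split_ifs with h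
  · subst h; simp
  · rw [norm_zero]; exact (sq_zpow_pos p _).le

lemma norm_sum_le_of {ι : Type*} (s : Finset ι) (f : ι → ℚ_[p]) {r : ℝ} (hr : 0 ≤ r)
    (h : ∀ i ∈ s, ‖f i‖ ≤ r) : ‖∑ i ∈ s, f i‖ ≤ r := by
  classical
  induction s using Finset.induction_on with
  | empty => simpa using hr
  | insert a s ha ih =>
    rw [Finset.sum_insert ha]
    refine (Padic.nonarchimedean _ _).trans (max_le (h a (Finset.mem_insert_self a s)) ?_)
    exact ih fun i hi => h i (Finset.mem_insert_of_mem hi)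

lemma Bd.sum {ι : Type*} (s : Finset ι) (f : ι → Mt p n) {k : ℤ} (h : ∀ i ∈ s, Bd k (f i)) :
    Bd k (∑ i ∈ s, f i) := fun i j => by
  rw [Matrix.sum_apply]
  exact norm_sum_le_of s _ (sq_zpow_pos p _).le fun a ha => h a ha i j

lemma Bd.mul {k l : ℤ} {a b : Mt p n} (ha : Bd k a) (hb : Bd l b) : Bd (k + l) (a * b) := by
  intro i j
  rw [Matrix.mul_apply]
  refine norm_sum_le_of _ _ (sq_zpow_pos p _).le fun x _ => ?_
  rw [norm_mul]
  refine (mul_le_mul (ha i x) (hb x j) (norm_nonneg _) (sq_zpow_pos p _).le).trans ?_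
  rw [← zpow_add₀ (sq_ne p)]
  exact sq_zpow_le (by omega)

lemma Bd.mul' {k l r : ℤ} {a b : Mt p n} (ha : Bd k a) (hb : Bd l b) (h : k + l ≤ r) :
    Bd r (a * b) := (ha.mul hb).mono h

lemma Bd.smul {k l : ℤ} {x : ℚ_[p]} {a : Mt p n} (hx : ‖x‖ ≤ sq p ^ l) (ha : Bd k a) :
    Bd (l + k) (x • a) := by
  intro i j
  rw [Matrix.smul_apply, smul_eq_mul, norm_mul]
  refine (mul_le_mul hx (ha i j) (norm_nonneg _) (sq_zpow_pos p _).le).trans ?_
  rw [← zpow_add₀ (sq_ne p)]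
  exact sq_zpow_le (by omega)

lemma Bd.smul_int {k : ℤ} {x : ℚ_[p]} {a : Mt p n} (hx : ‖x‖ ≤ 1) (ha : Bd k a) :
    Bd k (x • a) := by
  have := Bd.smul (l := 0) (by simpa using hx) ha
  simpa using this

lemma Bd.pow {k : ℤ} {a : Mt p n} (ha : Bd k a) (N : ℕ) : Bd (N * k) (a ^ N) := by
  induction N with
  | zero => simpa using (bd_one (p := p) (n := n))
  | succ N ih =>
    rw [pow_succ]
    have := ih.mul ha
    convert this using 1
    push_cast; ring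

lemma Bd.trace {k : ℤ} {a : Mt p n} (ha : Bd k a) : ‖a.trace‖ ≤ sq p ^ k := by
  rw [Matrix.trace]
  refine norm_sum_le_of _ _ (sq_zpow_pos p _).le fun x _ => ?_
  have := ha x x
  simpa using this

lemma Bd.trace_lt {k : ℤ} {a : Mt p n} (ha : Bd k a) (hk : k < 0) : ‖a.trace‖ < 1 :=
  lt_of_le_of_lt ha.trace (by simpa using (sq_zpow_lt (p := p) hk))

/-- norm of `p`. -/
lemma norm_p_zpow (k : ℤ) : ‖((p : ℚ_[p]) ^ k)‖ = sq p ^ (-(2 * k)) := by
  rw [norm_zpow, Padic.norm_p, show -(2 * k) = 2 * (-k) by ring, sq_zpow_two, _root_.inv_zpow, _root_.zpow_neg]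

lemma p_ne : (p : ℚ_[p]) ≠ 0 := by exact_mod_cast hp.out.ne_zero

lemma Bd.smul_p {k : ℤ} {a : Mt p n} (ha : Bd k a) (l : ℤ) : Bd (k - 2 * l) (((p : ℚ_[p]) ^ l) • a) := by
  have := Bd.smul (l := -(2 * l)) (norm_p_zpow (p := p) l).le ha
  convert this using 1
  ring

lemma bd_smul_p_iff {k : ℤ} {a : Mt p n} (l : ℤ) :
    Bd (k - 2 * l) (((p : ℚ_[p]) ^ l) • a) ↔ Bd k a := by
  constructor
  · intro h
    have := h.smul_p (-l)
    rw [smul_smul, ← zpow_add₀ p_ne] at this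
    simp only [neg_add_cancel, zpow_zero, one_smul] at this
    convert this using 1; ring
  · intro h; exact h.smul_p l

/-- `x ≠ 0`: least bound -/
lemma exists_level {m : Mt p n} (hm : m ≠ 0) : ∃ k : ℤ, Bd k m ∧ ¬ Bd (k - 1) m := by
  classical
  have hex : ∃ i j, m i j ≠ 0 := by
    by_contra h
    push Not at h
    exact hm (by ext i j; simpa using h i j)
  obtain ⟨i0, j0, h0⟩ := hex
  have hne : ∃ z, Bd z m := by
    -- entries are bounded
    have : ∃ N : ℕ, ∀ i j, ‖m i j‖ ≤ sq p ^ (N : ℤ) := by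
      have hf : ∀ ij : (Fin n ⊕ Fin n) × (Fin n ⊕ Fin n), ∃ N : ℕ, ‖m ij.1 ij.2‖ ≤ sq p ^ N := by
        intro ij
        obtain ⟨N, hN⟩ := pow_unbounded_of_one_lt ‖m ij.1 ij.2‖ (one_lt_sq p)
        exact ⟨N, hN.le⟩
      choose N hN using hf
      refine ⟨∑ ij, N ij, fun i j => ?_⟩
      refine (hN (i, j)).trans ?_
      rw [← zpow_natCast]
      refine sq_zpow_le ?_
      exact_mod_cast Finset.single_le_sum (f := N) (fun _ _ => Nat.zero_le _) (Finset.mem_univ (i, j))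
    obtain ⟨N, hN⟩ := this
    refine ⟨N + 1, fun i j => (hN i j).trans (sq_zpow_le ?_)⟩
    rcases i with i | i <;> rcases j with j | j <;> simp [dd] <;> omega
  have hbdd : ∃ b : ℤ, ∀ z, Bd z m → b ≤ z := by
    -- lower bound
    obtain ⟨N, hN⟩ := pow_unbounded_of_one_lt (‖m i0 j0‖⁻¹) (one_lt_sq p)
    refine ⟨-N - 1, fun z hz => ?_⟩
    by_contra hlt
    push Not at hlt
    have h1 := hz i0 j0
    have h2 : ‖m i0 j0‖ ≤ sq p ^ (-(N : ℤ)) := h1.trans (sq_zpow_le (by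
      rcases i0 with i | i <;> rcases j0 with j | j <;> simp [dd] <;> omega))
    have h3 : 0 < ‖m i0 j0‖ := norm_pos_iff.2 h0
    rw [_root_.zpow_neg, zpow_natCast] at h2
    have h4 : sq p ^ N ≤ ‖m i0 j0‖⁻¹ := by
      rw [le_inv_comm₀ (pow_pos (sq_pos p) _) h3]
      exact h2
    exact absurd hN (not_lt.2 h4)
  obtain ⟨lb, h1, h2⟩ := Int.exists_least_of_bdd hbdd hne
  refine ⟨lb, h1, fun h => ?_⟩
  have := h2 _ h
  omega

end Run7.h697
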