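import Pool.Agent.Run7.h697.Comb

/-!
# Normalisation of additive characters
-/

set_option autoImplicit false
set_option linter.unusedVariables false

open Matrix

namespace Run7.h697

/-- the circle has no small subgroups -/
lemma circle_eq_one (z : Circle) (h : ∀ n : ℕ, ‖(z : ℂ) ^ n - 1‖ < 1 / 2) : z = 1 := by
  by_contra hz
  have ha : 0 < ‖(z : ℂ) - 1‖ := by
    rw [norm_pos_iff, sub_ne_zero]
    intro h1
    exact hz (Circle.ext (by rw [h1, Circle.coe_one]))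
  have key : ∀ n : ℕ, (3 / 2 : ℝ) ^ n * ‖(z : ℂ) - 1‖ ≤ ‖(z : ℂ) ^ (2 ^ n) - 1‖ := by
    intro n
    induction n with
    | zero => simp
    | succ n ih =>
      have e : (z : ℂ) ^ (2 ^ (n + 1)) - 1 = ((z : ℂ) ^ (2 ^ n) - 1) * ((z : ℂ) ^ (2 ^ n) + 1) := by
        ring
      have h1 : (3 / 2 : ℝ) ≤ ‖(z : ℂ) ^ (2 ^ n) + 1‖ := by
        have h2 : (2 : ℂ) = ((z : ℂ) ^ (2 ^ n) + 1) - ((z : ℂ) ^ (2 ^ n) - 1) := by ring
        have h3 : ‖(2 : ℂ)‖ ≤ ‖(z : ℂ) ^ (2 ^ n) + 1‖ + ‖(z : ℂ) ^ (2 ^ n) - 1‖ := by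
          conv_lhs => rw [h2]
          exact norm_sub_le _ _
        have h4 : ‖(2 : ℂ)‖ = 2 := by simp
        have h5 := h (2 ^ n)
        linarith
      rw [e, norm_mul]
      calc (3 / 2 : ℝ) ^ (n + 1) * ‖(z : ℂ) - 1‖ = ((3 / 2 : ℝ) ^ n * ‖(z : ℂ) - 1‖) * (3 / 2) := by
            ring
        _ ≤ _ := mul_le_mul ih h1 (by norm_num) (norm_nonneg _)
  obtain ⟨n, hn⟩ := pow_unbounded_of_one_lt (1 / ‖(z : ℂ) - 1‖) (show (1 : ℝ) < 3 / 2 by norm_num)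
  have h1 := key n
  have h2 := h (2 ^ n)
  rw [div_lt_iff₀ ha] at hn
  linarith

variable {p : ℕ} [hp : Fact p.Prime]

lemma exists_triv {ψ : AddChar ℚ_[p] Circle} (hc : Continuous ψ) :
    ∃ N : ℕ, ∀ x : ℚ_[p], ‖x‖ < (p : ℝ) ^ (-(N : ℤ)) → ψ x = 1 := by
  have h0 : Filter.Tendsto ψ (nhds 0) (nhds 1) := by
    have := hc.tendsto 0
    rwa [AddChar.map_zero_eq_one] at this
  rw [Metric.tendsto_nhds_nhds] at h0
  obtain ⟨δ, hδ, h⟩ := h0 (1 / 2) (by norm_num)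
  have h1p : (1 : ℝ) < p := by exact_mod_cast hp.out.one_lt
  obtain ⟨N, hN⟩ := exists_pow_lt_of_lt_one hδ (inv_lt_one_of_one_lt₀ h1p)
  refine ⟨N, fun x hx => circle_eq_one _ fun n => ?_⟩
  have h2 : ‖((n : ℚ_[p]) * x)‖ < δ := by
    rw [norm_mul]
    have h3 : ‖(n : ℚ_[p])‖ ≤ 1 := by
      have := Padic.norm_int_le_one (p := p) n
      exact_mod_cast this
    calc ‖(n : ℚ_[p])‖ * ‖x‖ ≤ 1 * ‖x‖ := mul_le_mul_of_nonneg_right h3 (norm_nonneg _)
      _ < δ := by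
        rw [one_mul]
        refine hx.trans ?_
        rw [_root_.zpow_neg, zpow_natCast, ← inv_pow]
        exact hN
  have h4 := h (x := (n : ℚ_[p]) * x) (by rw [dist_zero_right]; exact h2)
  have e : (n : ℚ_[p]) * x = n • x := by rw [nsmul_eq_mul]
  rw [e, AddChar.map_nsmul_eq_pow] at h4
  have h5 : dist ((ψ x ^ n : Circle) : ℂ) ((1 : Circle) : ℂ) < 1 / 2 := h4
  rw [dist_eq_norm, Circle.coe_pow, Circle.coe_one] at h5
  exact h5

/-- normalisation -/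
theorem exists_shift {ψ : AddChar ℚ_[p] Circle} (hc : Continuous ψ) (hne : ψ ≠ 1) :
    ∃ c : ℚ_[p], c ≠ 0 ∧ Cond (ψ.mulShift c) := by
  obtain ⟨N, hN⟩ := exists_triv hc
  obtain ⟨x0, hx0⟩ : ∃ x0, ψ x0 ≠ 1 := by
    by_contra hcon
    rw [not_exists] at hcon
    apply hne
    ext x
    have := not_not.1 (hcon x)
    rw [this]; rfl
  have h1p : (1 : ℝ) < p := by exact_mod_cast hp.out.one_lt
  have hp0 : (0 : ℝ) < p := by linarith
  obtain ⟨M, hM⟩ := pow_unbounded_of_one_lt ‖x0‖ h1p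
  -- the set of good exponents
  have hex : ∃ k : ℤ, (∀ x : ℚ_[p], ‖x‖ < (p : ℝ) ^ k → ψ x = 1) ∧
      ∀ k' : ℤ, (∀ x : ℚ_[p], ‖x‖ < (p : ℝ) ^ k' → ψ x = 1) → k' ≤ k := by
    have hb : ∀ k' : ℤ, (∀ x : ℚ_[p], ‖x‖ < (p : ℝ) ^ k' → ψ x = 1) → k' ≤ (M : ℤ) := by
      intro k' hk'
      by_contra hlt
      rw [not_le] at hlt
      apply hx0
      apply hk'
      refine hM.trans ?_
      rw [← zpow_natCast]
      exact zpow_lt_zpow_right₀ h1p hlt
    obtain ⟨k, hk1, hk2⟩ := Int.exists_greatest_of_bdd ⟨(M : ℤ), hb⟩ ⟨-(N : ℤ), hN⟩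
    exact ⟨k, hk1, hk2⟩
  obtain ⟨k, hk, hmax⟩ := hex
  refine ⟨(p : ℚ_[p]) ^ (-k), zpow_ne_zero _ p_ne, ?_, ?_⟩
  · intro x hx
    rw [AddChar.mulShift_apply]
    apply hk
    rw [norm_mul, norm_zpow, Padic.norm_p, _root_.inv_zpow, _root_.zpow_neg, inv_inv]
    calc (p : ℝ) ^ k * ‖x‖ < (p : ℝ) ^ k * 1 := by
          exact mul_lt_mul_of_pos_left hx (zpow_pos hp0 k)
      _ = _ := mul_one _
  · by_contra hcon
    have h2 : k + 1 ≤ k := by
      apply hmax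
      intro y hy
      by_contra hy1
      apply hcon
      refine ⟨(p : ℚ_[p]) ^ k * y, ?_, ?_⟩
      · have h3 : ‖y‖ ≤ (p : ℝ) ^ k := by
          rw [Padic.norm_le_pow_iff_norm_lt_pow_add_one]; exact hy
        rw [norm_mul, norm_zpow, Padic.norm_p, _root_.inv_zpow, inv_mul_le_iff₀ (zpow_pos hp0 k),
          mul_one]
        exact h3
      · rw [AddChar.mulShift_apply, ← mul_assoc, ← zpow_add₀ p_ne]
        simpa using hy1
    omega

variable {n : ℕ}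

lemma pow_smul_rank {c : ℚ_[p]} (hc : c ≠ 0) (X : Mat p n) (j : ℕ) :
    ((c • X) ^ j).rank = (X ^ j).rank := by
  rw [smul_pow]
  exact Matrix.rank_smul_of_mem_nonZeroDivisors _ (mem_nonZeroDivisors_of_ne_zero (pow_ne_zero j hc))

lemma scale_coeff {ψ : AddChar ℚ_[p] Circle} {c : ℚ_[p]} (hc : c ≠ 0) {V : Type*} [AddCommGroup V]
    [Module ℂ V] {π : Representation ℂ (symplecticGroup (Fin n) ℚ_[p]) V}
    {q : Nat.Partition (2 * n)} (h : HasCoeff (ψ.mulShift c) π q) : HasCoeff ψ π q := by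
  obtain ⟨X, hh, e, t, hJ, ℓ, h0, heq⟩ := h
  refine ⟨c • X, hh, c⁻¹ • e, ?_, ?_, ℓ, h0, ?_⟩
  · exact
      { memX := (spLie p n).smul_mem _ t.memX
        memh := t.memh
        meme := (spLie p n).smul_mem _ t.meme
        eX := by
          rw [Matrix.smul_mul, Matrix.mul_smul, Matrix.smul_mul, Matrix.mul_smul, smul_smul,
            smul_smul, inv_mul_cancel₀ hc, mul_inv_cancel₀ hc, one_smul, one_smul, t.eX]
        he := by
          rw [Matrix.smul_mul, Matrix.mul_smul, ← smul_sub, t.he, smul_comm]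
        hX := by
          rw [Matrix.smul_mul, Matrix.mul_smul, ← smul_sub, t.hX, smul_neg, smul_comm] }
  · intro j
    rw [pow_smul_rank hc, hJ j]
  · intro Z hZ g hg v
    rw [heq Z hZ g hg v, AddChar.mulShift_apply, Matrix.smul_mul, Matrix.trace_smul, smul_eq_mul]

lemma scale_iff {ψ : AddChar ℚ_[p] Circle} {c : ℚ_[p]} (hc : c ≠ 0) {V : Type*} [AddCommGroup V]
    [Module ℂ V] {π : Representation ℂ (symplecticGroup (Fin n) ℚ_[p]) V}
    {q : Nat.Partition (2 * n)} : HasCoeff (ψ.mulShift c) π q ↔ HasCoeff ψ π q := by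
  refine ⟨scale_coeff hc, fun h => ?_⟩
  have e : ψ = (ψ.mulShift c).mulShift c⁻¹ := by
    ext x
    rw [AddChar.mulShift_apply, AddChar.mulShift_apply, ← mul_assoc, mul_inv_cancel₀ hc, one_mul]
  rw [e] at h
  exact scale_coeff (inv_ne_zero hc) h

lemma scale_max {ψ : AddChar ℚ_[p] Circle} {c : ℚ_[p]} (hc : c ≠ 0) {V : Type*} [AddCommGroup V]
    [Module ℂ V] {π : Representation ℂ (symplecticGroup (Fin n) ℚ_[p]) V} :
    maxPart (ψ.mulShift c) π = maxPart ψ π := by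
  ext q
  unfold maxPart
  simp only [Set.mem_ofPred_eq, scale_iff hc]

end Run7.h697
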