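import Pool.Agent.Run7.h697.Chain

/-!
# Filtration by weights and ranks of powers
-/

set_option autoImplicit false
set_option linter.unusedVariables false
set_option linter.unusedSectionVars false

namespace Run7.h697

variable {F V : Type*} [Field F] [CharZero F] [AddCommGroup V] [Module F V]

/-- the sum of the eigenspaces for integral eigenvalues at least `j` -/
def Fge (h : Module.End F V) (j : ℤ) : Submodule F V :=
  ⨆ i : ℤ, ⨆ (_ : j ≤ i), Module.End.eigenspace h (i : F)

lemma eigenspace_le_Fge (h : Module.End F V) {i j : ℤ} (hij : j ≤ i) :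
    Module.End.eigenspace h (i : F) ≤ Fge h j :=
  le_iSup₂_of_le i hij le_rfl

lemma Fge_anti (h : Module.End F V) {i j : ℤ} (hij : i ≤ j) : Fge h j ≤ Fge h i :=
  iSup₂_le fun k hk => eigenspace_le_Fge h (hij.trans hk)

section basis

variable {ι : Type*} [Fintype ι] (B : Module.Basis ι F V) {h : Module.End F V} {wt : ι → ℤ}

lemma repr_h (hB : ∀ x, h (B x) = (wt x : F) • B x) (v : V) (x : ι) :
    B.repr (h v) x = (wt x : F) * B.repr v x := by
  classical
  conv_lhs => rw [← B.sum_repr v]
  rw [map_sum, map_sum, Finsupp.finsetSum_apply]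
  simp only [map_smul, hB, smul_smul, Module.Basis.repr_self, Finsupp.smul_apply, smul_eq_mul]
  rw [Finset.sum_eq_single x]
  · simp; ring
  · intro y _ hy
    rw [Finsupp.single_apply, if_neg hy, mul_zero]
  · intro hx; exact absurd (Finset.mem_univ x) hx

lemma mem_Fge_iff (hB : ∀ x, h (B x) = (wt x : F) • B x) (j : ℤ) :
    Fge h j = Submodule.span F (B '' {x | j ≤ wt x}) := by
  apply le_antisymm
  · refine iSup₂_le fun i hi => ?_
    intro v hv
    rw [Module.Basis.mem_span_image]
    intro x hx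
    rw [Finset.mem_coe, Finsupp.mem_support_iff] at hx
    have h1 := repr_h B hB v x
    rw [Module.End.mem_eigenspace_iff] at hv
    rw [hv, map_smul, Finsupp.smul_apply, smul_eq_mul] at h1
    have h2 : (i : F) = (wt x : F) := mul_right_cancel₀ hx h1
    have h3 : i = wt x := by exact_mod_cast h2
    change j ≤ wt x
    omega
  · rw [Submodule.span_le]
    rintro _ ⟨x, hx, rfl⟩
    exact eigenspace_le_Fge h hx (Module.End.mem_eigenspace_iff.2 (hB x))

lemma finrank_span_image [DecidableEq ι] (s : Finset ι) :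
    Module.finrank F (Submodule.span F (B '' (s : Set ι))) = s.card := by
  have h1 : LinearIndependent F (fun x : s => B x) := B.linearIndependent.comp _ Subtype.val_injective
  have h2 := finrank_span_eq_card h1
  rw [Fintype.card_coe] at h2
  have e : B '' (s : Set ι) = Set.range (fun x : s => B x) := by
    ext v
    simp
  rw [e, h2]

lemma finrank_Fge [DecidableEq ι] (hB : ∀ x, h (B x) = (wt x : F) • B x) (j : ℤ) :
    Module.finrank F (Fge h j) = (Finset.univ.filter fun x => j ≤ wt x).card := by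
  have e : {x | j ≤ wt x} = ((Finset.univ.filter fun x => j ≤ wt x : Finset ι) : Set ι) := by
    ext x
    simp
  rw [mem_Fge_iff B hB, e, finrank_span_image B]

lemma iSup_eigenspace (hB : ∀ x, h (B x) = (wt x : F) • B x) (v : V) : ∃ j : ℤ, v ∈ Fge h j := by
  classical
  by_cases hne : Nonempty ι
  · obtain ⟨x0, -, hx0⟩ := Finset.exists_min_image Finset.univ wt ⟨hne.some, Finset.mem_univ _⟩
    refine ⟨wt x0, ?_⟩
    rw [mem_Fge_iff B hB, Module.Basis.mem_span_image]
    intro x _
    exact hx0 x (Finset.mem_univ _)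
  · refine ⟨0, ?_⟩
    rw [mem_Fge_iff B hB, Module.Basis.mem_span_image]
    intro x _
    exact absurd ⟨x⟩ hne

end basis

lemma card_fin (n : ℕ) (P : ℕ → Prop) [DecidablePred P] :
    (Finset.univ.filter fun i : Fin n => P i).card = ((Finset.range n).filter P).card := by
  rw [← Finset.card_map Fin.valEmbedding]
  congr 1
  ext x
  simp only [Finset.mem_map, Finset.mem_filter, Finset.mem_univ, true_and, Fin.valEmbedding_apply,
    Finset.mem_range]
  constructor
  · rintro ⟨a, ha, rfl⟩; exact ⟨a.2, ha⟩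
  · rintro ⟨h1, h2⟩; exact ⟨⟨x, h1⟩, h2, rfl⟩

lemma card_fin1 (m j : ℕ) :
    (Finset.univ.filter fun i : Fin (m + 1) => j ≤ (i : ℕ)).card = m + 1 - j := by
  rw [card_fin (m + 1) (fun i => j ≤ i)]
  have : (Finset.range (m + 1)).filter (fun i => j ≤ i) = Finset.Ico j (m + 1) := by
    ext i
    simp only [Finset.mem_filter, Finset.mem_range, Finset.mem_Ico]
    omega
  rw [this, Nat.card_Ico]

lemma card_fin2 (m j : ℕ) :
    (Finset.univ.filter fun i : Fin (m + 1) => (j : ℤ) ≤ (m : ℤ) - 2 * ((i : ℕ) : ℤ)).card =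
      (m + 2 - j) / 2 := by
  rw [card_fin (m + 1) (fun i => (j : ℤ) ≤ (m : ℤ) - 2 * (i : ℤ))]
  have : (Finset.range (m + 1)).filter (fun i : ℕ => (j : ℤ) ≤ (m : ℤ) - 2 * (i : ℤ)) =
      Finset.range ((m + 2 - j) / 2) := by
    ext i
    simp only [Finset.mem_filter, Finset.mem_range]
    omega
  rw [this, Finset.card_range]

lemma card_sigma_filter {κ : Type} [Fintype κ] (m : κ → ℕ) (P : (k : κ) → ℕ → Prop)
    [∀ k, DecidablePred (P k)] [DecidablePred fun x : (Σ k : κ, Fin (m k + 1)) => P x.1 x.2] :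
    (Finset.univ.filter fun x : (Σ k : κ, Fin (m k + 1)) => P x.1 x.2).card =
      ∑ k, (Finset.univ.filter fun i : Fin (m k + 1) => P k i).card := by
  have : (Finset.univ.filter fun x : (Σ k : κ, Fin (m k + 1)) => P x.1 x.2) =
      Finset.univ.sigma fun k => (Finset.univ.filter fun i : Fin (m k + 1) => P k i) := by
    ext x
    simp
  rw [this, Finset.card_sigma]

variable [FiniteDimensional F V]

namespace Tr

variable {e h f : Module.End F V}

/-- **rank formula** -/
theorem rank_pow (t : Tr e h f) (j : ℕ) : Module.finrank F (LinearMap.range (f ^ j)) =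
    Module.finrank F (Fge h (j : ℤ)) + Module.finrank F (Fge h ((j + 1 : ℕ) : ℤ)) := by
  classical
  obtain ⟨κ, hκ, m, B, hB, hf1, hf2⟩ := t.exists_chain
  set wt : (Σ k : κ, Fin (m k + 1)) → ℤ := fun x => (m x.1 : ℤ) - 2 * ((x.2 : ℕ) : ℤ) with hwt
  have hB' : ∀ x, h (B x) = (wt x : F) • B x := by
    intro x
    rw [hB, hwt]
    push_cast
    rfl
  have hpow : ∀ (j : ℕ) (k : κ) (i : ℕ) (hi : i < m k + 1), (f ^ j) (B ⟨k, ⟨i, hi⟩⟩) =
      if hij : i + j < m k + 1 then B ⟨k, ⟨i + j, hij⟩⟩ else 0 := by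
    intro j
    induction j with
    | zero => intro k i hi; simp [hi]
    | succ j ih =>
      intro k i hi
      rw [pow_succ, Module.End.mul_apply]
      by_cases h1 : i + 1 < m k + 1
      · rw [hf1 k i h1, ih k (i + 1) h1]
        by_cases h2 : i + (j + 1) < m k + 1
        · rw [dif_pos h2, dif_pos (by omega)]
          congr 3; omega
        · rw [dif_neg h2, dif_neg (by omega)]
      · have h3 : i = m k := by omega
        subst h3
        rw [hf2 k, map_zero, dif_neg (by omega)]
  have hrange : LinearMap.range (f ^ j) =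
      Submodule.span F (B '' ((Finset.univ.filter fun x : (Σ k : κ, Fin (m k + 1)) => j ≤ (x.2 : ℕ) :
        Finset _) : Set (Σ k : κ, Fin (m k + 1)))) := by
    apply le_antisymm
    · rw [LinearMap.range_eq_map, ← B.span_eq, Submodule.map_span, Submodule.span_le]
      rintro _ ⟨_, ⟨⟨k, i, hi⟩, rfl⟩, rfl⟩
      rw [hpow j k i hi]
      split_ifs with h1
      · apply Submodule.subset_span
        refine ⟨_, ?_, rfl⟩
        simp
      · exact Submodule.zero_mem _
    · rw [Submodule.span_le]
      rintro _ ⟨⟨k, i, hi⟩, hx, rfl⟩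
      have hji : j ≤ i := by simpa using hx
      refine ⟨B ⟨k, ⟨i - j, by omega⟩⟩, ?_⟩
      rw [hpow j k (i - j) (by omega), dif_pos (by omega)]
      congr 3; omega
  rw [hrange, finrank_span_image, finrank_Fge B hB', finrank_Fge B hB']
  have c1 := card_sigma_filter m (fun k i => j ≤ i)
  have c2 := card_sigma_filter m (fun k i => (j : ℤ) ≤ (m k : ℤ) - 2 * (i : ℤ))
  have c3 := card_sigma_filter m (fun k i => ((j + 1 : ℕ) : ℤ) ≤ (m k : ℤ) - 2 * (i : ℤ))
  rw [c1, c2, c3, ← Finset.sum_add_distrib]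
  refine Finset.sum_congr rfl fun k _ => ?_
  rw [card_fin1, card_fin2, card_fin2]
  omega

lemma exists_mem_Fge (t : Tr e h f) (v : V) : ∃ j : ℤ, v ∈ Fge h j := by
  classical
  obtain ⟨κ, hκ, m, B, hB, hf1, hf2⟩ := t.exists_chain
  refine iSup_eigenspace B (wt := fun x => (m x.1 : ℤ) - 2 * ((x.2 : ℕ) : ℤ)) ?_ v
  intro x
  rw [hB]
  push_cast
  rfl

end Tr

end Run7.h697
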