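import Pool.Agent.Run7.h697.Norm

/-!
# Reduction modulo `p`
-/

set_option autoImplicit false
set_option linter.unusedVariables false

open Matrix

namespace Run7.h697

variable {p : ℕ} [hp : Fact p.Prime] {n : ℕ}

/-- an element of `ℤ_p` -/
def toInt (x : ℚ_[p]) (h : ‖x‖ ≤ 1) : ℤ_[p] := ⟨x, h⟩

@[simp] lemma coe_toInt (x : ℚ_[p]) (h : ‖x‖ ≤ 1) : ((toInt x h : ℤ_[p]) : ℚ_[p]) = x := rfl

lemma norm_coe_le_one (x : ℤ_[p]) : ‖(x : ℚ_[p])‖ ≤ 1 := x.2

open Classical in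
/-- reduction of `x ∈ ℤ_p ⊆ ℚ_p` modulo `p` (and `0` outside of `ℤ_p`). -/
noncomputable def red (x : ℚ_[p]) : ZMod p :=
  if h : ‖x‖ ≤ 1 then PadicInt.toZMod (toInt x h) else 0

lemma red_of_le {x : ℚ_[p]} (h : ‖x‖ ≤ 1) : red x = PadicInt.toZMod (toInt x h) := by
  rw [red, dif_pos h]

lemma red_coe (x : ℤ_[p]) : red (x : ℚ_[p]) = PadicInt.toZMod x := by
  rw [red_of_le (norm_coe_le_one x)]
  congr 1

lemma red_add {x y : ℚ_[p]} (hx : ‖x‖ ≤ 1) (hy : ‖y‖ ≤ 1) : red (x + y) = red x + red y := by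
  have := red_coe (toInt x hx + toInt y hy)
  rw [map_add, ← red_coe, ← red_coe] at this
  simpa using this

lemma red_mul {x y : ℚ_[p]} (hx : ‖x‖ ≤ 1) (hy : ‖y‖ ≤ 1) : red (x * y) = red x * red y := by
  have := red_coe (toInt x hx * toInt y hy)
  rw [map_mul, ← red_coe, ← red_coe] at this
  simpa using this

lemma red_neg {x : ℚ_[p]} (hx : ‖x‖ ≤ 1) : red (-x) = - red x := by
  have := red_coe (-toInt x hx)
  rw [map_neg, ← red_coe] at this
  simpa using this

@[simp] lemma red_zero : red (0 : ℚ_[p]) = 0 := by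
  have := red_coe (0 : ℤ_[p])
  simpa using this

@[simp] lemma red_one : red (1 : ℚ_[p]) = 1 := by
  have := red_coe (1 : ℤ_[p])
  simpa using this

lemma red_intCast (k : ℤ) : red (k : ℚ_[p]) = (k : ZMod p) := by
  have := red_coe (k : ℤ_[p])
  simpa using this

lemma red_sub {x y : ℚ_[p]} (hx : ‖x‖ ≤ 1) (hy : ‖y‖ ≤ 1) : red (x - y) = red x - red y := by
  rw [sub_eq_add_neg, red_add hx (by rwa [norm_neg]), red_neg hy, sub_eq_add_neg]

lemma norm_le_one_of_red_ne {x : ℚ_[p]} (h : red x ≠ 0) : ‖x‖ ≤ 1 := by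
  by_contra hx
  exact h (by rw [red, dif_neg hx])

lemma red_eq_zero_iff {x : ℚ_[p]} (hx : ‖x‖ ≤ 1) : red x = 0 ↔ ‖x‖ < 1 := by
  have h : PadicInt.toZMod (toInt x hx) = 0 ↔ toInt x hx ∈ IsLocalRing.maximalIdeal ℤ_[p] := by
    rw [← PadicInt.ker_toZMod, RingHom.mem_ker]
  rw [red_of_le hx, h, IsLocalRing.mem_maximalIdeal, PadicInt.mem_nonunits]
  rfl

lemma red_eq_zero_of_lt {x : ℚ_[p]} (hx : ‖x‖ < 1) : red x = 0 := (red_eq_zero_iff hx.le).2 hx

lemma red_surj (a : ZMod p) : ∃ x : ℚ_[p], ‖x‖ ≤ 1 ∧ red x = a := by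
  refine ⟨((a.val : ℤ) : ℚ_[p]), ?_, ?_⟩
  · exact Padic.norm_int_le_one _
  · rw [red_intCast]; simp

lemma norm_eq_one_of_red_ne {x : ℚ_[p]} (h : red x ≠ 0) : ‖x‖ = 1 := by
  have h1 := norm_le_one_of_red_ne h
  rcases h1.lt_or_eq with h2 | h2
  · exact absurd (red_eq_zero_of_lt h2) h
  · exact h2

lemma red_sum {ι : Type*} (s : Finset ι) (f : ι → ℚ_[p]) (h : ∀ i ∈ s, ‖f i‖ ≤ 1) :
    red (∑ i ∈ s, f i) = ∑ i ∈ s, red (f i) := by
  classical
  induction s using Finset.induction_on with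
  | empty => simp
  | insert a s ha ih =>
    rw [Finset.sum_insert ha, Finset.sum_insert ha,
      red_add (h a (Finset.mem_insert_self a s))
        (norm_sum_le_of s _ zero_le_one fun i hi => h i (Finset.mem_insert_of_mem hi)),
      ih fun i hi => h i (Finset.mem_insert_of_mem hi)]

/-- reduction of matrices -/
noncomputable def mred {ι κ : Type*} (m : Matrix ι κ ℚ_[p]) : Matrix ι κ (ZMod p) := m.map red

@[simp] lemma mred_apply {ι κ : Type*} (m : Matrix ι κ ℚ_[p]) (i : ι) (j : κ) :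
    mred m i j = red (m i j) := rfl

/-- integrality of a matrix -/
def MInt {ι κ : Type*} (m : Matrix ι κ ℚ_[p]) : Prop := ∀ i j, ‖m i j‖ ≤ 1

/-- entries in `pℤ_p` -/
def MTop {ι κ : Type*} (m : Matrix ι κ ℚ_[p]) : Prop := ∀ i j, ‖m i j‖ < 1

lemma MTop.int {ι κ : Type*} {m : Matrix ι κ ℚ_[p]} (h : MTop m) : MInt m := fun i j => (h i j).le

lemma mred_eq_zero_iff {ι κ : Type*} {m : Matrix ι κ ℚ_[p]} (h : MInt m) :
    mred m = 0 ↔ MTop m := by
  constructor
  · intro h0 i j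
    rw [← red_eq_zero_iff (h i j)]
    exact congrFun (congrFun h0 i) j
  · intro h0
    ext i j
    exact red_eq_zero_of_lt (h0 i j)

lemma mred_add {ι κ : Type*} {a b : Matrix ι κ ℚ_[p]} (ha : MInt a) (hb : MInt b) :
    mred (a + b) = mred a + mred b := by
  ext i j; exact red_add (ha i j) (hb i j)

lemma mred_sub {ι κ : Type*} {a b : Matrix ι κ ℚ_[p]} (ha : MInt a) (hb : MInt b) :
    mred (a - b) = mred a - mred b := by
  ext i j; exact red_sub (ha i j) (hb i j)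

lemma mred_neg {ι κ : Type*} {a : Matrix ι κ ℚ_[p]} (ha : MInt a) :
    mred (-a) = -mred a := by
  ext i j; exact red_neg (ha i j)

lemma MInt.add {ι κ : Type*} {a b : Matrix ι κ ℚ_[p]} (ha : MInt a) (hb : MInt b) :
    MInt (a + b) := fun i j => (Padic.nonarchimedean _ _).trans (max_le (ha i j) (hb i j))

lemma MInt.neg {ι κ : Type*} {a : Matrix ι κ ℚ_[p]} (ha : MInt a) : MInt (-a) := fun i j => by
  rw [Matrix.neg_apply, norm_neg]; exact ha i j

lemma MInt.sub {ι κ : Type*} {a b : Matrix ι κ ℚ_[p]} (ha : MInt a) (hb : MInt b) :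
    MInt (a - b) := by rw [sub_eq_add_neg]; exact ha.add hb.neg

lemma MInt.mul {ι κ τ : Type*} [Fintype κ] {a : Matrix ι κ ℚ_[p]} {b : Matrix κ τ ℚ_[p]}
    (ha : MInt a) (hb : MInt b) : MInt (a * b) := fun i j => by
  rw [Matrix.mul_apply]
  refine norm_sum_le_of _ _ zero_le_one fun x _ => ?_
  rw [norm_mul]
  exact mul_le_one₀ (ha i x) (norm_nonneg _) (hb x j)

lemma MInt.transpose {ι κ : Type*} {a : Matrix ι κ ℚ_[p]} (ha : MInt a) : MInt aᵀ :=
  fun i j => ha j i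

lemma MTop.mul_right {ι κ τ : Type*} [Fintype κ] {a : Matrix ι κ ℚ_[p]} {b : Matrix κ τ ℚ_[p]}
    (ha : MTop a) (hb : MInt b) : MTop (a * b) := by
  intro i j
  have h : mred (a * b) i j = 0 := by
    rw [mred_apply, Matrix.mul_apply, red_sum]
    · refine Finset.sum_eq_zero fun x _ => ?_
      rw [red_mul (ha i x).le (hb x j), red_eq_zero_of_lt (ha i x), zero_mul]
    · intro x _
      rw [norm_mul]
      exact mul_le_one₀ (ha i x).le (norm_nonneg _) (hb x j)
  exact (red_eq_zero_iff ((ha.int.mul hb) i j)).1 h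

lemma mred_mul {ι κ τ : Type*} [Fintype κ] {a : Matrix ι κ ℚ_[p]} {b : Matrix κ τ ℚ_[p]}
    (ha : MInt a) (hb : MInt b) : mred (a * b) = mred a * mred b := by
  ext i j
  rw [mred_apply, Matrix.mul_apply, Matrix.mul_apply, red_sum]
  · refine Finset.sum_congr rfl fun x _ => ?_
    rw [red_mul (ha i x) (hb x j)]; rfl
  · intro x _
    rw [norm_mul]
    exact mul_le_one₀ (ha i x) (norm_nonneg _) (hb x j)

lemma mred_transpose {ι κ : Type*} (a : Matrix ι κ ℚ_[p]) : mred aᵀ = (mred a)ᵀ := rfl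

lemma mred_one {ι : Type*} [DecidableEq ι] : mred (1 : Matrix ι ι ℚ_[p]) = 1 := by
  ext i j
  rw [mred_apply, Matrix.one_apply, Matrix.one_apply]
  split_ifs <;> simp

lemma mint_one {ι : Type*} [DecidableEq ι] : MInt (1 : Matrix ι ι ℚ_[p]) := fun i j => by
  rw [Matrix.one_apply]; split_ifs <;> simp

/-- determinant and reduction -/
lemma red_det {ι : Type*} [DecidableEq ι] [Fintype ι] {a : Matrix ι ι ℚ_[p]} (ha : MInt a) :
    ‖a.det‖ ≤ 1 ∧ red a.det = (mred a).det := by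
  classical
  set b : Matrix ι ι ℤ_[p] := fun i j => toInt (a i j) (ha i j) with hb
  have h1 : a = b.map (PadicInt.Coe.ringHom (p := p)) := by
    ext i j; rfl
  have h2 : a.det = ((b.det : ℤ_[p]) : ℚ_[p]) := by
    rw [h1, ← RingHom.mapMatrix_apply, ← RingHom.map_det]; rfl
  refine ⟨by rw [h2]; exact norm_coe_le_one _, ?_⟩
  rw [h2, red_coe, RingHom.map_det]
  congr 1
  ext i j
  rw [RingHom.mapMatrix_apply, Matrix.map_apply, mred_apply, red_of_le (ha i j)]

/-! ### blocks of matrices in `Bd 0` -/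

lemma tb11 (m : Mt p n) (i j : Fin n) : m.toBlocks₁₁ i j = m (Sum.inl i) (Sum.inl j) := rfl
lemma tb12 (m : Mt p n) (i j : Fin n) : m.toBlocks₁₂ i j = m (Sum.inl i) (Sum.inr j) := rfl
lemma tb21 (m : Mt p n) (i j : Fin n) : m.toBlocks₂₁ i j = m (Sum.inr i) (Sum.inl j) := rfl
lemma tb22 (m : Mt p n) (i j : Fin n) : m.toBlocks₂₂ i j = m (Sum.inr i) (Sum.inr j) := rfl

lemma Bd.int11 {m : Mt p n} (h : Bd 0 m) : MInt m.toBlocks₁₁ := fun i j => by
  have := h (Sum.inl i) (Sum.inl j)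
  simpa [tb11] using this

lemma Bd.int22 {m : Mt p n} (h : Bd 0 m) : MInt m.toBlocks₂₂ := fun i j => by
  have := h (Sum.inr i) (Sum.inr j)
  simpa [tb22] using this

lemma Bd.int21 {m : Mt p n} (h : Bd 0 m) : MInt m.toBlocks₂₁ := fun i j => by
  have := h (Sum.inr i) (Sum.inl j)
  have h2 := norm_le_even (k := 0) (by simpa using this)
  simpa [tb21] using h2

lemma Bd.top12 {m : Mt p n} (h : Bd 0 m) : MTop m.toBlocks₁₂ := fun i j => by
  have := h (Sum.inl i) (Sum.inr j)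
  have h2 : ‖m (Sum.inl i) (Sum.inr j)‖ ≤ sq p ^ (-1 : ℤ) := by simpa using this
  exact lt_of_le_of_lt h2 (by simpa using sq_zpow_lt (p := p) (show (-1 : ℤ) < 0 by norm_num))

lemma Bd.int {m : Mt p n} (h : Bd 0 m) : MInt m := by
  intro i j
  rcases i with i | i <;> rcases j with j | j
  · exact h.int11 i j
  · exact (h.top12 i j).le
  · exact h.int21 i j
  · exact h.int22 i j

/-- membership in `Bd (-1)` in terms of reductions -/
lemma bd_neg_one_iff {m : Mt p n} (h : Bd 0 m) :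
    Bd (-1) m ↔ mred m.toBlocks₁₁ = 0 ∧ mred m.toBlocks₂₂ = 0 := by
  constructor
  · intro h1
    refine ⟨(mred_eq_zero_iff h.int11).2 fun i j => ?_, (mred_eq_zero_iff h.int22).2 fun i j => ?_⟩
    · have := h1 (Sum.inl i) (Sum.inl j)
      exact lt_of_le_of_lt this (by simpa using sq_zpow_lt (p := p) (show (-1 : ℤ) < 0 by norm_num))
    · have := h1 (Sum.inr i) (Sum.inr j)
      exact lt_of_le_of_lt this (by simpa using sq_zpow_lt (p := p) (show (-1 : ℤ) < 0 by norm_num))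
  · rintro ⟨h1, h2⟩
    have key : ∀ x : ℚ_[p], ‖x‖ < 1 → ‖x‖ ≤ sq p ^ (-1 : ℤ) := by
      intro x hx
      have h3 : ‖x‖ ≤ (p : ℝ) ^ (-1 : ℤ) := by
        rw [Padic.norm_le_pow_iff_norm_lt_pow_add_one]; simpa using hx
      refine h3.trans ?_
      rw [← sq_zpow_two]
      exact sq_zpow_le (by norm_num)
    have key2 : ∀ x : ℚ_[p], ‖x‖ < 1 → ‖x‖ ≤ sq p ^ (-2 : ℤ) := by
      intro x hx
      have h3 : ‖x‖ ≤ (p : ℝ) ^ (-1 : ℤ) := by
        rw [Padic.norm_le_pow_iff_norm_lt_pow_add_one]; simpa using hx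
      refine h3.trans ?_
      rw [← sq_zpow_two]
      exact sq_zpow_le (by norm_num)
    intro i j
    rcases i with i | i <;> rcases j with j | j
    · simpa [tb11] using key _ ((mred_eq_zero_iff h.int11).1 h1 i j)
    · have := key2 _ (h.top12 i j)
      simpa [tb12] using this
    · have := h.int21 i j
      simpa [tb21] using this
    · simpa [tb22] using key _ ((mred_eq_zero_iff h.int22).1 h2 i j)

lemma bd_of_blocks {m : Mt p n} (h11 : MInt m.toBlocks₁₁) (h22 : MInt m.toBlocks₂₂)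
    (h21 : MInt m.toBlocks₂₁) (h12 : MTop m.toBlocks₁₂) : Bd 0 m := by
  intro i j
  rcases i with i | i <;> rcases j with j | j
  · simpa [tb11] using h11 i j
  · have h3 : ‖m (Sum.inl i) (Sum.inr j)‖ ≤ (p : ℝ) ^ (-1 : ℤ) := by
      rw [Padic.norm_le_pow_iff_norm_lt_pow_add_one]; simpa [tb12] using h12 i j
    refine h3.trans ?_
    rw [← sq_zpow_two]
    exact sq_zpow_le (by simp)
  · have := h21 i j
    refine le_trans (show ‖m (Sum.inr i) (Sum.inl j)‖ ≤ sq p ^ (0 : ℤ) by simpa [tb21] using this)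
      (sq_zpow_le (by simp))
  · simpa [tb22] using h22 i j

/-- determinant of a matrix in `Bd 0` -/
lemma Bd.red_det {m : Mt p n} (h : Bd 0 m) :
    red m.det = (mred m.toBlocks₁₁).det * (mred m.toBlocks₂₂).det := by
  have h1 := (Run7.h697.red_det h.int).2
  rw [h1]
  have h2 : mred m = Matrix.fromBlocks (mred m.toBlocks₁₁) 0 (mred m.toBlocks₂₁)
      (mred m.toBlocks₂₂) := by
    ext i j
    rcases i with i | i <;> rcases j with j | j
    · rfl
    · exact red_eq_zero_of_lt (h.top12 i j)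
    · rfl
    · rfl
  rw [h2, Matrix.det_fromBlocks_zero₁₂]

end Run7.h697
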