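import Mathlib

/-!
# Structure of finite-dimensional `sl₂`-triples of operators
-/

set_option autoImplicit false
set_option linter.unusedVariables false

namespace Run7.h697

variable {F V : Type*} [Field F] [CharZero F] [AddCommGroup V] [Module F V]

/-- an `sl₂`-triple of operators -/
structure Tr (e h f : Module.End F V) : Prop where
  ef : ∀ v, e (f v) = f (e v) + h v
  he : ∀ v, h (e v) = e (h v) + (2 : F) • e v
  hf : ∀ v, h (f v) = f (h v) - (2 : F) • f v

namespace Tr

variable {e h f : Module.End F V}

lemma symm (t : Tr e h f) : Tr f (-h) e where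
  ef v := by rw [LinearMap.neg_apply, t.ef]; abel
  he v := by rw [LinearMap.neg_apply, LinearMap.neg_apply, t.hf, map_neg]; abel
  hf v := by rw [LinearMap.neg_apply, LinearMap.neg_apply, t.he, map_neg]; abel

lemma h_fpow (t : Tr e h f) (k : ℕ) (v : V) :
    h ((f ^ k) v) = (f ^ k) (h v) - (2 * k : F) • (f ^ k) v := by
  induction k with
  | zero => simp
  | succ k ih =>
    rw [pow_succ', Module.End.mul_apply, t.hf, ih, Module.End.mul_apply, map_sub, map_smul]
    push_cast
    module

lemma h_epow (t : Tr e h f) (k : ℕ) (v : V) :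
    h ((e ^ k) v) = (e ^ k) (h v) + (2 * k : F) • (e ^ k) v := by
  have := t.symm.h_fpow k v
  rw [LinearMap.neg_apply, LinearMap.neg_apply, map_neg] at this
  have h2 : h ((e ^ k) v) = -(-(e ^ k) (h v) - (2 * k : F) • (e ^ k) v) := by rw [← this, neg_neg]
  rw [h2]; abel

lemma e_fpow (t : Tr e h f) (k : ℕ) (v : V) :
    e ((f ^ (k + 1)) v) = (f ^ (k + 1)) (e v) +
      (k + 1 : F) • ((f ^ k) (h v) - (k : F) • (f ^ k) v) := by
  induction k with
  | zero => simp [t.ef]
  | succ k ih =>
    rw [pow_succ', Module.End.mul_apply, t.ef, ih, t.h_fpow, map_add, map_smul, map_sub, map_smul]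
    have e1 : ∀ w, f ((f ^ k) w) = (f ^ (k + 1)) w := fun w => by
      rw [pow_succ', Module.End.mul_apply]
    have e2 : ∀ w, f ((f ^ (k + 1)) w) = (f ^ (k + 1 + 1)) w := fun w => by
      rw [pow_succ' f (k + 1), Module.End.mul_apply]
    rw [e1, e1, e2, Module.End.mul_apply, e2]
    push_cast
    module

lemma f_epow (t : Tr e h f) (k : ℕ) (v : V) :
    f ((e ^ (k + 1)) v) = (e ^ (k + 1)) (f v) -
      (k + 1 : F) • ((e ^ k) (h v) + (k : F) • (e ^ k) v) := by
  have := t.symm.e_fpow k v
  rw [this, LinearMap.neg_apply, map_neg]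
  module

/-- the falling product -/
lemma epow_fpow (t : Tr e h f) (k : ℕ) : ∀ v, e v = 0 →
    (e ^ k) ((f ^ k) v) = (k.factorial : F) •
      (Polynomial.aeval h (∏ j ∈ Finset.range k, (Polynomial.X - Polynomial.C (j : F)))) v := by
  induction k with
  | zero => intro v hv; simp
  | succ k ih =>
    intro v hv
    have h1 : e ((f ^ (k + 1)) v) = (f ^ k) ((k + 1 : F) • (h v - (k : F) • v)) := by
      rw [t.e_fpow, hv, map_zero, zero_add, map_smul, map_sub, map_smul]
    have h2 : e ((k + 1 : F) • (h v - (k : F) • v)) = 0 := by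
      have h3 : e (h v) = 0 := by
        have := t.he v
        rw [hv, map_zero, smul_zero, add_zero] at this
        exact this.symm
      rw [map_smul, map_sub, map_smul, h3, hv, smul_zero, sub_zero, smul_zero]
    rw [pow_succ, Module.End.mul_apply, h1, ih _ h2, Finset.prod_range_succ, Nat.factorial_succ,
      map_mul (Polynomial.aeval h), Module.End.mul_apply, map_smul]
    have h4 : (Polynomial.aeval h (Polynomial.X - Polynomial.C (k : F))) v = h v - (k : F) • v := by
      rw [map_sub, LinearMap.sub_apply, Polynomial.aeval_X, Polynomial.aeval_C,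
        Module.algebraMap_end_apply]
    rw [h4, smul_smul]
    congr 1
    push_cast; ring

variable [FiniteDimensional F V]

/-- `e` is nilpotent -/
lemma e_nilp (t : Tr e h f) : ∃ K : ℕ, e ^ K = 0 := by
  by_contra hcon
  rw [not_exists] at hcon
  let ad : Module.End F (Module.End F V) :=
    LinearMap.mulLeft F h - LinearMap.mulRight F h
  have h1 : ∀ k : ℕ, Module.End.HasEigenvalue ad (2 * k : F) := by
    intro k
    apply Module.End.hasEigenvalue_of_hasEigenvector (x := e ^ k)
    refine ⟨?_, hcon k⟩
    rw [Module.End.mem_eigenspace_iff]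
    ext v
    simp only [ad, LinearMap.sub_apply, LinearMap.mulLeft_apply, LinearMap.mulRight_apply,
      Module.End.mul_apply, LinearMap.smul_apply]
    rw [t.h_epow]; abel
  have h2 := Module.End.finite_hasEigenvalue ad
  have h3 : Function.Injective (fun k : ℕ => (2 * k : F)) := by
    intro a b hab
    have : (2 : F) ≠ 0 := two_ne_zero
    exact_mod_cast mul_left_cancel₀ this hab
  exact Set.infinite_range_of_injective h3 (h2.subset (by rintro _ ⟨k, rfl⟩; exact h1 k))

lemma f_nilp (t : Tr e h f) : ∃ K : ℕ, f ^ K = 0 := t.symm.e_nilp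

omit [CharZero F] [FiniteDimensional F V] in
lemma ker_aeval_prod (T : Module.End F V) (s : Finset ℕ) (c : ℕ → F) (hc : Function.Injective c) :
    LinearMap.ker (Polynomial.aeval T (∏ j ∈ s, (Polynomial.X - Polynomial.C (c j)))) =
      ⨆ j ∈ s, Module.End.eigenspace T (c j) := by
  classical
  induction s using Finset.induction_on with
  | empty =>
    rw [Finset.prod_empty, map_one]
    simp only [Finset.notMem_empty, iSup_false, iSup_bot]
    exact LinearMap.ker_id
  | insert a s ha ih =>
    rw [Finset.prod_insert ha, Finset.iSup_insert, ← ih,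
      ← Polynomial.sup_ker_aeval_eq_ker_aeval_mul_of_coprime]
    · congr 1
      ext v
      simp [Module.End.mem_eigenspace_iff, sub_eq_zero]
    · apply IsCoprime.prod_right
      intro j hj
      apply Polynomial.isCoprime_X_sub_C_of_isUnit_sub
      have : c a ≠ c j := fun h => ha (by rw [hc h]; exact hj)
      exact (sub_ne_zero.2 this).isUnit

/-- on the kernel of `e`, the operator `h` is diagonalisable with natural eigenvalues -/
lemma ker_e_le (t : Tr e h f) {K : ℕ} (hK : f ^ K = 0) :
    LinearMap.ker e ≤ ⨆ j ∈ Finset.range K, Module.End.eigenspace h (j : F) := by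
  rw [← ker_aeval_prod h (Finset.range K) (fun j => (j : F)) Nat.cast_injective]
  intro v hv
  rw [LinearMap.mem_ker] at hv ⊢
  have := t.epow_fpow K v hv
  rw [hK, LinearMap.zero_apply, map_zero] at this
  have h2 : (K.factorial : F) ≠ 0 := by exact_mod_cast K.factorial_ne_zero
  exact (smul_eq_zero.1 this.symm).resolve_left h2

lemma ker_f_le (t : Tr e h f) {K : ℕ} (hK : e ^ K = 0) :
    LinearMap.ker f ≤ LinearMap.ker (Polynomial.aeval h (∏ j ∈ Finset.range K,
      (Polynomial.X - Polynomial.C (-(j : F))))) := by
  have hinj : Function.Injective (fun j : ℕ => -(j : F)) := by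
    intro a b hab
    exact Nat.cast_injective (neg_injective hab)
  rw [ker_aeval_prod h (Finset.range K) (fun j => -(j : F)) hinj]
  refine (t.symm.ker_e_le hK).trans ?_
  refine iSup₂_mono fun j hj => ?_
  intro v hv
  rw [Module.End.mem_eigenspace_iff] at hv ⊢
  rw [LinearMap.neg_apply] at hv
  rw [neg_smul, ← hv, neg_neg]

/-- no highest weight vector of natural weight lies in the image of `f` -/
lemma eq_zero_of_mem (t : Tr e h f) {m : ℕ} {v w : V} (hv : e v = 0) (hm : h v = (m : F) • v)
    (hw : v = f w) : v = 0 := by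
  obtain ⟨K, hK⟩ := t.e_nilp
  set u := h w - ((m : F) + 2) • w with hu
  have hfu : f u = 0 := by
    have h1 := t.hf w
    rw [← hw, hm] at h1
    rw [hu, map_sub, map_smul, ← hw]
    have h2 : f (h w) = (m : F) • v + (2 : F) • v := by rw [h1]; abel
    rw [h2, add_smul]; abel
  -- `h - (m+2)` is invertible on `ker f`
  set P : Polynomial F := ∏ j ∈ Finset.range K, (Polynomial.X - Polynomial.C (-(j : F))) with hP
  have hPu : ∀ x, f x = 0 → Polynomial.aeval h P x = 0 := fun x hx => t.ker_f_le hK hx
  have hcop : IsCoprime (Polynomial.X - Polynomial.C ((m : F) + 2)) P := by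
    apply IsCoprime.prod_right
    intro j hj
    apply Polynomial.isCoprime_X_sub_C_of_isUnit_sub
    have : (m : F) + 2 - -(j : F) ≠ 0 := by
      rw [sub_neg_eq_add]
      have : ((m + 2 + j : ℕ) : F) ≠ 0 := by
        rw [Nat.cast_ne_zero]; omega
      push_cast at this
      exact this
    exact this.isUnit
  obtain ⟨a, b, hab⟩ := hcop
  set u' := Polynomial.aeval h a u with hu'
  have hfh : ∀ (q : Polynomial F) x, f x = 0 → f (Polynomial.aeval h q x) = 0 := by
    intro q x hx
    induction q using Polynomial.induction_on generalizing x with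
    | C c =>
      rw [Polynomial.aeval_C, Module.algebraMap_end_apply, map_smul, hx, smul_zero]
    | add q1 q2 h1 h2 => rw [map_add, LinearMap.add_apply, map_add, h1 x hx, h2 x hx, add_zero]
    | monomial k c ih =>
      rw [pow_succ, ← mul_assoc, map_mul (Polynomial.aeval h), Module.End.mul_apply]
      apply ih
      rw [Polynomial.aeval_X]
      have h1 := t.hf x
      rw [hx, map_zero, smul_zero, sub_zero] at h1
      exact h1.symm
  have hfu' : f u' = 0 := hfh a u hfu
  have hmu : h u' - ((m : F) + 2) • u' = u := by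
    have h1 : Polynomial.aeval h (a * (Polynomial.X - Polynomial.C ((m : F) + 2)) + b * P) u = u := by
      rw [hab, map_one, Module.End.one_apply]
    rw [map_add, LinearMap.add_apply, map_mul, map_mul (Polynomial.aeval h), Module.End.mul_apply,
      Module.End.mul_apply, hPu u hfu, map_zero, add_zero] at h1
    have h2 : Polynomial.aeval h a (Polynomial.aeval h (Polynomial.X - Polynomial.C ((m : F) + 2)) u) =
        Polynomial.aeval h (Polynomial.X - Polynomial.C ((m : F) + 2)) (Polynomial.aeval h a u) := by
      rw [← Module.End.mul_apply, ← Module.End.mul_apply, ← map_mul, ← map_mul, mul_comm]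
    rw [h2] at h1
    rw [map_sub, LinearMap.sub_apply, Polynomial.aeval_X, Polynomial.aeval_C,
      Module.algebraMap_end_apply] at h1
    exact h1
  set w' := w - u' with hw'
  have hhw : h w' = ((m : F) + 2) • w' := by
    rw [hw', map_sub, smul_sub]
    have : h w = u + ((m : F) + 2) • w := by rw [hu]; abel
    rw [this, ← hmu]; abel
  have hfw : f w' = v := by rw [hw', map_sub, hfu', sub_zero, hw]
  by_contra hv0
  have hw0 : w' ≠ 0 := by
    intro h0
    rw [h0, map_zero] at hfw
    exact hv0 hfw.symm
  have hne : ∀ i : ℕ, (e ^ i) w' ≠ 0 := by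
    intro i
    induction i with
    | zero => simpa using hw0
    | succ i ih =>
      intro h0
      have h1 := t.f_epow i w'
      rw [h0, map_zero, hfw, hhw, map_smul] at h1
      have h2 : (e ^ (i + 1)) v = 0 := by
        rw [pow_succ, Module.End.mul_apply, hv, map_zero]
      rw [h2, zero_sub, eq_comm, neg_eq_zero, ← add_smul, smul_smul] at h1
      rcases smul_eq_zero.1 h1 with h3 | h3
      · have : (((i + 1) * (m + 2 + i) : ℕ) : F) ≠ 0 := by
          rw [Nat.cast_ne_zero]; positivity
        apply this
        push_cast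
        exact h3
      · exact ih h3
  apply hne K
  rw [hK, LinearMap.zero_apply]

end Tr

end Run7.h697
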