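import Pool.Agent.Run7.h697.VanD

/-!
# The explicit datum and the vanishing theorem
-/

set_option autoImplicit false
set_option linter.unusedVariables false

open Matrix

namespace Run7.h697

/-- integral matrices over `ℚ_3` -/
noncomputable def castM (m : Matrix (Fin 8) (Fin 8) ℤ) : Matrix (Fin 8) (Fin 8) ℚ_[3] :=
  m.map fun x => (x : ℚ_[3])

lemma castM_int (m : Matrix (Fin 8) (Fin 8) ℤ) : MInt (castM m) := fun i j =>
  Padic.norm_int_le_one _

lemma mred_castM (m : Matrix (Fin 8) (Fin 8) ℤ) : mred (castM m) = m.map fun x => (x : ZMod 3) := by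
  ext i j
  exact red_intCast _

lemma A0_red : (A0.map fun x => (x : ZMod 3)) = A3 := by decide

lemma B0_red : (B0.map fun x => (x : ZMod 3)) = B3 := by decide

lemma A0_symm : A0ᵀ = A0 := by decide

lemma B0_symm : B0ᵀ = B0 := by decide

/-- **the explicit datum** -/
noncomputable def D8 : Datum 3 8 where
  A := castM A0
  B := castM B0
  hA := castM_int _
  hB := castM_int _
  symA := congrArg castM A0_symm
  symB := congrArg castM B0_symm
  hn := by norm_num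
  krylov := by
    rw [mred_castM, mred_castM, A0_red, B0_red]
    exact krylov3

lemma D8_A : mred D8.A = A3 := by
  change mred (castM A0) = A3
  rw [mred_castM, A0_red]

lemma D8_B : mred D8.B = B3 := by
  change mred (castM B0) = B3
  rw [mred_castM, B0_red]

section general

variable {p : ℕ} [hp : Fact p.Prime] {n : ℕ}

lemma op_mul (a b : Mt p n) : op (a * b) = op a * op b := by
  apply LinearMap.ext
  intro v
  simp [op]

lemma op_pow (a : Mt p n) (j : ℕ) : op (a ^ j) = (op a) ^ j := by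
  induction j with
  | zero =>
    apply LinearMap.ext
    intro v
    simp [op]
  | succ j ih => rw [pow_succ, pow_succ, op_mul, ih]

lemma tr_of_triple {X h e : Mt p n} (t : IsTriple X h e) : Tr (op e) (op h) (op X) where
  ef v := by
    have h1 : e *ᵥ (X *ᵥ v) - X *ᵥ (e *ᵥ v) = h *ᵥ v := by
      rw [← t.eX, Matrix.sub_mulVec, ← Matrix.mulVec_mulVec, ← Matrix.mulVec_mulVec]
    change e *ᵥ (X *ᵥ v) = X *ᵥ (e *ᵥ v) + h *ᵥ v
    rw [← h1]; abel
  he v := by
    have h1 : h *ᵥ (e *ᵥ v) - e *ᵥ (h *ᵥ v) = (2 : ℚ_[p]) • (e *ᵥ v) := by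
      rw [← Matrix.smul_mulVec, ← t.he, Matrix.sub_mulVec, ← Matrix.mulVec_mulVec,
        ← Matrix.mulVec_mulVec]
    change h *ᵥ (e *ᵥ v) = e *ᵥ (h *ᵥ v) + (2 : ℚ_[p]) • (e *ᵥ v)
    rw [← h1]; abel
  hf v := by
    have h1 : h *ᵥ (X *ᵥ v) - X *ᵥ (h *ᵥ v) = -((2 : ℚ_[p]) • (X *ᵥ v)) := by
      rw [← Matrix.smul_mulVec, ← Matrix.neg_mulVec, ← t.hX, Matrix.sub_mulVec,
        ← Matrix.mulVec_mulVec, ← Matrix.mulVec_mulVec]
    change h *ᵥ (X *ᵥ v) = X *ᵥ (h *ᵥ v) - (2 : ℚ_[p]) • (X *ᵥ v)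
    rw [sub_eq_add_neg, ← h1]; abel

lemma rank_triple {X h e : Mt p n} (t : IsTriple X h e) (j : ℕ) : (X ^ j).rank =
    Module.finrank ℚ_[p] (Fge (op h) (j : ℤ)) +
      Module.finrank ℚ_[p] (Fge (op h) ((j + 1 : ℕ) : ℤ)) := by
  rw [← (tr_of_triple t).rank_pow j, ← op_pow]
  rfl

lemma rank_cj (x : GG p n) (a : Mt p n) : (cj x a).rank = a.rank := by
  have hx : IsUnit (x : Mt p n).det := by
    have := congrArg Matrix.det (mul_st x)
    rw [Matrix.det_mul, Matrix.det_one] at this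
    exact IsUnit.of_mul_eq_one _ this
  have hx' : IsUnit (st (x : Mt p n)).det := by
    have := congrArg Matrix.det (st_mul_self x)
    rw [Matrix.det_mul, Matrix.det_one] at this
    exact IsUnit.of_mul_eq_one _ this
  unfold cj
  rw [Matrix.rank_mul_eq_left_of_isUnit_det _ _ hx', Matrix.rank_mul_eq_right_of_isUnit_det _ _ hx]

end general

/-- **the vanishing theorem** -/
theorem vanish {ψ : AddChar ℚ_[3] Circle} (hψ : Cond ψ) {X h e : Mt 3 8} (t : IsTriple X h e)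
    {ℓ : D8.Sp ψ →ₗ[ℂ] ℂ} (h0 : ℓ ≠ 0)
    (heq : ∀ Z ∈ nil2 h, ∀ g : GG 3 8, (g : Mt 3 8) = IsNilpotent.exp Z →
      ∀ v, ℓ (D8.rep ψ g v) = (ψ ((X * Z).trace) : ℂ) * ℓ v) :
    ∃ d : ℕ → ℕ, (∀ j, (X ^ j).rank = d j + d (j + 1)) ∧ (∀ j, d (j + 1) ≤ d j) ∧ d 12 = 0 ∧
      (0 < d 11 → d 3 ≤ 5) := by
  obtain ⟨x, hx⟩ := D8.exists_conj (by norm_num) hψ t h0 heq
  have t' := triple_cj t x⁻¹
  have R := D8.redFil (by norm_num) (mem_spLie_iff.1 t'.memh) (tr_of_triple t') hx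
  rw [D8_A, D8_B] at R
  have hle : ∀ i : ℤ, Module.finrank ℚ_[3] (Fge (op (cj x⁻¹ h)) i) ≤
      Module.finrank (ZMod 3) (rU (Fge (op (cj x⁻¹ h)) i)) +
      Module.finrank (ZMod 3) (rW (Fge (op (cj x⁻¹ h)) i)) := fun i => finrank_le _
  refine ⟨fun j => Module.finrank ℚ_[3] (Fge (op (cj x⁻¹ h)) (j : ℤ)), ?_, ?_, ?_, ?_⟩
  · intro j
    rw [← rank_triple t' j, ← cj_pow, rank_cj]
  · intro j
    exact Submodule.finrank_mono (Fge_anti _ (by push_cast; omega))
  · have h1 := hle 12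
    have h2 := top R
    have h3 : Module.finrank ℚ_[3] (Fge (op (cj x⁻¹ h)) 12) = 0 := by omega
    exact_mod_cast h3
  · intro h4
    have h1 := hle 3
    have h5 := hle 11
    have h6 : 0 < Module.finrank ℚ_[3] (Fge (op (cj x⁻¹ h)) 11) := by exact_mod_cast h4
    have h2 := second R (by omega)
    have h3 : Module.finrank ℚ_[3] (Fge (op (cj x⁻¹ h)) 3) ≤ 5 := by omega
    exact_mod_cast h3

end Run7.h697
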