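import Pool.Agent.Run7.h697.Nonv
import Pool.Agent.Run7.h697.VanE

/-!
# The explicit triples
-/

set_option autoImplicit false
set_option linter.unusedVariables false
set_option maxRecDepth 100000

open Matrix

namespace Run7.h697

/-- the lower left block of a triple, and so on -/
structure TripData where
  /-- weights -/
  w : Fin 8 → ℤ
  /-- leading part of the second matrix -/
  b : Matrix (Fin 8) (Fin 8) ℤ
  /-- leading part of the first matrix -/
  a : Matrix (Fin 8) (Fin 8) ℤ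
  /-- upper block of `e` -/
  c : Matrix (Fin 8) (Fin 8) ℤ
  /-- lower block of `e` -/
  d : Matrix (Fin 8) (Fin 8) ℤ
  bs : bᵀ = b
  as : aᵀ = a
  cs : cᵀ = c
  ds : dᵀ = d
  e1 : c * a - b * d = Matrix.diagonal w
  e2 : d * b - a * c = Matrix.diagonal fun i => -w i
  wb : ∀ i j, (w i + w j) * b i j = -(2 * b i j)
  wa : ∀ i j, (-w i - w j) * a i j = -(2 * a i j)
  wc : ∀ i j, (w i + w j) * c i j = 2 * c i j
  wd : ∀ i j, (-w i - w j) * d i j = 2 * d i j
  gb : ∀ i j, B0 i j ≠ b i j → -1 ≤ w i + w j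
  ga : ∀ i j, A0 i j ≠ a i j → -1 ≤ -w i - w j

lemma castM_mul (a b : Matrix (Fin 8) (Fin 8) ℤ) : castM (a * b) = castM a * castM b := by
  ext i j
  simp [castM, Matrix.mul_apply]

lemma castM_sub (a b : Matrix (Fin 8) (Fin 8) ℤ) : castM (a - b) = castM a - castM b := by
  ext i j
  simp [castM]

lemma castM_diag (w : Fin 8 → ℤ) : castM (Matrix.diagonal w) = Matrix.diagonal fun i => (w i : ℚ_[3]) := by
  ext i j
  by_cases h : i = j
  · subst h; simp [castM]
  · simp [castM, Matrix.diagonal_apply_ne _ h]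

namespace TripData

variable (t : TripData)

/-- the nilpotent element -/
noncomputable def X : Mt 3 8 :=
  Matrix.fromBlocks 0 (castM t.b) (((3 : ℚ_[3])⁻¹) • castM t.a) 0

/-- the semisimple element -/
noncomputable def h : Mt 3 8 := Matrix.diagonal fun i => (wt t.w i : ℚ_[3])

/-- the raising element -/
noncomputable def e : Mt 3 8 :=
  Matrix.fromBlocks 0 ((3 : ℚ_[3]) • castM t.c) (castM t.d) 0

lemma castM_symm {m : Matrix (Fin 8) (Fin 8) ℤ} (hm : mᵀ = m) : (castM m)ᵀ = castM m :=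
  congrArg castM hm

lemma h_blocks : t.h = Matrix.fromBlocks (Matrix.diagonal fun i => (t.w i : ℚ_[3])) 0 0
    (Matrix.diagonal fun i => -(t.w i : ℚ_[3])) := by
  unfold h
  rw [Matrix.fromBlocks_diagonal]
  congr 1
  ext i
  rcases i with i | i <;> simp [wt]

lemma castM_entry (m : Matrix (Fin 8) (Fin 8) ℤ) (i j : Fin 8) : castM m i j = (m i j : ℚ_[3]) := rfl

lemma triple : IsTriple t.X t.h t.e where
  memX := by
    rw [mem_spLie_iff, X, st_fromBlocks, Matrix.fromBlocks_neg, Matrix.transpose_smul,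
      castM_symm t.as, castM_symm t.bs]
    simp
  memh := by
    rw [mem_spLie_iff, h_blocks, st_fromBlocks, Matrix.fromBlocks_neg]
    simp [Matrix.diagonal_neg]
  meme := by
    rw [mem_spLie_iff, e, st_fromBlocks, Matrix.fromBlocks_neg, Matrix.transpose_smul,
      castM_symm t.cs, castM_symm t.ds]
    simp
  eX := by
    have h3 : (3 : ℚ_[3]) ≠ 0 := by norm_num
    have u1 := congrArg castM t.e1
    have u2 := congrArg castM t.e2
    rw [castM_sub, castM_mul, castM_mul, castM_diag] at u1 u2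
    rw [h_blocks, e, X, Matrix.fromBlocks_multiply, Matrix.fromBlocks_multiply,
      sub_eq_add_neg, Matrix.fromBlocks_neg, Matrix.fromBlocks_add]
    simp only [Matrix.zero_mul, Matrix.mul_zero, zero_add, add_zero, Matrix.smul_mul,
      Matrix.mul_smul, smul_smul, neg_zero, inv_mul_cancel₀ h3, mul_inv_cancel₀ h3, one_smul,
      smul_zero, ← sub_eq_add_neg, u1, u2]
    congr 1
  he := by
    ext i j
    rw [Matrix.sub_apply, h, Matrix.diagonal_mul, Matrix.mul_diagonal, Matrix.smul_apply, smul_eq_mul]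
    rcases i with i | i <;> rcases j with j | j
    · simp [e]
    · have := t.wc i j
      have u : ((t.w i : ℚ_[3]) + (t.w j : ℚ_[3])) * (t.c i j : ℚ_[3]) = 2 * (t.c i j : ℚ_[3]) := by
        exact_mod_cast this
      simp only [e, Matrix.fromBlocks_apply₁₂, Matrix.smul_apply, smul_eq_mul, castM_entry, wt,
        Sum.elim_inl, Sum.elim_inr]
      push_cast
      linear_combination 3 * u
    · have := t.wd i j
      have u : (-(t.w i : ℚ_[3]) - (t.w j : ℚ_[3])) * (t.d i j : ℚ_[3]) = 2 * (t.d i j : ℚ_[3]) := by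
        exact_mod_cast this
      simp only [e, Matrix.fromBlocks_apply₂₁, castM_entry, wt, Sum.elim_inl, Sum.elim_inr]
      push_cast
      linear_combination u
    · simp [e]
  hX := by
    ext i j
    rw [Matrix.sub_apply, h, Matrix.diagonal_mul, Matrix.mul_diagonal, Matrix.neg_apply,
      Matrix.smul_apply, smul_eq_mul]
    rcases i with i | i <;> rcases j with j | j
    · simp [X]
    · have := t.wb i j
      have u : ((t.w i : ℚ_[3]) + (t.w j : ℚ_[3])) * (t.b i j : ℚ_[3]) = -(2 * (t.b i j : ℚ_[3])) := by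
        exact_mod_cast this
      simp only [X, Matrix.fromBlocks_apply₁₂, castM_entry, wt, Sum.elim_inl, Sum.elim_inr]
      push_cast
      linear_combination u
    · have := t.wa i j
      have u : (-(t.w i : ℚ_[3]) - (t.w j : ℚ_[3])) * (t.a i j : ℚ_[3]) = -(2 * (t.a i j : ℚ_[3])) := by
        exact_mod_cast this
      simp only [X, Matrix.fromBlocks_apply₂₁, Matrix.smul_apply, smul_eq_mul, castM_entry, wt,
        Sum.elim_inl, Sum.elim_inr]
      push_cast
      linear_combination (3 : ℚ_[3])⁻¹ * u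
    · simp [X]

lemma suX : Su t.w (-2) t.X := by
  intro i j hij
  rcases i with i | i <;> rcases j with j | j
  · simp [X] at hij
  · have h1 : t.b i j ≠ 0 := by
      intro h0
      apply hij
      simp [X, castM_entry, h0]
    have := t.wb i j
    have h2 : t.w i + t.w j = -2 := mul_right_cancel₀ h1 (by rw [this]; ring)
    simp only [wt, Sum.elim_inl, Sum.elim_inr]
    omega
  · have h1 : t.a i j ≠ 0 := by
      intro h0
      apply hij
      simp [X, castM_entry, h0]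
    have := t.wa i j
    have h2 : -t.w i - t.w j = -2 := mul_right_cancel₀ h1 (by rw [this]; ring)
    simp only [wt, Sum.elim_inl, Sum.elim_inr]
    omega
  · simp [X] at hij

lemma suGX : Su t.w (-1) (D8.G - t.X) := by
  intro i j hij
  rcases i with i | i <;> rcases j with j | j
  · simp [X, Datum.G] at hij
  · have h1 : B0 i j ≠ t.b i j := by
      intro h0
      apply hij
      change castM B0 i j - castM t.b i j = 0
      rw [castM_entry, castM_entry, h0, sub_self]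
    have := t.gb i j h1
    simp only [wt, Sum.elim_inl, Sum.elim_inr]
    omega
  · have h1 : A0 i j ≠ t.a i j := by
      intro h0
      apply hij
      change (((3 : ℕ) : ℚ_[3])⁻¹ • castM A0) i j - ((3 : ℚ_[3])⁻¹ • castM t.a) i j = 0
      rw [Matrix.smul_apply, Matrix.smul_apply, castM_entry, castM_entry, h0]
      simp
    have := t.ga i j h1
    simp only [wt, Sum.elim_inl, Sum.elim_inr]
    omega
  · simp [X, Datum.G] at hij

/-- ranks of the powers of the nilpotent element -/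
lemma rankX (j : ℕ) : (t.X ^ j).rank =
    (Finset.univ.filter fun i : Fin 8 ⊕ Fin 8 => (j : ℤ) ≤ wt t.w i).card +
    (Finset.univ.filter fun i : Fin 8 ⊕ Fin 8 => ((j + 1 : ℕ) : ℤ) ≤ wt t.w i).card := by
  have hB : ∀ x, op t.h ((Pi.basisFun ℚ_[3] (Fin 8 ⊕ Fin 8)) x) =
      (wt t.w x : ℚ_[3]) • (Pi.basisFun ℚ_[3] (Fin 8 ⊕ Fin 8)) x := by
    intro x
    rw [Pi.basisFun_apply]
    change t.h *ᵥ (Pi.single x 1) = _
    unfold h
    ext i
    rw [Matrix.mulVec_diagonal, Pi.smul_apply, smul_eq_mul]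
    by_cases hx : i = x
    · subst hx; rfl
    · rw [Pi.single_eq_of_ne hx, mul_zero, mul_zero]
  rw [rank_triple t.triple j, finrank_Fge _ hB, finrank_Fge _ hB]

end TripData

/-- the data of a triple -/
def td1 : TripData where
  w := ![11, 7, 3, 1, 1, -1, -5, -9]
  b := !![0, 0, 0, 0, 0, 0, 0, 0;
    0, 0, 0, 0, 0, 0, 0, 1;
    0, 0, 0, 0, 0, 0, 1, 0;
    0, 0, 0, 0, 0, 0, 0, 0;
    0, 0, 0, 0, 0, 0, 0, 0;
    0, 0, 0, 0, 0, 1, 0, 0;
    0, 0, 1, 0, 0, 0, 0, 0;
    0, 1, 0, 0, 0, 0, 0, 0]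
  a := !![0, 0, 0, 0, 0, 0, 0, 1;
    0, 0, 0, 0, 0, 0, 1, 0;
    0, 0, 0, 0, 0, 1, 0, 0;
    0, 0, 0, 1, 0, 0, 0, 0;
    0, 0, 0, 0, 1, 0, 0, 0;
    0, 0, 1, 0, 0, 0, 0, 0;
    0, 1, 0, 0, 0, 0, 0, 0;
    1, 0, 0, 0, 0, 0, 0, 0]
  c := !![0, 0, 0, 0, 0, 0, 0, 11;
    0, 0, 0, 0, 0, 0, 27, 0;
    0, 0, 0, 0, 0, 35, 0, 0;
    0, 0, 0, 1, 0, 0, 0, 0;
    0, 0, 0, 0, 1, 0, 0, 0;
    0, 0, 35, 0, 0, 0, 0, 0;
    0, 27, 0, 0, 0, 0, 0, 0;
    11, 0, 0, 0, 0, 0, 0, 0]
  d := !![0, 0, 0, 0, 0, 0, 0, 0;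
    0, 0, 0, 0, 0, 0, 0, 20;
    0, 0, 0, 0, 0, 0, 32, 0;
    0, 0, 0, 0, 0, 0, 0, 0;
    0, 0, 0, 0, 0, 0, 0, 0;
    0, 0, 0, 0, 0, 36, 0, 0;
    0, 0, 32, 0, 0, 0, 0, 0;
    0, 20, 0, 0, 0, 0, 0, 0]
  bs := by decide
  as := by decide
  cs := by decide
  ds := by decide
  e1 := by decide
  e2 := by decide
  wb := by decide
  wa := by decide
  wc := by decide
  wd := by decide
  gb := by decide
  ga := by decide

/-- the data of a triple -/
def td2 : TripData where
  w := ![-7, -3, -3, 1, 1, 5, 5, 9]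
  b := !![0, 0, 0, 0, 0, 0, 1, 0;
    0, 0, 0, -1, 1, 0, 0, 0;
    0, 0, 0, 1, 0, 0, 0, 0;
    0, -1, 1, 0, 0, 0, 0, 0;
    0, 1, 0, 0, 0, 0, 0, 0;
    0, 0, 0, 0, 0, 0, 0, 0;
    1, 0, 0, 0, 0, 0, 0, 0;
    0, 0, 0, 0, 0, 0, 0, 0]
  a := !![0, 0, 0, 0, 0, 0, 0, 1;
    0, 0, 0, 0, 0, 0, 1, 0;
    0, 0, 0, 0, 0, 1, 0, 0;
    0, 0, 0, 1, 0, 0, 0, 0;
    0, 0, 0, 0, 1, 0, 0, 0;
    0, 0, 1, 0, 0, 0, 0, 0;
    0, 1, 0, 0, 0, 0, 0, 0;
    1, 0, 0, 0, 0, 0, 0, 0]
  c := !![0, 0, 0, 0, 0, 0, 0, 9;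
    0, 0, 0, 0, 0, 0, 21, 0;
    0, 0, 0, 0, 0, 5, -8, 0;
    0, 0, 0, 17, -8, 0, 0, 0;
    0, 0, 0, -8, 17, 0, 0, 0;
    0, 0, 5, 0, 0, 0, 0, 0;
    0, 21, -8, 0, 0, 0, 0, 0;
    9, 0, 0, 0, 0, 0, 0, 0]
  d := !![0, 0, 0, 0, 0, -8, 16, 0;
    0, 0, 0, -8, 16, 0, 0, 0;
    0, 0, 0, 8, 8, 0, 0, 0;
    0, -8, 8, 0, 0, 0, 0, 0;
    0, 16, 8, 0, 0, 0, 0, 0;
    -8, 0, 0, 0, 0, 0, 0, 0;
    16, 0, 0, 0, 0, 0, 0, 0;
    0, 0, 0, 0, 0, 0, 0, 0]
  bs := by decide
  as := by decide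
  cs := by decide
  ds := by decide
  e1 := by decide
  e2 := by decide
  wb := by decide
  wa := by decide
  wc := by decide
  wd := by decide
  gb := by decide
  ga := by decide


/-- the partition `[12, 2, 2]` -/
def P1 : Nat.Partition (2 * 8) where
  parts := {12, 2, 2}
  parts_pos := by decide
  parts_sum := by decide

/-- the partition `[10, 6]` -/
def P2 : Nat.Partition (2 * 8) where
  parts := {10, 6}
  parts_pos := by decide
  parts_sum := by decide

lemma jordan1 : HasJordanType td1.X P1 := by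
  intro j
  rw [td1.rankX j]
  by_cases hj : j < 12
  · interval_cases j <;> decide
  · have h1 : ∀ k : ℤ, 12 ≤ k → (Finset.univ.filter fun i : Fin 8 ⊕ Fin 8 => k ≤ wt td1.w i).card = 0 := by
      intro k hk
      rw [Finset.card_eq_zero, Finset.filter_eq_empty_iff]
      intro i _
      have : ∀ i : Fin 8 ⊕ Fin 8, wt td1.w i < 12 := by decide
      have := this i
      omega
    rw [h1 _ (by omega), h1 _ (by push_cast; omega)]
    simp only [P1, Multiset.insert_eq_cons, Multiset.map_cons, Multiset.map_singleton,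
      Multiset.sum_cons, Multiset.sum_singleton]
    omega

lemma jordan2 : HasJordanType td2.X P2 := by
  intro j
  rw [td2.rankX j]
  by_cases hj : j < 12
  · interval_cases j <;> decide
  · have h1 : ∀ k : ℤ, 12 ≤ k → (Finset.univ.filter fun i : Fin 8 ⊕ Fin 8 => k ≤ wt td2.w i).card = 0 := by
      intro k hk
      rw [Finset.card_eq_zero, Finset.filter_eq_empty_iff]
      intro i _
      have : ∀ i : Fin 8 ⊕ Fin 8, wt td2.w i < 12 := by decide
      have := this i
      omega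
    rw [h1 _ (by omega), h1 _ (by push_cast; omega)]
    simp only [P2, Multiset.insert_eq_cons, Multiset.map_cons, Multiset.map_singleton,
      Multiset.sum_cons, Multiset.sum_singleton]
    omega

/-- **nonvanishing for the two partitions** -/
theorem coeff1 {ψ : AddChar ℚ_[3] Circle} (hψ : Cond ψ) : HasCoeff ψ (D8.rep ψ) P1 :=
  ⟨td1.X, td1.h, td1.e, td1.triple, jordan1, D8.nonvan (by norm_num) hψ td1.suX td1.suGX⟩

theorem coeff2 {ψ : AddChar ℚ_[3] Circle} (hψ : Cond ψ) : HasCoeff ψ (D8.rep ψ) P2 :=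
  ⟨td2.X, td2.h, td2.e, td2.triple, jordan2, D8.nonvan (by norm_num) hψ td2.suX td2.suGX⟩

end Run7.h697
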