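import Pool.Agent.Run7.h697.ZZ

/-!
# From a functional to a congruence
-/

set_option autoImplicit false
set_option linter.unusedVariables false

open Matrix

namespace Run7.h697

variable {p : ℕ} [hp : Fact p.Prime] {n : ℕ}

lemma grge_two (h : Mt p n) : grge h 2 = nil2 h := rfl

/-- conjugation by an element of the group -/
noncomputable def cj (x : GG p n) (m : Mt p n) : Mt p n := (x : Mt p n) * m * st (x : Mt p n)

/-- conjugation as a linear map -/
noncomputable def cjl (x : GG p n) : Mt p n →ₗ[ℚ_[p]] Mt p n where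
  toFun m := cj x m
  map_add' a b := by unfold cj; rw [Matrix.mul_add, Matrix.add_mul]
  map_smul' c a := by unfold cj; simp

lemma cj_mul (x : GG p n) (a b : Mt p n) : cj x (a * b) = cj x a * cj x b := by
  unfold cj
  calc (x : Mt p n) * (a * b) * st (x : Mt p n)
      = (x : Mt p n) * a * (st (x : Mt p n) * (x : Mt p n)) * b * st (x : Mt p n) := by
        rw [st_mul_self]; simp only [Matrix.mul_one, Matrix.mul_assoc]
    _ = _ := by simp only [Matrix.mul_assoc]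

lemma cj_sub (x : GG p n) (a b : Mt p n) : cj x (a - b) = cj x a - cj x b :=
  map_sub (cjl x) a b

lemma cj_smul (x : GG p n) (c : ℚ_[p]) (a : Mt p n) : cj x (c • a) = c • cj x a :=
  map_smul (cjl x) c a

lemma cj_neg (x : GG p n) (a : Mt p n) : cj x (-a) = - cj x a :=
  map_neg (cjl x) a

lemma cj_one (x : GG p n) : cj x 1 = 1 := by
  unfold cj; rw [Matrix.mul_one, mul_st]

lemma cj_pow (x : GG p n) (a : Mt p n) (k : ℕ) : cj x (a ^ k) = cj x a ^ k := by
  induction k with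
  | zero => simp [cj_one]
  | succ k ih => rw [pow_succ, cj_mul, ih, pow_succ]

lemma cj_inv_cj (x : GG p n) (a : Mt p n) : cj x (cj x⁻¹ a) = a := by
  unfold cj
  rw [coe_inv_eq_st, st_st]
  calc (x : Mt p n) * (st (x : Mt p n) * a * (x : Mt p n)) * st (x : Mt p n)
      = ((x : Mt p n) * st (x : Mt p n)) * a * ((x : Mt p n) * st (x : Mt p n)) := by
        simp only [Matrix.mul_assoc]
    _ = a := by rw [mul_st]; simp

lemma st_cj (x : GG p n) (a : Mt p n) : st (cj x a) = cj x (st a) := by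
  unfold cj
  rw [st_mul, st_mul, st_st, Matrix.mul_assoc]

lemma cj_mem_gr {x : GG p n} {h Z : Mt p n} {i : ℤ} (hZ : Z ∈ gr (cj x⁻¹ h) i) :
    cj x Z ∈ gr h i := by
  obtain ⟨h1, h2⟩ := hZ
  rw [mem_spLie_iff] at h1
  refine ⟨mem_spLie_iff.2 (by rw [st_cj, h1, cj_neg]), ?_⟩
  have h3 := congrArg (cj x) h2
  rw [cj_sub, cj_mul, cj_mul, cj_inv_cj, cj_smul] at h3
  exact h3

lemma cj_mem_grge {x : GG p n} {h Z : Mt p n} {i : ℤ} (hZ : Z ∈ grge (cj x⁻¹ h) i) :
    cj x Z ∈ grge h i := by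
  have : grge (cj x⁻¹ h) i ≤ (grge h i).comap (cjl x) := by
    refine iSup₂_le fun j hj => ?_
    intro Z' hZ'
    exact gr_le_grge h hj (cj_mem_gr hZ')
  exact this hZ

lemma triple_cj {X h e : Mt p n} (t : IsTriple X h e) (x : GG p n) :
    IsTriple (cj x X) (cj x h) (cj x e) where
  memX := mem_spLie_iff.2 (by rw [st_cj, mem_spLie_iff.1 t.memX, cj_neg])
  memh := mem_spLie_iff.2 (by rw [st_cj, mem_spLie_iff.1 t.memh, cj_neg])
  meme := mem_spLie_iff.2 (by rw [st_cj, mem_spLie_iff.1 t.meme, cj_neg])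
  eX := by rw [← cj_mul, ← cj_mul, ← cj_sub, t.eX]
  he := by rw [← cj_mul, ← cj_mul, ← cj_sub, t.he, cj_smul]
  hX := by rw [← cj_mul, ← cj_mul, ← cj_sub, t.hX, cj_neg, cj_smul]

/-- the exponential of a square-zero element -/
lemma exp_sq {Z : Mt p n} (hZ : Z * Z = 0) : IsNilpotent.exp Z = 1 + Z := by
  have h2 : Z ^ 2 = 0 := by rw [pow_two, hZ]
  rw [IsNilpotent.exp_eq_sum h2]
  simp [Finset.sum_range_succ]

lemma one_add_mem {Z : Mt p n} (hs : st Z = -Z) (hZ : Z * Z = 0) :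
    1 + Z ∈ symplecticGroup (Fin n) ℚ_[p] := by
  rw [mem_sp_iff_st, st_add, st_one, hs, Matrix.mul_add, Matrix.mul_one, Matrix.mul_neg,
    Matrix.add_mul, hZ, Matrix.one_mul]
  abel

lemma trace_gr {X h : Mt p n} (hX : h * X - X * h = -((2 : ℚ_[p]) • X)) {Z : Mt p n} {i : ℤ}
    (hi : 3 ≤ i) (hZ : Z ∈ gr h i) : (X * Z).trace = 0 := by
  have h1 : ((h * X - X * h) * Z).trace = -(X * (h * Z - Z * h)).trace := by
    rw [Matrix.sub_mul, Matrix.mul_sub, Matrix.trace_sub, Matrix.trace_sub]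
    have e1 : (h * X * Z).trace = (X * (Z * h)).trace := by
      rw [Matrix.mul_assoc, Matrix.trace_mul_comm, Matrix.mul_assoc]
    rw [e1, Matrix.mul_assoc X h Z]; ring
  rw [hX, hZ.2, Matrix.neg_mul, Matrix.smul_mul, Matrix.mul_smul, Matrix.trace_neg,
    Matrix.trace_smul, Matrix.trace_smul, smul_eq_mul, smul_eq_mul] at h1
  have h2 : ((i - 2 : ℤ) : ℚ_[p]) * (X * Z).trace = 0 := by
    push_cast
    linear_combination h1
  have h3 : ((i - 2 : ℤ) : ℚ_[p]) ≠ 0 := by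
    rw [Int.cast_ne_zero]; omega
  exact (mul_eq_zero.1 h2).resolve_left h3

lemma trace_grge {X h : Mt p n} (hX : h * X - X * h = -((2 : ℚ_[p]) • X)) {Z : Mt p n}
    (hZ : Z ∈ grge h 3) : (X * Z).trace = 0 := by
  let L : Mt p n →ₗ[ℚ_[p]] ℚ_[p] :=
    { toFun := fun m => (X * m).trace
      map_add' := fun x y => by rw [Matrix.mul_add, Matrix.trace_add]
      map_smul' := fun c x => by rw [Matrix.mul_smul, Matrix.trace_smul]; rfl }
  have : grge h 3 ≤ LinearMap.ker L := by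
    refine iSup₂_le fun j hj => ?_
    intro Z' hZ'
    exact trace_gr hX hj hZ'
  exact this hZ

lemma st_grge {h Z : Mt p n} {i : ℤ} (hZ : Z ∈ grge h i) : st Z = -Z := by
  have : grge h i ≤ spLie p n := iSup₂_le fun j hj Z' hZ' => hZ'.1
  exact mem_spLie_iff.1 (this hZ)

namespace Datum

variable (D : Datum p n) {ψ : AddChar ℚ_[p] Circle}

lemma rep_f0 (hp2 : p ≠ 2) (hψ : Cond ψ) {k : GG p n} (hk : k ∈ KS p n 1) :
    D.rep ψ k (D.f0 hp2 hψ) = (D.chi ψ k : ℂ) • D.f0 hp2 hψ := by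
  apply Subtype.ext
  funext g
  change D.f0fun ψ (g * k) = (D.chi ψ k : ℂ) * D.f0fun ψ g
  rw [f0fun, f0fun, (KS p n 1).mul_mem_cancel_right hk, ← ng_mul,
    (KS p n 1).mul_mem_cancel_right hk]
  split_ifs with h1 h2
  · rw [D.chi_mul hψ h1 hk, Circle.coe_mul]; ring
  · rw [D.chi_mul hψ h2 hk, Circle.coe_mul]; ring
  · rw [mul_zero]

/-- **the congruence coming from a nonzero functional** -/
theorem exists_conj (hp2 : p ≠ 2) (hψ : Cond ψ) {X h e : Mt p n} (t : IsTriple X h e)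
    {ℓ : D.Sp ψ →ₗ[ℂ] ℂ} (h0 : ℓ ≠ 0)
    (heq : ∀ Z ∈ nil2 h, ∀ g : GG p n, (g : Mt p n) = IsNilpotent.exp Z →
      ∀ v, ℓ (D.rep ψ g v) = (ψ ((X * Z).trace) : ℂ) * ℓ v) :
    ∃ x : GG p n, ∀ Z : Mt p n, Z ∈ grge (cj x⁻¹ h) 3 → Z * Z = 0 → Bd (-1) Z →
      ‖(D.G * Z).trace‖ < 1 := by
  obtain ⟨x, hx⟩ : ∃ x : GG p n, ℓ (D.rep ψ x (D.f0 hp2 hψ)) ≠ 0 := by
    by_contra hcon
    rw [not_exists] at hcon
    apply h0
    ext f
    have h1 := D.span_f0 hp2 hψ f
    have h2 : Submodule.span ℂ (Set.range fun x => D.rep ψ x (D.f0 hp2 hψ)) ≤ LinearMap.ker ℓ := by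
      rw [Submodule.span_le]
      rintro _ ⟨y, rfl⟩
      exact not_not.1 (hcon y)
    exact h2 h1
  refine ⟨x, fun Z hZ hZ2 hb => ?_⟩
  apply hψ.norm_lt
  intro c hc
  -- replace `Z` by `c Z`
  set Y : Mt p n := c • Z with hY
  have hYm : Y ∈ grge (cj x⁻¹ h) 3 := Submodule.smul_mem _ _ hZ
  have hY2 : Y * Y = 0 := by rw [hY, Matrix.smul_mul, Matrix.mul_smul, hZ2, smul_zero, smul_zero]
  have hYb : Bd (-1) Y := hb.smul_int hc
  have e0 : c * (D.G * Z).trace = (D.G * Y).trace := by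
    rw [hY, Matrix.mul_smul D.G c Z, Matrix.trace_smul c, smul_eq_mul]
  rw [e0]
  set Y' : Mt p n := cj x Y with hY'
  have hY'm : Y' ∈ grge h 3 := cj_mem_grge hYm
  have hY'2 : Y' * Y' = 0 := by rw [hY', ← cj_mul, hY2]; unfold cj; simp
  set z : GG p n := ⟨1 + Y', one_add_mem (st_grge hY'm) hY'2⟩ with hz
  set k : GG p n := ⟨1 + Y, one_add_mem (st_grge hYm) hY2⟩ with hk
  have hzk : z * x = x * k := by
    apply Subtype.ext
    change (1 + Y') * (x : Mt p n) = (x : Mt p n) * (1 + Y)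
    rw [Matrix.add_mul, Matrix.mul_add, Matrix.one_mul, Matrix.mul_one, hY', cj, Matrix.mul_assoc,
      st_mul_self, Matrix.mul_one]
  have hkK : k ∈ KS p n 1 := by
    change Bd (-((1 : ℕ) : ℤ)) (1 + Y - 1)
    rw [add_sub_cancel_left]; exact_mod_cast hYb
  have h1 := heq Y' (by rw [← grge_two]; exact grge_anti h (by norm_num) hY'm) z
    (by rw [exp_sq hY'2]) (D.rep ψ x (D.f0 hp2 hψ))
  rw [← Module.End.mul_apply, ← map_mul, hzk, map_mul, Module.End.mul_apply, D.rep_f0 hp2 hψ hkK,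
    map_smul, map_smul, trace_grge t.hX hY'm, AddChar.map_zero_eq_one, Circle.coe_one, one_mul,
    smul_eq_mul] at h1
  have h2 : (D.chi ψ k : ℂ) = 1 := mul_right_cancel₀ hx (by rw [h1, one_mul])
  have h3 : D.chi ψ k = ψ ((D.G * Y).trace) := by
    change ψ ((D.G * (1 + Y - 1)).trace) = _
    rw [add_sub_cancel_left]
  rw [← h3]
  exact Circle.ext (by rw [h2, Circle.coe_one])

end Datum

end Run7.h697
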