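import Pool.Agent.Run7.h697.VanA

/-!
# Reduction of subspaces
-/

set_option autoImplicit false
set_option linter.unusedVariables false

open Matrix

namespace Run7.h697

section field

variable {k : Type*} [Field k] {n : ℕ}

/-- orthogonal complement for the dot product -/
def orth (U : Submodule k (Fin n → k)) : Submodule k (Fin n → k) where
  carrier := {y | ∀ x ∈ U, x ⬝ᵥ y = 0}
  add_mem' ha hb x hx := by rw [dotProduct_add, ha x hx, hb x hx, add_zero]
  zero_mem' x hx := dotProduct_zero x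
  smul_mem' c a ha x hx := by rw [dotProduct_smul, ha x hx, smul_zero]

lemma finrank_orth (U : Submodule k (Fin n → k)) :
    Module.finrank k U + Module.finrank k (orth U) = n := by
  classical
  let b := Module.finBasis k U
  let M : Matrix (Fin (Module.finrank k U)) (Fin n) k := Matrix.of fun i => (b i : Fin n → k)
  have hM : LinearIndependent k M.row := by
    change LinearIndependent k (fun i => (b i : Fin n → k))
    exact b.linearIndependent.map' U.subtype (Submodule.ker_subtype U)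
  have h1 := hM.rank_matrix
  rw [Fintype.card_fin] at h1
  have h2 : orth U = LinearMap.ker (Matrix.mulVecLin M) := by
    ext y
    rw [LinearMap.mem_ker, Matrix.mulVecLin_apply]
    constructor
    · intro hy
      ext i
      exact hy _ (b i).2
    · intro hy x hx
      have h3 : (⟨x, hx⟩ : U) ∈ Submodule.span k (Set.range b) := by rw [b.span_eq]; trivial
      have h4 : Submodule.span k (Set.range b) ≤ (LinearMap.ker
          ((LinearMap.mk (AddHom.mk (fun u : U => (u : Fin n → k) ⬝ᵥ y)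
            (fun u v => by simp [add_dotProduct])) (fun c u => by simp)) : U →ₗ[k] k)) := by
        rw [Submodule.span_le]
        rintro _ ⟨i, rfl⟩
        exact congrFun hy i
      exact h4 h3
  rw [h2]
  have h5 := LinearMap.finrank_range_add_finrank_ker (Matrix.mulVecLin M)
  rw [Module.finrank_fin_fun] at h5
  rw [Matrix.rank] at h1
  omega

lemma orth_le {U W : Submodule k (Fin n → k)} (h : ∀ x ∈ U, ∀ y ∈ W, x ⬝ᵥ y = 0) :
    Module.finrank k U + Module.finrank k W ≤ n := by
  have h1 : W ≤ orth U := fun y hy x hx => h x hx y hy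
  have h2 := Submodule.finrank_mono h1
  have h3 := finrank_orth U
  omega

lemma mem_of_orth {U W : Submodule k (Fin n → k)} (h : ∀ x ∈ U, ∀ y ∈ W, x ⬝ᵥ y = 0)
    (hd : n ≤ Module.finrank k U + Module.finrank k W) {y : Fin n → k}
    (hy : ∀ x ∈ U, x ⬝ᵥ y = 0) : y ∈ W := by
  have h1 : W ≤ orth U := fun y hy x hx => h x hx y hy
  have h3 := finrank_orth U
  have h4 : W = orth U := Submodule.eq_of_le_of_finrank_le h1 (by omega)
  rw [h4]; exact hy

end field

variable {p : ℕ} [hp : Fact p.Prime] {n : ℕ}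

lemma VB.int {v : Vc p n} (h : VB 0 v) (i : Fin n ⊕ Fin n) : ‖v i‖ ≤ 1 := by
  rcases i with i | i
  · simpa using h (Sum.inl i)
  · have := h (Sum.inr i)
    have h2 := norm_le_even (k := 0) (by simpa using this)
    simpa using h2

lemma VB.of_int {v : Vc p n} (h : ∀ i, ‖v i‖ ≤ 1) : VB 0 v := fun i => (h i).trans (by
    rw [← zpow_zero (sq p)]
    exact sq_zpow_le (by rcases i with i | i <;> simp [dd]))

lemma norm_lt_one_iff {x : ℚ_[p]} : ‖x‖ < 1 ↔ ‖x‖ ≤ sq p ^ (-1 : ℤ) := by
  constructor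
  · intro h
    have h2 : ‖x‖ ≤ (p : ℝ) ^ (-1 : ℤ) := by
      rw [Padic.norm_le_pow_iff_norm_lt_pow_add_one]; simpa using h
    rw [← sq_zpow_two] at h2
    exact h2.trans (sq_zpow_le (by norm_num))
  · intro h
    exact lt_of_le_of_lt h (by simpa using sq_zpow_lt (p := p) (show (-1 : ℤ) < 0 by norm_num))

lemma VB_neg_one_iff {v : Vc p n} : VB (-1) v ↔ (∀ i, ‖v (Sum.inl i)‖ < 1) ∧ ∀ i, ‖v (Sum.inr i)‖ ≤ 1 := by
  constructor
  · intro h
    refine ⟨fun i => norm_lt_one_iff.2 (by simpa using h (Sum.inl i)), fun i => by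
      simpa using h (Sum.inr i)⟩
  · rintro ⟨h1, h2⟩ i
    rcases i with i | i
    · simpa using norm_lt_one_iff.1 (h1 i)
    · simpa using h2 i

lemma VB.add {k : ℤ} {a b : Vc p n} (ha : VB k a) (hb : VB k b) : VB k (a + b) := fun i => by
  rw [Pi.add_apply]
  exact (Padic.nonarchimedean _ _).trans (max_le (ha i) (hb i))

lemma vb_zero (k : ℤ) : VB k (0 : Vc p n) := fun i => by
  rw [Pi.zero_apply, norm_zero]; exact (sq_zpow_pos p _).le

lemma VB.smul_int {k : ℤ} {a : Vc p n} {c : ℚ_[p]} (hc : ‖c‖ ≤ 1) (ha : VB k a) :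
    VB k (c • a) := fun i => by
  rw [Pi.smul_apply, smul_eq_mul, norm_mul]
  calc ‖c‖ * ‖a i‖ ≤ 1 * ‖a i‖ := mul_le_mul_of_nonneg_right hc (norm_nonneg _)
    _ ≤ _ := by rw [one_mul]; exact ha i

lemma VB.neg {k : ℤ} {a : Vc p n} (ha : VB k a) : VB k (-a) := fun i => by
  rw [Pi.neg_apply, norm_neg]; exact ha i

lemma VB.sub {k : ℤ} {a b : Vc p n} (ha : VB k a) (hb : VB k b) : VB k (a - b) := by
  rw [sub_eq_add_neg]; exact ha.add hb.neg

/-- reduction of a subspace, first half -/
noncomputable def rU (S : Submodule ℚ_[p] (Vc p n)) : Submodule (ZMod p) (Fin n → ZMod p) where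
  carrier := {x | ∃ v ∈ S, VB 0 v ∧ ∀ i, red (v (Sum.inl i)) = x i}
  add_mem' := by
    rintro x y ⟨v, hv, hb, hx⟩ ⟨w, hw, hb', hy⟩
    refine ⟨v + w, S.add_mem hv hw, hb.add hb', fun i => ?_⟩
    rw [Pi.add_apply, Pi.add_apply, red_add (hb.int _) (hb'.int _), hx, hy]
  zero_mem' := ⟨0, S.zero_mem, vb_zero 0, fun i => by simp⟩
  smul_mem' := by
    rintro c x ⟨v, hv, hb, hx⟩
    obtain ⟨c', hc', hcc⟩ := red_surj c
    refine ⟨c' • v, S.smul_mem _ hv, hb.smul_int hc', fun i => ?_⟩
    rw [Pi.smul_apply, Pi.smul_apply, smul_eq_mul, smul_eq_mul, red_mul hc' (hb.int _), hx, hcc]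

/-- reduction of a subspace, second half -/
noncomputable def rW (S : Submodule ℚ_[p] (Vc p n)) : Submodule (ZMod p) (Fin n → ZMod p) where
  carrier := {x | ∃ v ∈ S, VB (-1) v ∧ ∀ i, red (v (Sum.inr i)) = x i}
  add_mem' := by
    rintro x y ⟨v, hv, hb, hx⟩ ⟨w, hw, hb', hy⟩
    refine ⟨v + w, S.add_mem hv hw, hb.add hb', fun i => ?_⟩
    rw [Pi.add_apply, Pi.add_apply, red_add ((VB_neg_one_iff.1 hb).2 _)
      ((VB_neg_one_iff.1 hb').2 _), hx, hy]
  zero_mem' := ⟨0, S.zero_mem, vb_zero (-1), fun i => by simp⟩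
  smul_mem' := by
    rintro c x ⟨v, hv, hb, hx⟩
    obtain ⟨c', hc', hcc⟩ := red_surj c
    refine ⟨c' • v, S.smul_mem _ hv, hb.smul_int hc', fun i => ?_⟩
    rw [Pi.smul_apply, Pi.smul_apply, smul_eq_mul, smul_eq_mul,
      red_mul hc' ((VB_neg_one_iff.1 hb).2 _), hx, hcc]

lemma mem_rU {S : Submodule ℚ_[p] (Vc p n)} {x : Fin n → ZMod p} :
    x ∈ rU S ↔ ∃ v ∈ S, VB 0 v ∧ ∀ i, red (v (Sum.inl i)) = x i := Iff.rfl

lemma mem_rW {S : Submodule ℚ_[p] (Vc p n)} {x : Fin n → ZMod p} :
    x ∈ rW S ↔ ∃ v ∈ S, VB (-1) v ∧ ∀ i, red (v (Sum.inr i)) = x i := Iff.rfl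

lemma smul_coe (c : ℤ_[p]) (v : Vc p n) : c • v = (c : ℚ_[p]) • v := by
  ext i; simp [Algebra.smul_def]

/-- integral vectors of a subspace -/
def LS (S : Submodule ℚ_[p] (Vc p n)) : Submodule ℤ_[p] (Vc p n) where
  carrier := {v | v ∈ S ∧ VB 0 v}
  add_mem' ha hb := ⟨S.add_mem ha.1 hb.1, ha.2.add hb.2⟩
  zero_mem' := ⟨S.zero_mem, vb_zero 0⟩
  smul_mem' c v hv := by
    have : c • v = (c : ℚ_[p]) • v := by
      ext i; simp [Algebra.smul_def]
    rw [this]
    exact ⟨S.smul_mem _ hv.1, hv.2.smul_int (norm_coe_int c)⟩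

lemma fg_LS (S : Submodule ℚ_[p] (Vc p n)) : (LS S).FG := by
  let φ : (Fin n ⊕ Fin n → ℤ_[p]) →ₗ[ℤ_[p]] Vc p n :=
    { toFun := fun x i => (x i : ℚ_[p])
      map_add' := fun x y => by ext i; simp
      map_smul' := fun c x => by ext i; simp [Algebra.smul_def] }
  have h1 : LS S ≤ LinearMap.range φ := by
    rintro v ⟨-, hv⟩
    exact ⟨fun i => ⟨v i, hv.int i⟩, rfl⟩
  have : IsNoetherian ℤ_[p] (LinearMap.range φ) := inferInstance
  have h2 := IsNoetherian.noetherian ((LS S).comap (LinearMap.range φ).subtype)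
  have h3 := h2.map (LinearMap.range φ).subtype
  rwa [Submodule.map_comap_subtype, inf_eq_right.2 h1] at h3

/-- **the dimension estimate** -/
lemma finrank_le (S : Submodule ℚ_[p] (Vc p n)) :
    Module.finrank ℚ_[p] S ≤ Module.finrank (ZMod p) (rU S) + Module.finrank (ZMod p) (rW S) := by
  classical
  let b1 := Module.finBasis (ZMod p) (rU S)
  let b2 := Module.finBasis (ZMod p) (rW S)
  have h1 : ∀ i, ∃ v ∈ S, VB 0 v ∧ ∀ j, red (v (Sum.inl j)) = (b1 i : Fin n → ZMod p) j :=
    fun i => (b1 i).2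
  have h2 : ∀ i, ∃ v ∈ S, VB (-1) v ∧ ∀ j, red (v (Sum.inr j)) = (b2 i : Fin n → ZMod p) j :=
    fun i => (b2 i).2
  choose v hvS hvb hvr using h1
  choose w hwS hwb hwr using h2
  let u : (Fin (Module.finrank (ZMod p) (rU S)) ⊕ Fin (Module.finrank (ZMod p) (rW S))) → Vc p n :=
    Sum.elim v w
  have key : LS S ≤ Submodule.span ℤ_[p] (Set.range u) := by
    apply Submodule.le_of_le_smul_of_le_jacobson_bot (I := IsLocalRing.maximalIdeal ℤ_[p]) (fg_LS S)
    · rw [IsLocalRing.jacobson_eq_maximalIdeal ⊥ bot_ne_top]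
    · rintro x ⟨hxS, hxb⟩
      -- first step
      have a1 : (fun j => red (x (Sum.inl j))) ∈ rU S := ⟨x, hxS, hxb, fun j => rfl⟩
      set c := b1.repr ⟨_, a1⟩ with hc
      have a2 : ∀ j, red (x (Sum.inl j)) = ∑ i, c i * (b1 i : Fin n → ZMod p) j := by
        intro j
        have := b1.sum_repr ⟨_, a1⟩
        have := congrArg (fun z : rU S => (z : Fin n → ZMod p) j) this
        simp only [Submodule.coe_sum, Submodule.coe_smul, Finset.sum_apply, Pi.smul_apply,
          smul_eq_mul] at this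
        exact this.symm
      have a3 : ∀ i, ∃ z : ℚ_[p], ‖z‖ ≤ 1 ∧ red z = c i := fun i => red_surj (c i)
      choose z hz hzr using a3
      set x1 := x - ∑ i, z i • v i with hx1
      have a4 : ∀ j, ‖(∑ i, z i • v i) j‖ ≤ 1 := by
        intro j
        rw [Finset.sum_apply]
        refine norm_sum_le_of _ _ zero_le_one fun i _ => ?_
        exact ((hvb i).smul_int (hz i)).int j
      have a5 : ∀ j, ‖x1 (Sum.inl j)‖ < 1 := by
        intro j
        have e1 : ‖x1 (Sum.inl j)‖ ≤ 1 := by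
          rw [hx1, Pi.sub_apply, sub_eq_add_neg]
          refine (Padic.nonarchimedean _ _).trans (max_le (hxb.int _) ?_)
          rw [norm_neg]; exact a4 _
        rw [← red_eq_zero_iff e1, hx1, Pi.sub_apply, red_sub (hxb.int _) (a4 _), a2,
          Finset.sum_apply, red_sum _ _ (fun i _ => ((hvb i).smul_int (hz i)).int _), sub_eq_zero]
        refine Finset.sum_congr rfl fun i _ => ?_
        rw [Pi.smul_apply, smul_eq_mul, red_mul (hz i) ((hvb i).int _), hzr, hvr]
      have a6 : ∀ j, ‖x1 (Sum.inr j)‖ ≤ 1 := by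
        intro j
        rw [hx1, Pi.sub_apply, sub_eq_add_neg]
        refine (Padic.nonarchimedean _ _).trans (max_le (hxb.int _) ?_)
        rw [norm_neg]; exact a4 _
      have a7 : x1 ∈ S := S.sub_mem hxS (Submodule.sum_mem _ fun i _ => S.smul_mem _ (hvS i))
      have a8 : VB (-1) x1 := VB_neg_one_iff.2 ⟨a5, a6⟩
      -- second step
      have c1 : (fun j => red (x1 (Sum.inr j))) ∈ rW S := ⟨x1, a7, a8, fun j => rfl⟩
      set d := b2.repr ⟨_, c1⟩ with hd
      have c2 : ∀ j, red (x1 (Sum.inr j)) = ∑ i, d i * (b2 i : Fin n → ZMod p) j := by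
        intro j
        have := b2.sum_repr ⟨_, c1⟩
        have := congrArg (fun z : rW S => (z : Fin n → ZMod p) j) this
        simp only [Submodule.coe_sum, Submodule.coe_smul, Finset.sum_apply, Pi.smul_apply,
          smul_eq_mul] at this
        exact this.symm
      have c3 : ∀ i, ∃ z : ℚ_[p], ‖z‖ ≤ 1 ∧ red z = d i := fun i => red_surj (d i)
      choose y hy hyr using c3
      set x2 := x1 - ∑ i, y i • w i with hx2
      have c4 : ∀ i j, ‖(y i • w i) (Sum.inr j)‖ ≤ 1 := fun i j =>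
        (VB_neg_one_iff.1 ((hwb i).smul_int (hy i))).2 j
      have c4' : ∀ i j, ‖(y i • w i) (Sum.inl j)‖ < 1 := fun i j =>
        (VB_neg_one_iff.1 ((hwb i).smul_int (hy i))).1 j
      have c9 : VB (-1) x2 := by
        refine a8.sub ?_
        have : ∀ s : Finset (Fin (Module.finrank (ZMod p) (rW S))), VB (-1) (∑ i ∈ s, y i • w i) := by
          intro s
          induction s using Finset.induction_on with
          | empty => simpa using vb_zero (-1)
          | insert a s ha ih =>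
            rw [Finset.sum_insert ha]
            exact ((hwb a).smul_int (hy a)).add ih
        exact this _
      have c5 : ∀ j, ‖x2 (Sum.inr j)‖ < 1 := by
        intro j
        have e0 : ‖(∑ i, y i • w i) (Sum.inr j)‖ ≤ 1 := by
          rw [Finset.sum_apply]
          exact norm_sum_le_of _ _ zero_le_one fun i _ => c4 i j
        have e1 : ‖x2 (Sum.inr j)‖ ≤ 1 := (VB_neg_one_iff.1 c9).2 j
        rw [← red_eq_zero_iff e1, hx2, Pi.sub_apply, red_sub (a6 _) e0, c2,
          Finset.sum_apply, red_sum _ _ (fun i _ => c4 i j), sub_eq_zero]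
        refine Finset.sum_congr rfl fun i _ => ?_
        rw [Pi.smul_apply, smul_eq_mul, red_mul (hy i) ((VB_neg_one_iff.1 (hwb i)).2 _), hyr, hwr]
      have c6 : ∀ j, ‖x2 (Sum.inl j)‖ < 1 := (VB_neg_one_iff.1 c9).1
      have c7 : x2 ∈ S := S.sub_mem a7 (Submodule.sum_mem _ fun i _ => S.smul_mem _ (hwS i))
      -- divide by p
      have hpp : (p : ℚ_[p]) ≠ 0 := p_ne
      set x3 := (p : ℚ_[p])⁻¹ • x2 with hx3
      have c8 : x3 ∈ LS S := by
        refine ⟨S.smul_mem _ c7, VB.of_int ?_⟩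
        intro i
        rw [hx3, Pi.smul_apply, smul_eq_mul, norm_inv_p_mul]
        rcases i with i | i
        · exact c6 i
        · exact c5 i
      have e2 : x = (∑ i, z i • v i + ∑ i, y i • w i) + (p : ℤ_[p]) • x3 := by
        have : (p : ℤ_[p]) • x3 = x2 := by
          rw [smul_coe, hx3, PadicInt.coe_natCast, smul_smul, mul_inv_cancel₀ hpp, one_smul]
        rw [this, hx2, hx1]; abel
      rw [e2]
      refine Submodule.add_mem _ (Submodule.mem_sup_left (Submodule.add_mem _ ?_ ?_))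
        (Submodule.mem_sup_right (Submodule.smul_mem_smul ?_ c8))
      · refine Submodule.sum_mem _ fun i _ => ?_
        have : z i • v i = (toInt (z i) (hz i)) • u (Sum.inl i) := by
          rw [smul_coe, coe_toInt]; rfl
        rw [this]
        exact Submodule.smul_mem _ _ (Submodule.subset_span ⟨_, rfl⟩)
      · refine Submodule.sum_mem _ fun i _ => ?_
        have : y i • w i = (toInt (y i) (hy i)) • u (Sum.inr i) := by
          rw [smul_coe, coe_toInt]; rfl
        rw [this]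
        exact Submodule.smul_mem _ _ (Submodule.subset_span ⟨_, rfl⟩)
      · rw [PadicInt.maximalIdeal_eq_span_p]
        exact Ideal.mem_span_singleton_self _
  have key2 : S ≤ Submodule.span ℚ_[p] (Set.range u) := by
    intro x hx
    by_cases hx0 : x = 0
    · rw [hx0]; exact Submodule.zero_mem _
    -- scale
    obtain ⟨N, hN⟩ : ∃ N : ℕ, ∀ i, ‖((p : ℚ_[p]) ^ (N : ℤ)) • x i‖ ≤ 1 := by
      have h1 : ∀ i, ∃ N : ℕ, ‖x i‖ ≤ (p : ℝ) ^ (N : ℤ) := by
        intro i
        obtain ⟨N, hN⟩ := pow_unbounded_of_one_lt ‖x i‖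
          (show (1 : ℝ) < p by exact_mod_cast hp.out.one_lt)
        exact ⟨N, by rw [zpow_natCast]; exact hN.le⟩
      choose N hN using h1
      refine ⟨∑ i, N i, fun i => ?_⟩
      rw [smul_eq_mul, norm_mul, norm_zpow, Padic.norm_p, _root_.inv_zpow]
      have h3 : N i ≤ ∑ i, N i := Finset.single_le_sum (f := N) (fun _ _ => Nat.zero_le _)
        (Finset.mem_univ i)
      have h4 : (0 : ℝ) < (p : ℝ) ^ ((∑ i, N i : ℕ) : ℤ) := by
        have : (0 : ℝ) < p := by exact_mod_cast hp.out.pos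
        positivity
      rw [inv_mul_le_iff₀ h4, mul_one]
      refine (hN i).trans ?_
      exact zpow_le_zpow_right₀ (by exact_mod_cast hp.out.one_lt.le) (by exact_mod_cast h3)
    have h5 : ((p : ℚ_[p]) ^ (N : ℤ)) • x ∈ LS S := ⟨S.smul_mem _ hx, VB.of_int hN⟩
    have h6 := key h5
    have h7 : Submodule.span ℤ_[p] (Set.range u) ≤
        (Submodule.span ℚ_[p] (Set.range u)).restrictScalars ℤ_[p] := by
      rw [Submodule.span_le]
      exact Submodule.subset_span
    have h8 : ((p : ℚ_[p]) ^ (N : ℤ)) • x ∈ Submodule.span ℚ_[p] (Set.range u) := h7 h6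
    have h9 : ((p : ℚ_[p]) ^ (N : ℤ)) ≠ 0 := zpow_ne_zero _ p_ne
    have := Submodule.smul_mem _ ((p : ℚ_[p]) ^ (N : ℤ))⁻¹ h8
    rwa [smul_smul, inv_mul_cancel₀ h9, one_smul] at this
  have h10 := Submodule.finrank_mono key2
  have h11 := finrank_range_le_card (R := ℚ_[p]) u
  rw [Fintype.card_sum, Fintype.card_fin, Fintype.card_fin] at h11
  exact h10.trans h11

end Run7.h697
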