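import Pool.Agent.Run7.h697.VanB

/-!
# The reduced filtration
-/

set_option autoImplicit false
set_option linter.unusedVariables false
set_option linter.unusedSectionVars false

open Matrix

namespace Run7.h697

section dims

variable {F V : Type*} [Field F] [CharZero F] [AddCommGroup V] [Module F V] [FiniteDimensional F V]

/-- complementary dimensions -/
lemma Tr.finrank_Fge_add {e h f : Module.End F V} (t : Tr e h f) (i : ℤ) :
    Module.finrank F (Fge h i) + Module.finrank F (Fge h (1 - i)) = Module.finrank F V := by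
  classical
  obtain ⟨κ, hκ, m, B, hB, hf1, hf2⟩ := t.exists_chain
  set wt : (Σ k : κ, Fin (m k + 1)) → ℤ := fun x => (m x.1 : ℤ) - 2 * ((x.2 : ℕ) : ℤ) with hwt
  have hB' : ∀ x, h (B x) = (wt x : F) • B x := by
    intro x
    rw [hB, hwt]
    push_cast
    rfl
  rw [finrank_Fge B hB', finrank_Fge B hB', Module.finrank_eq_card_basis B]
  let σ : (Σ k : κ, Fin (m k + 1)) → (Σ k : κ, Fin (m k + 1)) := fun x => ⟨x.1, Fin.rev x.2⟩
  have hσ : ∀ x, wt (σ x) = - wt x := by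
    intro x
    simp only [hwt, σ, Fin.val_rev]
    have := x.2.2
    omega
  have hσσ : ∀ x, σ (σ x) = x := by
    intro x
    simp [σ]
  have h1 : (Finset.univ.filter fun x => 1 - i ≤ wt x).card =
      (Finset.univ.filter fun x => ¬ (i ≤ wt x)).card := by
    apply Finset.card_bij (fun x _ => σ x)
    · intro x hx
      simp only [Finset.mem_filter, Finset.mem_univ, true_and] at hx ⊢
      rw [hσ]; omega
    · intro x _ y _ hxy
      have := congrArg σ hxy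
      rwa [hσσ, hσσ] at this
    · intro y hy
      refine ⟨σ y, ?_, hσσ y⟩
      simp only [Finset.mem_filter, Finset.mem_univ, true_and] at hy ⊢
      rw [hσ]; omega
  rw [h1, Finset.card_filter_add_card_filter_not, Finset.card_univ]

end dims

/-- the properties of the reduced filtration -/
structure RedFil {k : Type*} [Field k] {n : ℕ} (A B : Matrix (Fin n) (Fin n) k)
    (U W : ℤ → Submodule k (Fin n → k)) : Prop where
  antiU : ∀ {i j : ℤ}, i ≤ j → U j ≤ U i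
  antiW : ∀ {i j : ℤ}, i ≤ j → W j ≤ W i
  AA : ∀ {i j : ℤ} {x y : Fin n → k}, 3 ≤ i + j → x ∈ U i → y ∈ U j → x ⬝ᵥ (A *ᵥ y) = 0
  BB : ∀ {i j : ℤ} {x y : Fin n → k}, 3 ≤ i + j → x ∈ W i → y ∈ W j → x ⬝ᵥ (B *ᵥ y) = 0
  UW : ∀ {i j : ℤ} {x y : Fin n → k}, 1 ≤ i + j → x ∈ U i → y ∈ W j → x ⬝ᵥ y = 0
  stepA : ∀ {i : ℤ} {x : Fin n → k}, x ∈ U i → A *ᵥ x ∈ W (i - 2)
  stepB : ∀ {i : ℤ} {x : Fin n → k}, x ∈ W i → B *ᵥ x ∈ U (i - 2)

variable {p : ℕ} [hp : Fact p.Prime] {n : ℕ}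

lemma om_formula (x y : Vc p n) : om x y = (fun i => x (Sum.inr i)) ⬝ᵥ (fun i => y (Sum.inl i)) -
    (fun i => x (Sum.inl i)) ⬝ᵥ (fun i => y (Sum.inr i)) := by
  have h1 : ∀ i, (J (Fin n) ℚ_[p] *ᵥ y) (Sum.inl i) = - y (Sum.inr i) := by
    intro i
    rw [J, Matrix.mulVec, dotProduct, Fintype.sum_sum_type]
    simp [Matrix.one_apply]
  have h2 : ∀ i, (J (Fin n) ℚ_[p] *ᵥ y) (Sum.inr i) = y (Sum.inl i) := by
    intro i
    rw [J, Matrix.mulVec, dotProduct, Fintype.sum_sum_type]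
    simp [Matrix.one_apply]
  unfold om
  rw [dotProduct, Fintype.sum_sum_type]
  simp only [h1, h2, dotProduct, mul_neg, Finset.sum_neg_distrib]
  ring

lemma red_dot {x y : Fin n → ℚ_[p]} (hx : ∀ i, ‖x i‖ ≤ 1) (hy : ∀ i, ‖y i‖ ≤ 1) :
    ‖x ⬝ᵥ y‖ ≤ 1 ∧ red (x ⬝ᵥ y) = (fun i => red (x i)) ⬝ᵥ (fun i => red (y i)) := by
  have h1 : ∀ i, ‖x i * y i‖ ≤ 1 := fun i => by
    rw [norm_mul]; exact mul_le_one₀ (hx i) (norm_nonneg _) (hy i)
  refine ⟨norm_sum_le_of _ _ zero_le_one fun i _ => h1 i, ?_⟩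
  rw [dotProduct, red_sum _ _ (fun i _ => h1 i), dotProduct]
  exact Finset.sum_congr rfl fun i _ => red_mul (hx i) (hy i)

lemma red_mulVec {M : Matrix (Fin n) (Fin n) ℚ_[p]} (hM : MInt M) {y : Fin n → ℚ_[p]}
    (hy : ∀ i, ‖y i‖ ≤ 1) : (∀ i, ‖(M *ᵥ y) i‖ ≤ 1) ∧
      (fun i => red ((M *ᵥ y) i)) = mred M *ᵥ (fun i => red (y i)) := by
  constructor
  · intro i; exact (red_dot (hM i) hy).1
  · ext i; exact (red_dot (hM i) hy).2

lemma red_form {M : Matrix (Fin n) (Fin n) ℚ_[p]} (hM : MInt M) {x y : Fin n → ℚ_[p]}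
    (hx : ∀ i, ‖x i‖ ≤ 1) (hy : ∀ i, ‖y i‖ ≤ 1) : ‖x ⬝ᵥ (M *ᵥ y)‖ ≤ 1 ∧
      red (x ⬝ᵥ (M *ᵥ y)) = (fun i => red (x i)) ⬝ᵥ (mred M *ᵥ (fun i => red (y i))) := by
  obtain ⟨h1, h2⟩ := red_mulVec hM hy
  obtain ⟨h3, h4⟩ := red_dot hx h1
  exact ⟨h3, by rw [h4, h2]⟩

/-- orthogonality of reductions -/
lemma orth_red {S T : Submodule ℚ_[p] (Vc p n)} (h : ∀ s ∈ S, ∀ t ∈ T, om s t = 0)
    {x y : Fin n → ZMod p} (hx : x ∈ rU S) (hy : y ∈ rW T) : x ⬝ᵥ y = 0 := by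
  obtain ⟨v, hv, hvb, hvx⟩ := hx
  obtain ⟨w, hw, hwb, hwy⟩ := hy
  have h1 := h v hv w hw
  rw [om_formula] at h1
  obtain ⟨hw1, hw2⟩ := VB_neg_one_iff.1 hwb
  obtain ⟨a1, a2⟩ := red_dot (x := fun i => v (Sum.inr i)) (y := fun i => w (Sum.inl i))
    (fun i => hvb.int _) (fun i => (hw1 i).le)
  obtain ⟨b1, b2⟩ := red_dot (x := fun i => v (Sum.inl i)) (y := fun i => w (Sum.inr i))
    (fun i => hvb.int _) hw2
  have e1 : x = fun i => red (v (Sum.inl i)) := by ext i; rw [hvx]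
  have e2 : y = fun i => red (w (Sum.inr i)) := by ext i; rw [hwy]
  rw [e1, e2, ← b2, ← sub_eq_zero.1 h1, a2]
  refine Finset.sum_eq_zero fun i _ => ?_
  change red (v (Sum.inr i)) * red (w (Sum.inl i)) = 0
  rw [red_eq_zero_of_lt (hw1 i), mul_zero]

lemma norm_p_mul_lt {x : ℚ_[p]} (hx : ‖x‖ ≤ 1) : ‖(p : ℚ_[p]) * x‖ < 1 := by
  rw [norm_mul]
  have h1 : ‖(p : ℚ_[p])‖ < 1 := Padic.norm_p_lt_one
  calc ‖(p : ℚ_[p])‖ * ‖x‖ ≤ ‖(p : ℚ_[p])‖ * 1 := mul_le_mul_of_nonneg_left hx (norm_nonneg _)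
    _ < 1 := by rw [mul_one]; exact h1

lemma norm_sub_lt {x y : ℚ_[p]} (hx : ‖x‖ < 1) (hy : ‖y‖ < 1) : ‖x - y‖ < 1 := by
  rw [sub_eq_add_neg]
  exact lt_of_le_of_lt (Padic.nonarchimedean _ _) (max_lt hx (by rwa [norm_neg]))

lemma norm_add_lt {x y : ℚ_[p]} (hx : ‖x‖ < 1) (hy : ‖y‖ < 1) : ‖x + y‖ < 1 :=
  lt_of_le_of_lt (Padic.nonarchimedean _ _) (max_lt hx hy)

lemma norm_lt_of_two (hp2 : p ≠ 2) {x : ℚ_[p]} (h : ‖2 * x‖ < 1) : ‖x‖ < 1 := by
  have h1 : ‖(2 : ℚ_[p])‖ = 1 := by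
    have h : ‖((2 : ℕ) : ℚ_[p])‖ = 1 := by
      rw [Padic.norm_natCast_eq_one_iff]
      exact (Nat.coprime_primes hp.out Nat.prime_two).2 hp2
    exact_mod_cast h
  rwa [norm_mul, h1, one_mul] at h

namespace Datum

variable (D : Datum p n)

lemma om_G (a b : Vc p n) : om b (D.G *ᵥ a) =
    (fun i => b (Sum.inr i)) ⬝ᵥ (D.B *ᵥ (fun i => a (Sum.inr i))) -
    (p : ℚ_[p])⁻¹ * ((fun i => b (Sum.inl i)) ⬝ᵥ (D.A *ᵥ (fun i => a (Sum.inl i)))) := by
  have h1 : (fun i => (D.G *ᵥ a) (Sum.inl i)) = D.B *ᵥ (fun i => a (Sum.inr i)) := by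
    ext i
    rw [G, Matrix.mulVec, dotProduct, Fintype.sum_sum_type]
    simp [Matrix.mulVec, dotProduct]
  have h2 : (fun i => (D.G *ᵥ a) (Sum.inr i)) = (p : ℚ_[p])⁻¹ • (D.A *ᵥ (fun i => a (Sum.inl i))) := by
    ext i
    rw [G, Matrix.mulVec, dotProduct, Fintype.sum_sum_type]
    simp [Matrix.mulVec, dotProduct, Finset.mul_sum, mul_assoc]
  rw [om_formula, h1, h2, dotProduct_smul, smul_eq_mul]

/-- **the reduced filtration** -/
theorem redFil (hp2 : p ≠ 2) {X h e : Mt p n} (hh : st h = -h)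
    (t : Tr (op e) (op h) (op X))
    (H : ∀ Z : Mt p n, Z ∈ grge h 3 → Z * Z = 0 → Bd (-1) Z → ‖(D.G * Z).trace‖ < 1) :
    RedFil (mred D.A) (mred D.B) (fun i => rU (Fge (op h) i)) (fun i => rW (Fge (op h) i)) := by
  have hAA : ∀ {i j : ℤ} {x y : Fin n → ZMod p}, 3 ≤ i + j → x ∈ rU (Fge (op h) i) →
      y ∈ rU (Fge (op h) j) → x ⬝ᵥ (mred D.A *ᵥ y) = 0 := by
    rintro i j x y hij ⟨b, hb, hbb, hbx⟩ ⟨a, ha, hab, hay⟩
    have h1 : om ((p : ℚ_[p]) • b) a = 0 := by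
      rw [om_smul_left, om_Fge hh (by omega) hb ha, mul_zero]
    have h1' : om a ((p : ℚ_[p]) • b) = 0 := by rw [om_skew, h1, neg_zero]
    have h2 := H (ZZ a ((p : ℚ_[p]) • b)) (grge_anti h (by omega)
      (ZZ_mem_grge hh ha (Submodule.smul_mem _ _ hb))) (ZZ_sq h1') (by
        have hb2 : VB (-2) ((p : ℚ_[p]) • b) := by
          intro k
          rw [Pi.smul_apply, smul_eq_mul, norm_mul]
          have h5 : ‖(p : ℚ_[p])‖ = sq p ^ (-2 : ℤ) := by simpa using norm_p_zpow (p := p) 1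
          rw [h5]
          calc sq p ^ (-2 : ℤ) * ‖b k‖ ≤ sq p ^ (-2 : ℤ) * sq p ^ (0 + dd k) :=
                mul_le_mul_of_nonneg_left (hbb k) (sq_zpow_pos p _).le
            _ = _ := by rw [← zpow_add₀ (sq_ne p)]; congr 1; ring
        exact (bd_ZZ hab hb2).mono (by norm_num))
    rw [trace_ZZ D.st_G, om_smul_left] at h2
    have h3 := norm_lt_of_two hp2 h2
    rw [D.om_G, mul_sub, ← mul_assoc, mul_inv_cancel₀ p_ne, one_mul] at h3
    obtain ⟨c1, c2⟩ := red_form D.hA (x := fun i => b (Sum.inl i)) (y := fun i => a (Sum.inl i))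
      (fun i => hbb.int _) (fun i => hab.int _)
    obtain ⟨d1, -⟩ := red_form D.hB (x := fun i => b (Sum.inr i)) (y := fun i => a (Sum.inr i))
      (fun i => hbb.int _) (fun i => hab.int _)
    have h4 := norm_sub_lt (norm_p_mul_lt d1) h3
    rw [sub_sub_cancel] at h4
    have e1 : x = fun i => red (b (Sum.inl i)) := by ext i; rw [hbx]
    have e2 : y = fun i => red (a (Sum.inl i)) := by ext i; rw [hay]
    rw [e1, e2, ← c2]
    exact red_eq_zero_of_lt h4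
  have hBB : ∀ {i j : ℤ} {x y : Fin n → ZMod p}, 3 ≤ i + j → x ∈ rW (Fge (op h) i) →
      y ∈ rW (Fge (op h) j) → x ⬝ᵥ (mred D.B *ᵥ y) = 0 := by
    rintro i j x y hij ⟨b, hb, hbb, hbx⟩ ⟨a, ha, hab, hay⟩
    have h1 : om b a = 0 := om_Fge hh (by omega) hb ha
    have h1' : om a b = 0 := by rw [om_skew, h1, neg_zero]
    have h2 := H (ZZ a b) (grge_anti h (by omega) (ZZ_mem_grge hh ha hb)) (ZZ_sq h1')
      ((bd_ZZ hab hbb).mono (by norm_num))
    rw [trace_ZZ D.st_G] at h2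
    have h3 := norm_lt_of_two hp2 h2
    rw [D.om_G] at h3
    obtain ⟨hb1, hb2⟩ := VB_neg_one_iff.1 hbb
    obtain ⟨ha1, ha2⟩ := VB_neg_one_iff.1 hab
    obtain ⟨c1, c2⟩ := red_form D.hB (x := fun i => b (Sum.inr i)) (y := fun i => a (Sum.inr i))
      hb2 ha2
    -- the other term
    obtain ⟨d1, -⟩ := red_form D.hA (x := fun i => (p : ℚ_[p])⁻¹ * b (Sum.inl i))
      (y := fun i => (p : ℚ_[p])⁻¹ * a (Sum.inl i))
      (fun i => (norm_inv_p_mul _).2 (hb1 i)) (fun i => (norm_inv_p_mul _).2 (ha1 i))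
    have e0 : (p : ℚ_[p])⁻¹ * ((fun i => b (Sum.inl i)) ⬝ᵥ (D.A *ᵥ (fun i => a (Sum.inl i)))) =
        (p : ℚ_[p]) * ((fun i => (p : ℚ_[p])⁻¹ * b (Sum.inl i)) ⬝ᵥ
          (D.A *ᵥ (fun i => (p : ℚ_[p])⁻¹ * a (Sum.inl i)))) := by
      have u1 : (fun i => (p : ℚ_[p])⁻¹ * b (Sum.inl i)) = (p : ℚ_[p])⁻¹ • (fun i => b (Sum.inl i)) := rfl
      have u2 : (fun i => (p : ℚ_[p])⁻¹ * a (Sum.inl i)) = (p : ℚ_[p])⁻¹ • (fun i => a (Sum.inl i)) := rfl
      rw [u1, u2, mulVec_smul, smul_dotProduct, dotProduct_smul, smul_eq_mul, smul_eq_mul,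
        ← mul_assoc (p : ℚ_[p]), mul_inv_cancel₀ p_ne, one_mul]
    rw [e0] at h3
    have h4 := norm_add_lt h3 (norm_p_mul_lt d1)
    rw [sub_add_cancel] at h4
    have e1 : x = fun i => red (b (Sum.inr i)) := by ext i; rw [hbx]
    have e2 : y = fun i => red (a (Sum.inr i)) := by ext i; rw [hay]
    rw [e1, e2, ← c2]
    exact red_eq_zero_of_lt h4
  have hUW : ∀ {i j : ℤ} {x y : Fin n → ZMod p}, 1 ≤ i + j → x ∈ rU (Fge (op h) i) →
      y ∈ rW (Fge (op h) j) → x ⬝ᵥ y = 0 := by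
    intro i j x y hij hx hy
    exact orth_red (fun s hs t ht => om_Fge hh hij hs ht) hx hy
  -- dimensions
  have hdim : ∀ i : ℤ, Module.finrank (ZMod p) (rU (Fge (op h) i)) +
      Module.finrank (ZMod p) (rW (Fge (op h) (1 - i))) = n := by
    intro i
    have a1 := orth_le (U := rU (Fge (op h) i)) (W := rW (Fge (op h) (1 - i)))
      (fun x hx y hy => hUW (by omega) hx hy)
    have a2 := orth_le (U := rU (Fge (op h) (1 - i))) (W := rW (Fge (op h) i))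
      (fun x hx y hy => hUW (by omega) hx hy)
    have a3 := finrank_le (Fge (op h) i)
    have a4 := finrank_le (Fge (op h) (1 - i))
    have a5 := t.finrank_Fge_add i
    rw [Module.finrank_fintype_fun_eq_card, Fintype.card_sum, Fintype.card_fin] at a5
    omega
  have hdU : ∀ {i : ℤ} {y : Fin n → ZMod p}, (∀ x ∈ rU (Fge (op h) i), x ⬝ᵥ y = 0) →
      y ∈ rW (Fge (op h) (1 - i)) := by
    intro i y hy
    exact mem_of_orth (fun x hx y hy => hUW (by omega) hx hy) (hdim i).ge hy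
  have hdW : ∀ {i : ℤ} {x : Fin n → ZMod p}, (∀ y ∈ rW (Fge (op h) i), y ⬝ᵥ x = 0) →
      x ∈ rU (Fge (op h) (1 - i)) := by
    intro i x hx
    have := hdim (1 - i)
    rw [sub_sub_cancel] at this
    exact mem_of_orth (U := rW (Fge (op h) i)) (W := rU (Fge (op h) (1 - i)))
      (fun x hx y hy => by rw [dotProduct_comm]; exact hUW (by omega) hy hx)
      (by rw [add_comm]; exact this.ge) hx
  exact
    { antiU := by
        rintro i j hij x ⟨v, hv, h1, h2⟩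
        exact ⟨v, Fge_anti _ hij hv, h1, h2⟩
      antiW := by
        rintro i j hij x ⟨v, hv, h1, h2⟩
        exact ⟨v, Fge_anti _ hij hv, h1, h2⟩
      AA := hAA
      BB := hBB
      UW := hUW
      stepA := by
        intro i x hx
        have : i - 2 = 1 - (3 - i) := by ring
        rw [this]
        exact hdU fun x' hx' => hAA (by omega) hx' hx
      stepB := by
        intro i x hx
        have : i - 2 = 1 - (3 - i) := by ring
        rw [this]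
        exact hdW fun x' hx' => hBB (by omega) hx' hx }

end Datum

end Run7.h697
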