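import Pool.Agent.Run7.h697.VanC
import Pool.Agent.Run7.h697.Conc2

/-!
# The contradiction in the reduced filtration
-/

set_option autoImplicit false
set_option linter.unusedVariables false

open Matrix

namespace Run7.h697

variable {U W : ℤ → Submodule (ZMod 3) (Fin 8 → ZMod 3)}

lemma A3_sq : A3 * A3 = 1 := by decide

lemma A3_A3 (v : Fin 8 → ZMod 3) : A3 *ᵥ (A3 *ᵥ v) = v := by
  rw [Matrix.mulVec_mulVec, A3_sq, Matrix.one_mulVec]

lemma dot_A3 (u v : Fin 8 → ZMod 3) : (A3 *ᵥ u) ⬝ᵥ v = u ⬝ᵥ (A3 *ᵥ v) := by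
  rw [← Matrix.vecMul_transpose, A3_symm, ← Matrix.dotProduct_mulVec]

lemma BA (v : Fin 8 → ZMod 3) : B3 *ᵥ (A3 *ᵥ v) = T3_1 *ᵥ v := by
  rw [Matrix.mulVec_mulVec, T3_one]

lemma T_step (j : ℕ) (v : Fin 8 → ZMod 3) : (T3_1 ^ (j + 1)) *ᵥ v = T3_1 *ᵥ ((T3_1 ^ j) *ᵥ v) := by
  rw [Matrix.mulVec_mulVec, ← pow_succ']

lemma U_chain (R : RedFil A3 B3 U W) {i : ℤ} {v : Fin 8 → ZMod 3} (hv : v ∈ U i) (j : ℕ) :
    (T3_1 ^ j) *ᵥ v ∈ U (i - 4 * j) := by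
  induction j with
  | zero => simpa using hv
  | succ j ih =>
    rw [T_step, ← BA]
    have := R.stepB (R.stepA ih)
    rw [show i - 4 * (j : ℤ) - 2 - 2 = i - 4 * ((j + 1 : ℕ) : ℤ) by push_cast; ring] at this
    exact this

lemma W_chain (R : RedFil A3 B3 U W) {i : ℤ} {v : Fin 8 → ZMod 3} (hv : A3 *ᵥ v ∈ W i) (j : ℕ) :
    A3 *ᵥ ((T3_1 ^ j) *ᵥ v) ∈ W (i - 4 * j) := by
  induction j with
  | zero => simpa using hv
  | succ j ih =>
    rw [T_step, ← BA]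
    have := R.stepA (R.stepB ih)
    rw [show i - 4 * (j : ℤ) - 2 - 2 = i - 4 * ((j + 1 : ℕ) : ℤ) by push_cast; ring] at this
    exact this

lemma sv_U (R : RedFil A3 B3 U W) {i : ℤ} {v : Fin 8 → ZMod 3} (hv : v ∈ U i) {j : ℕ}
    (hj : 3 ≤ i + (i - 4 * j)) : sv v j = 0 :=
  R.AA hj hv (U_chain R hv j)

lemma sv_W (R : RedFil A3 B3 U W) {i : ℤ} {v : Fin 8 → ZMod 3} (hv : A3 *ᵥ v ∈ W i) {j : ℕ}
    (hj : 3 ≤ i + (i - 4 * j)) : sv v (j + 1) = 0 := by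
  have h := R.BB hj hv (W_chain R hv j)
  rw [BA, ← T_step, dot_A3] at h
  exact h

theorem top_U (R : RedFil A3 B3 U W) {v : Fin 8 → ZMod 3} (hv : v ∈ U 12) : v = 0 := by
  rcases R1 v (fun j hj => sv_U R hv (by omega)) with h | ⟨ε, hε, h⟩
  · exact h
  · exfalso
    have h5 := h 5 (by norm_num)
    rw [sv_U R hv (by norm_num)] at h5
    apply hε
    have : (sg1 5 : ZMod 3) = 1 := by decide
    rw [this, mul_one] at h5
    exact h5.symm

theorem top_W (R : RedFil A3 B3 U W) {w : Fin 8 → ZMod 3} (hw : w ∈ W 12) : w = 0 := by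
  obtain ⟨v, rfl⟩ : ∃ v, w = A3 *ᵥ v := ⟨A3 *ᵥ w, (A3_A3 w).symm⟩
  rcases R2 v (fun j hj hj1 => by
    obtain ⟨k, rfl⟩ : ∃ k, j = k + 1 := ⟨j - 1, by omega⟩
    exact sv_W R hw (by omega)) with h | ⟨ε, hε, h⟩
  · rw [h, Matrix.mulVec_zero]
  · exfalso
    have h6 := h 6 (by norm_num)
    rw [show (6 : ℕ) = 5 + 1 from rfl, sv_W R hw (by norm_num)] at h6
    apply hε
    have : (sg2 (5 + 1) : ZMod 3) = 2 := by decide
    rw [this, zero_eq_mul] at h6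
    exact h6.resolve_right (by decide)

lemma finrank_le_of {m : ℕ} {S : Submodule (ZMod 3) (Fin 8 → ZMod 3)}
    (g : Fin m → Fin 8 → ZMod 3) (h : ∀ x ∈ S, x ∈ Submodule.span (ZMod 3) (Set.range g)) :
    Module.finrank (ZMod 3) S ≤ m := by
  have h1 := Submodule.finrank_mono (show S ≤ Submodule.span (ZMod 3) (Set.range g) from h)
  have h2 := finrank_range_le_card (R := ZMod 3) g
  rw [Fintype.card_fin] at h2
  exact h1.trans h2

theorem second_U (R : RedFil A3 B3 U W) {v : Fin 8 → ZMod 3} (hv : v ∈ U 11) (hv0 : v ≠ 0) :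
    Module.finrank (ZMod 3) (U 3) ≤ 3 ∧ Module.finrank (ZMod 3) (W 3) ≤ 2 := by
  obtain ⟨ε, hε, h⟩ := (R1 v (fun j hj => sv_U R hv (by omega))).resolve_left hv0
  constructor
  · apply finrank_le_of ![v, T3_1 *ᵥ v, (T3_1 ^ 2) *ᵥ v]
    intro u hu
    obtain ⟨c, rfl⟩ := exists_kc hv0 u
    obtain ⟨c3, c4, c5, c6, c7⟩ := Ca hε h
      (R.AA (by norm_num) hu (U_chain R hv 0)) (R.AA (by norm_num) hu (U_chain R hv 1))
      (R.AA (by norm_num) hu (U_chain R hv 2)) (by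
        rw [pow_zero, Matrix.one_mulVec]; exact R.AA (by norm_num) hu hu)
    have e : kc c v = c 0 • v + c 1 • (T3_1 *ᵥ v) + c 2 • ((T3_1 ^ 2) *ᵥ v) := by
      unfold kc
      rw [Fin.sum_univ_eight, c3, c4, c5, c6, c7]
      simp
    rw [e]
    refine Submodule.add_mem _ (Submodule.add_mem _ ?_ ?_) ?_
    · exact Submodule.smul_mem _ _ (Submodule.subset_span ⟨0, rfl⟩)
    · exact Submodule.smul_mem _ _ (Submodule.subset_span ⟨1, rfl⟩)
    · exact Submodule.smul_mem _ _ (Submodule.subset_span ⟨2, rfl⟩)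
  · apply finrank_le_of ![A3 *ᵥ v, A3 *ᵥ (T3_1 *ᵥ v)]
    intro w hw
    obtain ⟨u, rfl⟩ : ∃ u, w = A3 *ᵥ u := ⟨A3 *ᵥ w, (A3_A3 w).symm⟩
    obtain ⟨c, rfl⟩ := exists_kc hv0 u
    have key : ∀ j : ℕ, 1 ≤ 3 + (11 - 4 * (j : ℤ)) →
        kc c v ⬝ᵥ (A3 *ᵥ ((T3_1 ^ j) *ᵥ v)) = 0 := by
      intro j hj
      rw [← dot_A3, dotProduct_comm]
      exact R.UW (by omega) (U_chain R hv j) hw
    obtain ⟨c2, c3, c4, c5, c6, c7⟩ := Cb hε h (key 0 (by norm_num)) (key 1 (by norm_num))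
      (key 2 (by norm_num)) (key 3 (by norm_num)) (by
        rw [pow_one, ← BA, ← dot_A3]
        exact R.BB (by norm_num) hw hw)
    have e : kc c v = c 0 • v + c 1 • (T3_1 *ᵥ v) := by
      unfold kc
      rw [Fin.sum_univ_eight, c2, c3, c4, c5, c6, c7]
      simp
    rw [e, Matrix.mulVec_add, Matrix.mulVec_smul, Matrix.mulVec_smul]
    refine Submodule.add_mem _ ?_ ?_
    · exact Submodule.smul_mem _ _ (Submodule.subset_span ⟨0, rfl⟩)
    · exact Submodule.smul_mem _ _ (Submodule.subset_span ⟨1, rfl⟩)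

theorem second_W (R : RedFil A3 B3 U W) {w : Fin 8 → ZMod 3} (hw : w ∈ W 11) (hw0 : w ≠ 0) :
    Module.finrank (ZMod 3) (U 3) ≤ 2 ∧ Module.finrank (ZMod 3) (W 3) ≤ 3 := by
  obtain ⟨v, rfl⟩ : ∃ v, w = A3 *ᵥ v := ⟨A3 *ᵥ w, (A3_A3 w).symm⟩
  have hv0 : v ≠ 0 := by
    rintro rfl
    exact hw0 (Matrix.mulVec_zero _)
  obtain ⟨ε, hε, h⟩ := (R2 v (fun j hj hj1 => by
    obtain ⟨k, rfl⟩ : ∃ k, j = k + 1 := ⟨j - 1, by omega⟩
    exact sv_W R hw (by omega))).resolve_left hv0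
  constructor
  · apply finrank_le_of ![T3_1 *ᵥ v, (T3_1 ^ 2) *ᵥ v]
    intro u hu
    obtain ⟨c, rfl⟩ := exists_kc hv0 u
    have key : ∀ j : ℕ, 1 ≤ 3 + (11 - 4 * (j : ℤ)) →
        kc c v ⬝ᵥ (A3 *ᵥ ((T3_1 ^ j) *ᵥ v)) = 0 := by
      intro j hj
      exact R.UW hj hu (W_chain R hw j)
    obtain ⟨c0, c3, c4, c5, c6, c7⟩ := Cc hε h (key 0 (by norm_num)) (key 1 (by norm_num))
      (key 2 (by norm_num)) (key 3 (by norm_num)) (by
        rw [pow_zero, Matrix.one_mulVec]; exact R.AA (by norm_num) hu hu)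
    have e : kc c v = c 1 • (T3_1 *ᵥ v) + c 2 • ((T3_1 ^ 2) *ᵥ v) := by
      unfold kc
      rw [Fin.sum_univ_eight, c0, c3, c4, c5, c6, c7]
      simp
    rw [e]
    refine Submodule.add_mem _ ?_ ?_
    · exact Submodule.smul_mem _ _ (Submodule.subset_span ⟨0, rfl⟩)
    · exact Submodule.smul_mem _ _ (Submodule.subset_span ⟨1, rfl⟩)
  · apply finrank_le_of ![A3 *ᵥ v, A3 *ᵥ (T3_1 *ᵥ v), A3 *ᵥ ((T3_1 ^ 2) *ᵥ v)]
    intro w' hw'
    obtain ⟨u, rfl⟩ : ∃ u, w' = A3 *ᵥ u := ⟨A3 *ᵥ w', (A3_A3 w').symm⟩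
    obtain ⟨c, rfl⟩ := exists_kc hv0 u
    have key : ∀ j : ℕ, 3 ≤ 3 + (11 - 4 * (j : ℤ)) →
        kc c v ⬝ᵥ (A3 *ᵥ ((T3_1 ^ (j + 1)) *ᵥ v)) = 0 := by
      intro j hj
      have := R.BB hj hw' (W_chain R hw j)
      rwa [BA, ← T_step, dot_A3] at this
    obtain ⟨c3, c4, c5, c6, c7⟩ := Cd hε h (key 0 (by norm_num)) (key 1 (by norm_num))
      (key 2 (by norm_num)) (by
        rw [pow_one, ← BA, ← dot_A3]
        exact R.BB (by norm_num) hw' hw')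
    have e : kc c v = c 0 • v + c 1 • (T3_1 *ᵥ v) + c 2 • ((T3_1 ^ 2) *ᵥ v) := by
      unfold kc
      rw [Fin.sum_univ_eight, c3, c4, c5, c6, c7]
      simp
    rw [e, Matrix.mulVec_add, Matrix.mulVec_add, Matrix.mulVec_smul, Matrix.mulVec_smul,
      Matrix.mulVec_smul]
    refine Submodule.add_mem _ (Submodule.add_mem _ ?_ ?_) ?_
    · exact Submodule.smul_mem _ _ (Submodule.subset_span ⟨0, rfl⟩)
    · exact Submodule.smul_mem _ _ (Submodule.subset_span ⟨1, rfl⟩)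
    · exact Submodule.smul_mem _ _ (Submodule.subset_span ⟨2, rfl⟩)

/-- the dimension of the second layer -/
theorem second (R : RedFil A3 B3 U W) (h : 0 < Module.finrank (ZMod 3) (U 11) +
    Module.finrank (ZMod 3) (W 11)) :
    Module.finrank (ZMod 3) (U 3) + Module.finrank (ZMod 3) (W 3) ≤ 5 := by
  by_cases h1 : U 11 = ⊥
  · by_cases h2 : W 11 = ⊥
    · rw [h1, h2] at h
      simp at h
    · obtain ⟨w, hw, hw0⟩ := Submodule.exists_mem_ne_zero_of_ne_bot h2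
      have := second_W R hw hw0
      omega
  · obtain ⟨v, hv, hv0⟩ := Submodule.exists_mem_ne_zero_of_ne_bot h1
    have := second_U R hv hv0
    omega

theorem top (R : RedFil A3 B3 U W) : Module.finrank (ZMod 3) (U 12) +
    Module.finrank (ZMod 3) (W 12) = 0 := by
  have h1 : U 12 = ⊥ := by
    rw [Submodule.eq_bot_iff]; exact fun v hv => top_U R hv
  have h2 : W 12 = ⊥ := by
    rw [Submodule.eq_bot_iff]; exact fun v hv => top_W R hv
  rw [h1, h2]; simp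

end Run7.h697
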