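import Pool.Agent.Run7.h697.Defs
import Pool.Agent.Run7.h697.Ind
import Pool.Agent.Run7.h697.Rank

/-!
# Square-zero elements of the symplectic Lie algebra
-/

set_option autoImplicit false
set_option linter.unusedVariables false

open Matrix

namespace Run7.h697

variable {p : ℕ} [hp : Fact p.Prime] {n : ℕ}

/-- vectors -/
abbrev Vc (p n : ℕ) [Fact p.Prime] := Fin n ⊕ Fin n → ℚ_[p]

/-- the symplectic form -/
noncomputable def om (x y : Vc p n) : ℚ_[p] := x ⬝ᵥ (J (Fin n) ℚ_[p] *ᵥ y)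

/-- the elements `x ↦ a⟨b,x⟩ + b⟨a,x⟩` -/
noncomputable def ZZ (a b : Vc p n) : Mt p n :=
  (vecMulVec a b + vecMulVec b a) * J (Fin n) ℚ_[p]

lemma om_skew (x y : Vc p n) : om y x = -om x y := by
  unfold om
  rw [dotProduct_mulVec, ← mulVec_transpose, J_transpose, neg_mulVec, neg_dotProduct,
    dotProduct_comm]

lemma om_self (x : Vc p n) : om x x = 0 := by
  have h := om_skew x x
  have h2 : (2 : ℚ_[p]) * om x x = 0 := by rw [two_mul]; nth_rewrite 1 [h]; ring
  exact (mul_eq_zero.1 h2).resolve_left two_ne_zero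

lemma om_add_left (x y z : Vc p n) : om (x + y) z = om x z + om y z := by
  unfold om; rw [add_dotProduct]

lemma om_smul_left (c : ℚ_[p]) (x z : Vc p n) : om (c • x) z = c * om x z := by
  unfold om; rw [smul_dotProduct, smul_eq_mul]

lemma om_add_right (x y z : Vc p n) : om z (x + y) = om z x + om z y := by
  unfold om; rw [mulVec_add, dotProduct_add]

lemma om_smul_right (c : ℚ_[p]) (x z : Vc p n) : om z (c • x) = c * om z x := by
  unfold om; rw [mulVec_smul, dotProduct_smul, smul_eq_mul]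

lemma ZZ_mulVec (a b x : Vc p n) : ZZ a b *ᵥ x = om b x • a + om a x • b := by
  unfold ZZ om
  rw [← mulVec_mulVec, add_mulVec, vecMulVec_mulVec, vecMulVec_mulVec]
  ext i
  simp [mul_comm]

lemma ZZ_comm (a b : Vc p n) : ZZ a b = ZZ b a := by
  unfold ZZ; rw [add_comm]

lemma ext_mulVec {m m' : Mt p n} (h : ∀ x : Vc p n, m *ᵥ x = m' *ᵥ x) : m = m' := by
  ext i j
  have := congrFun (h (Pi.single j 1)) i
  simpa using this

lemma st_iff {Z : Mt p n} : st Z = -Z ↔ ∀ x y : Vc p n, om (Z *ᵥ x) y = - om x (Z *ᵥ y) := by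
  have key : ∀ x y : Vc p n, om (Z *ᵥ x) y = om x (st Z *ᵥ y) := by
    intro x y
    unfold om st
    rw [← vecMul_transpose, ← dotProduct_mulVec, mulVec_mulVec, mulVec_mulVec, Matrix.mul_neg]
    congr 2
    calc Zᵀ * J (Fin n) ℚ_[p] = -((-1 : Mt p n) * Zᵀ * J (Fin n) ℚ_[p]) := by
          simp
      _ = -(J (Fin n) ℚ_[p] * J (Fin n) ℚ_[p] * Zᵀ * J (Fin n) ℚ_[p]) := by rw [JJ]
      _ = _ := by simp only [Matrix.mul_assoc]
  constructor
  · intro h x y
    rw [key, h, neg_mulVec]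
    unfold om
    rw [mulVec_neg, dotProduct_neg]
  · intro h
    have h1 : ∀ x y : Vc p n, om x (st Z *ᵥ y) = om x ((-Z) *ᵥ y) := by
      intro x y
      rw [← key, h, neg_mulVec]
      unfold om
      rw [mulVec_neg, dotProduct_neg]
    have h2 : J (Fin n) ℚ_[p] * st Z = J (Fin n) ℚ_[p] * (-Z) := by
      ext i j
      have := h1 (Pi.single i 1) (Pi.single j 1)
      unfold om at this
      rw [mulVec_mulVec, mulVec_mulVec] at this
      simpa using this
    have h3 := congrArg (fun m => J (Fin n) ℚ_[p] * m) h2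
    simp only [← Matrix.mul_assoc, JJ, Matrix.neg_mul, Matrix.one_mul] at h3
    exact neg_injective h3

lemma mem_spLie_iff {Z : Mt p n} : Z ∈ spLie p n ↔ st Z = -Z := by
  have h0 : Z ∈ spLie p n ↔ Zᵀ * J (Fin n) ℚ_[p] + J (Fin n) ℚ_[p] * Z = 0 := Iff.rfl
  rw [h0, st]
  constructor
  · intro h
    have h1 : Zᵀ * J (Fin n) ℚ_[p] = -(J (Fin n) ℚ_[p] * Z) := eq_neg_of_add_eq_zero_left h
    rw [Matrix.mul_assoc, h1, Matrix.mul_neg, ← Matrix.mul_assoc, JJ]
    simp
  · intro h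
    have h1 : J (Fin n) ℚ_[p] * Zᵀ * J (Fin n) ℚ_[p] = Z := neg_injective h
    have h2 : J (Fin n) ℚ_[p] * Z = -(Zᵀ * J (Fin n) ℚ_[p]) := by
      conv_lhs => rw [← h1]
      calc J (Fin n) ℚ_[p] * (J (Fin n) ℚ_[p] * Zᵀ * J (Fin n) ℚ_[p])
          = (J (Fin n) ℚ_[p] * J (Fin n) ℚ_[p]) * Zᵀ * J (Fin n) ℚ_[p] := by
            simp only [Matrix.mul_assoc]
        _ = _ := by rw [JJ]; simp
    rw [h2]; abel

lemma st_ZZ (a b : Vc p n) : st (ZZ a b) = -ZZ a b := by
  rw [st_iff]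
  intro x y
  rw [ZZ_mulVec, ZZ_mulVec, om_add_left, om_smul_left, om_smul_left, om_add_right, om_smul_right,
    om_smul_right, om_skew b x, om_skew a x]
  ring

lemma ZZ_sq {a b : Vc p n} (h : om a b = 0) : ZZ a b * ZZ a b = 0 := by
  apply ext_mulVec
  intro x
  rw [← mulVec_mulVec, ZZ_mulVec, ZZ_mulVec, om_add_right, om_smul_right, om_smul_right,
    om_add_right, om_smul_right, om_smul_right, om_self, om_self, om_skew a b, h, zero_mulVec]
  simp

lemma trace_ZZ {G : Mt p n} (hG : st G = -G) (a b : Vc p n) :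
    (G * ZZ a b).trace = 2 * om b (G *ᵥ a) := by
  have h1 : ∀ a b : Vc p n, (G * (vecMulVec a b * J (Fin n) ℚ_[p])).trace = om b (G *ᵥ a) := by
    intro a b
    rw [← Matrix.mul_assoc, Matrix.trace_mul_comm, mul_vecMulVec, mul_vecMulVec, trace_vecMulVec,
      om, dotProduct_comm]
  unfold ZZ
  rw [Matrix.add_mul, Matrix.mul_add, Matrix.trace_add, h1, h1]
  have h2 := (st_iff.1 hG) a b
  have h3 := om_skew (G *ᵥ a) b
  linear_combination h2 - h3

lemma bracket_ZZ {h : Mt p n} (hh : st h = -h) (a b : Vc p n) :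
    h * ZZ a b - ZZ a b * h = ZZ (h *ᵥ a) b + ZZ a (h *ᵥ b) := by
  apply ext_mulVec
  intro x
  rw [sub_mulVec, add_mulVec, ← mulVec_mulVec, ← mulVec_mulVec, ZZ_mulVec, ZZ_mulVec, ZZ_mulVec,
    ZZ_mulVec, mulVec_add, mulVec_smul, mulVec_smul, (st_iff.1 hh) a x, (st_iff.1 hh) b x]
  module

lemma ZZ_add_left (a a' b : Vc p n) : ZZ (a + a') b = ZZ a b + ZZ a' b := by
  apply ext_mulVec; intro x
  rw [add_mulVec, ZZ_mulVec, ZZ_mulVec, ZZ_mulVec, om_add_left]; module

lemma ZZ_smul_left (c : ℚ_[p]) (a b : Vc p n) : ZZ (c • a) b = c • ZZ a b := by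
  apply ext_mulVec; intro x
  rw [smul_mulVec, ZZ_mulVec, ZZ_mulVec, om_smul_left]; module

/-- as a linear map -/
noncomputable def ZZl (b : Vc p n) : Vc p n →ₗ[ℚ_[p]] Mt p n where
  toFun a := ZZ a b
  map_add' x y := ZZ_add_left x y b
  map_smul' c x := ZZ_smul_left c x b

/-- the operator of a matrix -/
noncomputable abbrev op (m : Mt p n) : Module.End ℚ_[p] (Vc p n) := Matrix.mulVecLin m

lemma ZZ_mem_gr {h : Mt p n} (hh : st h = -h) {a b : Vc p n} {i j : ℤ}
    (ha : a ∈ Module.End.eigenspace (op h) (i : ℚ_[p]))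
    (hb : b ∈ Module.End.eigenspace (op h) (j : ℚ_[p])) : ZZ a b ∈ gr h (i + j) := by
  rw [Module.End.mem_eigenspace_iff] at ha hb
  change h *ᵥ a = _ at ha
  change h *ᵥ b = _ at hb
  refine ⟨mem_spLie_iff.2 (st_ZZ a b), ?_⟩
  rw [bracket_ZZ hh, ha, hb, ZZ_smul_left, ZZ_comm a ((j : ℚ_[p]) • b), ZZ_smul_left, ZZ_comm b a]
  push_cast
  module

/-- the sum of the `gr h k` for `k ≥ j` -/
noncomputable def grge (h : Mt p n) (j : ℤ) : Submodule ℚ_[p] (Mt p n) :=
  ⨆ i : ℤ, ⨆ (_ : j ≤ i), gr h i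

lemma gr_le_grge (h : Mt p n) {i j : ℤ} (hij : j ≤ i) : gr h i ≤ grge h j :=
  le_iSup₂_of_le i hij le_rfl

lemma grge_anti (h : Mt p n) {i j : ℤ} (hij : i ≤ j) : grge h j ≤ grge h i :=
  iSup₂_le fun k hk => gr_le_grge h (hij.trans hk)

lemma ZZ_mem_grge {h : Mt p n} (hh : st h = -h) {a b : Vc p n} {i j : ℤ}
    (ha : a ∈ Fge (op h) i) (hb : b ∈ Fge (op h) j) : ZZ a b ∈ grge h (i + j) := by
  have h1 : ∀ b' : Vc p n, ∀ j' : ℤ, j ≤ j' → b' ∈ Module.End.eigenspace (op h) (j' : ℚ_[p]) →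
      ZZ a b' ∈ grge h (i + j) := by
    intro b' j' hj' hb'
    have : Fge (op h) i ≤ (grge h (i + j)).comap (ZZl b') := by
      refine iSup₂_le fun i' hi' => ?_
      intro a' ha'
      exact gr_le_grge h (by omega) (ZZ_mem_gr hh ha' hb')
    exact this ha
  have : Fge (op h) j ≤ (grge h (i + j)).comap (ZZl a) := by
    refine iSup₂_le fun j' hj' => ?_
    intro b' hb'
    change ZZ b' a ∈ grge h (i + j)
    rw [ZZ_comm]
    exact h1 b' j' hj' hb'
  have h2 : ZZ b a ∈ grge h (i + j) := this hb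
  rwa [ZZ_comm] at h2

/-- orthogonality of the weight filtration -/
lemma om_Fge {h : Mt p n} (hh : st h = -h) {a b : Vc p n} {i j : ℤ} (hij : 1 ≤ i + j)
    (ha : a ∈ Fge (op h) i) (hb : b ∈ Fge (op h) j) : om a b = 0 := by
  let L : Vc p n → (Vc p n →ₗ[ℚ_[p]] ℚ_[p]) := fun b =>
    { toFun := fun a => om a b
      map_add' := fun x y => om_add_left x y b
      map_smul' := fun c x => om_smul_left c x b }
  have h1 : ∀ b' : Vc p n, ∀ j' : ℤ, j ≤ j' → b' ∈ Module.End.eigenspace (op h) (j' : ℚ_[p]) →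
      om a b' = 0 := by
    intro b' j' hj' hb'
    have : Fge (op h) i ≤ LinearMap.ker (L b') := by
      refine iSup₂_le fun i' hi' => ?_
      intro a' ha'
      rw [Module.End.mem_eigenspace_iff] at ha' hb'
      change h *ᵥ a' = _ at ha'
      change h *ᵥ b' = _ at hb'
      have h2 := (st_iff.1 hh) a' b'
      rw [ha', hb', om_smul_left, om_smul_right] at h2
      have h3 : ((i' + j' : ℤ) : ℚ_[p]) * om a' b' = 0 := by
        push_cast
        linear_combination h2
      have h4 : ((i' + j' : ℤ) : ℚ_[p]) ≠ 0 := by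
        rw [Int.cast_ne_zero]; omega
      exact (mul_eq_zero.1 h3).resolve_left h4
    exact this ha
  have : Fge (op h) j ≤ LinearMap.ker (L a) := by
    refine iSup₂_le fun j' hj' => ?_
    intro b' hb'
    change om b' a = 0
    rw [om_skew, h1 b' j' hj' hb', neg_zero]
  have h2 : om b a = 0 := this hb
  rw [om_skew, h2, neg_zero]

/-- level of the square-zero elements -/
lemma bd_ZZ {a b : Vc p n} {s t : ℤ} (ha : VB s a) (hb : VB t b) : Bd (s + t + 1) (ZZ a b) := by
  have h1 : ∀ (a b : Vc p n) (s t : ℤ), VB s a → VB t b →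
      Bd (s + t + 1) (vecMulVec a b * J (Fin n) ℚ_[p]) := by
    intro a b s t ha hb i j
    have e : ∀ j, ‖(vecMulVec a b * J (Fin n) ℚ_[p]) i j‖ ≤ ‖a i‖ * sq p ^ (t + 1 - dd j) := by
      intro j
      rcases j with j | j
      · have : (vecMulVec a b * J (Fin n) ℚ_[p]) i (Sum.inl j) = a i * b (Sum.inr j) := by
          rw [Matrix.mul_apply, Fintype.sum_sum_type]
          simp [J, vecMulVec_apply, Matrix.one_apply]
        rw [this, norm_mul]
        refine mul_le_mul_of_nonneg_left ((hb _).trans (sq_zpow_le (by simp))) (norm_nonneg _)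
      · have : (vecMulVec a b * J (Fin n) ℚ_[p]) i (Sum.inr j) = -(a i * b (Sum.inl j)) := by
          rw [Matrix.mul_apply, Fintype.sum_sum_type]
          simp [J, vecMulVec_apply, Matrix.one_apply]
        rw [this, norm_neg, norm_mul]
        refine mul_le_mul_of_nonneg_left ((hb _).trans (sq_zpow_le (by simp))) (norm_nonneg _)
    refine (e j).trans ?_
    refine (mul_le_mul_of_nonneg_right (ha i) (sq_zpow_pos p _).le).trans ?_
    rw [← zpow_add₀ (sq_ne p)]
    exact sq_zpow_le (by omega)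
  unfold ZZ
  rw [Matrix.add_mul]
  refine (h1 a b s t ha hb).add ?_
  have := h1 b a t s hb ha
  rwa [show t + s + 1 = s + t + 1 by ring] at this

end Run7.h697
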